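import Pool.Agent.Y174.Defs

/-! Pairs `(V, Δ)`, twisted tensors, pull-backs of 1-forms: definitions. -/

set_option autoImplicit false
set_option linter.overlappingInstances false
set_option linter.unusedSectionVars false

universe u v

open FF Pool.Agent.W619.PQ Pool.Agent.W619.TW

namespace Pool.Agent.Y174

section

variable {k : Type v} {K : Type u} [Field k] [Field K] [Algebra k K]

/-- The tensor `a (α 0 ∧ ... ∧ α (d - 1)) ^ m` is a section of `(Ω ^ d) ^ ⊗ m` twisted by
`m Δ`, where `Δ` is the divisor with the multiplicities `δ v`: along each prime divisor `v` over the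
variety of dimension `n` its values on vector fields which are regular along `v` are zero or of
order at least `- m δ v`. -/
def TensorReg (n m : ℕ) (δ : Place k K → ℝ) {d : ℕ} (α : Fin d → Derivation k K K →ₗ[K] K)
    (a : K) : Prop :=
  ∀ v : Place k K, IsDivisorial v n → ∀ D : Fin d → Derivation k K K,
    (∀ j f, v.Reg f → v.Reg (D j f)) →
      a * (Matrix.of fun i j => α i (D j)).det ^ m = 0 ∨
        -(m * δ v) ≤ (v.ord (a * (Matrix.of fun i j => α i (D j)).det ^ m) : ℝ)

variable (k K)

/-- `ω` is a section of `m (K_V + Δ) + j A`, where `Δ` has the multiplicity `δ v` along the prime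
divisor `v` over the variety `V` of dimension `n`, and `A` is the divisor generated by the finite
set `S` of functions: `ω` is an `m`-fold pluricanonical form, and its values on the vector fields
which are regular along `v` are zero or of order at least `j v(s) - m δ v`, for some nonzero `s` in
`S`. -/
def PairSec (n : ℕ) (δ : Place k K → ℝ) (S : Finset K) (m j : ℕ)
    (ω : (Fin n → Derivation k K K) → K) : Prop :=
  IsPluriForm k K n m ω ∧ ∀ v : Place k K, IsDivisorial v n → ∀ D : Fin n → Derivation k K K,
    (∀ l, ∀ f, v.Reg f → v.Reg (D l f)) →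
      ω D = 0 ∨ ∃ s ∈ S, s ≠ 0 ∧ (j : ℝ) * v.ord s - m * δ v ≤ v.ord (ω D)

/-- `κ (K_V + Δ) ≥ h`: for some `m ≥ 1` there are `h + 1` sections of `m (K_V + Δ)` with
algebraically independent ratios. -/
def PairKod (n : ℕ) (δ : Place k K → ℝ) (h : ℕ) : Prop :=
  ∃ m : ℕ, 1 ≤ m ∧ ∃ ω : Fin (h + 1) → (Fin n → Derivation k K K) → K,
    (∀ l, PairSec k K n δ {1} m 0 (ω l)) ∧
    ∃ D, (∀ l, ω l D ≠ 0) ∧ AlgebraicIndependent k (fun l : Fin h => ω l.succ D / ω 0 D)

/-- `ν (K_V + Δ) ≤ h`: for every divisor `A` (generated by a finite set `S` of functions) there is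
a constant `C` with `h⁰ (m (K_V + Δ) + A) ≤ C m ^ h` for all `m ≥ 1`. -/
def PairNum (n : ℕ) (δ : Place k K → ℝ) (h : ℕ) : Prop :=
  ∀ S : Finset K, ∃ C : ℕ, ∀ m N : ℕ, 1 ≤ m →
    HasIndep k K n N (PairSec k K n δ S m 1) → N ≤ C * m ^ h

end

section

variable {k : Type v} {K L : Type u} [Field k] [Field K] [Field L] [Algebra k K] [Algebra k L]
  [Algebra K L]

/-- The place `w` of `L` lies over the place `v` of `K`, with ramification index `e`. -/
def LiesOn (w : Place k L) (v : Place k K) (e : ℕ) : Prop :=
  0 < e ∧ ∀ f : K, w.ord (algebraMap K L f) = e * v.ord f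

/-- The divisor `Δ_Z` with multiplicities `δ'` on the finite cover `Z` of `V` is the positive part
of the divisor `Δ'` with `K_Z + Δ' = π^* (K_V + Δ)`: if `w` lies over `v` with ramification index
`e`, then `δ' w = max 0 (1 - e (1 - δ v))`. -/
def IsPull (δ : Place k K → ℝ) (δ' : Place k L → ℝ) : Prop :=
  ∀ (v : Place k K) (w : Place k L) (e : ℕ), LiesOn w v e → δ' w = max 0 (1 - e * (1 - δ v))

/-- `α'` is the pull-back of the 1-form `α`: if the vector field `D'` on the cover is the lift of the
vector field `D`, then `α' D' = α D`. -/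
def IsPullForm (α : Derivation k K K →ₗ[K] K) (α' : Derivation k L L →ₗ[L] L) : Prop :=
  ∀ (D : Derivation k K K) (D' : Derivation k L L),
    (∀ f : K, D' (algebraMap K L f) = algebraMap K L (D f)) → α' D' = algebraMap K L (α D)

end

end Pool.Agent.Y174
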