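import Pool.Agent.Y174.B3
import Pool.Agent.W619.Y.LogP

/-! Pairs: descent of sections. -/

set_option autoImplicit false
set_option linter.overlappingInstances false
set_option linter.unusedSectionVars false

universe u v

open FF IntermediateField Pool.Agent.W619.PQ Pool.Agent.W619.PL Pool.Agent.W619.TW
  Pool.Agent.W603.LV Pool.Agent.W619.Y Pool.Agent.W672.PG Pool.Agent.W824.PG

namespace Pool.Agent.Y174

theorem pLOG : S_LOG.{u, v} := Pool.Agent.W619.Y.LogP.main pPRES

section

variable {k : Type v} {L : Type u} [Field k] [CharZero k] [Field L] [Algebra k L]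

theorem GeR.of_mul {w : Place k L} {c : ℝ} {x z : L} (h : GeR w c (x * z)) (hx : x ≠ 0) :
    GeR w (c - w.ord x) z := by
  by_cases hz : z = 0
  · exact Or.inl hz
  · right
    have h1 := h.resolve_left (mul_ne_zero hx hz)
    rw [w.ord_mul hx hz] at h1
    push_cast at h1
    linarith

theorem GeR.sum {w : Place k L} {ι : Type*} (s : Finset ι) (c : ℝ) (f : ι → L)
    (h : ∀ i ∈ s, GeR w c (f i)) : GeR w c (∑ i ∈ s, f i) := by
  have h1 : ∀ f : L, GeR w c f ↔ Ge w ⌈c⌉ f := by
    intro f
    constructor
    · rintro (h | h)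
      · exact Or.inl h
      · exact Or.inr (Int.ceil_le.2 h)
    · rintro (h | h)
      · exact Or.inl h
      · exact Or.inr (Int.ceil_le.1 h)
  rw [h1]
  exact Ge.sum _ _ fun i hi => (h1 _).1 (h i hi)

theorem GeR.comp {w : Place k L} {g : L ≃ₐ[k] L} {c : ℝ} {z : L} :
    GeR (w.comp g) c z ↔ GeR w c (g z) := by
  unfold GeR
  rw [Place.comp_ord, map_eq_zero_iff _ g.injective]

/-- lifts of logarithmic vector fields are logarithmic -/
theorem log_lift {K : Type u} [Field K] [Algebra k K] [Algebra K L] [IsScalarTower k K L]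
    [FiniteDimensional K L] {v : Place k K} {w : Place k L} {e : ℕ} (hwv : Over w v e)
    {t : K} (ht0 : t ≠ 0) (ht : v.ord t = 1) {Fq : Derivation k K K} (hFq : Pres v Fq)
    (hlog : v.Reg (Fq t / t)) {F' : Derivation k L L}
    (hF' : ∀ f : K, F' (algebraMap K L f) = algebraMap K L (Fq f)) :
    Pres w F' ∧ ∀ z, w.Reg (F' z / z) := by
  have h1 : ∀ x : K, w.Reg (F' (algebraMap K L x) / algebraMap K L x) := by
    intro x
    rw [hF', ← map_div₀]
    exact hwv.reg.2 (log_of_pres v Fq hFq ht0 ht hlog x)
  refine ⟨fun z hz => ?_, fun z => pLOG k K L v w e hwv F' h1 z⟩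
  refine pPRES k K L v w e hwv F' (fun x hx => ?_) (Or.inr fun x _ => h1 x) z hz
  rw [hF']
  exact hwv.reg.2 (hFq x hx)

/-- values of a form on logarithmic vector fields -/
theorem ge_log {n m : ℕ} (hn : Algebra.trdeg k L = n) (hess : Algebra.EssFiniteType k L)
    {w : Place k L} (hw : IsDivisorial w n) (s : (Fin n → Derivation k L L) → L)
    (hs : IsPluriForm k L n m s) {c : ℝ}
    (hr : ∀ D : Fin n → Derivation k L L, (∀ j, Pres w (D j)) → GeR w c (s D))
    (D : Fin n → Derivation k L L) (hD : ∀ j, Pres w (D j)) (hl : ∀ j z, w.Reg (D j z / z)) :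
    GeR w (m + c) (s D) := by
  classical
  obtain ⟨y, F, i0, hy, hF, ht, hyr, hpres⟩ := pFRAME k L n hn
    (fun y hy => fin_adj hess y hy) w hw
  have ht0 : y i0 ≠ 0 := by
    intro h0
    rw [h0, w.ord_zero] at ht
    exact zero_ne_one ht
  rw [Pool.Agent.W636.PG.form_eq k L n m y hy F hF s hs D]
  have h1 : Ge w 1 (Matrix.of fun i j => D i (y j)).det := by
    rw [← Matrix.det_transpose]
    refine ge_det_row w _ (fun i j => ?_) i0 fun j => ?_
    · rw [Matrix.transpose_apply, Matrix.of_apply]
      exact hD j _ (hyr i)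
    · rw [Matrix.transpose_apply, Matrix.of_apply]
      have h2 : Ge w 0 (D j (y i0) / y i0) := hl j (y i0)
      have h3 : Ge w 1 (y i0) := Or.inr ht.ge
      have h4 := h2.mul h3
      rw [div_mul_cancel₀ _ ht0] at h4
      simpa using h4
  have h2 := (Ge.toR (h1.pow m)).mul (hr F hpres)
  refine h2.mono ?_
  push_cast
  linarith

/-- The local estimate for the descent of sections. -/
theorem ge_formR {K : IntermediateField k L} [FiniteDimensional K L] {n m : ℕ}
    (hn : Algebra.trdeg k L = n) (hess : Algebra.EssFiniteType k L)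
    (hnK : Algebra.trdeg k K = n) (hessK : Algebra.EssFiniteType k K) {w : Place k L}
    {v : Place k K} {e : ℕ} (hwv : Over w v e) (hv : IsDivisorial v n)
    (s : (Fin n → Derivation k L L) → L) (hs : IsPluriForm k L n m s) {c : ℝ}
    (hr : ∀ D : Fin n → Derivation k L L, (∀ j, Pres w (D j)) → GeR w c (s D))
    (ext : Derivation k K K → Derivation k L L)
    (hext : ∀ D (f : K), ext D (algebraMap K L f) = algebraMap K L (D f))
    (hext2 : ∀ D (D'' : Derivation k L L), (∀ f : K, D'' (algebraMap K L f) =
      algebraMap K L (D f)) → D'' = ext D)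
    (D : Fin n → Derivation k K K) (hD : ∀ j, Pres v (D j)) :
    GeR w (m * (1 - e) + c) (s (fun j => ext (D j))) := by
  classical
  have hw : IsDivisorial w n := divisorial_up hwv hv
  obtain ⟨y, F, i0, hy, hF, ht, hyr, hpres⟩ := pFRAME k K n hnK
    (fun y hy => fin_adj hessK y hy) v hv
  have ht0 : y i0 ≠ 0 := by
    intro h0
    rw [h0, v.ord_zero] at ht
    exact zero_ne_one ht
  have ht0' : algebraMap K L (y i0) ≠ 0 := by simpa using ht0
  -- the logarithmic frame
  let Fq : Fin n → Derivation k K K := fun j => if j = i0 then y i0 • F j else F j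
  have hFq : ∀ j, Pres v (Fq j) := by
    intro j f hf
    by_cases hj : j = i0
    · simp only [Fq, hj, if_true]
      exact v.reg_mul (Or.inr (by omega)) (hpres _ f hf)
    · simp only [Fq, hj, if_false]
      exact hpres j f hf
  have hFqt : ∀ j, v.Reg (Fq j (y i0) / y i0) := by
    intro j
    by_cases hj : j = i0
    · simp only [Fq, hj, if_true]
      change v.Reg (y i0 * F i0 (y i0) / y i0)
      rw [mul_div_cancel_left₀ _ ht0]
      exact hpres _ _ (Or.inr (by omega))
    · simp only [Fq, hj, if_false]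
      rw [hF, if_neg hj, zero_div]
      exact Or.inl rfl
  have h1 : GeR w (m + c) (s (fun j => ext (Fq j))) :=
    ge_log hn hess hw s hs hr _ (fun j => (log_lift hwv ht0 ht (hFq j) (hFqt j) (hext _)).1)
      (fun j z => (log_lift hwv ht0 ht (hFq j) (hFqt j) (hext _)).2 z)
  have hmat : ∀ (X : Matrix (Fin n) (Fin n) K) (D : Fin n → Derivation k K K),
      s (fun j => ext (∑ l, X j l • D l)) =
        (algebraMap K L X.det) ^ m * s (fun j => ext (D j)) := by
    intro X D
    have e1 : (fun j => ext (∑ l, X j l • D l)) = fun j => ∑ l,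
        (X.map (algebraMap K L)) j l • ext (D l) := by
      funext j
      symm
      apply hext2
      intro f
      rw [Pool.Agent.W721.PG.EFF2.der_sum, Pool.Agent.W721.PG.EFF2.der_sum, map_sum]
      refine Finset.sum_congr rfl fun l _ => ?_
      rw [hext, map_mul]
      rfl
    have e3 : (X.map (algebraMap K L)).det = algebraMap K L X.det := by
      rw [RingHom.map_det]
      rfl
    rw [e1, hs, e3]
  have h2 : s (fun j => ext (Fq j)) = (algebraMap K L (y i0)) ^ m * s (fun j => ext (F j)) := by
    have h3 := hmat (Matrix.diagonal fun j => if j = i0 then y i0 else 1) F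
    have h4 : (fun j => ext (∑ l, (Matrix.diagonal fun j : Fin n =>
        if j = i0 then y i0 else (1 : K)) j l • F l)) = fun j => ext (Fq j) := by
      funext j
      congr 1
      rw [Finset.sum_eq_single j]
      · rw [Matrix.diagonal_apply_eq]
        by_cases hj : j = i0
        · simp only [Fq, hj, if_true]
        · simp only [Fq, hj, if_false, one_smul]
      · intro b _ hb
        rw [Matrix.diagonal_apply_ne _ (Ne.symm hb), zero_smul]
      · intro hi
        exact absurd (Finset.mem_univ j) hi
    rw [h4, Matrix.det_diagonal, Finset.prod_ite_eq' Finset.univ i0, if_pos (Finset.mem_univ _)]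
      at h3
    exact h3
  rw [h2] at h1
  have h3 := h1.of_mul (pow_ne_zero m ht0')
  rw [w.ord_pow, hwv.2, ht] at h3
  have h4 : (fun j => ext (D j)) = fun j => ext (∑ l, (Matrix.of fun a b => D a (y b)) j l •
      F l) := by
    funext j
    congr 1
    exact (Pool.Agent.W73.PG.PULL.expand y hy F hF (D j)).symm
  rw [h4, hmat]
  have h5 : Ge w 0 (algebraMap K L (Matrix.of fun a b => D a (y b)).det) := by
    refine hwv.reg.2 ?_
    exact ge_det v _ fun a b => hD a _ (hyr b)
  refine ((Ge.toR (h5.pow m)).mul h3).mono ?_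
  push_cast
  linarith

/-- Descent of sections of pairs. -/
theorem pair_desc {n A : ℕ} (hn : Algebra.trdeg k L = n) (hessL : Algebra.EssFiniteType k L)
    (G : Subgroup (L ≃ₐ[k] L)) [Finite G] (δ : Place k (fixedField G) → ℝ)
    (δ' : Place k L → ℝ) (hδ : ∀ v, IsDivisorial v n → 0 ≤ δ v) (hδ' : IsPull δ δ') (N : ℕ)
    (Θ : (Fin n → Derivation k (fixedField G) (fixedField G)) → fixedField G)
    (hΘ : IsPluriForm k (fixedField G) n N Θ)
    (hΘr : ∀ v : Place k (fixedField G), IsDivisorial v n →
      ∀ D : Fin n → Derivation k (fixedField G) (fixedField G), (∀ j, Pres v (D j)) →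
        GeR v (-(N * δ v)) (Θ D))
    (hΘ0 : ∃ D, Θ D ≠ 0)
    (hΘv : ∀ (v : Place k (fixedField G)) (w : Place k L) (e : ℕ), IsDivisorial v n → Over w v e →
      1 < e * (1 - δ v) → (∃ I : Subgroup G, Nat.card I = e ∧ ∀ g ∈ I, Inert w (g : L ≃ₐ[k] L)) →
      ∀ D : Fin n → Derivation k (fixedField G) (fixedField G), (∀ j, Pres v (D j)) →
        GeR w (e * (-(N * δ v)) + 1) (algebraMap (fixedField G) L (Θ D)))
    (hL : PairKod k L n δ' A) : PairKod k (fixedField G) n δ A := by
  classical
  have halgK := Pool.Agent.W721.PG.EFF2.alg_fixed G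
  have hfin := fixed_finite G
  have := Fintype.ofFinite G
  obtain ⟨m, hm, ω, hω, DL, hDL0, hDLi⟩ := hL
  obtain ⟨hnK, z, hz⟩ := Pool.Agent.W721.PG.EFF2.exists_basis (fixedField G) n hn
  have hessK : Algebra.EssFiniteType k (fixedField G) := ess_down hessL z hz
  choose ext hext hext2 hext3 using pEXT k (fixedField G) L n hnK
  have hfix : ∀ (g : G) (f : fixedField G), (g : L ≃ₐ[k] L) (algebraMap (fixedField G) L f) =
      algebraMap (fixedField G) L f := fun g f => f.2 g
  let M : ℕ := m * Fintype.card G
  -- the frame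
  obtain ⟨E, hE⟩ := Pool.Agent.W636.PG.exists_duals k (fixedField G) n z hz
  have hzL : IsTranscendenceBasis k (algebraMap (fixedField G) L ∘ z) := hz.algebraMap_comp
  have hE' : ∀ i j, ext (E i) ((algebraMap (fixedField G) L ∘ z) j) = if i = j then 1 else 0 := by
    intro i j
    rw [Function.comp_apply, hext, hE]
    split_ifs <;> simp
  have hval : ∀ l, ω l DL = (Matrix.of fun i j => DL i ((algebraMap (fixedField G) L ∘ z) j)).det ^ m
      * ω l (fun j => ext (E j)) := fun l =>
    Pool.Agent.W636.PG.form_eq k L n m _ hzL _ hE' (ω l) (hω l).1 DL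
  have hdet0 : (Matrix.of fun i j => DL i ((algebraMap (fixedField G) L ∘ z) j)).det ^ m ≠ 0 := by
    intro h0
    apply hDL0 0
    rw [hval, h0, zero_mul]
  have hωE0 : ∀ l, ω l (fun j => ext (E j)) ≠ 0 := by
    intro l h0
    apply hDL0 l
    rw [hval, h0, mul_zero]
  have hΘE : Θ E ≠ 0 := by
    obtain ⟨D, hD⟩ := hΘ0
    intro h0
    apply hD
    rw [Pool.Agent.W636.PG.form_eq k (fixedField G) n N z hz E hE Θ hΘ D, h0, mul_zero]
  have hΘEL : algebraMap (fixedField G) L (Θ E) ≠ 0 := by simpa using hΘE
  -- the functions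
  let V : (Fin n → Derivation k (fixedField G) (fixedField G)) → Fin (A + 1) → L :=
    fun D l => ω l (fun j => ext (D j)) * (algebraMap (fixedField G) L (Θ D)) ^ M
  have hV0 : ∀ l, V E l ≠ 0 := fun l => mul_ne_zero (hωE0 l) (pow_ne_zero _ hΘEL)
  have hVi : AlgebraicIndependent k (fun l : Fin A => V E l.succ / V E 0) := by
    have e1 : (fun l : Fin A => V E l.succ / V E 0) = fun l : Fin A => ω l.succ DL / ω 0 DL := by
      funext l
      rw [hval, hval]
      change ω l.succ _ * _ / (ω 0 _ * _) = _
      rw [mul_div_mul_right _ _ (pow_ne_zero _ hΘEL), mul_div_mul_left _ _ hdet0]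
    rw [e1]
    exact hDLi
  have hVlin : ∀ (X : Matrix (Fin n) (Fin n) (fixedField G))
      (D : Fin n → Derivation k (fixedField G) (fixedField G)) l,
      V (fun i => ∑ j, X i j • D j) l =
        V D l * (algebraMap (fixedField G) L X.det) ^ (m + N * M) := by
    intro X D l
    have e1 : (fun j => ext (∑ l, X j l • D l)) = fun j => ∑ l,
        (X.map (algebraMap (fixedField G) L)) j l • ext (D l) := by
      funext j
      symm
      apply hext2
      intro f
      rw [Pool.Agent.W721.PG.EFF2.der_sum, Pool.Agent.W721.PG.EFF2.der_sum, map_sum]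
      refine Finset.sum_congr rfl fun l _ => ?_
      rw [hext, map_mul]
      rfl
    have e3 : (X.map (algebraMap (fixedField G) L)).det = algebraMap (fixedField G) L X.det := by
      rw [RingHom.map_det]
      rfl
    change ω l (fun j => ext (∑ l, X j l • D l)) *
      (algebraMap (fixedField G) L (Θ (fun i => ∑ j, X i j • D j))) ^ M = _
    rw [e1, (hω l).1, hΘ, e3, map_mul, map_pow]
    change _ = ω l (fun j => ext (D j)) * (algebraMap (fixedField G) L (Θ D)) ^ M * _
    rw [pow_add, mul_pow, ← pow_mul]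
    ring
  -- symmetric functions
  obtain ⟨R, t, r, q, hR, hrq, hs0, hsi⟩ := Pool.Agent.W513.PG.main k L G 1 A
    (fun g l => (g : L ≃ₐ[k] L) (V E l)) (fun l => by
      change V E l ≠ 0
      exact hV0 l) (by
      have e1 : (fun l : Fin A => ((1 : G) : L ≃ₐ[k] L) (V E l.succ) /
          ((1 : G) : L ≃ₐ[k] L) (V E 0)) = fun l : Fin A => V E l.succ / V E 0 := rfl
      rw [e1]
      exact hVi)
  let s : (Fin n → Derivation k (fixedField G) (fixedField G)) → Fin (A + 1) → L :=
    fun D j => esy (fun g : G => (g : L ≃ₐ[k] L) (V D (t j))) (r j) ^ q j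
  have hsG : ∀ D j (g : G), (g : L ≃ₐ[k] L) (s D j) = s D j := by
    intro D j g
    change (g : L ≃ₐ[k] L) (esy (fun g : G => (g : L ≃ₐ[k] L) (V D (t j))) (r j) ^ q j) = _
    rw [map_pow]
    congr 1
    exact esy_inv _ (g : L ≃ₐ[k] L) (Equiv.mulLeft g) (fun i => rfl) _
  have hsA : ∀ (X : Matrix (Fin n) (Fin n) (fixedField G))
      (D : Fin n → Derivation k (fixedField G) (fixedField G)) j,
      s (fun i => ∑ j, X i j • D j) j =
        (algebraMap (fixedField G) L X.det) ^ ((m + N * M) * R) * s D j := by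
    intro X D j
    have e1 : (fun g : G => (g : L ≃ₐ[k] L) (V (fun i => ∑ j, X i j • D j) (t j))) =
        fun g : G => (g : L ≃ₐ[k] L) (V D (t j)) *
          (algebraMap (fixedField G) L X.det) ^ (m + N * M) := by
      funext g
      rw [hVlin, map_mul, map_pow, hfix]
    change esy (fun g : G => (g : L ≃ₐ[k] L) (V (fun i => ∑ j, X i j • D j) (t j))) (r j) ^ q j =
      (algebraMap (fixedField G) L X.det) ^ ((m + N * M) * R) *
        esy (fun g : G => (g : L ≃ₐ[k] L) (V D (t j))) (r j) ^ q j
    rw [e1, esy_mul, mul_pow, ← pow_mul, ← pow_mul, hrq j]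
  refine ⟨(m + N * M) * R, Nat.mul_pos (by omega) hR, fun j D => ⟨s D j, fun g => hsG D j g⟩,
    fun l => ⟨?_, ?_⟩, E, fun l h0 => ?_, ?_⟩
  · intro X D
    apply Subtype.ext
    change s (fun i => ∑ j, X i j • D j) l =
      algebraMap (fixedField G) L (X.det ^ ((m + N * M) * R) * ⟨s D l, fun g => hsG D l g⟩)
    rw [hsA, map_mul, map_pow]
    rfl
  · intro v hv D hD
    obtain ⟨w, e, I, hwv, hcard, hI⟩ := exists_inertia G v
    have he0 : 0 < e := hwv.1
    have heG : (e : ℝ) ≤ Fintype.card G := by
      have h1 : Nat.card I ≤ Nat.card G := Nat.card_le_card_of_injective _ I.subtype_injective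
      rw [hcard, Nat.card_eq_fintype_card] at h1
      exact_mod_cast h1
    have hVreg : ∀ l (g : G), GeR w (-((m + N * M : ℕ) * (e * δ v)))
        ((g : L ≃ₐ[k] L) (V D l)) := by
      intro l g
      rw [← GeR.comp]
      have hov := over_comp hwv (g : L ≃ₐ[k] L) (fun z => z.2 g)
      have hdv := divisorial_up hov hv
      have hdel := hδ' v (w.comp (g : L ≃ₐ[k] L)) e hov
      have hreg : ∀ D' : Fin n → Derivation k L L, (∀ j, Pres (w.comp (g : L ≃ₐ[k] L)) (D' j)) →
          GeR (w.comp (g : L ≃ₐ[k] L)) (-(m * δ' (w.comp (g : L ≃ₐ[k] L)))) (ω l D') := by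
        intro D' hD'
        rcases (hω l).2 _ hdv D' hD' with h | ⟨s', hs', hs0', hle⟩
        · exact Or.inl h
        · refine Or.inr ?_
          simpa using hle
      have h1 := ge_formR hn hessL hnK hessK hov hv (ω l) (hω l).1 hreg ext
        (fun D f => hext D f) (fun D D'' h => hext2 D D'' h) D hD
      by_cases hcase : (e : ℝ) * (1 - δ v) ≤ 1
      · rw [max_eq_right (by linarith)] at hdel
        have h2 : GeR (w.comp (g : L ≃ₐ[k] L)) (e * (-(N * δ v)))
            (algebraMap (fixedField G) L (Θ D)) := (hΘr v hv D hD).up hov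
        have h5 := h1.mul (h2.pow M)
        refine h5.mono ?_
        rw [hdel]
        push_cast
        apply le_of_eq
        ring
      · push Not at hcase
        rw [max_eq_left (by linarith)] at hdel
        have h2 := hΘv v w e hv hwv hcase ⟨I, hcard, hI⟩ D hD
        have h3 : GeR (w.comp (g : L ≃ₐ[k] L)) (e * (-(N * δ v)) + 1)
            (algebraMap (fixedField G) L (Θ D)) := by
          rcases h2 with h2 | h2
          · exact Or.inl h2
          · right
            rw [hov.2, ← hwv.2]
            exact h2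
        have h4 := h1.mul (h3.pow M)
        refine h4.mono ?_
        rw [hdel]
        have h6 : (m : ℝ) * e ≤ M := by
          change (m : ℝ) * e ≤ ((m * Fintype.card G : ℕ) : ℝ)
          push_cast
          exact mul_le_mul_of_nonneg_left heG (Nat.cast_nonneg m)
        have h7 : (0 : ℝ) ≤ m * (e * δ v) :=
          mul_nonneg (Nat.cast_nonneg m) (mul_nonneg (Nat.cast_nonneg e) (hδ v hv))
        push_cast
        have h8 : (0 : ℝ) ≤ m := Nat.cast_nonneg m
        nlinarith
    -- elementary symmetric functions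
    have hesy : GeR w (r l * (-((m + N * M : ℕ) * (e * δ v))))
        (esy (fun g : G => (g : L ≃ₐ[k] L) (V D (t l))) (r l)) := by
      unfold esy
      refine GeR.sum _ _ _ fun A hA => ?_
      have h1 := GeR.prod (w := w) A (-((m + N * M : ℕ) * (e * δ v)))
        (fun g : G => (g : L ≃ₐ[k] L) (V D (t l))) (fun g _ => hVreg (t l) g)
      have h2 : A.card = r l := (Finset.mem_powersetCard.1 hA).2
      rw [h2] at h1
      exact h1
    have h1 := hesy.pow (q l)
    have h2 : GeR v (-(((m + N * M) * R : ℕ) * δ v)) (⟨s D l, fun g => hsG D l g⟩ :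
        fixedField G) := by
      apply GeR.down hwv
      change GeR w _ (s D l)
      refine h1.mono ?_
      have h3 : ((q l : ℝ) * r l) = R := by
        have := hrq l
        rw [mul_comm] at this
        exact_mod_cast this
      have h4 : ((((m + N * M) * R : ℕ)) : ℝ) = ((m + N * M : ℕ) : ℝ) * (q l * r l) := by
        rw [h3]; push_cast; ring
      rw [h4]
      apply le_of_eq
      ring
    rcases h2 with h2 | h2
    · exact Or.inl h2
    · right
      refine ⟨1, by simp, one_ne_zero, ?_⟩
      simpa using h2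
  · exact pow_ne_zero _ (hs0 l) (congrArg Subtype.val h0)
  · have hsi' : AlgebraicIndependent k fun l : Fin A =>
        ((⟨s E l.succ, fun g => hsG E l.succ g⟩ / ⟨s E 0, fun g => hsG E 0 g⟩ :
          fixedField G) : L) := hsi
    exact (AlgHom.algebraicIndependent_iff (fixedField G).val (Subtype.val_injective)).1 hsi'

end

end Pool.Agent.Y174
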