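import Pool.Agent.Y174.B4

/-! Pairs: pull-back of sections. -/

set_option autoImplicit false
set_option linter.overlappingInstances false
set_option linter.unusedSectionVars false

universe u v

open FF IntermediateField Pool.Agent.W619.PQ Pool.Agent.W619.PL Pool.Agent.W619.TW
  Pool.Agent.W603.LV Pool.Agent.W619.Y Pool.Agent.W824.PG

namespace Pool.Agent.Y174

section

variable {k : Type v} [Field k] [CharZero k] {K L : Type u} [Field K] [Field L] [Algebra k K]
  [Algebra k L] [Algebra K L] [IsScalarTower k K L]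

/-- derivatives lose at most one order -/
theorem ge_der {w : Place k L} {D : Derivation k L L} (hD : Pres w D) {x : L} (hx : x ≠ 0) :
    Ge w (w.ord x - 1) (D x) := by
  obtain ⟨t, ht0, ht⟩ := w.surj
  have hts : t ^ (-(w.ord x)) ≠ 0 := zpow_ne_zero _ ht0
  have hu : w.ord (x * t ^ (-(w.ord x))) = 0 := by
    rw [w.ord_mul hx hts, w.ord_zpow, ht]
    ring
  have h2 := der_unit hD hu
  rw [dlog_mul D hx hts, dlog_zpow D ht0] at h2
  have h3 : Ge w (-1) (D t / t) := by
    have h4 : Ge w 0 (D t) := hD t (Or.inr (by omega))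
    have h5 : Ge w (-1) t⁻¹ := Or.inr (by rw [w.ord_inv, ht])
    have h6 := h4.mul h5
    rw [zero_add] at h6
    rw [div_eq_mul_inv]
    exact h6
  have h4 : Ge w (-1) (D x / x) := by
    have h5 : Ge w (-1) (((-(w.ord x) : ℤ) : L) * (D t / t)) := by
      simpa using (Ge.intCast (P := w) (-(w.ord x))).mul h3
    have h6 := (h2.mono (by omega : (-1 : ℤ) ≤ 0)).sub h5
    rwa [add_sub_cancel_right] at h6
  have h5 : Ge w (w.ord x) x := Or.inr le_rfl
  have h6 := h4.mul h5
  rw [div_mul_cancel₀ _ hx] at h6
  exact h6.mono (by omega)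

/-- Pull-back of sections of pairs. -/
theorem pair_pull [FiniteDimensional K L] [DecidableEq L] (hess : Algebra.EssFiniteType k K) {n : ℕ}
    (hn : Algebra.trdeg k K = n) {δ : Place k K → ℝ} {δ' : Place k L → ℝ} (hδ' : IsPull δ δ')
    {S : Finset K} {m j : ℕ} (y : Fin n → K) (E : Fin n → Derivation k K K)
    (hy : IsTranscendenceBasis k y) (hE : ∀ i j, E i (y j) = if i = j then 1 else 0)
    {ω : (Fin n → Derivation k K K) → K} (hω : PairSec k K n δ S m j ω) :
    PairSec k L n δ' (S.image (algebraMap K L)) m j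
      (fun D => (Matrix.of fun a b => D a (algebraMap K L (y b))).det ^ m *
        algebraMap K L (ω E)) := by
  refine ⟨?_, ?_⟩
  · intro A D
    have e : (Matrix.of fun a b => (∑ j, A a j • D j) (algebraMap K L (y b))) =
        A * Matrix.of fun a b => D a (algebraMap K L (y b)) := by
      ext a b
      rw [Matrix.of_apply, Matrix.mul_apply, Pool.Agent.W73.PG.PULL.sum_app]
      rfl
    show (Matrix.of fun a b => (∑ j, A a j • D j) (algebraMap K L (y b))).det ^ m * _ = _
    rw [e, Matrix.det_mul, mul_pow, mul_assoc]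
  · intro w hw D hD
    obtain ⟨e, v, hwv⟩ := Pool.Agent.W73.PG.PULL.exists_over' (K := K) w
    have hv := pDIVI k K L n v w e hwv hw
    obtain ⟨y', F, i0, hy', hF, ht, hyr, hpres⟩ := pFRAME k K n hn (fun y hy => fin_adj hess y hy)
      v hv
    have ht0 : y' i0 ≠ 0 := by
      intro h0
      rw [h0, v.ord_zero] at ht
      exact zero_ne_one ht
    have ht0' : algebraMap K L (y' i0) ≠ 0 := by simpa using ht0
    rw [show (fun D : Fin n → Derivation k L L => (Matrix.of fun a b =>
      D a (algebraMap K L (y b))).det ^ m * algebraMap K L (ω E)) D =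
      (Matrix.of fun a b => D a (algebraMap K L (y b))).det ^ m * algebraMap K L (ω E) from rfl,
      Pool.Agent.W73.PG.PULL.form_eq y y' hy hy' E F hE hF ω hω.1 D]
    have he0 : (0 : ℤ) < e := by exact_mod_cast hwv.1
    -- the determinant
    have h1 : Ge w (e - 1) (Matrix.of fun a c => D a (algebraMap K L (y' c))).det := by
      have h2 : (Matrix.of fun a c => D a (algebraMap K L (y' c))) =
          (Matrix.of fun a c => D a (algebraMap K L (y' c))).updateCol i0
            (algebraMap K L (y' i0) • fun a =>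
              (D a (algebraMap K L (y' i0)) / algebraMap K L (y' i0))) := by
        ext a c
        rw [Matrix.updateCol_apply]
        by_cases hc : c = i0
        · rw [if_pos hc, hc, Matrix.of_apply, Pi.smul_apply, smul_eq_mul,
            mul_div_cancel₀ _ ht0']
        · rw [if_neg hc]
      rw [h2, Matrix.det_updateCol_smul]
      have h3 : Ge w e (algebraMap K L (y' i0)) := Or.inr (by rw [hwv.2, ht, mul_one])
      obtain ⟨π, hπ0, hπ⟩ := w.surj
      have h4 : ((Matrix.of fun a c => D a (algebraMap K L (y' c))).updateCol i0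
          fun a => (D a (algebraMap K L (y' i0)) / algebraMap K L (y' i0))) =
          ((Matrix.of fun a c => D a (algebraMap K L (y' c))).updateCol i0
          (π⁻¹ • fun a => π * (D a (algebraMap K L (y' i0)) / algebraMap K L (y' i0)))) := by
        congr 1
        funext a
        rw [Pi.smul_apply, smul_eq_mul, inv_mul_cancel_left₀ hπ0]
      rw [h4, Matrix.det_updateCol_smul]
      have h5 : Ge w (-1) π⁻¹ := Or.inr (by rw [w.ord_inv, hπ])
      have h6 : Ge w 0 ((Matrix.of fun a c => D a (algebraMap K L (y' c))).updateCol i0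
          fun a => π * (D a (algebraMap K L (y' i0)) / algebraMap K L (y' i0))).det := by
        refine ge_det w _ fun a c => ?_
        rw [Matrix.updateCol_apply]
        by_cases hc : c = i0
        · rw [if_pos hc]
          have h7 := ge_der (hD a) ht0'
          have h8 : Ge w (-(w.ord (algebraMap K L (y' i0)))) (algebraMap K L (y' i0))⁻¹ :=
            Or.inr (by rw [w.ord_inv])
          have h9 := (h7.mul h8)
          rw [← div_eq_mul_inv] at h9
          have h10 : Ge w 1 π := Or.inr hπ.ge
          exact (h10.mul h9).mono (by omega)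
        · rw [if_neg hc]
          exact hD a _ (hwv.reg.2 (hyr c))
      exact (h3.mul (h5.mul h6)).mono (by omega)
    rcases hω.2 v hv F (fun l f hf => hpres l f hf) with h2 | ⟨s, hs, hs0, hle⟩
    · left
      rw [h2, map_zero, mul_zero]
    by_cases hX0 : (Matrix.of fun a c => D a (algebraMap K L (y' c))).det = 0
    · by_cases hm : m = 0
      · subst hm
        by_cases hF0 : ω F = 0
        · left; rw [hF0, map_zero, mul_zero]
        right
        refine ⟨algebraMap K L s, Finset.mem_image_of_mem _ hs, by simpa using hs0, ?_⟩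
        rw [pow_zero, one_mul, hwv.2, hwv.2]
        push_cast
        have h5 : (e : ℝ) * (j * v.ord s - (0 : ℕ) * δ v) ≤ e * v.ord (ω F) :=
          mul_le_mul_of_nonneg_left hle (Nat.cast_nonneg e)
        simp only [Nat.cast_zero, zero_mul, sub_zero] at h5 ⊢
        calc (j : ℝ) * (e * v.ord s) = e * (j * v.ord s) := by ring
          _ ≤ _ := h5
      · left; rw [hX0, zero_pow hm, zero_mul]
    by_cases hF0 : ω F = 0
    · left; rw [hF0, map_zero, mul_zero]
    right
    refine ⟨algebraMap K L s, Finset.mem_image_of_mem _ hs, by simpa using hs0, ?_⟩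
    have hord : (e : ℤ) - 1 ≤ w.ord (Matrix.of fun a c => D a (algebraMap K L (y' c))).det :=
      h1.resolve_left hX0
    have hord' : (e : ℝ) - 1 ≤
        (w.ord (Matrix.of fun a c => D a (algebraMap K L (y' c))).det : ℝ) := by
      exact_mod_cast hord
    rw [w.ord_mul (pow_ne_zero _ hX0) (by simpa using hF0), w.ord_pow, hwv.2, hwv.2]
    have hdel := hδ' v w e hwv
    have hdel2 : 1 - e * (1 - δ v) ≤ δ' w := by
      rw [hdel]
      exact le_max_right _ _
    have h5 : (e : ℝ) * (j * v.ord s - m * δ v) ≤ e * v.ord (ω F) :=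
      mul_le_mul_of_nonneg_left hle (Nat.cast_nonneg e)
    have h6 : (m : ℝ) * ((e : ℝ) - 1) ≤
        m * (w.ord (Matrix.of fun a c => D a (algebraMap K L (y' c))).det : ℝ) :=
      mul_le_mul_of_nonneg_left hord' (Nat.cast_nonneg m)
    have h7 : (m : ℝ) * (1 - e * (1 - δ v)) ≤ m * δ' w :=
      mul_le_mul_of_nonneg_left hdel2 (Nat.cast_nonneg m)
    push_cast
    nlinarith

/-- Pull-back of sections of pairs and Kodaira dimension. -/
theorem pair_up [FiniteDimensional K L] (hess : Algebra.EssFiniteType k K) {n A : ℕ}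
    (hn : Algebra.trdeg k K = n) {δ : Place k K → ℝ} {δ' : Place k L → ℝ} (hδ' : IsPull δ δ')
    (h : PairKod k K n δ A) : PairKod k L n δ' A := by
  classical
  obtain ⟨m, hm, ω, hω, D, hD0, hDi⟩ := h
  obtain ⟨y, hy⟩ := Pool.Agent.W636.PG.exists_basis k K n hn
  obtain ⟨E, hE⟩ := Pool.Agent.W636.PG.exists_duals k K n y hy
  have hyL : IsTranscendenceBasis k (algebraMap K L ∘ y) := hy.algebraMap_comp
  obtain ⟨E', hE'⟩ := Pool.Agent.W636.PG.exists_duals k L n _ hyL
  have hval : ∀ l, ω l D = (Matrix.of fun i j => D i (y j)).det ^ m * ω l E := fun l =>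
    Pool.Agent.W636.PG.form_eq k K n m y hy E hE (ω l) (hω l).1 D
  have hdet0 : (Matrix.of fun i j => D i (y j)).det ^ m ≠ 0 := by
    intro h0
    apply hD0 0
    rw [hval, h0, zero_mul]
  have hE0 : ∀ l, ω l E ≠ 0 := by
    intro l h0
    apply hD0 l
    rw [hval, h0, mul_zero]
  have hdet : (Matrix.of fun a b => E' a (algebraMap K L (y b))).det = 1 := by
    have h1 : (Matrix.of fun a b => E' a (algebraMap K L (y b))) = 1 := by
      ext a b
      rw [Matrix.of_apply, Matrix.one_apply]
      exact hE' a b
    rw [h1, Matrix.det_one]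
  refine ⟨m, hm, fun l D => (Matrix.of fun a b => D a (algebraMap K L (y b))).det ^ m *
    algebraMap K L (ω l E), fun l => ?_, E', fun l => ?_, ?_⟩
  · have h1 := pair_pull hess hn hδ' y E hy hE (hω l)
    rw [Finset.image_singleton, map_one] at h1
    exact h1
  · change (Matrix.of fun a b => E' a (algebraMap K L (y b))).det ^ m *
      algebraMap K L (ω l E) ≠ 0
    rw [hdet, one_pow, one_mul]
    exact (map_ne_zero_iff _ (algebraMap K L).injective).2 (hE0 l)
  · have h1 : (fun l : Fin A => (Matrix.of fun a b => E' a (algebraMap K L (y b))).det ^ m *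
        algebraMap K L (ω l.succ E) / ((Matrix.of fun a b => E' a (algebraMap K L (y b))).det ^ m *
        algebraMap K L (ω 0 E))) = fun l : Fin A =>
          IsScalarTower.toAlgHom k K L (ω l.succ D / ω 0 D) := by
      funext l
      rw [hdet, one_pow, one_mul, one_mul, hval, hval, mul_div_mul_left _ _ hdet0]
      change _ = algebraMap K L _
      rw [map_div₀]
    rw [h1]
    exact (AlgHom.algebraicIndependent_iff (IsScalarTower.toAlgHom k K L)
      (algebraMap K L).injective).2 hDi

/-- Pull-back of sections of pairs and numerical dimension. -/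
theorem pair_num [FiniteDimensional K L] (hess : Algebra.EssFiniteType k K) {n A : ℕ}
    (hn : Algebra.trdeg k K = n) {δ : Place k K → ℝ} {δ' : Place k L → ℝ} (hδ' : IsPull δ δ')
    (h : PairNum k L n δ' A) : PairNum k K n δ A := by
  classical
  intro S
  obtain ⟨y, hy⟩ := Pool.Agent.W636.PG.exists_basis k K n hn
  obtain ⟨E, hE⟩ := Pool.Agent.W636.PG.exists_duals k K n y hy
  have hyL : IsTranscendenceBasis k (algebraMap K L ∘ y) := hy.algebraMap_comp
  obtain ⟨E', hE'⟩ := Pool.Agent.W636.PG.exists_duals k L n _ hyL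
  have hdet : (Matrix.of fun a b => E' a (algebraMap K L (y b))).det = 1 := by
    have h1 : (Matrix.of fun a b => E' a (algebraMap K L (y b))) = 1 := by
      ext a b
      rw [Matrix.of_apply, Matrix.one_apply]
      exact hE' a b
    rw [h1, Matrix.det_one]
  obtain ⟨C, hC⟩ := h (S.image (algebraMap K L))
  refine ⟨C, fun m N hm hI => hC m N hm ?_⟩
  obtain ⟨ω, hli, hω⟩ := hI
  refine ⟨fun l D => (Matrix.of fun a b => D a (algebraMap K L (y b))).det ^ m *
    algebraMap K L (ω l E), ?_, fun l => pair_pull hess hn hδ' y E hy hE (hω l)⟩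
  rw [Fintype.linearIndependent_iff] at hli ⊢
  intro c hc
  apply hli
  have h1 : ∑ l, c l • ω l E = 0 := by
    have h2 := congrFun hc E'
    rw [Finset.sum_apply] at h2
    simp only [Pi.smul_apply, Pi.zero_apply, hdet, one_pow, one_mul] at h2
    have h3 : algebraMap K L (∑ l, c l • ω l E) = 0 := by
      rw [← h2, map_sum]
      refine Finset.sum_congr rfl fun l _ => ?_
      rw [Algebra.smul_def, Algebra.smul_def, map_mul, ← IsScalarTower.algebraMap_apply k K L]
    exact (map_eq_zero _).1 h3
  funext D
  rw [Finset.sum_apply]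
  simp only [Pi.smul_apply, Pi.zero_apply]
  have h4 : ∀ l, c l • ω l D = (Matrix.of fun i j => D i (y j)).det ^ m * (c l • ω l E) := by
    intro l
    rw [Pool.Agent.W636.PG.form_eq k K n m y hy E hE (ω l) (hω l).1 D, mul_smul_comm]
  rw [Finset.sum_congr rfl fun l _ => h4 l, ← Finset.mul_sum, h1, mul_zero]

end

end Pool.Agent.Y174
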