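import Pool.Agent.Y174.R7
import Pool.Agent.Y174.BDefs

/-! Multivalued forms modulo a subsheaf of the cotangent sheaf: linear algebra. -/

set_option autoImplicit false
set_option linter.overlappingInstances false
set_option linter.unusedSectionVars false

universe u v

open FF IntermediateField Pool.Agent.W619.PQ Pool.Agent.W619.PL Pool.Agent.W619.TW
  Pool.Agent.W603.LV Pool.Agent.W619.Y Pool.Agent.W824.PG

namespace Pool.Agent.Y174

section

variable {k : Type v} {K : Type u} [Field k] [Field K] [Algebra k K]

/-- `f` is zero or of order at least `c` along `w`. -/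
def GeR (w : Place k K) (c : ℝ) (f : K) : Prop := f = 0 ∨ c ≤ (w.ord f : ℝ)

theorem GeR.mono {w : Place k K} {c c' : ℝ} {f : K} (h : GeR w c f) (h' : c' ≤ c) : GeR w c' f :=
  h.imp id fun h => h'.trans h

theorem Ge.toR {w : Place k K} {c : ℤ} {f : K} (h : Ge w c f) : GeR w c f :=
  h.imp id fun h => by exact_mod_cast h

theorem GeR.toInt {w : Place k K} {c : ℤ} {f : K} (h : GeR w c f) : Ge w c f :=
  h.imp id fun h => by exact_mod_cast h

theorem GeR.mul {w : Place k K} {c c' : ℝ} {f g : K} (h : GeR w c f) (h' : GeR w c' g) :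
    GeR w (c + c') (f * g) := by
  by_cases hf : f = 0
  · exact Or.inl (by rw [hf, zero_mul])
  by_cases hg : g = 0
  · exact Or.inl (by rw [hg, mul_zero])
  right
  rw [w.ord_mul hf hg]
  push_cast
  exact add_le_add (h.resolve_left hf) (h'.resolve_left hg)

theorem GeR.pow {w : Place k K} {c : ℝ} {f : K} (h : GeR w c f) (m : ℕ) :
    GeR w (m * c) (f ^ m) := by
  induction m with
  | zero =>
    right
    rw [pow_zero, w.ord_one]
    simp
  | succ m ih =>
    rw [pow_succ]
    refine (ih.mul h).mono ?_
    push_cast
    linarith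

theorem GeR.prod {w : Place k K} {ι : Type*} (s : Finset ι) (c : ℝ) (f : ι → K)
    (h : ∀ i ∈ s, GeR w c (f i)) : GeR w (s.card * c) (∏ i ∈ s, f i) := by
  classical
  induction s using Finset.induction_on with
  | empty =>
    right
    rw [Finset.prod_empty, w.ord_one]
    simp
  | insert b s hb ih =>
    rw [Finset.prod_insert hb, Finset.card_insert_of_notMem hb]
    refine ((h b (Finset.mem_insert_self _ _)).mul
      (ih fun i hi => h i (Finset.mem_insert_of_mem hi))).mono ?_
    push_cast
    linarith

end

section

variable {k : Type v} {K L : Type u} [Field k] [Field K] [Algebra k K] [Field L] [Algebra k L]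
  [Algebra K L] [IsScalarTower k K L]

/-- the determinant of `d` rational 1-forms and `r` multivalued forms -/
noncomputable def adet {d r : ℕ} (α : Fin d → Derivation k K K →ₗ[K] K)
    (J : Fin r → Derivation k K K →ₗ[K] L) (D : Fin (d + r) → Derivation k K K) : L :=
  (Matrix.of fun (i j : Fin (d + r)) => Fin.addCases (motive := fun _ => L)
    (fun l => algebraMap K L (α l (D j))) (fun a => J a (D j)) i).det

theorem adet_lin {d r : ℕ} (α : Fin d → Derivation k K K →ₗ[K] K)
    (J : Fin r → Derivation k K K →ₗ[K] L)
    (X : Matrix (Fin (d + r)) (Fin (d + r)) K) (D : Fin (d + r) → Derivation k K K) :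
    adet α J (fun i => ∑ j, X i j • D j) = algebraMap K L X.det * adet α J D := by
  unfold adet
  have e3 : (X.map (algebraMap K L)).det = algebraMap K L X.det := by
    rw [RingHom.map_det]
    rfl
  have e2 : (Matrix.of fun (i j : Fin (d + r)) => Fin.addCases (motive := fun _ => L)
      (fun l => algebraMap K L (α l (∑ c, X j c • D c))) (fun a => J a (∑ c, X j c • D c)) i) =
      (Matrix.of fun (i j : Fin (d + r)) => Fin.addCases (motive := fun _ => L)
        (fun l => algebraMap K L (α l (D j))) (fun a => J a (D j)) i) *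
        (X.map (algebraMap K L)).transpose := by
    ext i j
    rw [Matrix.mul_apply]
    refine Fin.addCases (fun l => ?_) (fun a => ?_) i
    · simp only [Matrix.of_apply, Fin.addCases_left, Matrix.transpose_apply, Matrix.map_apply]
      rw [map_sum, map_sum]
      exact Finset.sum_congr rfl fun c _ => by rw [map_smul, smul_eq_mul, map_mul, mul_comm]
    · simp only [Matrix.of_apply, Fin.addCases_right, Matrix.transpose_apply, Matrix.map_apply]
      rw [map_sum]
      exact Finset.sum_congr rfl fun c _ => by rw [map_smul, Algebra.smul_def, mul_comm]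
  rw [e2, Matrix.det_mul, Matrix.det_transpose, e3, mul_comm]

/-- a block determinant -/
theorem adet_block {d r : ℕ} (α : Fin d → Derivation k K K →ₗ[K] K)
    (J : Fin r → Derivation k K K →ₗ[K] L)
    (E : Fin (d + r) → Derivation k K K)
    (h1 : ∀ l c : Fin d, α l (E (Fin.castAdd r c)) = if c = l then 1 else 0)
    (h2 : ∀ (l : Fin d) (a : Fin r), α l (E (Fin.natAdd d a)) = 0) :
    adet α J E = (Matrix.of fun i j => J i (E (Fin.natAdd d j))).det := by
  unfold adet
  rw [← Matrix.det_submatrix_equiv_self finSumFinEquiv]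
  have h3 : (Matrix.submatrix (Matrix.of fun (i j : Fin (d + r)) =>
      Fin.addCases (motive := fun _ => L)
      (fun l => algebraMap K L (α l (E j))) (fun a => J a (E j)) i) finSumFinEquiv
        finSumFinEquiv) = Matrix.fromBlocks (1 : Matrix (Fin d) (Fin d) L) 0
          (Matrix.of fun i c => J i (E (Fin.castAdd r c)))
          (Matrix.of fun i j => J i (E (Fin.natAdd d j))) := by
    ext (i | i) (j | j)
    · simp only [Matrix.submatrix_apply, Matrix.of_apply, finSumFinEquiv_apply_left,
        Fin.addCases_left, Matrix.fromBlocks_apply₁₁, h1, Matrix.one_apply]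
      by_cases h : j = i
      · rw [if_pos h, if_pos h.symm, map_one]
      · rw [if_neg h, if_neg (Ne.symm h), map_zero]
    · simp only [Matrix.submatrix_apply, Matrix.of_apply, finSumFinEquiv_apply_left,
        finSumFinEquiv_apply_right, Fin.addCases_left, Matrix.fromBlocks_apply₁₂, h2, map_zero,
        Matrix.zero_apply]
    · simp only [Matrix.submatrix_apply, Matrix.of_apply, finSumFinEquiv_apply_left,
        finSumFinEquiv_apply_right, Fin.addCases_right, Matrix.fromBlocks_apply₂₁]
    · simp only [Matrix.submatrix_apply, Matrix.of_apply,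
        finSumFinEquiv_apply_right, Fin.addCases_right, Matrix.fromBlocks_apply₂₂]
  rw [h3, Matrix.det_fromBlocks_zero₁₂, Matrix.det_one, one_mul]

/-- change of the forms -/
theorem adet_change {d r : ℕ} (α β : Fin d → Derivation k K K →ₗ[K] K)
    (Z : Matrix (Fin d) (Fin d) K)
    (h : ∀ (D : Derivation k K K) l, α l D = ∑ c, Z l c * β c D)
    (J : Fin r → Derivation k K K →ₗ[K] L) (D : Fin (d + r) → Derivation k K K) :
    adet α J D = algebraMap K L Z.det * adet β J D := by
  unfold adet
  rw [← Matrix.det_submatrix_equiv_self finSumFinEquiv,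
    ← Matrix.det_submatrix_equiv_self finSumFinEquiv]
  have h3 : (Matrix.submatrix (Matrix.of fun (i j : Fin (d + r)) =>
      Fin.addCases (motive := fun _ => L)
      (fun l => algebraMap K L (α l (D j))) (fun a => J a (D j)) i) finSumFinEquiv
        finSumFinEquiv) =
      Matrix.fromBlocks (Z.map (algebraMap K L)) 0 0 (1 : Matrix (Fin r) (Fin r) L) *
        (Matrix.submatrix (Matrix.of fun (i j : Fin (d + r)) =>
          Fin.addCases (motive := fun _ => L)
          (fun l => algebraMap K L (β l (D j))) (fun a => J a (D j)) i) finSumFinEquiv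
          finSumFinEquiv) := by
    ext (i | i) j
    · rw [Matrix.mul_apply, Fintype.sum_sum_type]
      simp only [Matrix.submatrix_apply, Matrix.of_apply, finSumFinEquiv_apply_left,
        Fin.addCases_left, Matrix.fromBlocks_apply₁₁, Matrix.fromBlocks_apply₁₂,
        Matrix.zero_apply, zero_mul, Finset.sum_const_zero, add_zero, Matrix.map_apply]
      rw [h, map_sum]
      exact Finset.sum_congr rfl fun c _ => map_mul _ _ _
    · rw [Matrix.mul_apply, Fintype.sum_sum_type]
      simp only [Matrix.submatrix_apply, Matrix.of_apply, finSumFinEquiv_apply_left,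
        finSumFinEquiv_apply_right,
        Fin.addCases_right, Matrix.fromBlocks_apply₂₁, Matrix.fromBlocks_apply₂₂,
        Matrix.zero_apply, zero_mul, Finset.sum_const_zero, zero_add, Matrix.one_apply]
      rw [Finset.sum_eq_single i]
      · rw [if_pos rfl, one_mul]
      · intro b _ hb
        rw [if_neg (Ne.symm hb), zero_mul]
      · intro hi
        exact absurd (Finset.mem_univ _) hi
  have e3 : (Z.map (algebraMap K L)).det = algebraMap K L Z.det := by
    rw [RingHom.map_det]
    rfl
  rw [h3, Matrix.det_mul, Matrix.det_fromBlocks_zero₁₂, Matrix.det_one, mul_one, e3]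

end

section

variable {k : Type v} {K : Type u} [Field k] [Field K] [Algebra k K]

/-- The tensor is good: it is `a' (β 0 ∧ ... ∧ β (d - 1)) ^ m`, with the `β` regular along `v`. -/
def AGood {d : ℕ} (m : ℕ) (v : Place k K) (α : Fin d → Derivation k K K →ₗ[K] K) (a : K)
    (c : ℝ) : Prop :=
  ∃ (Z : Matrix (Fin d) (Fin d) K) (β : Fin d → Derivation k K K →ₗ[K] K),
    (∀ i D, Pres v D → v.Reg (β i D)) ∧ (∀ (D : Derivation k K K) l, α l D = ∑ i, Z l i * β i D) ∧
      GeR v c (a * Z.det ^ m)

theorem linind_cols {d n : ℕ} (C : Matrix (Fin d) (Fin n) K)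
    (h : ∀ c : Fin d → K, (∀ j, ∑ l, c l * C l j = 0) → ∀ l, c l = 0) :
    Submodule.span K (Set.range fun j : Fin n => fun l => C l j) = ⊤ := by
  classical
  by_contra hcon
  obtain ⟨f, hf0, hf⟩ := Submodule.exists_le_ker_of_lt_top _ (lt_top_iff_ne_top.2 hcon)
  have hfx : ∀ x : Fin d → K, f x = ∑ l, f (Pi.single l 1) * x l := by
    intro x
    have h1 : x = ∑ j, x j • (Pi.single j (1 : K) : Fin d → K) := by
      funext i
      rw [Finset.sum_apply]
      simp [Pi.single_apply]
    conv_lhs => rw [h1]
    rw [map_sum]
    refine Finset.sum_congr rfl fun j _ => ?_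
    rw [map_smul, smul_eq_mul, mul_comm]
  apply hf0
  ext l
  have h1 := h (fun l => f (Pi.single l 1)) (fun j => by
    have h2 : f (fun l => C l j) = 0 := hf (Submodule.subset_span ⟨j, rfl⟩)
    rw [hfx] at h2
    exact h2) l
  simpa using h1

end

section

variable {k : Type v} {K : Type u} [Field k] [CharZero k] [Field K] [Algebra k K]

/-- The tensor is good. -/
theorem agood_of {d n m : ℕ} {δ : Place k K → ℝ} {α : Fin d → Derivation k K K →ₗ[K] K} {a : K}
    (hα : LinearIndependent K α) (h : TensorReg n m δ α a) {v : Place k K}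
    (hv : IsDivisorial v n) (y : Fin n → K) (F : Fin n → Derivation k K K)
    (hy : IsTranscendenceBasis k y) (hF : ∀ i j, F i (y j) = if i = j then 1 else 0)
    (hyr : ∀ i, v.Reg (y i)) (hFp : ∀ i, Pres v (F i)) : AGood m v α a (-(m * δ v)) := by
  classical
  let C : Matrix (Fin d) (Fin n) K := Matrix.of fun l j => α l (F j)
  have hexp : ∀ D l, α l D = ∑ j, D (y j) * C l j := by
    intro D l
    conv_lhs => rw [← Pool.Agent.W73.PG.PULL.expand y hy F hF D]
    rw [map_sum]
    exact Finset.sum_congr rfl fun j _ => by rw [map_smul, smul_eq_mul]; rfl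
  have hspan := linind_cols C (fun c hc l => by
    rw [Fintype.linearIndependent_iff] at hα
    refine hα c ?_ l
    ext D
    rw [LinearMap.sum_apply, LinearMap.zero_apply]
    have h1 : ∀ l, (c l • α l) D = ∑ j, D (y j) * (c l * C l j) := by
      intro l
      rw [LinearMap.smul_apply, smul_eq_mul, hexp, Finset.mul_sum]
      exact Finset.sum_congr rfl fun j _ => by ring
    rw [Finset.sum_congr rfl fun l _ => h1 l, Finset.sum_comm]
    refine Finset.sum_eq_zero fun j _ => ?_
    rw [← Finset.mul_sum, hc j, mul_zero])
  obtain ⟨c0, hc0⟩ := exists_det (K := K) (I := Fin d) (α := Fin n) (fun j l => C l j) hspan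
  -- the minor of least order
  let mn : (Fin d → Fin n) → K := fun c => (Matrix.of fun i => fun l => C l (c i)).det
  let Sg : Finset (Fin d → Fin n) := Finset.univ.filter fun c => mn c ≠ 0
  obtain ⟨c, hcS, hcmin⟩ := Finset.exists_min_image Sg (fun c => v.ord (mn c))
    ⟨c0, Finset.mem_filter.2 ⟨Finset.mem_univ _, hc0⟩⟩
  have hc : mn c ≠ 0 := (Finset.mem_filter.1 hcS).2
  let Z : Matrix (Fin d) (Fin d) K := Matrix.of fun l i => C l (c i)
  have hZ : Z.det = mn c := by
    rw [← Matrix.det_transpose]
    rfl
  have hZ0 : Z.det ≠ 0 := by rw [hZ]; exact hc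
  let B : Fin d → Fin n → K := fun i j => (Z.det)⁻¹ * Z.cramer (fun l => C l j) i
  have hB : ∀ l j, ∑ i, Z l i * B i j = C l j := by
    intro l j
    have h1 := congrFun (Matrix.mulVec_cramer Z (fun l => C l j)) l
    have h2 : ∑ i, Z l i * Z.cramer (fun l => C l j) i = Z.det * C l j := h1
    have h3 : ∀ i, Z l i * B i j = (Z.det)⁻¹ * (Z l i * Z.cramer (fun l => C l j) i) := by
      intro i
      simp only [B]
      ring
    rw [Finset.sum_congr rfl fun i _ => h3 i, ← Finset.mul_sum, h2, inv_mul_cancel_left₀ hZ0]
  have hBr : ∀ i j, v.Reg (B i j) := by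
    intro i j
    have h1 : Z.cramer (fun l => C l j) i = mn (Function.update c i j) := by
      rw [Matrix.cramer_apply, ← Matrix.det_transpose]
      change _ = (Matrix.of fun i' => fun l => C l (Function.update c i j i')).det
      congr 1
      ext i' l
      rw [Matrix.transpose_apply, Matrix.updateCol_apply, Matrix.of_apply]
      by_cases hi : i' = i
      · rw [if_pos hi, hi, Function.update_self]
      · rw [if_neg hi, Function.update_of_ne hi]
        rfl
    by_cases h0 : mn (Function.update c i j) = 0
    · left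
      simp only [B, h1, h0, mul_zero]
    · right
      simp only [B, h1]
      have h2 := hcmin (Function.update c i j) (Finset.mem_filter.2 ⟨Finset.mem_univ _, h0⟩)
      rw [v.ord_mul (inv_ne_zero hZ0) h0, v.ord_inv, hZ]
      omega
  let β : Fin d → Derivation k K K →ₗ[K] K := fun i =>
    { toFun := fun D => ∑ j, D (y j) * B i j
      map_add' := fun D D' => by
        rw [← Finset.sum_add_distrib]
        exact Finset.sum_congr rfl fun j _ => by rw [Derivation.add_apply, add_mul]
      map_smul' := fun x D => by
        rw [RingHom.id_apply, smul_eq_mul, Finset.mul_sum]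
        exact Finset.sum_congr rfl fun j _ => by
          rw [Derivation.smul_apply, smul_eq_mul, mul_assoc] }
  refine ⟨Z, β, fun i D hD => ?_, fun D l => ?_, ?_⟩
  · have h1 : Ge v 0 (∑ j, D (y j) * B i j) := by
      refine Ge.sum _ _ fun j _ => ?_
      have h2 : Ge v 0 (D (y j)) := hD _ (hyr j)
      simpa using h2.mul (hBr i j)
    exact h1
  · rw [hexp]
    change _ = ∑ i, Z l i * ∑ j, D (y j) * B i j
    have h1 : ∀ i, Z l i * ∑ j, D (y j) * B i j = ∑ j, D (y j) * (Z l i * B i j) := by
      intro i
      rw [Finset.mul_sum]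
      exact Finset.sum_congr rfl fun j _ => by ring
    rw [Finset.sum_congr rfl fun i _ => h1 i, Finset.sum_comm]
    refine Finset.sum_congr rfl fun j _ => ?_
    rw [← Finset.mul_sum, hB]
  · exact h v hv (fun i => F (c i)) (fun j f hf => hFp _ f hf)

/-- A frame adapted to the forms `α`. -/
theorem exists_adapted {d r : ℕ} {α : Fin d → Derivation k K K →ₗ[K] K}
    (hα : LinearIndependent K α) (y : Fin (d + r) → K) (hy : IsTranscendenceBasis k y)
    (F : Fin (d + r) → Derivation k K K) (hF : ∀ i j, F i (y j) = if i = j then 1 else 0) :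
    ∃ E : Fin (d + r) → Derivation k K K,
      (∀ l c : Fin d, α l (E (Fin.castAdd r c)) = if c = l then 1 else 0) ∧
      (∀ (l : Fin d) (b : Fin r), α l (E (Fin.natAdd d b)) = 0) ∧
      (∀ D : Derivation k K K, (∀ l, α l D = 0) →
        ∃ c : Fin r → K, D = ∑ j, c j • E (Fin.natAdd d j)) ∧
      (∀ t : Fin r → K, ∑ j, t j • E (Fin.natAdd d j) = 0 → ∀ j, t j = 0) := by
  classical
  have hexp : ∀ D : Derivation k K K, ∑ j, D (y j) • F j = D :=
    fun D => Pool.Agent.W73.PG.PULL.expand y hy F hF D
  let e : Derivation k K K ≃ₗ[K] (Fin (d + r) → K) :=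
    { toFun := fun D j => D (y j)
      map_add' := fun D D' => rfl
      map_smul' := fun c D => rfl
      invFun := fun c => ∑ j, c j • F j
      left_inv := fun D => hexp D
      right_inv := fun c => by
        funext i
        change (∑ j, c j • F j) (y i) = c i
        rw [Pool.Agent.W721.PG.EFF2.der_sum]
        simp [hF] }
  have hfd : FiniteDimensional K (Derivation k K K) := Module.Finite.equiv e.symm
  have hrank : Module.finrank K (Derivation k K K) = d + r := by
    rw [e.finrank_eq, Module.finrank_fin_fun]
  let A : Derivation k K K →ₗ[K] (Fin d → K) := LinearMap.pi α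
  have hA : LinearMap.range A = ⊤ := by
    by_contra hcon
    obtain ⟨f, hf0, hf⟩ := Submodule.exists_le_ker_of_lt_top _ (lt_top_iff_ne_top.2 hcon)
    have hfx : ∀ x : Fin d → K, f x = ∑ l, f (Pi.single l 1) * x l := by
      intro x
      have h1 : x = ∑ j, x j • (Pi.single j (1 : K) : Fin d → K) := by
        funext i
        rw [Finset.sum_apply]
        simp [Pi.single_apply]
      conv_lhs => rw [h1]
      rw [map_sum]
      refine Finset.sum_congr rfl fun j _ => ?_
      rw [map_smul, smul_eq_mul, mul_comm]
    apply hf0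
    rw [Fintype.linearIndependent_iff] at hα
    have h1 := hα (fun l => f (Pi.single l 1)) (by
      ext D
      rw [LinearMap.sum_apply, LinearMap.zero_apply]
      have h2 : f (A D) = 0 := hf ⟨D, rfl⟩
      rw [hfx] at h2
      exact h2)
    ext l
    simpa using h1 l
  have hker : Module.finrank K (LinearMap.ker A) = r := by
    have h1 := LinearMap.finrank_range_add_finrank_ker A
    rw [hA, finrank_top, Module.finrank_fin_fun, hrank] at h1
    omega
  let b := Module.finBasisOfFinrankEq K (LinearMap.ker A) hker
  have hsurj : ∀ c : Fin d, ∃ D, A D = Pi.single c 1 := fun c =>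
    LinearMap.range_eq_top.1 hA _
  choose G hG using hsurj
  refine ⟨Fin.append G (fun j => (b j).1), fun l c => ?_, fun l j => ?_, fun D hD => ?_,
    fun t ht j => ?_⟩
  · rw [Fin.append_left]
    have h1 := congrFun (hG c) l
    change α l (G c) = _ at h1
    rw [h1, Pi.single_apply]
    by_cases h : l = c
    · rw [if_pos h, if_pos h.symm]
    · rw [if_neg h, if_neg (Ne.symm h)]
  · rw [Fin.append_right]
    exact congrFun (LinearMap.mem_ker.1 (b j).2) l
  · have hD' : D ∈ LinearMap.ker A := LinearMap.mem_ker.2 (funext hD)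
    refine ⟨fun j => b.repr ⟨D, hD'⟩ j, ?_⟩
    have h1 := congrArg Subtype.val (b.sum_repr ⟨D, hD'⟩)
    rw [AddSubmonoidClass.coe_finsetSum] at h1
    refine (show _ = D from h1).symm.trans ?_
    refine Finset.sum_congr rfl fun j _ => ?_
    rw [Fin.append_right]
    rfl
  · have h1 : ∑ j, t j • b j = 0 := by
      apply Subtype.ext
      rw [AddSubmonoidClass.coe_finsetSum, ZeroMemClass.coe_zero, ← ht]
      refine Finset.sum_congr rfl fun j _ => ?_
      rw [Fin.append_right]
      rfl
    exact Fintype.linearIndependent_iff.1 b.linearIndependent t h1 j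

end

end Pool.Agent.Y174
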