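import Pool.Agent.Y174.B1

/-! Multivalued forms modulo a subsheaf of the cotangent sheaf: the invariant form. -/

set_option autoImplicit false
set_option linter.overlappingInstances false
set_option linter.unusedSectionVars false

universe u v

open FF IntermediateField Pool.Agent.W619.PQ Pool.Agent.W619.PL Pool.Agent.W619.TW
  Pool.Agent.W603.LV Pool.Agent.W619.Y Pool.Agent.W824.PG

namespace Pool.Agent.Y174

section

variable {k : Type v} {L : Type u} [Field k] [CharZero k] [Field L] [Algebra k L]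

theorem GeR.up {K : Type u} [Field K] [Algebra k K] [Algebra K L] [IsScalarTower k K L]
    {v : Place k K} {w : Place k L} {e : ℕ} (hwv : Over w v e) {c : ℝ} {f : K}
    (h : GeR v c f) : GeR w (e * c) (algebraMap K L f) := by
  rcases h with h | h
  · left; rw [h, map_zero]
  · right
    rw [hwv.2 f]
    push_cast
    exact mul_le_mul_of_nonneg_left h (Nat.cast_nonneg e)

theorem GeR.down {K : Type u} [Field K] [Algebra k K] [Algebra K L] [IsScalarTower k K L]
    {v : Place k K} {w : Place k L} {e : ℕ} (hwv : Over w v e) {c : ℝ} {f : K}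
    (h : GeR w (e * c) (algebraMap K L f)) : GeR v c f := by
  rcases h with h | h
  · left; exact (map_eq_zero_iff _ (algebraMap K L).injective).1 h
  · right
    rw [hwv.2 f] at h
    push_cast at h
    have he : (0 : ℝ) < e := by exact_mod_cast hwv.1
    exact le_of_mul_le_mul_left h he

/-- The local estimate. -/
theorem adet_ge {K : Type u} [Field K] [Algebra k K] [Algebra K L] [IsScalarTower k K L]
    {d r m : ℕ} {v : Place k K} {w : Place k L} {e : ℕ} (hwv : Over w v e)
    {α : Fin d → Derivation k K K →ₗ[K] K} {a : K} {c : ℝ} (hA : AGood m v α a c)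
    (J : Fin r → Derivation k K K →ₗ[K] L)
    (D : Fin (d + r) → Derivation k K K) (hD : ∀ j, Pres v (D j))
    (hJ : ∀ i j, Ge w 0 (J i (D j))) :
    GeR w (e * c) (algebraMap K L a * adet α J D ^ m) ∧
      ∀ i0, (∀ j, Ge w 1 (J i0 (D j))) → 1 ≤ m →
        GeR w (e * c + 1) (algebraMap K L a * adet α J D ^ m) := by
  classical
  obtain ⟨Z, β, hβ, hZ, hZa⟩ := hA
  have h1 : algebraMap K L a * adet α J D ^ m =
      algebraMap K L (a * Z.det ^ m) * adet β J D ^ m := by
    rw [adet_change α β Z hZ J D, mul_pow, map_mul, map_pow]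
    ring
  have h2 : GeR w (e * c) (algebraMap K L (a * Z.det ^ m)) := hZa.up hwv
  have h3 : ∀ i j, Ge w 0 ((Matrix.of fun (i j : Fin (d + r)) =>
      Fin.addCases (motive := fun _ => L)
      (fun l => algebraMap K L (β l (D j))) (fun a => J a (D j)) i) i j) := by
    intro i j
    refine Fin.addCases (fun l => ?_) (fun b => ?_) i
    · simp only [Matrix.of_apply, Fin.addCases_left]
      exact hwv.reg.2 (hβ l _ (hD j))
    · simp only [Matrix.of_apply, Fin.addCases_right]
      exact hJ b j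
  refine ⟨?_, fun i0 hi0 hm => ?_⟩
  · rw [h1]
    have h4 : Ge w 0 (adet β J D) := ge_det w _ h3
    have h5 := h2.mul (Ge.toR (h4.pow m))
    refine h5.mono ?_
    simp
  · rw [h1]
    have h4 : Ge w 1 (adet β J D) := by
      refine ge_det_row w _ h3 (Fin.natAdd d i0) fun j => ?_
      simp only [Matrix.of_apply, Fin.addCases_right]
      exact hi0 j
    have h5 := h2.mul (Ge.toR (h4.pow m))
    refine h5.mono ?_
    push_cast
    have : (1 : ℝ) ≤ m := by exact_mod_cast hm
    linarith

/-- The invariant form. -/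
theorem exists_theta_A {G : Subgroup (L ≃ₐ[k] L)} {d r m : ℕ} (hm : 1 ≤ m)
    (hn : Algebra.trdeg k L = (d + r : ℕ)) [Finite G] (hess : Algebra.EssFiniteType k (fixedField G))
    (δ : Place k (fixedField G) → ℝ)
    (α : Fin d → Derivation k (fixedField G) (fixedField G) →ₗ[fixedField G] fixedField G)
    (hα : LinearIndependent (fixedField G) α) (a : fixedField G)
    (ha : a ≠ 0) (hT : TensorReg (d + r) m δ α a)
    (S : Set (Derivation k (fixedField G) (fixedField G) →ₗ[fixedField G] L)) (hSf : S.Finite)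
    (hS : ∀ g : G, ∀ ω ∈ S, act g ω ∈ S)
    (hker : ∀ D : Derivation k (fixedField G) (fixedField G), (∀ l, α l D = 0) →
      (∀ ω ∈ S, ω D = 0) → D = 0)
    (hfaith : ∀ g : G, g ≠ 1 → ∃ ω ∈ S, ∃ D : Derivation k (fixedField G) (fixedField G),
      (∀ l, α l D = 0) ∧ (g : L ≃ₐ[k] L) (ω D) ≠ ω D)
    (hreg : ∀ ω ∈ S, ∀ (v : Place k (fixedField G)) (w : Place k L) (e : ℕ),
      IsDivisorial v (d + r) → Over w v e → ∀ D, Pres v D → Ge w 0 (ω D)) :
    ∃ (N : ℕ) (Θ : (Fin (d + r) → Derivation k (fixedField G) (fixedField G)) → fixedField G),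
      1 ≤ N ∧ IsPluriForm k (fixedField G) (d + r) N Θ ∧
      (∀ v : Place k (fixedField G), IsDivisorial v (d + r) →
        ∀ D : Fin (d + r) → Derivation k (fixedField G) (fixedField G), (∀ j, Pres v (D j)) →
          GeR v (-(N * δ v)) (Θ D)) ∧
      (∃ D, Θ D ≠ 0) ∧
      ∀ (v : Place k (fixedField G)) (w : Place k L) (e : ℕ), IsDivisorial v (d + r) →
        Over w v e → e ≠ 1 →
        (∃ I : Subgroup G, Nat.card I = e ∧ ∀ g ∈ I, Inert w (g : L ≃ₐ[k] L)) →
        ∀ D : Fin (d + r) → Derivation k (fixedField G) (fixedField G), (∀ j, Pres v (D j)) →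
          GeR w (e * (-(N * δ v)) + 1) (algebraMap (fixedField G) L (Θ D)) := by
  classical
  have halgK := Pool.Agent.W721.PG.EFF2.alg_fixed G
  have := Fintype.ofFinite G
  obtain ⟨hnK, z, hz⟩ := Pool.Agent.W721.PG.EFF2.exists_basis (fixedField G) (d + r) hn
  obtain ⟨F, hF⟩ := Pool.Agent.W636.PG.exists_duals k (fixedField G) (d + r) _ hz
  obtain ⟨E, hE1, hE2, hexp, hEli⟩ := exists_adapted hα z hz F hF
  have hgood : ∀ v : Place k (fixedField G), IsDivisorial v (d + r) →
      AGood m v α a (-(m * δ v)) := by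
    intro v hv
    obtain ⟨y', F', i0, hy', hF', ht, hyr, hpres⟩ := pFRAME k (fixedField G) (d + r) hnK
      (fun y hy => fin_adj hess y hy) v hv
    exact agood_of hα hT hv y' F' hy' hF' hyr hpres
  let x : (Derivation k (fixedField G) (fixedField G) →ₗ[fixedField G] L) → (Fin r → L) :=
    fun ω j => ω (E (Fin.natAdd d j))
  let S0 : Finset (Derivation k (fixedField G) (fixedField G) →ₗ[fixedField G] L) := hSf.toFinset
  have hS0 : ∀ ω, ω ∈ S0 ↔ ω ∈ S := fun ω => hSf.mem_toFinset
  let S2 : Finset (Derivation k (fixedField G) (fixedField G) →ₗ[fixedField G] L) :=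
    S0 ∪ (S0 ×ˢ S0).image (fun p => p.1 - p.2)
  have hS2 : ∀ ω, ω ∈ S2 ↔ ω ∈ S ∨ ∃ a ∈ S, ∃ b ∈ S, a - b = ω := by
    intro ω
    simp only [S2, Finset.mem_union, Finset.mem_image, Finset.mem_product, hS0, Prod.exists]
    constructor
    · rintro (h | ⟨a, b, ⟨h1, h2⟩, h3⟩)
      · exact Or.inl h
      · exact Or.inr ⟨a, h1, b, h2, h3⟩
    · rintro (h | ⟨a, h1, b, h2, h3⟩)
      · exact Or.inl h
      · exact Or.inr ⟨a, b, ⟨h1, h2⟩, h3⟩
  have hactsub : ∀ (g : G) a b, act g (a - b) = act g a - act g b := by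
    intro g a b
    ext D
    change (g : L ≃ₐ[k] L) (a D - b D) = (g : L ≃ₐ[k] L) (a D) - (g : L ≃ₐ[k] L) (b D)
    rw [map_sub]
  have hS2G : ∀ g : G, ∀ ω ∈ S2, act g ω ∈ S2 := by
    intro g ω hω
    rw [hS2] at hω ⊢
    rcases hω with h | ⟨a, ha, b, hb, rfl⟩
    · exact Or.inl (hS g ω h)
    · exact Or.inr ⟨act g a, hS g a ha, act g b, hS g b hb, (hactsub g a b).symm⟩
  have hS2r : ∀ ω ∈ S2, ∀ (v : Place k (fixedField G)) (w : Place k L) (e : ℕ),
      IsDivisorial v (d + r) → Over w v e → ∀ D, Pres v D → Ge w 0 (ω D) := by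
    intro ω hω v w e hv hwv D hD
    rw [hS2] at hω
    rcases hω with h | ⟨a, ha, b, hb, rfl⟩
    · exact hreg ω h v w e hv hwv D hD
    · exact (hreg a ha v w e hv hwv D hD).sub (hreg b hb v w e hv hwv D hD)
  let W : Finset (Fin r → (Derivation k (fixedField G) (fixedField G) →ₗ[fixedField G] L)) :=
    (Fintype.piFinset (fun _ : Fin r => S2)).filter (fun J => adet α J E ≠ 0)
  have hW : ∀ J, J ∈ W ↔ (∀ i, J i ∈ S2) ∧ adet α J E ≠ 0 := by
    intro J
    simp only [W, Finset.mem_filter, Fintype.mem_piFinset]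
  have hgdet : ∀ (g : G) (J : Fin r → (Derivation k (fixedField G) (fixedField G)
      →ₗ[fixedField G] L)) (D : Fin (d + r) → Derivation k (fixedField G) (fixedField G)),
      (g : L ≃ₐ[k] L) (adet α J D) = adet α (fun i => act g (J i)) D := by
    intro g J D
    unfold adet
    refine (RingHom.map_det ((g : L ≃ₐ[k] L) : L →+* L) _).trans ?_
    congr 1
    ext i j
    refine Fin.addCases (fun l => ?_) (fun b => ?_) i
    · simp only [RingHom.mapMatrix_apply, Matrix.map_apply, Matrix.of_apply, Fin.addCases_left]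
      exact (α l (D j)).2 g
    · simp only [RingHom.mapMatrix_apply, Matrix.map_apply, Matrix.of_apply, Fin.addCases_right]
      rfl
  let Θ0 : (Fin (d + r) → Derivation k (fixedField G) (fixedField G)) → L := fun D =>
    ∏ J ∈ W, (algebraMap (fixedField G) L a * adet α J D ^ m)
  have hinv : ∀ (g : G) D, (g : L ≃ₐ[k] L) (Θ0 D) = Θ0 D := by
    intro g D
    change (g : L ≃ₐ[k] L) (∏ J ∈ W, (algebraMap (fixedField G) L a * adet α J D ^ m)) = _
    rw [map_prod]
    have hmem : ∀ (h : G) J, J ∈ W → (fun i => act h (J i)) ∈ W := by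
      intro h J hJ
      rw [hW] at hJ ⊢
      refine ⟨fun i => hS2G h _ (hJ.1 i), ?_⟩
      rw [← hgdet h J E]
      simpa using hJ.2
    refine Finset.prod_nbij (fun J i => act g (J i)) (fun J hJ => hmem g J hJ) ?_ ?_ ?_
    · intro J _ J' _ h
      funext i
      exact act_inj g (congrFun h i)
    · intro J hJ
      refine ⟨fun i => act g⁻¹ (J i), hmem g⁻¹ J hJ, ?_⟩
      funext i
      exact act_inv g (J i)
    · intro J _
      rw [map_mul, map_pow, hgdet g J D]
      congr 1
      exact a.2 g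
  have haL : algebraMap (fixedField G) L a ≠ 0 := by simpa using ha
  have hΘ0E : Θ0 E ≠ 0 := Finset.prod_ne_zero_iff.2 fun J hJ =>
    mul_ne_zero haL (pow_ne_zero _ ((hW J).1 hJ).2)
  have hge0 : ∀ (v : Place k (fixedField G)) (w : Place k L) (e : ℕ), IsDivisorial v (d + r) →
      Over w v e → ∀ D : Fin (d + r) → Derivation k (fixedField G) (fixedField G),
      (∀ j, Pres v (D j)) → ∀ J ∈ W, ∀ i j, Ge w 0 (J i (D j)) := by
    intro v w e hv hwv D hD J hJ i j
    exact hS2r _ (((hW J).1 hJ).1 i) v w e hv hwv _ (hD j)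
  have htop : Submodule.span L (x '' (S2 : Set _)) = ⊤ := by
    refine top_le_iff.1 ?_
    have h1 := span_top' (fun j => E (Fin.natAdd d j)) S hS (fun t ht => by
      have h2 : (∑ j, t j • E (Fin.natAdd d j)) = 0 := by
        apply hker
        · intro l
          rw [map_sum]
          exact Finset.sum_eq_zero fun j _ => by rw [map_smul, hE2, smul_zero]
        · exact ht
      exact hEli t h2)
    rw [← h1]
    refine Submodule.span_mono (Set.image_mono fun ω hω => ?_)
    exact (hS2 ω).2 (Or.inl hω)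
  have hWne : W.Nonempty := by
    obtain ⟨β, hβ⟩ := exists_det (K := L) (I := Fin r) (α := (S2 : Set
        (Derivation k (fixedField G) (fixedField G) →ₗ[fixedField G] L))) (fun θ => x θ.1) (by
      rw [← htop]
      congr 1
      ext c
      constructor
      · rintro ⟨θ, rfl⟩
        exact ⟨θ.1, θ.2, rfl⟩
      · rintro ⟨θ, hθ, rfl⟩
        exact ⟨⟨θ, hθ⟩, rfl⟩)
    refine ⟨fun i => (β i).1, (hW _).2 ⟨fun i => (β i).2, ?_⟩⟩
    rw [adet_block α _ E hE1 hE2]
    exact hβ
  refine ⟨W.card * m, fun D => ⟨Θ0 D, fun g => hinv g D⟩,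
    Nat.mul_pos hWne.card_pos (by omega), ?_, ?_, ⟨E, fun h => hΘ0E
    (congrArg Subtype.val h)⟩, ?_⟩
  · intro X D
    apply Subtype.ext
    change ∏ J ∈ W, (algebraMap (fixedField G) L a *
        adet α J (fun i => ∑ j, X i j • D j) ^ m) =
      algebraMap (fixedField G) L (X.det ^ (W.card * m) * ⟨Θ0 D, fun g => hinv g D⟩)
    rw [map_mul, map_pow]
    have h1 : ∀ J ∈ W, algebraMap (fixedField G) L a * adet α J (fun i => ∑ j, X i j • D j) ^ m =
        (algebraMap (fixedField G) L X.det) ^ m *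
          (algebraMap (fixedField G) L a * adet α J D ^ m) := by
      intro J _
      rw [adet_lin, mul_pow]
      ring
    rw [Finset.prod_congr rfl h1, Finset.prod_mul_distrib, Finset.prod_const, ← pow_mul,
      mul_comm m]
    rfl
  · intro v hv D hD
    obtain ⟨w, e, I, hwv, hcard, hI⟩ := exists_inertia G v
    apply GeR.down hwv
    change GeR w _ (Θ0 D)
    have h1 := GeR.prod W _ _ fun J hJ =>
      (adet_ge hwv (hgood v hv) J D hD (hge0 v w e hv hwv D hD J hJ)).1
    refine h1.mono ?_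
    push_cast
    apply le_of_eq
    ring
  · rintro v w e hv hwv he ⟨I, hcard, hI⟩ D hD
    -- a nontrivial element of the inertia group
    have hI1 : ∃ g ∈ I, g ≠ 1 := by
      by_contra hcon
      push Not at hcon
      apply he
      rw [← hcard, Nat.card_eq_one_iff_exists]
      exact ⟨1, fun g => Subtype.ext (hcon g g.2)⟩
    obtain ⟨g, hgI, hg1⟩ := hI1
    obtain ⟨ω, hω, D0, hD0, hωg⟩ := hfaith g hg1
    have hδ : ω - act g ω ∈ (S2 : Set _) := (hS2 _).2 (Or.inr ⟨ω, hω, act g ω, hS g ω hω, rfl⟩)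
    have hδ0 : x (ω - act g ω) ≠ 0 := by
      intro h
      apply hωg
      have h1 : (ω - act g ω) D0 = 0 := by
        obtain ⟨c, hc⟩ := hexp D0 hD0
        rw [hc, map_sum]
        refine Finset.sum_eq_zero fun j _ => ?_
        have h2 : (ω - act g ω) (E (Fin.natAdd d j)) = 0 := congrFun h j
        rw [map_smul, h2, smul_zero]
      have h2 : ω D0 - (g : L ≃ₐ[k] L) (ω D0) = 0 := h1
      exact (sub_eq_zero.1 h2).symm
    obtain ⟨J, hJ, ⟨i0, hi0⟩, hJ0⟩ := exists_tuple x (S2 : Set _) htop _ hδ hδ0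
    have hJW : J ∈ W := (hW J).2 ⟨hJ, by
      rw [adet_block α J E hE1 hE2]
      exact hJ0⟩
    change GeR w _ (∏ J ∈ W, (algebraMap (fixedField G) L a * adet α J D ^ m))
    rw [← Finset.mul_prod_erase W _ hJW]
    have h2 : GeR w (e * (-(m * δ v)) + 1) (algebraMap (fixedField G) L a * adet α J D ^ m) := by
      refine (adet_ge hwv (hgood v hv) J D hD (hge0 v w e hv hwv D hD J hJW)).2 i0
        (fun j => ?_) hm
      rw [hi0]
      have h3 := hI g hgI (ω (D j)) (hreg ω hω v w e hv hwv _ (hD j))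
      have h4 := h3.neg
      rw [neg_sub] at h4
      exact h4
    have h3 := GeR.prod (W.erase J) _ _ fun J' hJ' =>
      (adet_ge hwv (hgood v hv) J' D hD
        (hge0 v w e hv hwv D hD J' (Finset.mem_of_mem_erase hJ'))).1
    refine (h2.mul h3).mono ?_
    rw [Finset.card_erase_of_mem hJW, Nat.cast_sub hWne.card_pos]
    push_cast
    apply le_of_eq
    ring

end

end Pool.Agent.Y174
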