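import Pool.Agent.Y174.B2

/-! Multivalued forms modulo a subsheaf of the cotangent sheaf: forms on the cover. -/

set_option autoImplicit false
set_option linter.overlappingInstances false
set_option linter.unusedSectionVars false

universe u v

open FF IntermediateField Pool.Agent.W619.PQ Pool.Agent.W619.PL Pool.Agent.W619.TW
  Pool.Agent.W603.LV Pool.Agent.W619.Y Pool.Agent.W824.PG

namespace Pool.Agent.Y174

section

variable {k : Type v} [Field k] [CharZero k] {K L : Type u} [Field K] [Field L] [Algebra k K]
  [Algebra k L] [Algebra K L] [IsScalarTower k K L]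

/-- the values of the lift of a multivalued form -/
theorem lift_ext {n : ℕ} (z : Fin n → K) (hz : IsTranscendenceBasis k z)
    (E : Fin n → Derivation k K K) (hE : ∀ i j, E i (z j) = if i = j then 1 else 0)
    (ω : Derivation k K K →ₗ[K] L) (D : Derivation k K K) (D' : Derivation k L L)
    (h : ∀ f : K, D' (algebraMap K L f) = algebraMap K L (D f)) : lift z E ω D' = ω D := by
  rw [lift_apply, form_expand z hz E hE ω D]
  exact Finset.sum_congr rfl fun b _ => by rw [h]

/-- a form as a multivalued form -/
noncomputable def emb (α : Derivation k K K →ₗ[K] K) : Derivation k K K →ₗ[K] L :=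
  (Algebra.linearMap K L).comp α

theorem emb_apply (α : Derivation k K K →ₗ[K] K) (D : Derivation k K K) :
    (emb α : Derivation k K K →ₗ[K] L) D = algebraMap K L (α D) := rfl

/-- The regular 1-forms on the cover, modulo a subsheaf. -/
theorem rel_formsA [FiniteDimensional K L] (hess : Algebra.EssFiniteType k K) {d r : ℕ}
    (hn : Algebra.trdeg k K = (d + r : ℕ)) {α : Fin d → Derivation k K K →ₗ[K] K}
    (z : Fin (d + r) → K)
    (hz : IsTranscendenceBasis k z) (F : Fin (d + r) → Derivation k K K)
    (hF : ∀ i j, F i (z j) = if i = j then 1 else 0)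
    (E : Fin (d + r) → Derivation k K K)
    (h1 : ∀ l c : Fin d, α l (E (Fin.castAdd r c)) = if c = l then 1 else 0)
    (h2 : ∀ (l : Fin d) (a : Fin r), α l (E (Fin.natAdd d a)) = 0)
    (S : Set (Derivation k K K →ₗ[K] L))
    (hreg : ∀ ω ∈ S, ∀ (v : Place k K) (w : Place k L) (e : ℕ), IsDivisorial v (d + r) →
      Over w v e → ∀ D, Pres v D → Ge w 0 (ω D))
    (hspan : Submodule.span L ((fun ω : Derivation k K K →ₗ[K] L =>
      fun j => ω (E (Fin.natAdd d j))) '' S) = ⊤) :
    ∃ (α' : Fin d → (Derivation k L L →ₗ[L] L)) (η : Fin r → (Derivation k L L →ₗ[L] L)),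
      (∀ l, IsPullForm (α l) (α' l)) ∧ LinearIndependent L (Fin.append α' η) ∧
      ∀ i, ∀ w : Place k L, IsDivisorial w (d + r) → ∀ D : Derivation k L L, Pres w D →
        w.Reg (η i D) := by
  classical
  obtain ⟨β, hβ⟩ := exists_det (K := L) (I := Fin r) (α := S)
    (fun θ j => θ.1 (E (Fin.natAdd d j))) (by
    rw [← hspan]
    congr 1
    ext c
    constructor
    · rintro ⟨θ, rfl⟩
      exact ⟨θ.1, θ.2, rfl⟩
    · rintro ⟨θ, hθ, rfl⟩
      exact ⟨⟨θ, hθ⟩, rfl⟩)
  choose ext hext hext2 hext3 using pEXT k K L (d + r) hn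
  refine ⟨fun l => lift z F (emb (α l)), fun i => lift z F (β i).1, fun l D D' h => ?_, ?_,
    fun i w hw D hD => lift_reg hess hn _ hz F hF (β i).1 (hreg _ (β i).2) w hw D hD⟩
  · rw [lift_ext z hz F hF _ D D' h]
    rfl
  · by_contra hcon
    have h3 := det_zero_of_dep _ hcon (fun j => ext (E j))
    have h4 : (Matrix.of fun i j => (Fin.append (fun l => lift z F (emb (α l)))
        (fun i => lift z F (β i).1)) i (ext (E j))).det = adet α (fun i => (β i).1) E := by
      unfold adet
      congr 1
      ext i j
      refine Fin.addCases (fun l => ?_) (fun b => ?_) i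
      · rw [Matrix.of_apply, Matrix.of_apply, Fin.append_left, Fin.addCases_left,
          lift_ext z hz F hF _ (E j) _ (fun f => hext _ f)]
        rfl
      · rw [Matrix.of_apply, Matrix.of_apply, Fin.append_right, Fin.addCases_right,
          lift_ext z hz F hF _ (E j) _ (fun f => hext _ f)]
    rw [h4, adet_block α _ E h1 h2] at h3
    exact hβ h3

end

end Pool.Agent.Y174
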