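import Pool.Agent.Y174.B5

/-! Multivalued forms modulo a subsheaf, pairs: the theorem over a fixed field, transport. -/

set_option autoImplicit false
set_option linter.overlappingInstances false
set_option linter.unusedSectionVars false

universe u v

open FF IntermediateField Pool.Agent.W619.PQ Pool.Agent.W619.PL Pool.Agent.W619.TW
  Pool.Agent.W603.LV Pool.Agent.W619.Y Pool.Agent.W824.PG

namespace Pool.Agent.Y174

section

variable {k : Type v} [Field k] [CharZero k] {K L : Type u} [Field K] [Field L] [Algebra k K]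
  [Algebra k L] [Algebra K L] [IsScalarTower k K L]

theorem liesOn_unique {w : Place k L} {v v' : Place k K} {e e' : ℕ} (h : LiesOn w v e)
    (h' : LiesOn w v' e') : v = v' ∧ e = e' := by
  have h1 : ∀ {v v' : Place k K} {e e' : ℕ}, LiesOn w v e → LiesOn w v' e' → (e' : ℤ) ∣ e := by
    intro v v' e e' h h'
    obtain ⟨t, -, ht⟩ := v.surj
    refine ⟨v'.ord t, ?_⟩
    rw [← h'.2 t, h.2 t, ht, mul_one]
  have h2 : e = e' := Nat.dvd_antisymm (by exact_mod_cast h1 h' h) (by exact_mod_cast h1 h h')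
  refine ⟨?_, h2⟩
  subst h2
  ext f
  have h3 := h.2 f
  rw [h'.2 f] at h3
  have h4 : (e : ℤ) ≠ 0 := by
    have := h.1
    omega
  exact (mul_left_cancel₀ h4 h3).symm

/-- the divisor on the cover -/
theorem exists_pull (δ : Place k K → ℝ) : ∃ δ' : Place k L → ℝ, IsPull δ δ' := by
  classical
  refine ⟨fun w => if h : ∃ p : Place k K × ℕ, LiesOn w p.1 p.2 then
    max 0 (1 - h.choose.2 * (1 - δ h.choose.1)) else 0, fun v w e hwv => ?_⟩
  have h : ∃ p : Place k K × ℕ, LiesOn w p.1 p.2 := ⟨(v, e), hwv⟩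
  simp only [dif_pos h]
  obtain ⟨h1, h2⟩ := liesOn_unique h.choose_spec hwv
  rw [h1, h2]

/-- the section given by a form -/
theorem kod_self {n : ℕ} (δ : Place k K → ℝ) {N : ℕ} (hN : 1 ≤ N)
    (Θ : (Fin n → Derivation k K K) → K) (hΘ : IsPluriForm k K n N Θ)
    (hΘr : ∀ v : Place k K, IsDivisorial v n → ∀ D : Fin n → Derivation k K K,
      (∀ j, Pres v (D j)) → GeR v (-(N * δ v)) (Θ D)) (hΘ0 : ∃ D, Θ D ≠ 0) :
    PairKod k K n δ 0 := by
  obtain ⟨D0, hD0⟩ := hΘ0
  refine ⟨N, hN, fun _ => Θ, fun _ => ⟨hΘ, fun v hv D hD => ?_⟩, D0, fun _ => hD0, ?_⟩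
  · rcases hΘr v hv D hD with h | h
    · exact Or.inl h
    · right
      refine ⟨1, by simp, one_ne_zero, ?_⟩
      simpa using h
  · exact algebraicIndependent_empty_type_iff.2 (algebraMap k K).injective

end

section

variable {k : Type v} [Field k] [CharZero k] {L : Type u} [Field L] [Algebra k L]
  {G : Subgroup (L ≃ₐ[k] L)}

/-- The theorem over a fixed field. -/
theorem fixed_A [Finite G] (hess : Algebra.EssFiniteType k (fixedField G)) {d r m : ℕ}
    (hm : 1 ≤ m) (hn : Algebra.trdeg k L = (d + r : ℕ))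
    (δ : Place k (fixedField G) → ℝ) (hδ : ∀ v, 0 ≤ δ v) (δ' : Place k L → ℝ)
    (hδ' : IsPull δ δ')
    (α : Fin d → Derivation k (fixedField G) (fixedField G) →ₗ[fixedField G] fixedField G)
    (hα : LinearIndependent (fixedField G) α) (a : fixedField G)
    (ha : a ≠ 0) (hT : TensorReg (d + r) m δ α a)
    (S : Set (Derivation k (fixedField G) (fixedField G) →ₗ[fixedField G] L)) (hSf : S.Finite)
    (hS : ∀ g : G, ∀ ω ∈ S, act g ω ∈ S)
    (hker : ∀ D : Derivation k (fixedField G) (fixedField G), (∀ l, α l D = 0) →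
      (∀ ω ∈ S, ω D = 0) → D = 0)
    (hfaith : ∀ g : G, g ≠ 1 → ∃ ω ∈ S, ∃ D : Derivation k (fixedField G) (fixedField G),
      (∀ l, α l D = 0) ∧ (g : L ≃ₐ[k] L) (ω D) ≠ ω D)
    (hreg : ∀ ω ∈ S, ∀ (v : Place k (fixedField G)) (w : Place k L) (e : ℕ),
      IsDivisorial v (d + r) → Over w v e → ∀ D, Pres v D → Ge w 0 (ω D)) :
    (∃ (α' : Fin d → (Derivation k L L →ₗ[L] L)) (η : Fin r → (Derivation k L L →ₗ[L] L)),
      (∀ l, IsPullForm (α l) (α' l)) ∧ LinearIndependent L (Fin.append α' η) ∧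
      ∀ i, ∀ w : Place k L, IsDivisorial w (d + r) → ∀ D : Derivation k L L, Pres w D →
        w.Reg (η i D)) ∧
      PairKod k (fixedField G) (d + r) δ 0 ∧
      ∀ a, PairKod k L (d + r) δ' a → PairKod k (fixedField G) (d + r) δ a := by
  classical
  have halgK := Pool.Agent.W721.PG.EFF2.alg_fixed G
  have hfin := fixed_finite G
  obtain ⟨hnK, z, hz⟩ := Pool.Agent.W721.PG.EFF2.exists_basis (fixedField G) (d + r) hn
  obtain ⟨F, hF⟩ := Pool.Agent.W636.PG.exists_duals k (fixedField G) (d + r) _ hz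
  obtain ⟨E, hE1, hE2, hexp, hEli⟩ := exists_adapted hα z hz F hF
  have hessL : Algebra.EssFiniteType k L := by
    have h1 : Algebra.EssFiniteType (fixedField G) L := inferInstance
    exact Algebra.EssFiniteType.comp k (fixedField G) L
  obtain ⟨N, Θ, hN, hΘ, hΘr, hΘ0, hΘv⟩ := exists_theta_A hm hn hess δ α hα a ha hT S hSf hS hker
    hfaith hreg
  refine ⟨?_, kod_self δ hN Θ hΘ hΘr hΘ0, fun a ha => pair_desc hn hessL G δ δ'
    (fun v _ => hδ v) hδ' N Θ hΘ hΘr hΘ0 (fun v w e hv hwv he hI D hD =>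
      hΘv v w e hv hwv (fun h1 => ?_) hI D hD) ha⟩
  · refine rel_formsA hess hnK z hz F hF E hE1 hE2 S hreg ?_
    refine span_top' (fun j => E (Fin.natAdd d j)) S hS fun t ht => ?_
    have h2 : (∑ j, t j • E (Fin.natAdd d j)) = 0 := by
      apply hker
      · intro l
        rw [map_sum]
        exact Finset.sum_eq_zero fun j _ => by rw [map_smul, hE2, smul_zero]
      · exact ht
    exact hEli t h2
  · rw [h1] at he
    have := hδ v
    simp only [Nat.cast_one, one_mul] at he
    linarith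

end

section

variable {k : Type v} [Field k] [CharZero k] {K L : Type u} [Field K] [Field L] [Algebra k K]
  [Algebra k L] [Algebra K L] [IsScalarTower k K L]

/-- transport of forms -/
noncomputable def trA {K' : Type u} [Field K'] [Algebra k K'] (e : K ≃ₐ[k] K')
    (α : Derivation k K K →ₗ[K] K) : Derivation k K' K' →ₗ[K'] K' where
  toFun D := e (α (cDer e.symm D))
  map_add' D D' := by
    rw [← map_add, ← map_add]
    congr 2
    ext x
    rw [cDer_apply, Derivation.add_apply, map_add]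
    rfl
  map_smul' c D := by
    have h1 : cDer e.symm (c • D) = (e.symm c) • cDer e.symm D := by
      ext x
      rw [cDer_apply, Derivation.smul_apply, smul_eq_mul, map_mul]
      rfl
    rw [h1, map_smul, smul_eq_mul, map_mul, e.apply_symm_apply, RingHom.id_apply, smul_eq_mul]

theorem trA_apply {K' : Type u} [Field K'] [Algebra k K'] (e : K ≃ₐ[k] K')
    (α : Derivation k K K →ₗ[K] K) (D : Derivation k K' K') :
    trA e α D = e (α (cDer e.symm D)) := rfl

theorem trA_zero {K' : Type u} [Field K'] [Algebra k K'] (e : K ≃ₐ[k] K')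
    (α : Derivation k K K →ₗ[K] K) (D : Derivation k K' K') :
    trA e α D = 0 ↔ α (cDer e.symm D) = 0 := by
  rw [trA_apply, map_eq_zero_iff _ e.injective]

theorem trA_li {K' : Type u} [Field K'] [Algebra k K'] (e : K ≃ₐ[k] K') {d : ℕ}
    {α : Fin d → Derivation k K K →ₗ[K] K} (hα : LinearIndependent K α) :
    LinearIndependent K' (fun l => trA e (α l)) := by
  rw [Fintype.linearIndependent_iff] at hα ⊢
  intro c hc l
  have h1 := hα (fun l => e.symm (c l)) (by
    ext D
    rw [LinearMap.sum_apply, LinearMap.zero_apply]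
    have h2 := LinearMap.congr_fun hc (cDer e D)
    rw [LinearMap.sum_apply, LinearMap.zero_apply] at h2
    have h3 := congrArg e.symm h2
    rw [map_sum, map_zero] at h3
    rw [← h3]
    refine Finset.sum_congr rfl fun i _ => ?_
    rw [LinearMap.smul_apply, LinearMap.smul_apply, smul_eq_mul, smul_eq_mul, map_mul, trA_apply,
      e.symm_apply_apply, cDer_cDer]) l
  exact (map_eq_zero_iff _ e.symm.injective).1 h1

theorem trA_reg {K' : Type u} [Field K'] [Algebra k K'] (e : K ≃ₐ[k] K') {d n m : ℕ}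
    {δ : Place k K → ℝ} {α : Fin d → Derivation k K K →ₗ[K] K} {a : K}
    (h : TensorReg n m δ α a) :
    TensorReg n m (fun v => δ (plc e v)) (fun l => trA e (α l)) (e a) := by
  intro v hv D hD
  have h1 := h (plc e v) (div_equiv e v hv) (fun j => cDer e.symm (D j))
    (fun j f hf => pres_equiv e v (D j) (hD j) f hf)
  have h2 : e a * (Matrix.of fun i j => trA e (α i) (D j)).det ^ m =
      e (a * (Matrix.of fun i j => α i (cDer e.symm (D j))).det ^ m) := by
    rw [map_mul, map_pow]
    congr 2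
    have h3 := RingHom.map_det (e : K →+* K') (Matrix.of fun i j => α i (cDer e.symm (D j)))
    exact h3.symm
  rw [h2]
  rcases h1 with h1 | h1
  · left; rw [h1, map_zero]
  · right; exact h1

theorem plc_symm {K' : Type u} [Field K'] [Algebra k K'] (e : K ≃ₐ[k] K')
    (v : Place k K) : plc e (plc e.symm v) = v := by
  ext f
  change v.ord (e.symm (e f)) = v.ord f
  rw [e.symm_apply_apply]

/-- transport of sections of pairs -/
theorem pair_equiv {K' : Type u} [Field K'] [Algebra k K'] (e : K ≃ₐ[k] K') {n A : ℕ}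
    (hess : Algebra.EssFiniteType k K) (hn : Algebra.trdeg k K = n)
    (δ : Place k K → ℝ) (δ' : Place k K' → ℝ) (hδ : ∀ v, 0 ≤ δ' v)
    (h : ∀ v, δ (plc e v) = δ' v)
    (hK : PairKod k K n δ A) : PairKod k K' n δ' A := by
  let iA : Algebra K K' := e.toRingEquiv.toRingHom.toAlgebra
  have t1 : IsScalarTower k K K' := IsScalarTower.of_algebraMap_eq fun c => (e.commutes c).symm
  have f1 : FiniteDimensional K K' :=
    Module.Finite.of_surjective (Algebra.linearMap K K') e.surjective
  refine pair_up hess hn (δ' := δ') ?_ hK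
  intro v w r hwv
  have h1 : LiesOn w (plc e w) 1 := by
    refine ⟨one_pos, fun f => ?_⟩
    rw [Nat.cast_one, one_mul]
    rfl
  obtain ⟨h2, h3⟩ := liesOn_unique hwv h1
  rw [h2, h3, h w]
  simp only [Nat.cast_one, one_mul, sub_sub_cancel]
  rw [max_eq_right (hδ w)]

/-- The theorem for a Galois extension, given by an isomorphism with a fixed field. -/
theorem main_isoA [FiniteDimensional K L] (hess : Algebra.EssFiniteType k K)
    {d r m : ℕ} (hnL : Algebra.trdeg k L = (d + r : ℕ))
    (G : Subgroup (L ≃ₐ[k] L)) [Finite G] (e : K ≃ₐ[k] fixedField G)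
    (he : ∀ x, ((e x : fixedField G) : L) = algebraMap K L x) (hm : 1 ≤ m)
    (δ : Place k K → ℝ) (hδ : ∀ v, 0 ≤ δ v) (δ' : Place k L → ℝ) (hδ' : IsPull δ δ')
    (α : Fin d → Derivation k K K →ₗ[K] K) (hα : LinearIndependent K α) (a : K)
    (ha : a ≠ 0) (hT : TensorReg (d + r) m δ α a)
    {ι : Type*} [Finite ι] (ω : ι → Derivation k K K →ₗ[K] L)
    (hregK : ∀ (i : ι) (v : Place k K) (w : Place k L) (e : ℕ), IsDivisorial v (d + r) →
      Over w v e → ∀ D, Pres v D → Ge w 0 (ω i D))
    (hker : ∀ D : Derivation k K K, (∀ l, α l D = 0) → (∀ i, ω i D = 0) → D = 0)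
    (hfaith : ∀ g : G, g ≠ 1 → ∃ (h : G) (i : ι) (D : Derivation k K K), (∀ l, α l D = 0) ∧
      (g : L ≃ₐ[k] L) ((h : L ≃ₐ[k] L) (ω i D)) ≠ (h : L ≃ₐ[k] L) (ω i D)) :
    (∃ (α' : Fin d → (Derivation k L L →ₗ[L] L)) (η : Fin r → (Derivation k L L →ₗ[L] L)),
      (∀ l, IsPullForm (α l) (α' l)) ∧ LinearIndependent L (Fin.append α' η) ∧
      ∀ i, ∀ w : Place k L, IsDivisorial w (d + r) → ∀ D : Derivation k L L, Pres w D →
        w.Reg (η i D)) ∧
      PairKod k K (d + r) δ 0 ∧
      ∀ a, PairKod k L (d + r) δ' a → PairKod k K (d + r) δ a := by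
  classical
  have hess' : Algebra.EssFiniteType k (fixedField G) :=
    (Algebra.EssFiniteType.iff_of_algEquiv e).1 hess
  have halgK := Pool.Agent.W721.PG.EFF2.alg_fixed G
  obtain ⟨hnK, -⟩ := Pool.Agent.W721.PG.EFF2.exists_basis (fixedField G) (d + r) hnL
  have hcc : ∀ D : Derivation k K K, cDer e.symm (cDer e D) = D := cDer_cDer e
  have hcc' : ∀ D : Derivation k (fixedField G) (fixedField G), cDer e (cDer e.symm D) = D :=
    cDer_cDer e.symm
  have key := fixed_A (k := k) (G := G) hess' hm hnL (fun v => δ (plc e v)) (fun v => hδ _) δ'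
    (by
      intro v w r hwv
      exact hδ' (plc e v) w r (over_equiv e he v w r hwv))
    (fun l => trA e (α l)) (trA_li e hα) (e a)
    (fun h0 => ha ((map_eq_zero_iff _ e.injective).1 h0)) (trA_reg e hT)
    (Set.range fun p : G × ι => act p.1 (trE e he (ω p.2))) (Set.finite_range _)
    (by
      rintro g _ ⟨⟨h, i⟩, rfl⟩
      refine ⟨(g * h, i), ?_⟩
      ext D
      rfl)
    (by
      intro D hDα hD
      have h1 : cDer e.symm D = 0 := by
        apply hker _ (fun l => (trA_zero e (α l) D).1 (hDα l))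
        intro i
        have h2 := hD _ ⟨(1, i), rfl⟩
        exact h2
      rw [← hcc' D, h1]
      ext x
      rw [cDer_apply]
      simp)
    (by
      intro g hg
      obtain ⟨h, i, D, hD, hne⟩ := hfaith g hg
      refine ⟨_, ⟨(h, i), rfl⟩, cDer e D, fun l => ?_, ?_⟩
      · rw [trA_zero, hcc]
        exact hD l
      · change (g : L ≃ₐ[k] L) ((h : L ≃ₐ[k] L) (ω i (cDer e.symm (cDer e D)))) ≠
          (h : L ≃ₐ[k] L) (ω i (cDer e.symm (cDer e D)))
        rw [hcc]
        exact hne)
    (by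
      rintro _ ⟨⟨g, i⟩, rfl⟩ v w r hv h D hD
      change Ge w 0 ((g : L ≃ₐ[k] L) (ω i (cDer e.symm D)))
      rw [← ge_comp]
      have h1 := over_comp h (g : L ≃ₐ[k] L) (fun z => z.2 g)
      exact hregK i (plc e v) _ r (div_equiv e v hv) (over_equiv e he v _ r h1) _
        (pres_equiv e v D hD))
  obtain ⟨⟨α', η, hα', hli, hη⟩, hK0, hdesc⟩ := key
  have hpl : ∀ v : Place k K, (fun v => δ (plc e v)) (plc e.symm v) = δ v := by
    intro v
    change δ (plc e (plc e.symm v)) = δ v
    rw [plc_symm]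
  refine ⟨⟨α', η, fun l D D' h => ?_, hli, hη⟩,
    pair_equiv e.symm hess' hnK _ δ hδ hpl hK0, fun a ha => pair_equiv e.symm hess' hnK _ δ hδ
      hpl (hdesc a ha)⟩
  have h1 := hα' l (cDer e D) D' (fun f => by
    have h2 : algebraMap (fixedField G) L f = algebraMap K L (e.symm f) := by
      rw [← he, e.apply_symm_apply]
      rfl
    rw [h2, h]
    have h3 : algebraMap K L (D (e.symm f)) = ((e (D (e.symm f)) : fixedField G) : L) :=
      (he _).symm
    rw [h3]
    rfl)
  rw [h1]
  change ((e (α l (cDer e.symm (cDer e D))) : fixedField G) : L) = _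
  rw [hcc, he]

end

end Pool.Agent.Y174
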