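import Pool.Agent.Y174.Multi

/-! Varieties whose cotangent bundle is generated by regular multivalued 1-forms: main theorem. -/

set_option autoImplicit false
set_option linter.overlappingInstances false
set_option linter.unusedSectionVars false

universe u v

open FF IntermediateField Pool.Agent.W619.PQ Pool.Agent.W619.PL Pool.Agent.W619.TW
  Pool.Agent.W603.LV Pool.Agent.W619.Y Pool.Agent.W672.PG Pool.Agent.W824.PG

namespace Pool.Agent.Y174

section

variable {k : Type v} [Field k] [CharZero k] {K L : Type u} [Field K] [Field L] [Algebra k K]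
  [Algebra k L] [Algebra K L] [IsScalarTower k K L]

/-- the Galois group of `L` over `K` as a group of automorphisms over `k` -/
def gal (k : Type v) (K L : Type u) [Field k] [Field K] [Field L] [Algebra k K]
    [Algebra k L] [Algebra K L] [IsScalarTower k K L] : Subgroup (L ≃ₐ[k] L) where
  carrier := {g | ∀ x : K, g (algebraMap K L x) = algebraMap K L x}
  mul_mem' := by
    intro a b ha hb x
    rw [AlgEquiv.mul_apply, hb, ha]
  one_mem' := fun x => rfl
  inv_mem' := by
    intro a ha x
    have h1 := congrArg (a⁻¹ : L ≃ₐ[k] L) (ha x)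
    rw [← AlgEquiv.mul_apply, inv_mul_cancel, AlgEquiv.one_apply] at h1
    exact h1.symm

/-- the elements of the group as automorphisms over `K` -/
noncomputable def galK (g : gal k K L) : L ≃ₐ[K] L :=
  AlgEquiv.ofRingEquiv (f := ((g : L ≃ₐ[k] L) : L ≃+* L)) g.2

theorem galK_apply (g : gal k K L) (z : L) : galK g z = (g : L ≃ₐ[k] L) z := rfl

theorem galK_inj : Function.Injective (galK : gal k K L → (L ≃ₐ[K] L)) := by
  intro g h hgh
  apply Subtype.ext
  ext z
  exact AlgEquiv.congr_fun hgh z

theorem gal_finite [FiniteDimensional K L] : Finite (gal k K L) :=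
  Finite.of_injective _ galK_inj

theorem mem_fixed [FiniteDimensional K L] [IsGalois K L] (x : L) :
    x ∈ fixedField (gal k K L) ↔ x ∈ Set.range (algebraMap K L) := by
  constructor
  · intro h
    refine (IsGalois.mem_range_algebraMap_iff_fixed x).2 fun g => ?_
    have h1 := h ⟨g.restrictScalars k, fun y => g.commutes y⟩
    exact h1
  · rintro ⟨y, rfl⟩ g
    exact g.2 y

/-- the isomorphism of the ground field with the fixed field -/
noncomputable def eqv [FiniteDimensional K L] [IsGalois K L] : K ≃ₐ[k] fixedField (gal k K L) :=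
  AlgEquiv.ofBijective
    ((IsScalarTower.toAlgHom k K L).codRestrict (fixedField (gal k K L)).toSubalgebra
      fun x => (mem_fixed (k := k) (algebraMap K L x)).2 ⟨x, rfl⟩)
    ⟨fun x y h => (algebraMap K L).injective (congrArg Subtype.val h), fun z => by
      obtain ⟨x, hx⟩ := (mem_fixed (k := k) z.1).1 z.2
      exact ⟨x, Subtype.ext hx⟩⟩

theorem eqv_coe [FiniteDimensional K L] [IsGalois K L] (x : K) :
    ((eqv (k := k) (K := K) (L := L) x : fixedField (gal k K L)) : L) = algebraMap K L x := rfl

theorem eqv_symm [FiniteDimensional K L] [IsGalois K L] (x : fixedField (gal k K L)) :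
    algebraMap K L ((eqv (k := k) (K := K) (L := L)).symm x) = x := by
  rw [← eqv_coe (k := k), AlgEquiv.apply_symm_apply]

/-- a multivalued form, transported to the fixed field -/
noncomputable def trf [FiniteDimensional K L] [IsGalois K L] (ω : Derivation k K K →ₗ[K] L) :
    Derivation k (fixedField (gal k K L)) (fixedField (gal k K L))
      →ₗ[fixedField (gal k K L)] L where
  toFun D := ω (cDer (eqv (k := k) (K := K) (L := L)).symm D)
  map_add' D D' := by
    rw [← map_add]
    congr 1
    ext x
    change (eqv (k := k) (K := K) (L := L)).symm ((D + D') _) = _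
    rw [Derivation.add_apply, map_add]
    rfl
  map_smul' c D := by
    have h1 : cDer (eqv (k := k) (K := K) (L := L)).symm (c • D) =
        ((eqv (k := k) (K := K) (L := L)).symm c) •
          cDer (eqv (k := k) (K := K) (L := L)).symm D := by
      ext x
      change (eqv (k := k) (K := K) (L := L)).symm ((c • D) _) = _
      rw [Derivation.smul_apply, smul_eq_mul, map_mul]
      rfl
    rw [h1, map_smul, Algebra.smul_def, eqv_symm, RingHom.id_apply, Algebra.smul_def]
    rfl

theorem trf_apply [FiniteDimensional K L] [IsGalois K L] (ω : Derivation k K K →ₗ[K] L)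
    (D : Derivation k (fixedField (gal k K L)) (fixedField (gal k K L))) :
    trf ω D = ω (cDer (eqv (k := k) (K := K) (L := L)).symm D) := rfl

theorem cDer_cDer {K K' : Type u} [Field K] [Algebra k K] [Field K'] [Algebra k K']
    (g : K ≃ₐ[k] K') (D : Derivation k K K) : cDer g.symm (cDer g D) = D := by
  ext x
  rw [cDer_apply, cDer_apply]
  simp

theorem trdeg_up [Algebra.IsAlgebraic K L] {n : ℕ} (hn : Algebra.trdeg k K = n) :
    Algebra.trdeg k L = n := by
  obtain ⟨y, hy⟩ := Pool.Agent.W636.PG.exists_basis k K n hn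
  have hyL : IsTranscendenceBasis k (algebraMap K L ∘ y) := hy.algebraMap_comp
  have h1 := hyL.lift_cardinalMk_eq_trdeg
  simpa using h1.symm

/-- Main theorem. -/
theorem main1 [FiniteDimensional K L] [IsGalois K L] (hess : Algebra.EssFiniteType k K) {n : ℕ}
    (hn : Algebra.trdeg k K = n) {ι : Type*} [Finite ι] (ω : ι → Derivation k K K →ₗ[K] L)
    (hreg : ∀ i, MultiReg n (ω i)) (hker : ∀ D, (∀ i, ω i D = 0) → D = 0)
    (hgen : IntermediateField.adjoin K {z | ∃ (g : L ≃ₐ[K] L) (i : ι) (D : Derivation k K K),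
      g (ω i D) = z} = ⊤) :
    MaxAlb k L n ∧ KodTr k K n 0 ∧ (∀ a, KodTr k K n a ↔ KodTr k L n a) ∧
      ∀ a, NumLe k L n (fun _ => False) a → NumLe k K n (fun _ => False) a := by
  classical
  have hGf : Finite (gal k K L) := gal_finite
  have hnL : Algebra.trdeg k L = n := trdeg_up (K := K) hn
  let e := eqv (k := k) (K := K) (L := L)
  -- the set of the conjugates of the forms
  let S : Set (Derivation k (fixedField (gal k K L)) (fixedField (gal k K L))
      →ₗ[fixedField (gal k K L)] L) := Set.range fun p : gal k K L × ι => act p.1 (trf (ω p.2))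
  have hSf : S.Finite := Set.finite_range _
  have hSg : ∀ g : gal k K L, ∀ θ ∈ S, act g θ ∈ S := by
    rintro g _ ⟨⟨h, i⟩, rfl⟩
    refine ⟨(g * h, i), ?_⟩
    ext D
    simp only [act_apply]
    rfl
  have hker' : ∀ D : Derivation k (fixedField (gal k K L)) (fixedField (gal k K L)),
      (∀ θ ∈ S, θ D = 0) → D = 0 := by
    intro D hD
    have h1 : cDer e.symm D = 0 := by
      apply hker
      intro i
      have h2 := hD _ ⟨(1, i), rfl⟩
      exact h2
    have h2 : cDer e (cDer e.symm D) = D := by
      have := cDer_cDer (k := k) e.symm D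
      exact this
    rw [← h2, h1]
    ext x
    rw [cDer_apply]
    simp
  have hover : ∀ (v : Place k (fixedField (gal k K L))) (w : Place k L) (r : ℕ), Over w v r →
      Over w (plc e v) r := by
    intro v w r h
    refine ⟨h.1, fun f => ?_⟩
    have h1 := h.2 (e f)
    exact h1
  have hdiv : ∀ v : Place k (fixedField (gal k K L)), IsDivisorial v n →
      IsDivisorial (plc e v) n := by
    rintro v ⟨y, hy⟩
    refine ⟨fun i => e.symm (y i), fun p hp => ?_⟩
    obtain ⟨h1, h2⟩ := hy p hp
    have h3 : MvPolynomial.aeval (fun i => e.symm (y i)) p =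
        e.symm (MvPolynomial.aeval y p) := by
      have := MvPolynomial.comp_aeval_apply (f := y) (e.symm : _ →ₐ[k] K) p
      exact this.symm
    rw [h3]
    refine ⟨(map_ne_zero_iff _ e.symm.injective).2 h1, ?_⟩
    change v.ord (e (e.symm _)) = 0
    rw [e.apply_symm_apply]
    exact h2
  have hpres : ∀ (v : Place k (fixedField (gal k K L)))
      (D : Derivation k (fixedField (gal k K L)) (fixedField (gal k K L))), Pres v D →
      Pres (plc e v) (cDer e.symm D) := by
    intro v D hD f hf
    have h1 : v.Reg (e f) := by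
      rcases hf with hf | hf
      · left; rw [hf, map_zero]
      · right; exact hf
    have h2 := hD _ h1
    have h3 : cDer e.symm D f = e.symm (D (e f)) := rfl
    rw [h3]
    rcases h2 with h2 | h2
    · left; rw [h2, map_zero]
    · right
      change 0 ≤ v.ord (e (e.symm _))
      rw [e.apply_symm_apply]
      exact h2
  have hregK : ∀ (i : ι) (v : Place k K) (w : Place k L) (r : ℕ), IsDivisorial v n →
      Over w v r → ∀ D, Pres v D → Ge w 0 (ω i D) := fun i v w r hv h D hD =>
    (hreg i).ge h hv hD
  have hreg' : ∀ θ ∈ S, ∀ (v : Place k (fixedField (gal k K L))) (w : Place k L) (r : ℕ),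
      IsDivisorial v n → Over w v r → ∀ D, Pres v D → Ge w 0 (θ D) := by
    rintro _ ⟨⟨g, i⟩, rfl⟩ v w r hv h D hD
    change Ge w 0 ((g : L ≃ₐ[k] L) (ω i (cDer e.symm D)))
    rw [← ge_comp]
    have h1 := over_comp h (g : L ≃ₐ[k] L) (fun z => z.2 g)
    exact hregK i (plc e v) _ r (hdiv v hv) (hover v _ r h1) _ (hpres v D hD)
  have hfaith : ∀ g : gal k K L, g ≠ 1 → ∃ θ ∈ S, act g θ ≠ θ := by
    intro g hg
    by_contra hcon
    push Not at hcon
    apply hg
    -- `g` fixes all the values
    have h1 : ∀ (h : L ≃ₐ[K] L) i D, (g : L ≃ₐ[k] L) (h (ω i D)) = h (ω i D) := by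
      intro h i D
      have h2 := hcon _ ⟨(⟨h.restrictScalars k, fun y => h.commutes y⟩, i), rfl⟩
      have h3 := LinearMap.congr_fun h2 (cDer e D)
      change (g : L ≃ₐ[k] L) (h (ω i (cDer e.symm (cDer e D)))) =
        h (ω i (cDer e.symm (cDer e D))) at h3
      rw [cDer_cDer] at h3
      exact h3
    have h2 : IntermediateField.adjoin K {z | ∃ (g : L ≃ₐ[K] L) (i : ι)
        (D : Derivation k K K), g (ω i D) = z} ≤
        IntermediateField.fixedField (Subgroup.zpowers (galK g)) := by
      rw [IntermediateField.adjoin_le_iff]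
      rintro _ ⟨h', i, D, rfl⟩ ⟨h, hh⟩
      obtain ⟨m, rfl⟩ := Subgroup.mem_zpowers_iff.1 hh
      have h3 : galK g (h' (ω i D)) = h' (ω i D) := h1 h' i D
      have h4 : galK g ∈ MulAction.stabilizer (L ≃ₐ[K] L) (h' (ω i D)) := h3
      exact Subgroup.zpow_mem _ h4 m
    rw [hgen, top_le_iff] at h2
    apply Subtype.ext
    ext z
    have h3 : z ∈ IntermediateField.fixedField (Subgroup.zpowers (galK g)) := by
      rw [h2]; trivial
    exact h3 ⟨galK g, Subgroup.mem_zpowers _⟩
  -- maximal Albanese dimension
  have halgK := Pool.Agent.W721.PG.EFF2.alg_fixed (gal k K L)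
  have hfin := fixed_finite (gal k K L)
  obtain ⟨hnK, z, hz⟩ := Pool.Agent.W721.PG.EFF2.exists_basis (fixedField (gal k K L)) n hnL
  obtain ⟨E, hE⟩ := Pool.Agent.W636.PG.exists_duals k (fixedField (gal k K L)) n z hz
  have hess' : Algebra.EssFiniteType k (fixedField (gal k K L)) :=
    (Algebra.EssFiniteType.iff_of_algEquiv e).1 hess
  have hmax : MaxAlb k L n := maxAlb_of hess' hnK z hz E hE S
    (fun θ hθ v w r hv h D hD => hreg' θ hθ v w r hv h D hD) (span_top z hz E hE S hSg hker')
  obtain ⟨N, Θ, hΘ, hΘr, hΘ0, hΘv⟩ := exists_theta hnL S hSf hSg hker' hfaith hreg'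
  have hdesc : ∀ a, KodTr k L n a → KodTr k K n a := by
    intro a ha
    have h1 := kod_desc hnL (gal k K L) N Θ hΘ hΘr hΘ0 hΘv ha
    exact kod_equiv e.symm hess' hnK h1
  obtain ⟨y, hy⟩ := Pool.Agent.W636.PG.exists_basis k L n hnL
  refine ⟨hmax, hdesc 0 (kod_zero hy hmax), fun a => ⟨fun h => kod_up hess hn h, hdesc a⟩, ?_⟩
  have h1 := (pTRANS k K L n hn (fun y hy => fin_adj hess y hy) (fun _ => False)).2.2
  rw [bdUp_false] at h1
  exact h1

end

end Pool.Agent.Y174
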