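import Pool.Agent.Y174.V5

/-! The geometric generic fibre: linear disjointness, the number of sections on the fibre. -/

set_option autoImplicit false
set_option linter.overlappingInstances false
set_option linter.unusedSectionVars false

universe u v

open FF IntermediateField Polynomial Pool.Agent.W619.PQ Pool.Agent.W619.PL Pool.Agent.W619.TW
  Pool.Agent.W603.LV Pool.Agent.W619.Y Pool.Agent.W824.PG

namespace Pool.Agent.Y174

section

variable {L K Λ F : Type*} [Field L] [Field K] [Field Λ] [Field F] [Algebra L K] [Algebra L Λ]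
  [Algebra Λ F] [Algebra K F] [Algebra L F] [IsScalarTower L Λ F] [IsScalarTower L K F]

/-- the degree over the larger field -/
theorem minpoly_deg (hcl : ∀ x : K, IsIntegral L x → ∃ y : L, algebraMap L K y = x) {θ : Λ}
    (hθ : IsIntegral L θ) : (minpoly L θ).natDegree ≤ (minpoly K (algebraMap Λ F θ)).natDegree := by
  have h1 : IsIntegral L (algebraMap Λ F θ) := hθ.algebraMap
  have h2 : IsIntegral K (algebraMap Λ F θ) := h1.tower_top
  have hdvd : minpoly K (algebraMap Λ F θ) ∣ (minpoly L θ).map (algebraMap L K) := by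
    apply minpoly.dvd
    rw [aeval_map_algebraMap, aeval_algebraMap_apply, minpoly.aeval, map_zero]
  have hmem : minpoly K (algebraMap Λ F θ) ∈ lifts (algebraMap L K) := by
    rw [lifts_iff_coeff_lifts]
    intro i
    obtain ⟨y, hy⟩ := hcl _ (isIntegral_coeff_of_dvd _ _ (minpoly.monic hθ) (minpoly.monic h2)
      hdvd i)
    exact ⟨y, hy⟩
  obtain ⟨q, hq1, hq2, hq3⟩ := lifts_and_natDegree_eq_and_monic hmem (minpoly.monic h2)
  have h3 : aeval θ q = 0 := by
    have h4 : algebraMap Λ F (aeval θ q) = 0 := by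
      rw [← aeval_algebraMap_apply, ← aeval_map_algebraMap K, hq1, minpoly.aeval]
    exact (map_eq_zero _).1 h4
  have h4 := minpoly.dvd L θ h3
  rw [← hq2]
  exact natDegree_le_of_dvd h4 hq3.ne_zero

/-- **Linear disjointness.** -/
theorem lin_disj [CharZero L] [Algebra.IsAlgebraic L Λ]
    (hcl : ∀ x : K, IsIntegral L x → ∃ y : L, algebraMap L K y = x) {N : ℕ} {f : Fin N → K}
    (hf : LinearIndependent L f) : LinearIndependent Λ fun l => algebraMap K F (f l) := by
  classical
  rw [Fintype.linearIndependent_iff]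
  intro c hc
  let M : IntermediateField L Λ := IntermediateField.adjoin L (Set.range c)
  have hMfin : FiniteDimensional L M :=
    IntermediateField.finiteDimensional_adjoin fun x _ => Algebra.IsIntegral.isIntegral x
  let pb : PowerBasis L M := Field.powerBasisOfFiniteOfSeparable L M
  have hcM : ∀ l, c l ∈ M := fun l => IntermediateField.subset_adjoin L _ ⟨l, rfl⟩
  let θ : Λ := (pb.gen : Λ)
  have hθ : IsIntegral L θ := Algebra.IsIntegral.isIntegral θ
  have hdim : pb.dim ≤ (minpoly K (algebraMap Λ F θ)).natDegree := by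
    refine le_trans (le_of_eq ?_) (minpoly_deg hcl hθ)
    rw [← pb.natDegree_minpoly]
    have h1 : minpoly L θ = minpoly L pb.gen :=
      minpoly.algebraMap_eq (B := M) (B' := Λ) Subtype.val_injective pb.gen
    rw [h1]
  have hpow : LinearIndependent K fun i : Fin pb.dim => (algebraMap Λ F θ) ^ (i : ℕ) := by
    have h1 := (linearIndependent_pow (K := K) (algebraMap Λ F θ)).comp (Fin.castLE hdim)
      (Fin.castLE_injective hdim)
    exact h1
  have hexp : ∀ l, algebraMap Λ F (c l) = ∑ j : Fin pb.dim,
      algebraMap L F (pb.basis.repr ⟨c l, hcM l⟩ j) * (algebraMap Λ F θ) ^ (j : ℕ) := by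
    intro l
    have h1 := congrArg (fun z : M => algebraMap Λ F (z : Λ))
      (pb.basis.sum_repr ⟨c l, hcM l⟩)
    simp only at h1
    rw [← h1, IntermediateField.coe_sum, map_sum]
    refine Finset.sum_congr rfl fun j _ => ?_
    rw [pb.basis_eq_pow, IntermediateField.coe_smul, IntermediateField.coe_pow, Algebra.smul_def,
      map_mul, map_pow, ← IsScalarTower.algebraMap_apply L Λ F]
  have h0 : ∑ j : Fin pb.dim, (∑ l, pb.basis.repr ⟨c l, hcM l⟩ j • f l) •
      (algebraMap Λ F θ) ^ (j : ℕ) = 0 := by
    rw [← hc]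
    have h1 : ∀ l, c l • algebraMap K F (f l) = ∑ j : Fin pb.dim,
        (pb.basis.repr ⟨c l, hcM l⟩ j • f l) • (algebraMap Λ F θ) ^ (j : ℕ) := by
      intro l
      rw [Algebra.smul_def, hexp, Finset.sum_mul]
      refine Finset.sum_congr rfl fun j _ => ?_
      rw [Algebra.smul_def, Algebra.smul_def, map_mul, ← IsScalarTower.algebraMap_apply L K F]
      ring
    rw [Finset.sum_congr rfl fun l _ => h1 l, Finset.sum_comm]
    exact Finset.sum_congr rfl fun j _ => Finset.sum_smul
  have h1 := Fintype.linearIndependent_iff.1 hpow _ h0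
  have h2 : ∀ l j, pb.basis.repr ⟨c l, hcM l⟩ j = 0 := fun l j =>
    Fintype.linearIndependent_iff.1 hf _ (h1 j) l
  intro l
  have h3 : (⟨c l, hcM l⟩ : M) = 0 := by
    apply pb.basis.repr.injective
    ext j
    rw [h2 l j, map_zero]
    rfl
  exact congrArg Subtype.val h3

end

section

variable {k : Type v} {L K Λ F : Type u} [Field k] [CharZero k] [Field L] [Field K] [Field Λ]
  [Field F] [Algebra k L] [Algebra k K] [Algebra L K] [IsScalarTower k L K] [Algebra L Λ]
  [Algebra Λ F] [Algebra K F] [Algebra L F] [IsScalarTower L Λ F] [IsScalarTower L K F]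
  [Algebra k Λ] [Algebra k F] [IsScalarTower k Λ F] [IsScalarTower k K F]
  [IsScalarTower k L Λ]

/-- The number of sections which are linearly independent over the function field of the base. -/
theorem fib_count (hess : Algebra.EssFiniteType k K) [Algebra.IsAlgebraic L Λ]
    (hgenF : IntermediateField.adjoin Λ (Set.range (algebraMap K F)) = ⊤)
    (hcl : ∀ x : K, IsIntegral L x → ∃ y : L, algebraMap L K y = x)
    {d r : ℕ} (hL : Algebra.trdeg k L = d) (hn : Algebra.trdeg k K = (d + (r + 1) : ℕ))
    {t : Fin d → L} (ht : IsTranscendenceBasis k t) {x : Fin (r + 1) → K}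
    (hx : IsTranscendenceBasis L x) {E : Fin (d + (r + 1)) → Derivation k K K}
    (hE : ∀ i j, E i (Fin.append (algebraMap L K ∘ t) x j) = if i = j then 1 else 0)
    {δ : Place k K → ℝ} {δ' : Place Λ F → ℝ} (hδ : IsPullFib δ δ') {h : ℕ}
    (hnum : PairNum Λ F (r + 1) δ' h) (S : Finset K) :
    ∃ C : ℕ, ∀ m N : ℕ, 1 ≤ m → ∀ ω : Fin N → (Fin (d + (r + 1)) → Derivation k K K) → K,
      (∀ l, PairSec k K (d + (r + 1)) δ S m 1 (ω l)) →
      Module.finrank L (Submodule.span L (Set.range fun l => ω l E)) ≤ C * m ^ h := by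
  classical
  have hL0 : CharZero L := charZero_of_injective_algebraMap (algebraMap k L).injective
  have hΛ0 : CharZero Λ := charZero_of_injective_algebraMap (algebraMap k Λ).injective
  have halg : Algebra.IsAlgebraic K F := alg_KF (L := L) hgenF
  have hLK := trdeg_LK (L := L) hL hn
  have hx' := basis_F hLK hgenF hx
  obtain ⟨E', hE'⟩ := Pool.Agent.W636.PG.exists_duals Λ F (r + 1) _ hx'
  have hdet : (Matrix.of fun a b => E' a (algebraMap K F (x b))).det = 1 := by
    have h1 : (Matrix.of fun a b => E' a (algebraMap K F (x b))) = 1 := by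
      ext a b
      rw [Matrix.of_apply, Matrix.one_apply]
      exact hE' a b
    rw [h1, Matrix.det_one]
  obtain ⟨C, hC⟩ := hnum (S.image (algebraMap K F))
  refine ⟨C, fun m N hm ω hω => ?_⟩
  obtain ⟨κ, a, ha, hspan, hli⟩ := exists_linearIndependent' L fun l => ω l E
  have hκ : Finite κ := Finite.of_injective a ha
  have hκ' := Fintype.ofFinite κ
  rw [← hspan, finrank_span_eq_card hli]
  let e := Fintype.equivFin κ
  refine hC m (Fintype.card κ) hm ⟨fun i D => (Matrix.of fun a b =>
    D a (algebraMap K F (x b))).det ^ m * algebraMap K F (ω (a (e.symm i)) E), ?_,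
    fun i => res_sec hess hn ht hx hE hδ (hω _)⟩
  have h1 : LinearIndependent L fun i => ω (a (e.symm i)) E := hli.comp e.symm e.symm.injective
  have h2 := lin_disj (Λ := Λ) (F := F) hcl h1
  rw [Fintype.linearIndependent_iff] at h2 ⊢
  intro c hc
  apply h2
  have h3 := congrFun hc E'
  rw [Finset.sum_apply] at h3
  simp only [Pi.smul_apply, Pi.zero_apply, hdet, one_pow, one_mul] at h3
  exact h3

end

end Pool.Agent.Y174
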