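import Pool.Agent.Y174.U3
import Pool.Agent.Y173.QA.Fr

/-! The geometric generic fibre: fields. -/

set_option autoImplicit false
set_option linter.overlappingInstances false
set_option linter.unusedSectionVars false

universe u v

open FF IntermediateField Pool.Agent.W619.PQ Pool.Agent.W619.PL Pool.Agent.W619.TW
  Pool.Agent.W603.LV Pool.Agent.W619.Y Pool.Agent.W824.PG

namespace Pool.Agent.Y174

section fields

variable {k : Type v} {L K Λ F : Type u} [Field k] [Field L] [Field K] [Field Λ] [Field F]
  [Algebra k L] [Algebra k K] [Algebra L K] [IsScalarTower k L K] [Algebra L Λ] [Algebra Λ F]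
  [Algebra K F] [Algebra L F] [IsScalarTower L Λ F] [IsScalarTower L K F]

/-- the function field of the geometric generic fibre is algebraic over `K` -/
theorem alg_KF [Algebra.IsAlgebraic L Λ]
    (hgen : IntermediateField.adjoin Λ (Set.range (algebraMap K F)) = ⊤) :
    Algebra.IsAlgebraic K F := by
  let A : IntermediateField K F := algebraicClosure K F
  let B : IntermediateField Λ F :=
    { A.toSubfield with
      algebraMap_mem' := fun c => by
        change algebraMap Λ F c ∈ algebraicClosure K F
        rw [mem_algebraicClosure_iff]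
        have h1 : IsAlgebraic L c := Algebra.IsAlgebraic.isAlgebraic c
        have h2 : IsAlgebraic L (algebraMap Λ F c) := h1.algebraMap
        exact h2.tower_top K }
  have h1 : (⊤ : IntermediateField Λ F) ≤ B := by
    rw [← hgen, IntermediateField.adjoin_le_iff]
    rintro _ ⟨x, rfl⟩
    exact A.algebraMap_mem x
  refine ⟨fun x => ?_⟩
  have h2 : x ∈ A := h1 (by trivial : x ∈ (⊤ : IntermediateField Λ F))
  exact mem_algebraicClosure_iff.1 h2

/-- transcendence degrees -/
theorem trdeg_LK {d r : ℕ} (hL : Algebra.trdeg k L = d) (hK : Algebra.trdeg k K = (d + r : ℕ)) :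
    Algebra.trdeg L K = r := by
  have h1 := trdeg_add_eq k L (A := K)
  rw [hL, hK] at h1
  push_cast at h1
  exact Cardinal.eq_of_add_eq_add_left h1 Cardinal.natCast_lt_aleph0

theorem trdeg_F [Algebra.IsAlgebraic L Λ] {r : ℕ} (hr : Algebra.trdeg L K = r)
    (hgen : IntermediateField.adjoin Λ (Set.range (algebraMap K F)) = ⊤) :
    Algebra.trdeg Λ F = r := by
  have := alg_KF (L := L) hgen
  have h1 := trdeg_add_eq L K (A := F)
  have h2 := trdeg_add_eq L Λ (A := F)
  have h3 : Algebra.trdeg K F = 0 := trdeg_eq_zero
  have h4 : Algebra.trdeg L Λ = 0 := trdeg_eq_zero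
  rw [h3, add_zero, hr] at h1
  rw [h4, zero_add] at h2
  rw [h2, ← h1]

theorem basis_F [Algebra.IsAlgebraic L Λ] {r : ℕ} (hr : Algebra.trdeg L K = r)
    (hgen : IntermediateField.adjoin Λ (Set.range (algebraMap K F)) = ⊤) {x : Fin r → K}
    (hx : IsTranscendenceBasis L x) : IsTranscendenceBasis Λ (algebraMap K F ∘ x) := by
  have h1 : AlgebraicIndependent L (algebraMap K F ∘ x) :=
    hx.1.map' (f := IsScalarTower.toAlgHom L K F) (algebraMap K F).injective
  have h2 : AlgebraicIndependent Λ (algebraMap K F ∘ x) := h1.extendScalars Λ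
  refine h2.isTranscendenceBasis_of_lift_trdeg_le_of_finite ?_
  rw [trdeg_F hr hgen]
  simp

/-- the coordinates of the total space -/
theorem basis_append {d r : ℕ} {t : Fin d → L} (ht : IsTranscendenceBasis k t) {x : Fin r → K}
    (hx : IsTranscendenceBasis L x) :
    IsTranscendenceBasis k (Fin.append (algebraMap L K ∘ t) x) := by
  have h1 := ht.sumElim_comp hx
  have h2 : (Fin.append (algebraMap L K ∘ t) x) ∘ finSumFinEquiv ∘ Sum.swap =
      Sum.elim x (algebraMap L K ∘ t) := by
    funext i
    rcases i with i | i
    · simp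
    · simp
  have h3 : (Fin.append (algebraMap L K ∘ t) x) =
      Sum.elim x (algebraMap L K ∘ t) ∘ (Sum.swap ∘ finSumFinEquiv.symm) := by
    rw [← h2]
    funext i
    simp
  rw [h3]
  exact h1.comp_equiv (finSumFinEquiv.symm.trans (Equiv.sumComm _ _))

/-- finite generation -/
theorem ess_F (hess : Algebra.EssFiniteType k K)
    (hgen : IntermediateField.adjoin Λ (Set.range (algebraMap K F)) = ⊤) [Algebra k Λ]
    [Algebra k F] [IsScalarTower k Λ F] [IsScalarTower k K F] : Algebra.EssFiniteType Λ F := by
  classical
  obtain ⟨s, hs⟩ := IntermediateField.fg_top k K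
  let A : IntermediateField Λ F := IntermediateField.adjoin Λ (algebraMap K F '' (s : Set K))
  have h1 : Set.range (algebraMap K F) ⊆ A := by
    rintro _ ⟨x, rfl⟩
    have h2 : (⊤ : IntermediateField k K) ≤
        ((A.restrictScalars k).comap (IsScalarTower.toAlgHom k K F)) := by
      rw [← hs, IntermediateField.adjoin_le_iff]
      intro y hy
      exact IntermediateField.subset_adjoin Λ _ ⟨y, hy, rfl⟩
    exact h2 (by trivial : x ∈ (⊤ : IntermediateField k K))
  have h2 : A = ⊤ := by
    rw [eq_top_iff, ← hgen, IntermediateField.adjoin_le_iff]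
    exact h1
  have h3 : (⊤ : IntermediateField Λ F).FG := by
    rw [← h2]
    exact IntermediateField.fg_adjoin_of_finite (s.finite_toSet.image _)
  have h4 := IntermediateField.essFiniteType_iff.2 h3
  exact (Algebra.EssFiniteType.iff_of_algEquiv IntermediateField.topEquiv).1 h4

end fields

end Pool.Agent.Y174
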