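import Pool.Agent.Y173.QA.Inf1

/-!
Functions with bounded poles as vectors of polynomials (following `Pool.Agent.TH756.PN.Fd`).
-/

set_option autoImplicit false
set_option linter.overlappingInstances false
set_option linter.unusedSectionVars false

open FF MvPolynomial IntermediateField Pool.Agent.W603.LV Pool.Agent.W619.PQ
open Pool.Agent.TH122.AB

namespace Pool.Agent.Y174

section

variable {k K : Type} [Field k] [CharZero k] [Field K] [Algebra k K] {d : ℕ}

theorem fin_emb (G : Subgroup (K ≃ₐ[k] K)) [Finite G] {X : Fin d → fixedField G}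
    (hX : Gens (k := k) X) (hZ : IsTranscendenceBasis k fun j => (X j : K))
    {v0 : Fin d → Place k (fixedField G)}
    (hv0 : ∀ b, ∀ P : MvPolynomial (Fin d) k, P ≠ 0 →
      (v0 b).ord (aeval X P) = - (degreeOf b P : ℤ))
    {w0 : Fin d → Place k K} {e0 : Fin d → ℕ} (h0 : ∀ t, Over (w0 t) (v0 t) (e0 t))
    (S : Finset K) :
    ∃ (δ : ℕ) (Ψ : K →ₗ[fixedField G] (Fin δ → K)) (c0 : ℕ), Function.Injective Ψ ∧
      ∀ (D : Fin d → ℕ) (f : K), Fine G X S f →
        (∀ t, ∀ g ∈ G, Ge (w0 t) (- (D t : ℤ)) (g f)) →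
        ∀ i, ∃ P : MvPolynomial (Fin d) k, Ψ f i = aeval (fun j => (X j : K)) P ∧
          ∀ b, degreeOf b P ≤ D b + c0 := by
  classical
  have hGal : IsGaloisGroup G (fixedField G) K := isGaloisGroup_fixed G
  have hfd : FiniteDimensional (fixedField G) K := IsGaloisGroup.finiteDimensional G _ K
  have hfix : ∀ g ∈ G, ∀ z : fixedField G, g (z : K) = z := fun g hg z => z.2 ⟨g, hg⟩
  have hcK : CharZero K := charZero_of_injective_algebraMap (algebraMap k K).injective
  let Z : Fin d → K := fun j => (X j : K)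
  have hXZ : ∀ P : MvPolynomial (Fin d) k, ((aeval X P : fixedField G) : K) = aeval Z P := by
    intro P
    exact (MvPolynomial.aeval_algebraMap_apply K X P).symm
  let b := Module.finBasis (fixedField G) K
  let δ := Module.finrank (fixedField G) K
  -- a common denominator
  obtain ⟨Q, hQ0, hQS, hQb⟩ : ∃ Q : MvPolynomial (Fin d) k, Q ≠ 0 ∧
      (∀ s ∈ S, ∀ g ∈ G, ∀ w : Place k K, (∀ P : MvPolynomial (Fin d) k, w.Reg (aeval Z P)) →
        w.Reg (aeval Z Q * g s)) ∧
      (∀ i, ∀ g ∈ G, ∀ w : Place k K, (∀ P : MvPolynomial (Fin d) k, w.Reg (aeval Z P)) →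
        w.Reg (aeval Z Q * g (b i))) := by
    have hGfin : (G : Set (K ≃ₐ[k] K)).Finite := Set.toFinite _
    let T : Finset K := (hGfin.toFinset.biUnion fun g => S.image fun s => g s) ∪
      (hGfin.toFinset.biUnion fun g => Finset.univ.image fun i => g (b i))
    choose q hq0 hq using fun z : K => exists_mult hZ z
    have hmain : ∀ z ∈ T, ∀ w : Place k K, (∀ P : MvPolynomial (Fin d) k, w.Reg (aeval Z P)) →
        w.Reg (aeval Z (∏ t ∈ T, q t) * z) := by
      intro z hz w hw
      rw [← Finset.mul_prod_erase T q hz, map_mul, mul_comm (aeval Z (q z)), mul_assoc]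
      exact w.reg_mul (hw _) (reg_of_int hw (hq z))
    refine ⟨∏ t ∈ T, q t, Finset.prod_ne_zero_iff.2 fun t _ => hq0 t, ?_, ?_⟩
    · intro s hs g hg w hw
      refine hmain _ ?_ w hw
      refine Finset.mem_union_left _ (Finset.mem_biUnion.2 ⟨g, by simpa using hg, ?_⟩)
      exact Finset.mem_image_of_mem _ hs
    · intro i g hg w hw
      refine hmain _ ?_ w hw
      refine Finset.mem_union_right _ (Finset.mem_biUnion.2 ⟨g, by simpa using hg, ?_⟩)
      exact Finset.mem_image_of_mem _ (Finset.mem_univ i)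
  have hQK : aeval Z Q ≠ 0 := by
    rw [← hXZ]
    have := hX.ne hQ0
    simpa using this
  have hgQ : ∀ g ∈ G, g (aeval Z Q) = aeval Z Q := by
    intro g hg
    rw [← hXZ]
    exact hfix g hg _
  -- the trace
  let _ : Fintype G := Fintype.ofFinite G
  let Tr : K →ₗ[fixedField G] K :=
    { toFun := fun z => ∑ g : G, (g : K ≃ₐ[k] K) z
      map_add' := by
        intro a b
        simp only [map_add, Finset.sum_add_distrib]
      map_smul' := by
        intro c a
        rw [RingHom.id_apply, Finset.smul_sum]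
        refine Finset.sum_congr rfl fun g _ => ?_
        rw [Algebra.smul_def, Algebra.smul_def, map_mul]
        congr 1
        exact hfix g g.2 c }
  have hTr : ∀ z, Tr z = ∑ g : G, (g : K ≃ₐ[k] K) z := fun z => rfl
  have hTrfix : ∀ z, Tr z ∈ fixedField G := by
    intro z g
    change (g : K ≃ₐ[k] K) (Tr z) = Tr z
    rw [hTr, map_sum]
    exact Fintype.sum_equiv (Equiv.mulLeft g) _ _ fun h => rfl
  have hTrlin : ∀ (c : fixedField G) z, Tr (z * c) = Tr z * c := by
    intro c z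
    rw [hTr, hTr, Finset.sum_mul]
    refine Finset.sum_congr rfl fun g _ => ?_
    rw [map_mul, hfix g g.2 c]
  let Ψ : K →ₗ[fixedField G] (Fin δ → K) := LinearMap.pi fun i =>
    Tr.comp (LinearMap.mulRight (fixedField G) (aeval Z Q ^ 2 * b i))
  have hΨ : ∀ f i, Ψ f i = Tr (f * (aeval Z Q ^ 2 * b i)) := fun f i => rfl
  have hΨinj : Function.Injective Ψ := by
    rw [← LinearMap.ker_eq_bot, LinearMap.ker_eq_bot']
    intro f hf
    by_contra hf0
    have h1 : ∀ z, Tr (f * (aeval Z Q ^ 2 * z)) = 0 := by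
      intro z
      rw [← b.sum_repr z, Finset.mul_sum, Finset.mul_sum, map_sum]
      refine Finset.sum_eq_zero fun i _ => ?_
      have h2 : f * (aeval Z Q ^ 2 * (b.repr z i • b i)) =
          (f * (aeval Z Q ^ 2 * b i)) * (b.repr z i : fixedField G) := by
        rw [Algebra.smul_def]
        change f * (aeval Z Q ^ 2 * ((b.repr z i : K) * b i)) = _
        ring
      rw [h2, hTrlin, ← hΨ, congrFun hf i]
      simp
    have h2 := h1 ((f * aeval Z Q ^ 2)⁻¹)
    have h3 : f * (aeval Z Q ^ 2 * (f * aeval Z Q ^ 2)⁻¹) = 1 := by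
      field_simp
    rw [h3, hTr] at h2
    simp only [map_one, Finset.sum_const, Finset.card_univ, nsmul_eq_mul, mul_one] at h2
    have h4 : Fintype.card G ≠ 0 := Fintype.card_ne_zero
    exact h4 (by exact_mod_cast h2)
  -- the bound at infinity
  obtain ⟨c0, hc0⟩ : ∃ c0 : ℕ, ∀ t i, ∀ g ∈ G, Ge (w0 t) (- (c0 : ℤ)) (g (aeval Z Q ^ 2 * b i)) := by
    have hGfin : (G : Set (K ≃ₐ[k] K)).Finite := Set.toFinite _
    let T : Finset K := hGfin.toFinset.biUnion fun g => Finset.univ.image fun i =>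
      g (aeval Z Q ^ 2 * b i)
    refine ⟨(∑ t, ∑ z ∈ T, |(w0 t).ord z|).toNat, fun t i g hg => Or.inr ?_⟩
    have hz : g (aeval Z Q ^ 2 * b i) ∈ T := by
      refine Finset.mem_biUnion.2 ⟨g, by simpa using hg, ?_⟩
      exact Finset.mem_image_of_mem _ (Finset.mem_univ i)
    have h1 : |(w0 t).ord (g (aeval Z Q ^ 2 * b i))| ≤ ∑ z ∈ T, |(w0 t).ord z| :=
      Finset.single_le_sum (f := fun z => |(w0 t).ord z|) (fun _ _ => abs_nonneg _) hz
    have h2 : ∑ z ∈ T, |(w0 t).ord z| ≤ ∑ t, ∑ z ∈ T, |(w0 t).ord z| :=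
      Finset.single_le_sum (f := fun t => ∑ z ∈ T, |(w0 t).ord z|)
        (fun _ _ => Finset.sum_nonneg fun _ _ => abs_nonneg _) (Finset.mem_univ t)
    have h3 := neg_abs_le ((w0 t).ord (g (aeval Z Q ^ 2 * b i)))
    have h4 := Int.self_le_toNat (∑ t, ∑ z ∈ T, |(w0 t).ord z|)
    linarith
  refine ⟨δ, Ψ, c0, hΨinj, fun D f hfine hinf i => ?_⟩
  rw [hΨ]
  obtain ⟨t, ht⟩ : ∃ t : fixedField G, (t : K) = Tr (f * (aeval Z Q ^ 2 * b i)) :=
    ⟨⟨_, hTrfix _⟩, rfl⟩
  have hreg : ∃ P : MvPolynomial (Fin d) k, t = aeval X P := by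
    refine poly_of_reg hX fun p hp v hv1 hv2 => ?_
    obtain ⟨w, e, hwv, hdom⟩ := hfine p hp v hv1 hv2
    have hwZ : ∀ P : MvPolynomial (Fin d) k, w.Reg (aeval Z P) := by
      intro P
      rw [← hXZ]
      refine hwv.reg.2 ?_
      by_cases hP : P = 0
      · rw [hP, map_zero]
        exact v.reg_zero
      · exact Or.inr (hv2 P hP).1
    have h1 : w.Reg (t : K) := by
      rw [ht, hTr]
      refine Ge.sum _ _ fun g _ => ?_
      have h2 : (g : K ≃ₐ[k] K) (f * (aeval Z Q ^ 2 * b i)) =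
          (aeval Z Q * (g : K ≃ₐ[k] K) f) * (aeval Z Q * (g : K ≃ₐ[k] K) (b i)) := by
        rw [map_mul, map_mul, map_pow, hgQ g g.2]
        ring
      rw [h2]
      refine w.reg_mul ?_ (hQb i g g.2 w hwZ)
      rcases hdom g g.2 with h3 | ⟨s, hs, hs0, hle⟩
      · rw [h3, map_zero, mul_zero]
        exact w.reg_zero
      · by_cases hf0 : f = 0
        · rw [hf0, map_zero, mul_zero]
          exact w.reg_zero
        have hgf : (g : K ≃ₐ[k] K) f ≠ 0 := by simpa using hf0
        have hgs : (g : K ≃ₐ[k] K) s ≠ 0 := by simpa using hs0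
        have h4 := (hQS s hs g g.2 w hwZ).resolve_left (mul_ne_zero hQK hgs)
        right
        rw [w.ord_mul hQK hgf]
        rw [w.ord_mul hQK hgs] at h4
        linarith
    exact hwv.reg.1 h1
  obtain ⟨P, hP⟩ := hreg
  refine ⟨P, by rw [← ht, hP, hXZ], fun b' => ?_⟩
  by_cases hP0 : P = 0
  · rw [hP0, degreeOf_zero]
    exact Nat.zero_le _
  have h1 : Ge (w0 b') (- (D b' : ℤ) + - (c0 : ℤ)) (t : K) := by
    rw [ht, hTr]
    refine Ge.sum _ _ fun g _ => ?_
    rw [map_mul]
    exact (hinf _ g g.2).mul (hc0 _ i g g.2)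
  have ht0 : (t : K) ≠ 0 := by
    rw [hP]
    have := hX.ne hP0
    simpa using this
  have h2 := h1.resolve_left ht0
  have h3 : (w0 b').ord (t : K) = e0 b' * (v0 b').ord t := (h0 _).2 t
  rw [h3, hP, hv0 _ P hP0] at h2
  have he : 0 < e0 b' := (h0 _).1
  have h4 : ((degreeOf b' P : ℕ) : ℤ) ≤ e0 b' * (degreeOf b' P : ℤ) := by
    have h5 : (1 : ℤ) ≤ e0 b' := by exact_mod_cast he
    nlinarith [Int.natCast_nonneg (degreeOf b' P)]
  have h5 : ((degreeOf b' P : ℕ) : ℤ) ≤ D b' + c0 := by linarith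
  exact_mod_cast h5

end

end Pool.Agent.Y174
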