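import Mathlib

/-!
Counting vectors of polynomials which span a space of small dimension over a field of rational
functions.
-/

set_option autoImplicit false
set_option linter.overlappingInstances false
set_option linter.unusedSectionVars false

open MvPolynomial

namespace Pool.Agent.Y174

section

variable {k F0 K : Type*} [Field k] [Field F0] [Field K] [Algebra k F0] [Algebra F0 K]
  [Algebra k K] [IsScalarTower k F0 K] {d r : ℕ}

/-- the span of the monomials with bounded exponents -/
noncomputable def Wt (k : Type*) {F0 : Type*} [Field k] [Field F0] [Algebra k F0]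
    (t : Fin d → F0) (D : Fin d → ℕ) : Submodule k F0 :=
  Submodule.span k (Set.range fun m : (∀ b : Fin d, Fin (D b + 1)) => ∏ b, t b ^ (m b : ℕ))

theorem finrank_Wt (t : Fin d → F0) (D : Fin d → ℕ) :
    Module.finrank k (Wt k t D) ≤ ∏ b, (D b + 1) := by
  classical
  refine (finrank_range_le_card _).trans (le_of_eq ?_)
  rw [Fintype.card_pi]
  exact Finset.prod_congr rfl fun b _ => Fintype.card_fin _

instance finite_Wt (t : Fin d → F0) (D : Fin d → ℕ) : FiniteDimensional k (Wt k t D) :=
  FiniteDimensional.span_of_finite k (Set.finite_range _)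

/-- the base variables are replaced by `t` -/
noncomputable def phi (k : Type*) {F0 : Type*} [Field k] [Field F0] [Algebra k F0] {d : ℕ}
    (r : ℕ) (t : Fin d → F0) :
    MvPolynomial (Fin (d + r)) k →ₐ[k] MvPolynomial (Fin r) F0 :=
  aeval (Fin.append (fun b => C (t b)) X)

theorem phi_aeval (t : Fin d → F0) (x : Fin r → K) (p : MvPolynomial (Fin (d + r)) k) :
    aeval (Fin.append (algebraMap F0 K ∘ t) x) p = aeval x (phi k r t p) := by
  have h3 := MvPolynomial.comp_aeval_apply (R := k) (f := Fin.append
    (fun b => C (t b)) (X : Fin r → MvPolynomial (Fin r) F0))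
    ((aeval x : MvPolynomial (Fin r) F0 →ₐ[F0] K).restrictScalars k) p
  refine Eq.trans ?_ h3.symm
  congr 2
  funext i
  refine Fin.addCases (fun c => ?_) (fun j => ?_) i
  · simp
  · simp

theorem phi_coeff (t : Fin d → F0) {D : Fin (d + r) → ℕ} {p : MvPolynomial (Fin (d + r)) k}
    (hp : ∀ b, degreeOf b p ≤ D b) (e : Fin r →₀ ℕ) :
    coeff e (phi k r t p) ∈ Wt k t (fun b => D (Fin.castAdd r b)) := by
  classical
  unfold phi
  rw [aeval_def, eval₂_eq', coeff_sum]
  refine Submodule.sum_mem _ fun m hm => ?_
  have h1 : (algebraMap k (MvPolynomial (Fin r) F0)) (coeff m p) * ∏ i,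
      (Fin.append (fun b => C (t b)) X : Fin (d + r) → MvPolynomial (Fin r) F0) i ^ m i =
      C (algebraMap k F0 (coeff m p) * ∏ b, t b ^ m (Fin.castAdd r b)) *
        map (algebraMap k F0) (∏ j : Fin r, (X j : MvPolynomial (Fin r) k) ^ m (Fin.natAdd d j)) := by
    rw [Fin.prod_univ_add, map_mul, map_prod, map_prod, ← mul_assoc]
    congr 1
    · congr 1
      refine Finset.prod_congr rfl fun b _ => ?_
      rw [Fin.append_left, map_pow]
    · refine Finset.prod_congr rfl fun j _ => ?_
      rw [Fin.append_right, map_pow, map_X]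
  rw [h1, coeff_C_mul, coeff_map]
  have h2 : algebraMap k F0 (coeff m p) * (∏ b, t b ^ m (Fin.castAdd r b)) *
      algebraMap k F0 (coeff e (∏ j : Fin r, (X j : MvPolynomial (Fin r) k) ^ m (Fin.natAdd d j))) =
      (coeff m p * coeff e (∏ j : Fin r, (X j : MvPolynomial (Fin r) k) ^ m (Fin.natAdd d j))) •
        ∏ b, t b ^ m (Fin.castAdd r b) := by
    rw [Algebra.smul_def, map_mul]
    ring
  rw [h2]
  refine Submodule.smul_mem _ _ (Submodule.subset_span ?_)
  refine ⟨fun b => ⟨m (Fin.castAdd r b), ?_⟩, rfl⟩
  have h3 := monomial_le_degreeOf (Fin.castAdd r b) hm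
  have h4 := hp (Fin.castAdd r b)
  exact Nat.lt_succ_of_le (h3.trans h4)

theorem count_abs {δ N M : ℕ} {D : Fin (d + r) → ℕ} (t : Fin d → F0) {x : Fin r → K}
    (hx : AlgebraicIndependent F0 x) (Ψ : K →ₗ[F0] (Fin δ → K)) (hΨ : Function.Injective Ψ)
    {f : Fin N → K} (hf : LinearIndependent k f)
    (hP : ∀ l i, ∃ P : MvPolynomial (Fin (d + r)) k,
      Ψ (f l) i = aeval (Fin.append (algebraMap F0 K ∘ t) x) P ∧ ∀ b, degreeOf b P ≤ D b)
    (hM : Module.finrank F0 (Submodule.span F0 (Set.range f)) ≤ M) :
    N ≤ M * ∏ b : Fin d, (D (Fin.castAdd r b) + 1) := by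
  classical
  choose P hP1 hP2 using hP
  have hP3 : ∀ l i, Ψ (f l) i = aeval x (phi k r t (P l i)) := fun l i => by
    rw [hP1, phi_aeval]
  let Es : Finset (Fin r →₀ ℕ) := Finset.univ.biUnion fun l => Finset.univ.biUnion fun i =>
    (phi k r t (P l i)).support
  have hEs : ∀ l i e, e ∉ Es → coeff e (phi k r t (P l i)) = 0 := by
    intro l i e he
    by_contra h
    exact he (Finset.mem_biUnion.2 ⟨l, Finset.mem_univ _, Finset.mem_biUnion.2
      ⟨i, Finset.mem_univ _, mem_support_iff.2 h⟩⟩)
  -- relations
  have hrel : ∀ a : Fin N → F0, ∑ l, a l • f l = 0 → ∀ i e,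
      ∑ l, a l * coeff e (phi k r t (P l i)) = 0 := by
    intro a ha i e
    have h1 : aeval x (∑ l, a l • phi k r t (P l i)) = 0 := by
      rw [map_sum]
      have h2 := congrFun (congrArg Ψ ha) i
      rw [map_sum, Finset.sum_apply, map_zero, Pi.zero_apply] at h2
      refine Eq.trans (Finset.sum_congr rfl fun l _ => ?_) h2
      rw [map_smul, map_smul, Pi.smul_apply, hP3]
    have h2 := (injective_iff_map_eq_zero _).1 hx _ h1
    have h3 := congrArg (coeff e) h2
    rw [coeff_sum, coeff_zero] at h3
    rw [← h3]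
    exact Finset.sum_congr rfl fun l _ => by rw [coeff_smul, smul_eq_mul]
  have hrel' : ∀ a : Fin N → k, (∀ i, ∀ e ∈ Es,
      ∑ l, algebraMap k F0 (a l) * coeff e (phi k r t (P l i)) = 0) → a = 0 := by
    intro a ha
    have h1 : ∀ i, ∑ l, algebraMap k F0 (a l) • phi k r t (P l i) = 0 := by
      intro i
      ext e
      rw [coeff_sum, coeff_zero]
      simp only [coeff_smul, smul_eq_mul]
      by_cases he : e ∈ Es
      · exact ha i e he
      · exact Finset.sum_eq_zero fun l _ => by rw [hEs l i e he, mul_zero]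
    have h2 : Ψ (∑ l, algebraMap k F0 (a l) • f l) = 0 := by
      funext i
      have h3 := congrArg (aeval x) (h1 i)
      rw [map_sum, map_zero] at h3
      rw [map_sum, Finset.sum_apply, Pi.zero_apply, ← h3]
      refine Finset.sum_congr rfl fun l _ => ?_
      rw [map_smul, map_smul, Pi.smul_apply, hP3]
    have h3 : ∑ l, algebraMap k F0 (a l) • f l = 0 :=
      (injective_iff_map_eq_zero Ψ).1 hΨ _ h2
    have h4 : ∑ l, a l • f l = 0 := by
      rw [← h3]
      exact Finset.sum_congr rfl fun l _ => by rw [algebraMap_smul]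
    exact funext (Fintype.linearIndependent_iff.1 hf a h4)
  -- the matrix
  let A : Matrix (Fin δ × Es) (Fin N) F0 := Matrix.of fun j l => coeff j.2.1 (phi k r t (P l j.1))
  have hA : ∀ j l, A j l = coeff j.2.1 (phi k r t (P l j.1)) := fun _ _ => rfl
  have hrank : A.rank ≤ M := by
    let R : (Fin N → F0) →ₗ[F0] K := Fintype.linearCombination F0 f
    have hR : LinearMap.range R = Submodule.span F0 (Set.range f) :=
      Fintype.range_linearCombination F0 f
    have hker : LinearMap.ker R ≤ LinearMap.ker A.mulVecLin := by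
      intro a ha
      rw [LinearMap.mem_ker] at ha ⊢
      have h1 : ∑ l, a l • f l = 0 := by
        rw [← ha]
        exact (Fintype.linearCombination_apply F0 f a).symm
      funext j
      rw [Matrix.mulVecLin_apply, Pi.zero_apply, ← hrel a h1 j.1 j.2.1]
      change ∑ l, A j l * a l = _
      exact Finset.sum_congr rfl fun l _ => mul_comm _ _
    have h1 := LinearMap.finrank_range_add_finrank_ker R
    have h2 := LinearMap.finrank_range_add_finrank_ker A.mulVecLin
    have h3 := Submodule.finrank_mono hker
    rw [hR] at h1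
    change Module.finrank F0 (LinearMap.range A.mulVecLin) ≤ M
    omega
  obtain ⟨κ, a, ha, hspan, hli⟩ := exists_linearIndependent' F0 (fun j => A j)
  have hκ : Finite κ := Finite.of_injective a ha
  have hκ' := Fintype.ofFinite κ
  have hcard : Fintype.card κ ≤ M := by
    rw [← finrank_span_eq_card hli, hspan]
    rw [Matrix.rank_eq_finrank_span_row] at hrank
    exact hrank
  have hmem : ∀ (c : Fin N → k) (q : κ), ∑ l, c l • A (a q) l ∈
      Wt k t (fun b => D (Fin.castAdd r b)) := by
    intro c q
    refine Submodule.sum_mem _ fun l _ => Submodule.smul_mem _ _ ?_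
    exact phi_coeff t (hP2 _ _) _
  let Θ : (Fin N → k) →ₗ[k] (κ → Wt k t (fun b => D (Fin.castAdd r b))) :=
    { toFun := fun c q => ⟨∑ l, c l • A (a q) l, hmem c q⟩
      map_add' := fun c c' => by
        funext q
        apply Subtype.ext
        simp only [Pi.add_apply, Submodule.coe_add, add_smul, Finset.sum_add_distrib]
      map_smul' := fun s c => by
        funext q
        apply Subtype.ext
        simp only [Pi.smul_apply, RingHom.id_apply, Submodule.coe_smul, smul_eq_mul, mul_smul,
          Finset.smul_sum] }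
  have hΘ : Function.Injective Θ := by
    rw [injective_iff_map_eq_zero]
    intro c hc
    let lam : (Fin N → F0) →ₗ[F0] F0 :=
      { toFun := fun ρ => ∑ l, algebraMap k F0 (c l) * ρ l
        map_add' := fun ρ ρ' => by
          simp only [Pi.add_apply, mul_add, Finset.sum_add_distrib]
        map_smul' := fun s ρ => by
          simp only [Pi.smul_apply, RingHom.id_apply, smul_eq_mul, Finset.mul_sum]
          exact Finset.sum_congr rfl fun l _ => by ring }
    have h1 : Submodule.span F0 (Set.range ((fun j => A j) ∘ a)) ≤ LinearMap.ker lam := by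
      rw [Submodule.span_le]
      rintro _ ⟨q, rfl⟩
      have h2 := congrArg Subtype.val (congrFun hc q)
      change ∑ l, c l • A (a q) l = 0 at h2
      change ∑ l, algebraMap k F0 (c l) * A (a q) l = 0
      rw [← h2]
      exact Finset.sum_congr rfl fun l _ => (Algebra.smul_def _ _).symm
    rw [hspan] at h1
    apply hrel'
    intro i e he
    have h2 : (fun l => A (i, ⟨e, he⟩) l) ∈ LinearMap.ker lam :=
      h1 (Submodule.subset_span ⟨(i, ⟨e, he⟩), rfl⟩)
    exact h2
  have h1 := LinearMap.finrank_le_finrank_of_injective hΘ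
  rw [Module.finrank_fin_fun, Module.finrank_pi_fintype, Finset.sum_const, Finset.card_univ,
    smul_eq_mul] at h1
  exact h1.trans (Nat.mul_le_mul hcard (finrank_Wt _ _))

end

end Pool.Agent.Y174
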