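import Pool.Agent.Y173.QA.Cnt
import Pool.Agent.Y174.W1
import Pool.Agent.Y174.W2
import Pool.Agent.Y174.V1

/-! The relative count of functions with bounded poles. -/

set_option autoImplicit false
set_option linter.overlappingInstances false
set_option linter.unusedSectionVars false

open FF IntermediateField Pool.Agent.W619.PQ Pool.Agent.W619.PL Pool.Agent.W619.TW
  Pool.Agent.W603.LV Pool.Agent.W619.Y Pool.Agent.TH122.AB MvPolynomial Pool.Agent.Y173.QA

namespace Pool.Agent.Y174

section

variable {k L K : Type} [Field k] [CharZero k] [Field L] [Field K] [Algebra k L] [Algebra k K]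
  [Algebra L K] [IsScalarTower k L K]

/-- the dimension over the subfield -/
theorem finrank_sub (F0 : IntermediateField k L) [FiniteDimensional F0 L] {N : ℕ} (f : Fin N → K) :
    Module.finrank F0 (Submodule.span F0 (Set.range f)) ≤
      Module.finrank F0 L * Module.finrank L (Submodule.span L (Set.range f)) := by
  have h0 : FiniteDimensional L (Submodule.span L (Set.range f)) :=
    FiniteDimensional.span_of_finite L (Set.finite_range _)
  have h1 : FiniteDimensional F0 (Submodule.span L (Set.range f)) := Module.Finite.trans L _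
  have h2 := Module.finrank_mul_finrank F0 L (Submodule.span L (Set.range f))
  rw [h2]
  have h3 : Submodule.span F0 (Set.range f) ≤
      (Submodule.span L (Set.range f)).restrictScalars F0 :=
    Submodule.span_le_restrictScalars F0 L _
  exact LinearMap.finrank_le_finrank_of_injective
    (f := (Submodule.inclusion h3 : Submodule.span F0 (Set.range f) →ₗ[F0]
      (Submodule.span L (Set.range f)).restrictScalars F0)) (Submodule.inclusion_injective h3)

theorem count_rel {d r : ℕ} {t : Fin d → L} (ht : IsTranscendenceBasis k t) {x : Fin r → K}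
    (hx : IsTranscendenceBasis L x)
    (hfd : FiniteDimensional (IntermediateField.adjoin k
      (Set.range (Fin.append (algebraMap L K ∘ t) x))) K)
    (hfdL : FiniteDimensional (IntermediateField.adjoin k (Set.range t)) L) (S : Finset K) :
    ∃ T : Fin (d + r) → Set (Place k K), (∀ b, (T b).Finite) ∧
      (∀ b, ∀ P ∈ T b, DegPl (Fin.append (algebraMap L K ∘ t) x) b P) ∧
      ∃ C c : ℕ, ∀ (D : Fin (d + r) → ℕ) (N M : ℕ) (f : Fin N → K), LinearIndependent k f →
        Module.finrank L (Submodule.span L (Set.range f)) ≤ M →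
        (∀ l, ∀ p : MvPolynomial (Fin (d + r)) k, Irreducible p → ∀ P : Place k K,
          Adic (Fin.append (algebraMap L K ∘ t) x) p P → Dom P S 1 (f l)) →
        (∀ l b, ∀ P ∈ T b, Ge P (-(D b : ℤ)) (f l)) →
        N ≤ C * M * ∏ b : Fin d, (D (Fin.castAdd r b) + c) := by
  classical
  have hZ := basis_append ht hx
  obtain ⟨Z, hZdef⟩ : ∃ Z, Z = Fin.append (algebraMap L K ∘ t) x := ⟨_, rfl⟩
  rw [← hZdef] at hfd hZ ⊢
  obtain ⟨K', iF, iA, iK, hT, G, hfin, iG, hT1, hT2, hfd', X, hX, hXZ, hbas⟩ :=
    Pool.Agent.TH756.PN.exists_closure hZ hfd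
  have hfintype := Fintype.ofFinite G
  have hXZ' : (fun j => algebraMap (fixedField G) K (X j)) = Z := funext hXZ
  have hae : ∀ f : MvPolynomial (Fin (d + r)) k,
      algebraMap (fixedField G) K (aeval X f) = aeval Z f := by
    intro f
    rw [← hXZ']
    exact (MvPolynomial.aeval_algebraMap_apply K X f).symm
  choose v0 hv0 using fun b => exists_deg_place hX b
  choose w0 e0 I0 h0 hI1 hI2 using fun b => exists_inertia G (v0 b)
  have hover : ∀ b (g : G), Over ((w0 b).comp (g : K' ≃ₐ[k] K')) (v0 b) (e0 b) :=
    fun b g => Pool.Agent.Y173.QA.over_comp (h0 b) g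
  choose PP e1 e2 hP1 hP2 hP3 using fun b (g : G) =>
    Pool.Agent.TH756.PN.exists_restr (K := K) (hover b g)
  obtain ⟨δ, Ψ, c0, hΨ, hemb⟩ := fin_emb G hX hbas hv0 h0 (S.image (algebraMap K K'))
  obtain ⟨E, hE⟩ : ∃ E : ℕ, E = 1 + ∑ b, ∑ g, e1 b g := ⟨_, rfl⟩
  have hE1 : 1 ≤ E := by omega
  have hEe : ∀ b g, e1 b g ≤ E := by
    intro b g
    have h1 : e1 b g ≤ ∑ g, e1 b g :=
      Finset.single_le_sum (f := fun g => e1 b g) (fun _ _ => Nat.zero_le _) (Finset.mem_univ g)
    have h2 : ∑ g, e1 b g ≤ ∑ b, ∑ g, e1 b g :=
      Finset.single_le_sum (f := fun b => ∑ g, e1 b g) (fun _ _ => Nat.zero_le _)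
        (Finset.mem_univ b)
    omega
  -- the field of rational functions in the coordinates of the base
  let F0 : IntermediateField k L := IntermediateField.adjoin k (Set.range t)
  have hF0 : FiniteDimensional F0 L := hfdL
  let iLK' : Algebra L K' := ((algebraMap K K').comp (algebraMap L K)).toAlgebra
  have tLKK' : IsScalarTower L K K' := IsScalarTower.of_algebraMap_eq fun _ => rfl
  have tkLK' : IsScalarTower k L K' := IsScalarTower.of_algebraMap_eq fun c => by
    rw [IsScalarTower.algebraMap_apply L K K', ← IsScalarTower.algebraMap_apply k L K,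
      ← IsScalarTower.algebraMap_apply k K K']
  have tF0K : IsScalarTower F0 K K' := IsScalarTower.of_algebraMap_eq fun c => rfl
  have tkF0K' : IsScalarTower k F0 K' := IsScalarTower.of_algebraMap_eq fun c => by
    change algebraMap k K' c = algebraMap L K' (algebraMap k L c)
    rw [← IsScalarTower.algebraMap_apply k L K']
  have hXK' : ∀ j, (X j : K') = algebraMap K K' (Z j) := by
    intro j
    rw [← hXZ j, ← IsScalarTower.algebraMap_apply (fixedField G) K K']
    rfl
  have hZt : ∀ b : Fin d, Z (Fin.castAdd r b) = algebraMap L K (t b) := fun b => by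
    rw [hZdef, Fin.append_left]
    rfl
  have hfixF : ∀ c : F0, ∃ c' : fixedField G, (c' : K') = algebraMap F0 K' c := by
    have h1 : F0 ≤ (fixedField G).comap (IsScalarTower.toAlgHom k L K') := by
      rw [IntermediateField.adjoin_le_iff]
      rintro _ ⟨b, rfl⟩
      change algebraMap L K' (t b) ∈ fixedField G
      have h2 : algebraMap L K' (t b) = (X (Fin.castAdd r b) : K') := by
        rw [hXK', hZt]
        rfl
      rw [h2]
      exact (X (Fin.castAdd r b)).2
    intro c
    exact ⟨⟨algebraMap L K' c, h1 c.2⟩, rfl⟩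
  let Ψ0 : K' →ₗ[F0] (Fin δ → K') :=
    { toFun := Ψ
      map_add' := Ψ.map_add
      map_smul' := fun c z => by
        obtain ⟨c', hc'⟩ := hfixF c
        have h1 : c • z = c' • z := by
          rw [Algebra.smul_def, Algebra.smul_def]
          congr 1
          exact hc'.symm
        rw [h1, map_smul, RingHom.id_apply]
        funext i
        rw [Pi.smul_apply, Pi.smul_apply, Algebra.smul_def, Algebra.smul_def]
        congr 1 }
  have hx1 : AlgebraicIndependent F0 (algebraMap K K' ∘ x) := by
    have h1 : AlgebraicIndependent F0 x := hx.1.restrictScalars (algebraMap F0 L).injective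
    exact h1.map' (f := IsScalarTower.toAlgHom F0 K K') (algebraMap K K').injective
  let tF : Fin d → F0 := fun b => ⟨t b, IntermediateField.subset_adjoin k _ ⟨b, rfl⟩⟩
  have hXapp : (fun j => (X j : K')) = Fin.append (algebraMap F0 K' ∘ tF) (algebraMap K K' ∘ x) := by
    funext j
    rw [hXK', hZdef]
    refine Fin.addCases (fun b => ?_) (fun b => ?_) j
    · rw [Fin.append_left, Fin.append_left]
      rfl
    · rw [Fin.append_right, Fin.append_right]
      rfl
  refine ⟨fun b => Set.range (PP b), fun b => Set.finite_range _, ?_,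
    Module.finrank F0 L * E ^ d, c0 + 1, ?_⟩
  · rintro b _ ⟨g, rfl⟩
    refine ⟨e2 b g, (hP2 b g).1, fun f hf => ?_⟩
    rw [← hae, (hP2 b g).2, hv0 b f hf, mul_neg]
  · intro D N M f hf hfM hdom hinf
    have hlin : LinearIndependent k fun l => algebraMap K K' (f l) :=
      hf.map' (IsScalarTower.toAlgHom k K K').toLinearMap
        (LinearMap.ker_eq_bot.2 (algebraMap K K').injective)
    have hrk : Module.finrank F0 (Submodule.span F0 (Set.range fun l => algebraMap K K' (f l))) ≤
        Module.finrank F0 L * M := by
      have h1 : Submodule.span F0 (Set.range fun l => algebraMap K K' (f l)) =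
          (Submodule.span F0 (Set.range f)).map (IsScalarTower.toAlgHom F0 K K').toLinearMap := by
        rw [Submodule.map_span, ← Set.range_comp]
        rfl
      rw [h1]
      have h2 : FiniteDimensional F0 (Submodule.span F0 (Set.range f)) :=
        FiniteDimensional.span_of_finite F0 (Set.finite_range _)
      exact (Submodule.finrank_map_le _ _).trans ((finrank_sub F0 f).trans
        (Nat.mul_le_mul_left _ hfM))
    have h1 := count_abs (D := fun b => E * D b + c0) tF hx1 Ψ0 hΨ hlin ?_ hrk
    · refine h1.trans ?_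
      have h2 : ∏ b : Fin d, (E * D (Fin.castAdd r b) + c0 + 1) ≤
          E ^ d * ∏ b : Fin d, (D (Fin.castAdd r b) + (c0 + 1)) := by
        calc ∏ b : Fin d, (E * D (Fin.castAdd r b) + c0 + 1) ≤
            ∏ b : Fin d, (E * (D (Fin.castAdd r b) + (c0 + 1))) := by
              refine Finset.prod_le_prod' fun b _ => ?_
              rw [Nat.mul_add]
              have := Nat.le_mul_of_pos_left (c0 + 1) hE1
              omega
          _ = E ^ d * ∏ b : Fin d, (D (Fin.castAdd r b) + (c0 + 1)) := by
              rw [Finset.prod_mul_distrib, Finset.prod_const, Finset.card_univ, Fintype.card_fin]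
      calc Module.finrank F0 L * M * ∏ b : Fin d, (E * D (Fin.castAdd r b) + c0 + 1) ≤
          Module.finrank F0 L * M * (E ^ d * ∏ b : Fin d, (D (Fin.castAdd r b) + (c0 + 1))) :=
            Nat.mul_le_mul_left _ h2
        _ = _ := by ring
    · intro l i
      rw [← hXapp]
      refine hemb (fun b => E * D b) (algebraMap K K' (f l)) ?_ ?_ i
      · intro p hp v hv1 hv2
        obtain ⟨w, e, I, hwv, -, -⟩ := exists_inertia G v
        refine ⟨w, e, hwv, fun g hg => ?_⟩
        have h2 : Over (w.comp g) v e := Pool.Agent.Y173.QA.over_comp hwv ⟨g, hg⟩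
        obtain ⟨P, f1, f2, h3, h4, -⟩ := Pool.Agent.TH756.PN.exists_restr (K := K) h2
        have hP : Adic Z p P := by
          intro f hf
          rw [← hae, h4.2]
          obtain ⟨h5, h6⟩ := hv2 f hf
          have h7 : (0 : ℤ) < f2 := by exact_mod_cast h4.1
          refine ⟨mul_nonneg h7.le h5, ?_⟩
          rw [← h6]
          constructor
          · intro h8
            rcases mul_eq_zero.1 h8 with h9 | h9
            · omega
            · exact h9
          · intro h8
            rw [h8, mul_zero]
        rcases hdom l p hp P hP with h5 | ⟨s, hs, hs0, h5⟩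
        · left
          rw [h5, map_zero]
        · right
          refine ⟨algebraMap K K' s, Finset.mem_image_of_mem _ hs, (map_ne_zero _).2 hs0, ?_⟩
          rw [← Place.comp_ord, ← Place.comp_ord, h3.2, h3.2]
          refine mul_le_mul_of_nonneg_left ?_ (by positivity)
          simpa using h5
      · intro b g hg
        have h2 := over_ge (hP1 b ⟨g, hg⟩) (hEe b ⟨g, hg⟩) (hinf l b _ ⟨⟨g, hg⟩, rfl⟩)
        exact (Pool.Agent.Y173.QA.ge_comp (w0 b) g _ _).1 h2

end

end Pool.Agent.Y174
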