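import Pool.Agent.Y173.QA.Phi
import Pool.Agent.Y174.W3
import Pool.Agent.Y174.V6

/-! The numerical dimension of the total space of a fibration. -/

set_option autoImplicit false
set_option linter.overlappingInstances false
set_option linter.unusedSectionVars false

open FF IntermediateField Pool.Agent.W619.PQ Pool.Agent.W619.PL Pool.Agent.W619.TW
  Pool.Agent.W603.LV Pool.Agent.W619.Y Pool.Agent.W824.PG Pool.Agent.TH122.AB MvPolynomial
  Pool.Agent.Y173.QA

namespace Pool.Agent.Y174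

section

variable {k : Type*} {K : Type*} [Field k] [Field K] [Algebra k K]

theorem sec_zero {n : ℕ} {S : Finset K} {m j : ℕ} {ω : (Fin n → Derivation k K K) → K} :
    PairSec k K n (fun _ => 0) S m j ω ↔ IsSec k K n (fun _ => False) S m j ω := by
  constructor
  · rintro ⟨h1, h2⟩
    refine ⟨h1, fun v hv _ D hD => ?_, fun v _ h => h.elim⟩
    rcases h2 v hv D hD with h | ⟨s, hs, hs0, hle⟩
    · exact Or.inl h
    · refine Or.inr ⟨s, hs, hs0, ?_⟩
      simp only [mul_zero, sub_zero] at hle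
      exact_mod_cast hle
  · rintro ⟨h1, h2, -⟩
    refine ⟨h1, fun v hv D hD => ?_⟩
    rcases h2 v hv (fun h => h) D hD with h | ⟨s, hs, hs0, hle⟩
    · exact Or.inl h
    · refine Or.inr ⟨s, hs, hs0, ?_⟩
      simp only [mul_zero, sub_zero]
      exact_mod_cast hle

end

section

theorem isPullFib_zero {k K Λ F : Type} [Field k] [Field K] [Algebra k K] [Field Λ] [Field F]
    [Algebra Λ F] [Algebra K F] :
    IsPullFib (fun _ : Place k K => 0) (fun _ : Place Λ F => 0) := by
  intro v w e h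
  have h1 : (1 : ℝ) ≤ e := by exact_mod_cast h.1
  rw [sub_zero, mul_one, max_eq_left (by linarith)]

end

section

variable {k L K Λ F : Type} [Field k] [CharZero k] [Field L] [Field K] [Field Λ]
  [Field F] [Algebra k L] [Algebra k K] [Algebra L K] [IsScalarTower k L K] [Algebra L Λ]
  [Algebra Λ F] [Algebra K F] [Algebra L F] [IsScalarTower L Λ F] [IsScalarTower L K F]
  [Algebra k Λ] [Algebra k F] [IsScalarTower k Λ F] [IsScalarTower k K F]
  [IsScalarTower k L Λ]

/-- **The numerical dimension of the total space.** -/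
theorem easy_add (hessL : Algebra.EssFiniteType k L) (hess : Algebra.EssFiniteType k K)
    [Algebra.IsAlgebraic L Λ]
    (hgenF : IntermediateField.adjoin Λ (Set.range (algebraMap K F)) = ⊤)
    (hcl : ∀ x : K, IsIntegral L x → ∃ y : L, algebraMap L K y = x)
    {d r : ℕ} (hL : Algebra.trdeg k L = d) (hn : Algebra.trdeg k K = (d + (r + 1) : ℕ)) {h : ℕ}
    (hnum : NumLe Λ F (r + 1) (fun _ => False) h) :
    NumLe k K (d + (r + 1)) (fun _ => False) (d + h) := by
  classical
  have hL0 : CharZero L := charZero_of_injective_algebraMap (algebraMap k L).injective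
  have hΛ0 : CharZero Λ := charZero_of_injective_algebraMap (algebraMap k Λ).injective
  have hLK := trdeg_LK (L := L) hL hn
  obtain ⟨t, ht⟩ := Pool.Agent.W636.PG.exists_basis k L d hL
  obtain ⟨x, hx⟩ := Pool.Agent.W636.PG.exists_basis L K (r + 1) hLK
  have hZ := basis_append ht hx
  have hfdL := fin_adj hessL t ht
  have hfin : ∀ y : Fin (d + (r + 1)) → K, IsTranscendenceBasis k y →
      FiniteDimensional (IntermediateField.adjoin k (Set.range y)) K :=
    fun y hy => fin_adj hess y hy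
  have hfd := hfin _ hZ
  obtain ⟨E, hE⟩ := Pool.Agent.W636.PG.exists_duals k K (d + (r + 1)) _ hZ
  intro S
  obtain ⟨C1, hC1⟩ := fib_count (Λ := Λ) (F := F) hess hgenF hcl hL hn ht hx hE
    isPullFib_zero (pairNum_zero.2 hnum) S
  -- clearing the denominators
  choose q hq0 hq using fun i => exists_clear hZ hfd (E i)
  obtain ⟨c, hc⟩ : ∃ c : K, c = ∏ i, aeval (Fin.append (algebraMap L K ∘ t) x) (q i) := ⟨_, rfl⟩
  have hc0 : c ≠ 0 := by
    rw [hc]
    refine Finset.prod_ne_zero_iff.2 fun i _ h0 => hq0 i ?_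
    exact (injective_iff_map_eq_zero _).1 hZ.1 _ h0
  have hcE : ∀ p : MvPolynomial (Fin (d + (r + 1))) k, Irreducible p → ∀ P : Place k K,
      Adic (Fin.append (algebraMap L K ∘ t) x) p P → ∀ i, Pres P (c • E i) := by
    intro p hp P hP i f hf
    have h1 := hq i p hp P hP f hf
    rw [hc, ← Finset.mul_prod_erase Finset.univ _ (Finset.mem_univ i), mul_comm, mul_smul,
      Derivation.smul_apply, smul_eq_mul]
    refine P.reg_mul ?_ h1
    have h2 : (∏ j ∈ Finset.univ.erase i,
        aeval (Fin.append (algebraMap L K ∘ t) x) (q j)) ∈ regRing P :=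
      prod_mem fun j _ => adic_reg hP (q j)
    exact h2
  obtain ⟨T, hTfin, hTdeg, C2, c2, hC2⟩ := count_rel ht hx hfd hfdL S
  -- the bound at infinity
  have hlb : ∀ P : Place k K, IsDivisorial P (d + (r + 1)) → ∃ C : ℕ,
      ∀ (m : ℕ) (ω : (Fin (d + (r + 1)) → Derivation k K K) → K), 1 ≤ m →
      IsSec k K (d + (r + 1)) (fun _ => False) S m 1 ω →
        Ge P (-((C * m : ℕ) : ℤ)) ((c ^ (d + (r + 1))) ^ m * ω E) :=
    fun P hP => lin_bound hn hfin hP E S (c ^ (d + (r + 1)))
  have hdivT : ∀ b, ∀ P ∈ T b, IsDivisorial P (d + (r + 1)) := by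
    intro b P hP
    obtain ⟨e, he, hdeg⟩ := hTdeg b P hP
    refine div_of_deg hZ.1 (b := b) fun f hf hf0 => ?_
    rw [hdeg f hf, hf0]
    simp
  obtain ⟨C3, hC3⟩ : ∃ C3 : ℕ, ∀ b, ∀ P ∈ T b, ∀ (m : ℕ)
      (ω : (Fin (d + (r + 1)) → Derivation k K K) → K), 1 ≤ m →
      IsSec k K (d + (r + 1)) (fun _ => False) S m 1 ω →
        Ge P (-((C3 * m : ℕ) : ℤ)) ((c ^ (d + (r + 1))) ^ m * ω E) := by
    choose Cf hCf using hlb
    have hfin2 : (⋃ b, T b).Finite := Set.finite_iUnion hTfin
    have := hfin2.fintype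
    let g : (⋃ b, T b) → ℕ := fun P => Cf P.1 (by
      obtain ⟨b, hb⟩ := Set.mem_iUnion.1 P.2
      exact hdivT b P.1 hb)
    refine ⟨∑ P, g P, fun b P hP m ω hm hω => ?_⟩
    have hPm : P ∈ ⋃ b, T b := Set.mem_iUnion.2 ⟨b, hP⟩
    have h1 := hCf P (hdivT b P hP) m ω hm hω
    refine h1.mono ?_
    have h2 : g ⟨P, hPm⟩ ≤ ∑ P, g P :=
      Finset.single_le_sum (fun _ _ => Nat.zero_le _) (Finset.mem_univ _)
    have h3 : Cf P (hdivT b P hP) * m ≤ (∑ P, g P) * m := Nat.mul_le_mul_right _ h2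
    have h4 : ((Cf P (hdivT b P hP) * m : ℕ) : ℤ) ≤ (((∑ P, g P) * m : ℕ) : ℤ) := by
      exact_mod_cast h3
    exact neg_le_neg h4
  have hexp : ∀ D : Derivation k K K, ∃ a : Fin (d + (r + 1)) → K, D = ∑ i, a i • E i :=
    fun D => ⟨_, der_expand hZ hE D⟩
  refine ⟨C2 * C1 * (C3 + c2) ^ d, fun m N hm hI => ?_⟩
  obtain ⟨ω, hli, hω⟩ := hI
  have hcm : (c ^ (d + (r + 1))) ^ m ≠ 0 := pow_ne_zero _ (pow_ne_zero _ hc0)
  have hlin := lin_frame (fun D => hexp D) hli (fun l => (hω l).1) hcm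
  have hrk : Module.finrank L (Submodule.span L (Set.range fun l =>
      (c ^ (d + (r + 1))) ^ m * ω l E)) ≤ C1 * m ^ h := by
    have h1 := hC1 m N hm ω fun l => sec_zero.2 (hω l)
    have h2 : Submodule.span L (Set.range fun l => (c ^ (d + (r + 1))) ^ m * ω l E) =
        (Submodule.span L (Set.range fun l => ω l E)).map
          (LinearMap.mulLeft L ((c ^ (d + (r + 1))) ^ m)) := by
      rw [Submodule.map_span, ← Set.range_comp]
      rfl
    rw [h2]
    have h3 : FiniteDimensional L (Submodule.span L (Set.range fun l => ω l E)) :=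
      FiniteDimensional.span_of_finite L (Set.finite_range _)
    exact (Submodule.finrank_map_le _ _).trans h1
  have h1 := hC2 (fun _ => C3 * m) N (C1 * m ^ h) _ hlin hrk (fun l p hp P hP => ?_)
    fun l b P hP => hC3 b P hP m (ω l) hm (hω l)
  · refine h1.trans ?_
    rw [Finset.prod_const, Finset.card_univ, Fintype.card_fin]
    have h2 : C3 * m + c2 ≤ (C3 + c2) * m := by
      rw [Nat.add_mul]
      have := Nat.le_mul_of_pos_right c2 hm
      omega
    have h3 : (C3 * m + c2) ^ d ≤ (C3 + c2) ^ d * m ^ d := by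
      rw [← Nat.mul_pow]
      exact Nat.pow_le_pow_left h2 d
    calc C2 * (C1 * m ^ h) * (C3 * m + c2) ^ d ≤
        C2 * (C1 * m ^ h) * ((C3 + c2) ^ d * m ^ d) := Nat.mul_le_mul_left _ h3
      _ = C2 * C1 * (C3 + c2) ^ d * m ^ (d + h) := by
        rw [pow_add]
        ring
  · change Dom P S 1 ((c ^ (d + (r + 1))) ^ m * ω l E)
    rw [← phi_smul (hω l).1 c E]
    exact (hω l).2.1 P (adic_div hZ.1 hp hP) (fun h => h) _ fun i f hf => hcE p hp P hP i f hf

end

end Pool.Agent.Y174
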