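import Pool.Agent.Y174.Defs

/-! The action of automorphisms on 1-forms; terminal actions: definitions. -/

set_option autoImplicit false
set_option linter.overlappingInstances false
set_option linter.unusedSectionVars false

universe u v

open FF Pool.Agent.W619.PQ

namespace Pool.Agent.Y174

section

variable {k : Type v} {L : Type u} [Field k] [Field L] [Algebra k L]

/-- The conjugate `g⁻¹ ∘ D ∘ g` of a vector field `D` by an automorphism `g`. -/
def conj (g : L ≃ₐ[k] L) (D : Derivation k L L) : Derivation k L L :=
  Derivation.mk' (g.symm.toLinearMap.comp ((D : L →ₗ[k] L).comp g.toLinearMap)) (by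
    intro a b
    simp only [LinearMap.comp_apply, AlgEquiv.toLinearMap_apply, map_mul, Derivation.coeFn_coe,
      Derivation.leibniz, smul_eq_mul, map_add, AlgEquiv.symm_apply_apply])

theorem conj_apply (g : L ≃ₐ[k] L) (D : Derivation k L L) (z : L) :
    conj g D z = g.symm (D (g z)) := rfl

/-- The image of the 1-form `η` under the automorphism `g`: its value at `g ∘ D ∘ g⁻¹` is
`g (η D)`. -/
def gForm (g : L ≃ₐ[k] L) (η : Derivation k L L →ₗ[L] L) : Derivation k L L →ₗ[L] L where
  toFun D := g (η (conj g D))
  map_add' D D' := by
    have h : conj g (D + D') = conj g D + conj g D' := by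
      ext z
      rw [conj_apply, Derivation.add_apply, Derivation.add_apply, map_add]
      rfl
    rw [h, map_add, map_add]
  map_smul' c D := by
    have h : conj g (c • D) = g.symm c • conj g D := by
      ext z
      rw [conj_apply, Derivation.smul_apply, Derivation.smul_apply, smul_eq_mul, smul_eq_mul,
        map_mul]
      rfl
    rw [h, map_smul, smul_eq_mul, map_mul, AlgEquiv.apply_symm_apply, RingHom.id_apply,
      smul_eq_mul]

theorem gForm_apply (g : L ≃ₐ[k] L) (η : Derivation k L L →ₗ[L] L) (D : Derivation k L L) :
    gForm g η D = g (η (conj g D)) := rfl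

/-- The condition of Reid and Tai for terminal quotients, for the action of the group `G` of
automorphisms of the variety `Z` of dimension `n` on the space `W` of 1-forms on `Z`: let `g ≠ 1` be
an element of the inertia group of a prime divisor over `Z`, and let `η 0, ..., η (n - 1)` in `W` be
linearly independent eigenforms of `g`, with eigenvalues `ζ ^ a i`, `0 ≤ a i < d`, where `d` is the
order of `g` and `ζ` is a primitive `d`-th root of unity; then `∑ i, a i > d`. -/
def ReidTai (n : ℕ) (G : Subgroup (L ≃ₐ[k] L))
    (W : Submodule k (Derivation k L L →ₗ[L] L)) : Prop :=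
  ∀ g ∈ G, g ≠ 1 →
    (∃ w : Place k L, IsDivisorial w n ∧ ∀ z, w.Reg z → g z - z = 0 ∨ 0 < w.ord (g z - z)) →
    ∀ ζ : k, IsPrimitiveRoot ζ (orderOf g) →
      ∀ (η : Fin n → (Derivation k L L →ₗ[L] L)) (a : Fin n → ℕ), (∀ i, η i ∈ W) →
        LinearIndependent L η → (∀ i, a i < orderOf g) → (∀ i, gForm g (η i) = ζ ^ a i • η i) →
        orderOf g < ∑ i, a i

end

end Pool.Agent.Y174
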