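import Pool.Agent.Y174.BDefs
import Pool.Agent.Y174.HDefs

/-! The condition of Reid and Tai for pairs and tensors: definitions. -/

set_option autoImplicit false
set_option linter.overlappingInstances false
set_option linter.unusedSectionVars false

universe u v

open FF IntermediateField Pool.Agent.W619.PQ Pool.Agent.W619.TW

namespace Pool.Agent.Y174

section

variable {k : Type v} {L : Type u} [Field k] [Field L] [Algebra k L]

/-- The values of the tensor `a (α 0 ∧ ... ∧ α (d - 1)) ^ m` on vector fields which are regular and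
logarithmic along `w` are zero or of order at least `c`. -/
def LogOrd (w : Place k L) (m : ℕ) {d : ℕ} (α : Fin d → (Derivation k L L →ₗ[L] L)) (a : L)
    (c : ℝ) : Prop :=
  ∀ D : Fin d → Derivation k L L, (∀ j f, w.Reg f → w.Reg (D j f)) →
    (∀ j f, w.Reg (D j f / f)) → a * (Matrix.of fun i j => α i (D j)).det ^ m = 0 ∨
      c ≤ (w.ord (a * (Matrix.of fun i j => α i (D j)).det ^ m) : ℝ)

/-- `g ≠ 1` in `G` generates the inertia group of the prime divisor `w` over the variety `Z` of
dimension `n`, and `w` lies over the prime divisor `v` over `Z / G`: `g` is trivial on the residue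
field of `w`, and the ramification index is the order of `g`. -/
def GenInertia (n : ℕ) (G : Subgroup (L ≃ₐ[k] L)) (g : L ≃ₐ[k] L) (w : Place k L)
    (v : Place k (fixedField G)) : Prop :=
  g ∈ G ∧ g ≠ 1 ∧ IsDivisorial w n ∧ LiesOn w v (orderOf g) ∧
    ∀ z, w.Reg z → g z - z = 0 ∨ 0 < w.ord (g z - z)

/-- `η 0, ..., η (r - 1)` in `W` are eigenforms of `g` with the eigenvalues `ζ ^ b i`, where
`0 ≤ b i < d` for the order `d` of `g`, and they are linearly independent together with the
forms `α l`. -/
def EigenForms {d r : ℕ} (α : Fin d → (Derivation k L L →ₗ[L] L))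
    (W : Submodule k (Derivation k L L →ₗ[L] L)) (g : L ≃ₐ[k] L) (ζ : k)
    (η : Fin r → (Derivation k L L →ₗ[L] L)) (b : Fin r → ℕ) : Prop :=
  (∀ i, η i ∈ W) ∧ LinearIndependent L (Fin.append α η) ∧ (∀ i, b i < orderOf g) ∧
    ∀ i, gForm g (η i) = ζ ^ b i • η i

/-- The condition of Reid and Tai for terminal quotients, for the action of the group `G` on the
variety `Z` of dimension `d + r`, the tensor `a (α 0 ∧ ... ∧ α (d - 1)) ^ m` and the space `W` of
1-forms on `Z`: if `g ≠ 1`, of order `e`, generates the inertia group of a prime divisor `w` over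
`Z`, and the `η i` are eigenforms of `g` in `W` as in `EigenForms`, with eigenvalues `ζ ^ b i` for a
primitive `e`-th root of unity `ζ`, then `m ∑ b i + s > m e` for a lower bound `s ≥ 0` for the order
of the tensor on logarithmic vector fields along `w` (for instance `s = 0`). -/
def ReidTaiTensor (d r m : ℕ) (G : Subgroup (L ≃ₐ[k] L)) (α : Fin d → (Derivation k L L →ₗ[L] L))
    (a : L) (W : Submodule k (Derivation k L L →ₗ[L] L)) : Prop :=
  ∀ (g : L ≃ₐ[k] L) (w : Place k L) (v : Place k (fixedField G)), GenInertia (d + r) G g w v →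
    ∀ ζ : k, IsPrimitiveRoot ζ (orderOf g) →
      ∀ (η : Fin r → (Derivation k L L →ₗ[L] L)) (b : Fin r → ℕ), EigenForms α W g ζ η b →
        ∃ s : ℕ, LogOrd w m α a s ∧ m * orderOf g < m * ∑ i, b i + s

/-- The condition of Reid and Tai for the pair `(V, Δ)`, `V = Z / G`, where `Δ` has the
multiplicities `δ v`: in the situation of `ReidTaiTensor`, if `w` lies over the prime divisor `v`
over `V` and `e (1 - δ v) > 1`, then `∑ b i + c ≥ e (1 - δ v) + ε`, where `m c ≥ 0` is a lower bound
for the order of the tensor on logarithmic vector fields along `w` (for instance `c = 0`). -/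
def ReidTaiPair (d r m : ℕ) (G : Subgroup (L ≃ₐ[k] L)) (δ : Place k (fixedField G) → ℝ)
    (α : Fin d → (Derivation k L L →ₗ[L] L)) (a : L)
    (W : Submodule k (Derivation k L L →ₗ[L] L)) (ε : ℝ) : Prop :=
  ∀ (g : L ≃ₐ[k] L) (w : Place k L) (v : Place k (fixedField G)), GenInertia (d + r) G g w v →
    1 < orderOf g * (1 - δ v) → ∀ ζ : k, IsPrimitiveRoot ζ (orderOf g) →
      ∀ (η : Fin r → (Derivation k L L →ₗ[L] L)) (b : Fin r → ℕ), EigenForms α W g ζ η b →
        ∃ c : ℝ, LogOrd w m α a (m * c) ∧ orderOf g * (1 - δ v) + ε ≤ ∑ i, (b i : ℝ) + c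

end

end Pool.Agent.Y174
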