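import Pool.Agent.Y174.B7
import Pool.Agent.Y174.CDefs

/-! Quotients, tensors and pairs: linear algebra and the local estimate. -/

set_option autoImplicit false
set_option linter.overlappingInstances false
set_option linter.unusedSectionVars false

universe u v

open FF IntermediateField Pool.Agent.W619.PQ Pool.Agent.W619.PL Pool.Agent.W619.TW
  Pool.Agent.W603.LV Pool.Agent.W619.Y Pool.Agent.W824.PG

namespace Pool.Agent.Y174

section

variable {k : Type v} {L : Type u} [Field k] [Field L] [Algebra k L]

/-- two matrices, one above the other -/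
def stack {d r : ℕ} (A : Fin d → Fin (d + r) → L) (T : Fin r → Fin (d + r) → L) :
    Matrix (Fin (d + r)) (Fin (d + r)) L :=
  Matrix.of fun i j => Fin.addCases (motive := fun _ => L) (fun l => A l j) (fun b => T b j) i

theorem stack_left {d r : ℕ} (A : Fin d → Fin (d + r) → L) (T : Fin r → Fin (d + r) → L) (l j) :
    stack A T (Fin.castAdd r l) j = A l j := by
  simp only [stack, Matrix.of_apply, Fin.addCases_left]

theorem stack_right {d r : ℕ} (A : Fin d → Fin (d + r) → L) (T : Fin r → Fin (d + r) → L) (b j) :
    stack A T (Fin.natAdd d b) j = T b j := by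
  simp only [stack, Matrix.of_apply, Fin.addCases_right]

theorem stack_mul {d r : ℕ} (Z : Matrix (Fin d) (Fin d) L) (B : Fin d → Fin (d + r) → L)
    (T : Fin r → Fin (d + r) → L) :
    (stack (fun l j => ∑ i, Z l i * B i j) T).det = Z.det * (stack B T).det := by
  rw [← Matrix.det_submatrix_equiv_self finSumFinEquiv,
    ← Matrix.det_submatrix_equiv_self finSumFinEquiv]
  have h3 : (Matrix.submatrix (stack (fun l j => ∑ i, Z l i * B i j) T) finSumFinEquiv
        finSumFinEquiv) =
      Matrix.fromBlocks Z 0 0 (1 : Matrix (Fin r) (Fin r) L) *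
        (Matrix.submatrix (stack B T) finSumFinEquiv finSumFinEquiv) := by
    ext (i | i) j
    · rw [Matrix.mul_apply, Fintype.sum_sum_type]
      simp only [Matrix.submatrix_apply, finSumFinEquiv_apply_left, stack_left,
        Matrix.fromBlocks_apply₁₁, Matrix.fromBlocks_apply₁₂,
        Matrix.zero_apply, zero_mul, Finset.sum_const_zero, add_zero]
    · rw [Matrix.mul_apply, Fintype.sum_sum_type]
      simp only [Matrix.submatrix_apply, finSumFinEquiv_apply_left,
        finSumFinEquiv_apply_right, stack_right, Matrix.fromBlocks_apply₂₁,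
        Matrix.fromBlocks_apply₂₂,
        Matrix.zero_apply, zero_mul, Finset.sum_const_zero, zero_add, Matrix.one_apply]
      rw [Finset.sum_eq_single i]
      · rw [if_pos rfl, one_mul]
      · intro b _ hb
        rw [if_neg (Ne.symm hb), zero_mul]
      · intro hi
        exact absurd (Finset.mem_univ _) hi
  rw [h3, Matrix.det_mul, Matrix.det_fromBlocks_zero₁₂, Matrix.det_one, mul_one]

theorem stack_update {d r : ℕ} (A : Fin d → Fin (d + r) → L) [DecidableEq (Fin r)]
    (T : Fin r → Fin (d + r) → L) (b : Fin r) (x : Fin (d + r) → L) :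
    stack A (Function.update T b x) = (stack A T).updateRow (Fin.natAdd d b) x := by
  ext i j
  refine Fin.addCases (fun l => ?_) (fun c => ?_) i
  · rw [stack_left, Matrix.updateRow_apply, if_neg, stack_left]
    intro h
    have h2 := congrArg Fin.val h
    simp only [Fin.val_natAdd, Fin.val_castAdd] at h2
    omega
  · rw [stack_right, Matrix.updateRow_apply]
    by_cases h : c = b
    · rw [if_pos (by rw [h]), h, Function.update_self]
    · rw [if_neg (fun h' => h (Fin.natAdd_injective r d h')), Function.update_of_ne h, stack_right]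

/-- the determinant as a function of the lower rows -/
noncomputable def stackM {d r : ℕ} (A : Fin d → Fin (d + r) → L) :
    MultilinearMap L (fun _ : Fin r => (Fin (d + r) → L)) L where
  toFun T := (stack A T).det
  map_update_add' T b x y := by
    rw [stack_update, stack_update, stack_update, Matrix.det_updateRow_add]
  map_update_smul' T b c x := by
    rw [stack_update, stack_update, Matrix.det_updateRow_smul, smul_eq_mul]

/-- expansion of the lower rows -/
theorem stack_expand {d r e : ℕ} (A : Fin d → Fin (d + r) → L)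
    (T : Fin r → Fin e → Fin (d + r) → L) :
    (stack A (fun b j => ∑ x, T b x j)).det =
      ∑ ρ : Fin r → Fin e, (stack A (fun b j => T b (ρ b) j)).det := by
  classical
  have h1 := (stackM A).map_sum T
  have h2 : (fun b : Fin r => ∑ x, T b x) = fun b j => ∑ x, T b x j := by
    funext b j
    rw [Finset.sum_apply]
  rw [h2] at h1
  exact h1

end

section

variable {k : Type v} {L : Type u} [Field k] [CharZero k] [Field L] [Algebra k L]

/-- good factorization of the upper rows -/
theorem good_rows {d n m : ℕ} {w : Place k L} {a : L} {c : ℝ} (C : Fin d → Fin n → L)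
    (hC : ∀ x : Fin d → L, (∀ j, ∑ l, x l * C l j = 0) → ∀ l, x l = 0)
    (h : ∀ f : Fin d → Fin n, GeR w c (a * (Matrix.of fun l i => C l (f i)).det ^ m)) :
    ∃ (Z : Matrix (Fin d) (Fin d) L) (B : Fin d → Fin n → L),
      (∀ l j, C l j = ∑ i, Z l i * B i j) ∧ (∀ i j, Ge w 0 (B i j)) ∧ GeR w c (a * Z.det ^ m) := by
  classical
  have hspan := linind_cols (Matrix.of C) hC
  obtain ⟨c0, hc0⟩ := exists_det (K := L) (I := Fin d) (α := Fin n)
    (fun j l => (Matrix.of C) l j) hspan
  -- the minor of least order
  let mn : (Fin d → Fin n) → L := fun c => (Matrix.of fun i => fun l => C l (c i)).det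
  let Sg : Finset (Fin d → Fin n) := Finset.univ.filter fun c => mn c ≠ 0
  obtain ⟨f, hfS, hfmin⟩ := Finset.exists_min_image Sg (fun c => w.ord (mn c))
    ⟨c0, Finset.mem_filter.2 ⟨Finset.mem_univ _, hc0⟩⟩
  have hf : mn f ≠ 0 := (Finset.mem_filter.1 hfS).2
  let Z : Matrix (Fin d) (Fin d) L := Matrix.of fun l i => C l (f i)
  have hZ : Z.det = mn f := by
    rw [← Matrix.det_transpose]
    rfl
  have hZ0 : Z.det ≠ 0 := by rw [hZ]; exact hf
  let B : Fin d → Fin n → L := fun i j => (Z.det)⁻¹ * Z.cramer (fun l => C l j) i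
  refine ⟨Z, B, fun l j => ?_, fun i j => ?_, h f⟩
  · have h1 := congrFun (Matrix.mulVec_cramer Z (fun l => C l j)) l
    have h2 : ∑ i, Z l i * Z.cramer (fun l => C l j) i = Z.det * C l j := h1
    have h3 : ∀ i, Z l i * B i j = (Z.det)⁻¹ * (Z l i * Z.cramer (fun l => C l j) i) := by
      intro i
      simp only [B]
      ring
    rw [Finset.sum_congr rfl fun i _ => h3 i, ← Finset.mul_sum, h2, inv_mul_cancel_left₀ hZ0]
  · have h1 : Z.cramer (fun l => C l j) i = mn (Function.update f i j) := by
      rw [Matrix.cramer_apply, ← Matrix.det_transpose]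
      change _ = (Matrix.of fun i' => fun l => C l (Function.update f i j i')).det
      congr 1
      ext i' l
      rw [Matrix.transpose_apply, Matrix.updateCol_apply, Matrix.of_apply]
      by_cases hi : i' = i
      · rw [if_pos hi, hi, Function.update_self]
      · rw [if_neg hi, Function.update_of_ne hi]
        rfl
    by_cases h0 : mn (Function.update f i j) = 0
    · left
      simp only [B, h1, h0, mul_zero]
    · right
      simp only [B, h1]
      have h2 := hfmin (Function.update f i j) (Finset.mem_filter.2 ⟨Finset.mem_univ _, h0⟩)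
      rw [w.ord_mul (inv_ne_zero hZ0) h0, w.ord_inv, hZ]
      omega

/-- The estimate for a stack of rows. -/
theorem stack_ge {d r m : ℕ} {w : Place k L} {a : L} {c : ℝ}
    (C : Fin d → Fin (d + r) → L)
    (hC : ∀ x : Fin d → L, (∀ j, ∑ l, x l * C l j = 0) → ∀ l, x l = 0)
    (h : ∀ f : Fin d → Fin (d + r), GeR w c (a * (Matrix.of fun l i => C l (f i)).det ^ m))
    (T : Fin r → Fin (d + r) → L) (b : Fin r → ℕ) (hT : ∀ i j, Ge w (b i) (T i j)) :
    GeR w (c + m * ∑ i, (b i : ℝ)) (a * (stack C T).det ^ m) := by
  classical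
  obtain ⟨Z, B, h1, h2, h3⟩ := good_rows (m := m) (a := a) C hC h
  have h4 : C = fun l j => ∑ i, Z l i * B i j := by
    funext l j
    exact h1 l j
  rw [h4, stack_mul]
  let b' : Fin (d + r) → ℕ := fun i => Fin.addCases (motive := fun _ => ℕ) (fun _ => 0) b i
  have h5 : Ge w ((∑ i, b' i : ℕ) : ℤ) (stack B T).det := by
    refine ge_det_rows w _ b' fun i j => ?_
    refine Fin.addCases (fun l => ?_) (fun x => ?_) i
    · rw [stack_left]
      simp only [b', Fin.addCases_left]
      exact h2 l j
    · rw [stack_right]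
      simp only [b', Fin.addCases_right]
      exact hT x j
  have h6 : ∑ i, b' i = ∑ i, b i := by
    rw [Fin.sum_univ_add]
    simp only [b', Fin.addCases_left, Fin.addCases_right, Finset.sum_const_zero, zero_add]
  rw [h6] at h5
  have h7 := h3.mul (Ge.toR (h5.pow m))
  have h8 : a * (Z.det * (stack B T).det) ^ m = a * Z.det ^ m * (stack B T).det ^ m := by
    rw [mul_pow]; ring
  rw [h8]
  refine h7.mono ?_
  push_cast
  apply le_of_eq
  ring

/-- the `m`-th power of a sum -/
theorem ge_pow_sum {ι : Type*} (s : Finset ι) {m : ℕ} (hm : 1 ≤ m) {w : Place k L} {a : L}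
    (ha : a ≠ 0) {B : ℝ} (x : ι → L) (h : ∀ i ∈ s, GeR w B (a * x i ^ m)) :
    GeR w B (a * (∑ i ∈ s, x i) ^ m) := by
  have hm0 : (0 : ℝ) < m := by exact_mod_cast hm
  have h1 : ∀ i ∈ s, GeR w ((B - w.ord a) / m) (x i) := by
    intro i hi
    rcases h i hi with h2 | h2
    · left
      rcases mul_eq_zero.1 h2 with h3 | h3
      · exact absurd h3 ha
      · exact pow_eq_zero_iff (by omega) |>.1 h3
    · by_cases hx : x i = 0
      · exact Or.inl hx
      right
      rw [w.ord_mul ha (pow_ne_zero m hx), w.ord_pow] at h2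
      push_cast at h2
      rw [div_le_iff₀ hm0]
      linarith
  have h2 := (GeR.sum s _ _ h1).pow m
  have h3 : GeR w (w.ord a) a := Or.inr le_rfl
  refine (h3.mul h2).mono ?_
  rw [mul_div_cancel₀ _ hm0.ne']
  linarith

end

end Pool.Agent.Y174
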