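import Pool.Agent.Y174.C1

/-! Quotients, tensors and pairs: the local estimate. -/

set_option autoImplicit false
set_option linter.overlappingInstances false
set_option linter.unusedSectionVars false

universe u v

open FF IntermediateField Pool.Agent.W619.PQ Pool.Agent.W619.PL Pool.Agent.W619.TW
  Pool.Agent.W603.LV Pool.Agent.W619.Y Pool.Agent.W824.PG

namespace Pool.Agent.Y174

section

variable {k : Type v} {L : Type u} [Field k] [CharZero k] [Field L] [Algebra k L]

/-- the form `a (α ∧ η) ^ m` -/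
noncomputable def sform {d r : ℕ} (m : ℕ) (α : Fin d → (Derivation k L L →ₗ[L] L)) (a : L)
    (η : Fin r → (Derivation k L L →ₗ[L] L)) (D : Fin (d + r) → Derivation k L L) : L :=
  a * (stack (fun l j => α l (D j)) (fun b j => η b (D j))).det ^ m

theorem sform_eq {d r : ℕ} (m : ℕ) (α : Fin d → (Derivation k L L →ₗ[L] L)) (a : L)
    (η : Fin r → (Derivation k L L →ₗ[L] L)) (D : Fin (d + r) → Derivation k L L) :
    sform m α a η D = a * adet α η D ^ m := rfl

theorem sform_pluri {d r : ℕ} (m : ℕ) (α : Fin d → (Derivation k L L →ₗ[L] L)) (a : L)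
    (η : Fin r → (Derivation k L L →ₗ[L] L)) : IsPluriForm k L (d + r) m (sform m α a η) := by
  intro X D
  rw [sform_eq, sform_eq, adet_lin, mul_pow]
  change a * (X.det ^ m * _) = _
  ring

theorem over_self (w : Place k L) : Over w w 1 := by
  refine ⟨one_pos, fun f => ?_⟩
  rw [Nat.cast_one, one_mul]
  rfl

/-- the estimate on regular vector fields -/
theorem sform_pres {d r m : ℕ} (hn : Algebra.trdeg k L = (d + r : ℕ))
    (hess : Algebra.EssFiniteType k L) {δ' : Place k L → ℝ}
    {α : Fin d → (Derivation k L L →ₗ[L] L)} (hα : LinearIndependent L α) {a : L}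
    (hT : TensorReg (d + r) m δ' α a) {w : Place k L} (hw : IsDivisorial w (d + r))
    (η : Fin r → (Derivation k L L →ₗ[L] L)) (hη : ∀ i D, Pres w D → w.Reg (η i D))
    (D : Fin (d + r) → Derivation k L L) (hD : ∀ j, Pres w (D j)) :
    GeR w (-(m * δ' w)) (sform m α a η D) := by
  obtain ⟨y, F, i0, hy, hF, ht, hyr, hpres⟩ := pFRAME k L (d + r) hn
    (fun y hy => fin_adj hess y hy) w hw
  have h1 := agood_of hα hT hw y F hy hF hyr hpres
  have h2 := (adet_ge (over_self w) h1 η D hD (fun i j => hη i _ (hD j))).1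
  rw [sform_eq]
  refine GeR.mono h2 ?_
  simp

/-- eigenvectors for the multiplication by the inverse of a function -/
theorem inert_conj {w : Place k L} {g h : L ≃ₐ[k] L} (hg : Inert w g) :
    Inert (w.comp h) (h⁻¹ * g * h) := by
  intro z hz
  have h1 : Ge w 0 (h z) := ge_comp.1 hz
  have h2 := hg (h z) h1
  rw [ge_comp, map_sub]
  have h3 : h ((h⁻¹ * g * h) z) = g (h z) := by
    change h (h.symm (g (h z))) = g (h z)
    rw [h.apply_symm_apply]
  rw [h3]
  exact h2

variable [IsAlgClosed k]

/-- The local estimate. -/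
theorem rt_local {d r m : ℕ} (hn : Algebra.trdeg k L = (d + r : ℕ))
    (hess : Algebra.EssFiniteType k L) (G : Subgroup (L ≃ₐ[k] L)) [Finite G]
    {W : Submodule k (Derivation k L L →ₗ[L] L)}
    (hWr : ∀ η ∈ W, ∀ w : Place k L, IsDivisorial w (d + r) → ∀ D : Derivation k L L, Pres w D →
      w.Reg (η D))
    (hWG : ∀ g ∈ G, ∀ η ∈ W, gForm g η ∈ W) {δ : Place k (fixedField G) → ℝ}
    (hδ : ∀ v, 0 ≤ δ v) {δ' : Place k L → ℝ} (hδ' : IsPull δ δ')
    {α : Fin d → (Derivation k L L →ₗ[L] L)} (hα : LinearIndependent L α) {a : L} (ha : a ≠ 0)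
    (hm : 1 ≤ m) (hT : TensorReg (d + r) m δ' α a) {ε : ℝ} (hε : 0 < ε)
    (hRT : ReidTaiPair d r m G δ α a W ε)
    {v : Place k (fixedField G)} {w : Place k L} {e : ℕ} (hwv : Over w v e)
    (hv : IsDivisorial v (d + r))
    (hI : ∃ I : Subgroup G, Nat.card I = e ∧ ∀ g ∈ I, Inert w (g : L ≃ₐ[k] L))
    {y : Fin (d + r) → fixedField G} (hy : IsTranscendenceBasis k y) {i0 : Fin (d + r)}
    (ht : v.ord (y i0) = 1)
    (F : Fin (d + r) → Derivation k (fixedField G) (fixedField G))
    (hFy : ∀ i j, F i (y j) = if i = j then 1 else 0) (hF : ∀ j, Pres v (F j))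
    (ext : Derivation k (fixedField G) (fixedField G) → Derivation k L L)
    (hext : ∀ D (f : fixedField G), ext D (algebraMap (fixedField G) L f) =
      algebraMap (fixedField G) L (D f))
    (hcomm : ∀ g ∈ G, ∀ D z, g (ext D z) = ext D (g z))
    (Fq : Fin (d + r) → Derivation k (fixedField G) (fixedField G))
    (hFq : ∀ j, Fq j = if j = i0 then y i0 • F j else F j)
    (η : Fin r → (Derivation k L L →ₗ[L] L)) (hη : ∀ i, η i ∈ W) :
    GeR w (m * (e * (1 - δ v))) (sform m α a η (fun j => ext (Fq j))) ∧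
      (1 < e * (1 - δ v) →
        GeR w (m * (e * (1 - δ v)) + m * ε) (sform m α a η (fun j => ext (Fq j)))) := by
  classical
  have hfin := fixed_finite G
  obtain ⟨I, hcard, hIn⟩ := hI
  have he0 : 0 < e := hwv.1
  have hw : IsDivisorial w (d + r) := divisorial_up hwv hv
  have ht0 : y i0 ≠ 0 := by
    intro h0
    rw [h0, v.ord_zero] at ht
    exact zero_ne_one ht
  have ht0' : algebraMap (fixedField G) L (y i0) ≠ 0 := by simpa using ht0
  have hFqp : ∀ j, Pres v (Fq j) := by
    intro j f hf
    rw [hFq]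
    by_cases hj : j = i0
    · rw [if_pos hj]
      exact v.reg_mul (Or.inr (by omega)) (hF _ f hf)
    · rw [if_neg hj]
      exact hF j f hf
  have hFqt : ∀ j, v.Reg (Fq j (y i0) / y i0) := by
    intro j
    rw [hFq]
    by_cases hj : j = i0
    · rw [if_pos hj]
      change v.Reg (y i0 * F j (y i0) / y i0)
      rw [mul_div_cancel_left₀ _ ht0]
      exact hF _ _ (Or.inr (by omega))
    · rw [if_neg hj, hFy, if_neg hj, zero_div]
      exact Or.inl rfl
  have hFlp : ∀ j, Pres w (ext (Fq j)) := fun j =>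
    (log_lift hwv ht0 ht (hFqp j) (hFqt j) (hext _)).1
  have hFll : ∀ j z, w.Reg (ext (Fq j) z / z) := fun j =>
    (log_lift hwv ht0 ht (hFqp j) (hFqt j) (hext _)).2
  -- the crepant case
  have hcrep : ∀ θ : Fin r → (Derivation k L L →ₗ[L] L), (∀ i, θ i ∈ W) →
      GeR w (m + -(m * δ' w)) (sform m α a θ (fun j => ext (Fq j))) := by
    intro θ hθ
    exact ge_log hn hess hw _ (sform_pluri m α a θ)
      (fun D hD => sform_pres hn hess hα hT hw θ (fun i D hD => hWr _ (hθ i) w hw D hD) D hD)
      _ hFlp hFll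
  have hdel := hδ' v w e hwv
  by_cases hcase : (e : ℝ) * (1 - δ v) ≤ 1
  · refine ⟨?_, fun h => absurd h (not_lt.2 hcase)⟩
    rw [max_eq_right (by linarith)] at hdel
    refine (hcrep η hη).mono ?_
    rw [hdel]
    apply le_of_eq
    ring
  push Not at hcase
  -- the general case
  obtain ⟨g, hgI, hgord, ζ, hζ, hgz⟩ := exists_rot_generator w I hIn
  rw [hcard] at hgord hζ
  have hgG : (g : L ≃ₐ[k] L) ∈ G := g.2
  have hg1 : (g : L ≃ₐ[k] L) ≠ 1 := by
    intro h
    rw [h, orderOf_one] at hgord
    rw [← hgord] at hcase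
    have := hδ v
    simp only [Nat.cast_one, one_mul] at hcase
    linarith
  have hge : (g : L ≃ₐ[k] L) ^ e = 1 := by
    rw [← hgord]
    exact pow_orderOf_eq_one _
  have hin : ∀ z, w.Reg z → (g : L ≃ₐ[k] L) z - z = 0 ∨ 0 < w.ord ((g : L ≃ₐ[k] L) z - z) := by
    intro z hz
    rcases hIn g hgI z hz with h | h
    · exact Or.inl h
    · exact Or.inr (by omega)
  have hgen : GenInertia (d + r) G (g : L ≃ₐ[k] L) w v :=
    ⟨hgG, hg1, hw, by rw [hgord]; exact hwv, hin⟩
  -- rows of `α`
  have hyL : IsTranscendenceBasis k (algebraMap (fixedField G) L ∘ y) := hy.algebraMap_comp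
  have hFyL : ∀ i j, ext (F i) ((algebraMap (fixedField G) L ∘ y) j) = if i = j then 1 else 0 := by
    intro i j
    rw [Function.comp_apply, hext, hFy]
    split_ifs <;> simp
  have hrow : ∀ x : Fin d → L, (∀ j, ∑ l, x l * α l (ext (Fq j)) = 0) → ∀ l, x l = 0 := by
    intro x hx l
    rw [Fintype.linearIndependent_iff] at hα
    refine hα x ?_ l
    -- values at `ext (F j)`
    have h1 : ∀ j, (∑ l, x l • α l) (ext (F j)) = 0 := by
      intro j
      have h2 : (∑ l, x l • α l) (ext (Fq j)) = 0 := by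
        rw [LinearMap.sum_apply, ← hx j]
        rfl
      by_cases hj : j = i0
      · have h3 : ext (Fq j) = algebraMap (fixedField G) L (y i0) • ext (F j) := by
          refine Derivation.ext fun z => ?_
          have h4 := der_zero (((ext (Fq j)) - algebraMap (fixedField G) L (y i0) • ext (F j))) _
            hyL (fun i => by
              rw [Derivation.sub_apply, Derivation.smul_apply, Function.comp_apply, hext, hext,
                hFq, if_pos hj, Derivation.smul_apply, smul_eq_mul, smul_eq_mul, map_mul,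
                sub_self]) z
          rw [Derivation.sub_apply, sub_eq_zero] at h4
          exact h4
        rw [h3, map_smul, smul_eq_mul] at h2
        exact (mul_eq_zero.1 h2).resolve_left ht0'
      · have h3 : Fq j = F j := by rw [hFq, if_neg hj]
        rw [h3] at h2
        exact h2
    ext D
    rw [← Pool.Agent.W73.PG.PULL.expand _ hyL (fun j => ext (F j)) hFyL D, map_sum,
      LinearMap.zero_apply]
    exact Finset.sum_eq_zero fun b _ => by rw [map_smul, h1, smul_zero]
  -- expansion into eigenforms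
  have hexp : ∀ D : Fin (d + r) → Derivation k L L,
      (stack (fun l j => α l (D j)) (fun b j => η b (D j))).det =
        ∑ ρ : Fin r → Fin e, (stack (fun l j => α l (D j))
          (fun b j => comp (g : L ≃ₐ[k] L) ζ e (ρ b) (η b) (D j))).det := by
    intro D
    have h1 := stack_expand (fun l j => α l (D j))
      (fun b (x : Fin e) j => comp (g : L ≃ₐ[k] L) ζ e x (η b) (D j))
    have h2 : (fun (b : Fin r) (j : Fin (d + r)) => ∑ x : Fin e,
        comp (g : L ≃ₐ[k] L) ζ e x (η b) (D j)) = fun b j => η b (D j) := by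
      funext b j
      have h3 := LinearMap.congr_fun (sum_comp (g := (g : L ≃ₐ[k] L)) hζ he0 (η b)) (D j)
      rw [LinearMap.sum_apply] at h3
      exact h3
    rw [h2] at h1
    exact h1
  have hmain : GeR w (m * (e * (1 - δ v)) + m * ε) (sform m α a η (fun j => ext (Fq j))) := by
    unfold sform
    rw [hexp]
    refine ge_pow_sum _ hm ha _ fun ρ _ => ?_
    have hmem : ∀ i, comp (g : L ≃ₐ[k] L) ζ e (ρ i) (η i) ∈ W := fun i =>
      comp_mem (hWG _ hgG) ζ e (ρ i) (hη i)
    by_cases hli : LinearIndependent L (Fin.append α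
        (fun i => comp (g : L ≃ₐ[k] L) ζ e (ρ i) (η i)))
    · obtain ⟨c, hc1, hc2⟩ := hRT _ w v hgen (by rw [hgord]; exact hcase) ζ
        (by rw [hgord]; exact hζ) (fun i => comp (g : L ≃ₐ[k] L) ζ e (ρ i) (η i))
        (fun i => (ρ i : ℕ)) ⟨hmem, hli, fun i => by rw [hgord]; exact (ρ i).2,
          fun i => comp_eigen hζ he0 hge _ _⟩
      rw [hgord] at hc2
      have h2 := stack_ge (m := m) (a := a) (c := m * c) (w := w)
        (fun l j => α l (ext (Fq j))) hrow
        (fun f => hc1 (fun i => ext (Fq (f i))) (fun j f hf => hFlp _ f hf) (fun j z => hFll _ z))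
        (fun b j => comp (g : L ≃ₐ[k] L) ζ e (ρ b) (η b) (ext (Fq j))) (fun i => (ρ i : ℕ))
        (fun i j => by
          refine eigen_ge hζ hgz (ρ i).2 (hWr _ (hmem i) w hw _ (hFlp j)) ?_
          rw [← gForm_comm _ _ _ (fun z => hcomm _ hgG _ z), comp_eigen hζ he0 hge,
            LinearMap.smul_apply, Algebra.smul_def])
      refine h2.mono ?_
      have h3 : (m : ℝ) * (e * (1 - δ v) + ε) ≤ m * (∑ i, ((ρ i : ℕ) : ℝ) + c) :=
        mul_le_mul_of_nonneg_left hc2 (Nat.cast_nonneg m)
      linarith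
    · left
      have h1 : (stack (fun l j => α l (ext (Fq j)))
          (fun b j => comp (g : L ≃ₐ[k] L) ζ e (ρ b) (η b) (ext (Fq j)))) =
          Matrix.of fun i j => (Fin.append α
            (fun i => comp (g : L ≃ₐ[k] L) ζ e (ρ i) (η i))) i (ext (Fq j)) := by
        ext i j
        refine Fin.addCases (fun l => ?_) (fun b => ?_) i
        · rw [stack_left, Matrix.of_apply, Fin.append_left]
        · rw [stack_right, Matrix.of_apply, Fin.append_right]
      rw [h1, det_zero_of_dep _ hli, zero_pow (by omega), mul_zero]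
  refine ⟨?_, fun _ => hmain⟩
  -- positivity of the bound
  refine hmain.mono ?_
  have : (0 : ℝ) ≤ m * ε := mul_nonneg (Nat.cast_nonneg m) hε.le
  linarith

end

end Pool.Agent.Y174
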