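import Pool.Agent.Y174.C2

/-! Quotients, tensors and pairs: main theorem. -/

set_option autoImplicit false
set_option linter.overlappingInstances false
set_option linter.unusedSectionVars false

universe u v

open FF IntermediateField Pool.Agent.W619.PQ Pool.Agent.W619.PL Pool.Agent.W619.TW
  Pool.Agent.W603.LV Pool.Agent.W619.Y Pool.Agent.W824.PG

namespace Pool.Agent.Y174

section

variable {k : Type v} {L : Type u} [Field k] [CharZero k] [Field L] [Algebra k L]

/-- From logarithmic frames to all regular vector fields. -/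
theorem ge_of_log {K : IntermediateField k L} [FiniteDimensional K L] {n m : ℕ} {w : Place k L}
    {v : Place k K} {e : ℕ} (hwv : Over w v e)
    (s : (Fin n → Derivation k L L) → L) (hs : IsPluriForm k L n m s) {B : ℝ}
    (ext : Derivation k K K → Derivation k L L)
    (hext : ∀ D (f : K), ext D (algebraMap K L f) = algebraMap K L (D f))
    (hext2 : ∀ D (D'' : Derivation k L L), (∀ f : K, D'' (algebraMap K L f) =
      algebraMap K L (D f)) → D'' = ext D)
    {y : Fin n → K} (hy : IsTranscendenceBasis k y) {i0 : Fin n} (ht : v.ord (y i0) = 1)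
    (F : Fin n → Derivation k K K) (hF : ∀ i j, F i (y j) = if i = j then 1 else 0)
    (hyr : ∀ i, v.Reg (y i))
    (Fq : Fin n → Derivation k K K) (hFq : ∀ j, Fq j = if j = i0 then y i0 • F j else F j)
    (hB : GeR w B (s (fun j => ext (Fq j))))
    (D : Fin n → Derivation k K K) (hD : ∀ j, Pres v (D j)) :
    GeR w (B - m * e) (s (fun j => ext (D j))) := by
  classical
  have ht0 : y i0 ≠ 0 := by
    intro h0
    rw [h0, v.ord_zero] at ht
    exact zero_ne_one ht
  have ht0' : algebraMap K L (y i0) ≠ 0 := by simpa using ht0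
  have hmat : ∀ (X : Matrix (Fin n) (Fin n) K) (D : Fin n → Derivation k K K),
      s (fun j => ext (∑ l, X j l • D l)) =
        (algebraMap K L X.det) ^ m * s (fun j => ext (D j)) := by
    intro X D
    have e1 : (fun j => ext (∑ l, X j l • D l)) = fun j => ∑ l,
        (X.map (algebraMap K L)) j l • ext (D l) := by
      funext j
      symm
      apply hext2
      intro f
      rw [Pool.Agent.W721.PG.EFF2.der_sum, Pool.Agent.W721.PG.EFF2.der_sum, map_sum]
      refine Finset.sum_congr rfl fun l _ => ?_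
      rw [hext, map_mul]
      rfl
    have e3 : (X.map (algebraMap K L)).det = algebraMap K L X.det := by
      rw [RingHom.map_det]
      rfl
    rw [e1, hs, e3]
  have h2 : s (fun j => ext (Fq j)) = (algebraMap K L (y i0)) ^ m * s (fun j => ext (F j)) := by
    have h3 := hmat (Matrix.diagonal fun j => if j = i0 then y i0 else 1) F
    have h4 : (fun j => ext (∑ l, (Matrix.diagonal fun j : Fin n =>
        if j = i0 then y i0 else (1 : K)) j l • F l)) = fun j => ext (Fq j) := by
      funext j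
      congr 1
      rw [Finset.sum_eq_single j]
      · rw [Matrix.diagonal_apply_eq, hFq]
        by_cases hj : j = i0
        · rw [if_pos hj, if_pos hj]
        · rw [if_neg hj, if_neg hj, one_smul]
      · intro b _ hb
        rw [Matrix.diagonal_apply_ne _ (Ne.symm hb), zero_smul]
      · intro hi
        exact absurd (Finset.mem_univ j) hi
    rw [h4, Matrix.det_diagonal, Finset.prod_ite_eq' Finset.univ i0, if_pos (Finset.mem_univ _)]
      at h3
    exact h3
  rw [h2] at hB
  have h3 := hB.of_mul (pow_ne_zero m ht0')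
  rw [w.ord_pow, hwv.2, ht] at h3
  have h4 : (fun j => ext (D j)) = fun j => ext (∑ l, (Matrix.of fun a b => D a (y b)) j l •
      F l) := by
    funext j
    congr 1
    exact (Pool.Agent.W73.PG.PULL.expand y hy F hF (D j)).symm
  rw [h4, hmat]
  have h5 : Ge w 0 (algebraMap K L (Matrix.of fun a b => D a (y b)).det) := by
    refine hwv.reg.2 ?_
    exact ge_det v _ fun a b => hD a _ (hyr b)
  refine ((Ge.toR (h5.pow m)).mul h3).mono ?_
  push_cast
  linarith

theorem inertia_conj {G : Subgroup (L ≃ₐ[k] L)} {w : Place k L} {e : ℕ}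
    (hI : ∃ I : Subgroup G, Nat.card I = e ∧ ∀ g ∈ I, Inert w (g : L ≃ₐ[k] L)) (h : G) :
    ∃ I : Subgroup G, Nat.card I = e ∧ ∀ g ∈ I,
      Inert (w.comp (h : L ≃ₐ[k] L)) (g : L ≃ₐ[k] L) := by
  obtain ⟨I, hcard, hI⟩ := hI
  refine ⟨I.map (MulAut.conj h⁻¹).toMonoidHom, ?_, ?_⟩
  · rw [← hcard]
    exact (Nat.card_congr (I.equivMapOfInjective _ (MulAut.conj h⁻¹).injective).toEquiv).symm
  · rintro _ ⟨g, hg, rfl⟩
    have h1 := inert_conj (h := (h : L ≃ₐ[k] L)) (hI g hg)
    have h2 : (((MulAut.conj h⁻¹).toMonoidHom g : G) : L ≃ₐ[k] L) =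
        (h : L ≃ₐ[k] L)⁻¹ * (g : L ≃ₐ[k] L) * (h : L ≃ₐ[k] L) := by
      change ((h⁻¹ * g * h⁻¹⁻¹ : G) : L ≃ₐ[k] L) = _
      rw [inv_inv]
      rfl
    rw [h2]
    exact h1

variable [IsAlgClosed k]

/-- Main theorem on quotients, with tensors and pairs. -/
theorem main_C {d r m : ℕ} (hn : Algebra.trdeg k L = (d + r : ℕ))
    (hess : Algebra.EssFiniteType k L) (G : Subgroup (L ≃ₐ[k] L)) [Finite G]
    {W : Submodule k (Derivation k L L →ₗ[L] L)}
    (hWr : ∀ η ∈ W, ∀ w : Place k L, IsDivisorial w (d + r) → ∀ D : Derivation k L L, Pres w D →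
      w.Reg (η D))
    (hWG : ∀ g ∈ G, ∀ η ∈ W, gForm g η ∈ W) {δ : Place k (fixedField G) → ℝ}
    (hδ : ∀ v, 0 ≤ δ v) {δ' : Place k L → ℝ} (hδ' : IsPull δ δ')
    {α : Fin d → (Derivation k L L →ₗ[L] L)} {a : L} (ha : a ≠ 0)
    (hm : 1 ≤ m) (hT : TensorReg (d + r) m δ' α a) {ε : ℝ} (hε : 0 < ε)
    (hRT : ReidTaiPair d r m G δ α a W ε)
    (η : Fin r → (Derivation k L L →ₗ[L] L)) (hη : ∀ i, η i ∈ W)
    (hli : LinearIndependent L (Fin.append α η)) :
    PairKod k (fixedField G) (d + r) δ 0 ∧
      (∀ h, PairKod k (fixedField G) (d + r) δ h ↔ PairKod k L (d + r) δ' h) ∧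
      ∀ h, PairNum k L (d + r) δ' h → PairNum k (fixedField G) (d + r) δ h := by
  classical
  have halgK := Pool.Agent.W721.PG.EFF2.alg_fixed G
  have := Fintype.ofFinite G
  have hfin := fixed_finite G
  obtain ⟨hnK, z, hz⟩ := Pool.Agent.W721.PG.EFF2.exists_basis (fixedField G) (d + r) hn
  have hessK : Algebra.EssFiniteType k (fixedField G) := ess_down hess z hz
  obtain ⟨E, hE⟩ := Pool.Agent.W636.PG.exists_duals k (fixedField G) (d + r) z hz
  choose ext hext hext2 hext3 using pEXT k (fixedField G) L (d + r) hnK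
  have hcomm : ∀ g ∈ G, ∀ D x, g (ext D x) = ext D (g x) := fun g hg D x =>
    hext3 D g (fun f => f.2 ⟨g, hg⟩) x
  have hα : LinearIndependent L α := by
    have h1 := hli.comp (Fin.castAdd r) (Fin.castAdd_injective d r)
    have h2 : Fin.append α η ∘ Fin.castAdd r = α := by
      funext l
      exact Fin.append_left α η l
    rw [h2] at h1
    exact h1
  -- the form
  let s := sform m α a η
  have hs : IsPluriForm k L (d + r) m s := sform_pluri m α a η
  have hloc : ∀ (v : Place k (fixedField G)) (w : Place k L) (e : ℕ), IsDivisorial v (d + r) →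
      Over w v e → (∃ I : Subgroup G, Nat.card I = e ∧ ∀ g ∈ I, Inert w (g : L ≃ₐ[k] L)) →
      ∀ D : Fin (d + r) → Derivation k (fixedField G) (fixedField G), (∀ j, Pres v (D j)) →
        GeR w (-(m * (e * δ v))) (s (fun j => ext (D j))) ∧ (1 < e * (1 - δ v) →
          GeR w (-(m * (e * δ v)) + m * ε) (s (fun j => ext (D j)))) := by
    intro v w e hv hwv hI D hD
    obtain ⟨y, F, i0, hy, hF, ht, hyr, hpres⟩ := pFRAME k (fixedField G) (d + r) hnK
      (fun y hy => fin_adj hessK y hy) v hv
    have h1 := rt_local hn hess G hWr hWG hδ hδ' hα ha hm hT hε hRT hwv hv hI hy ht F hF hpres ext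
      (fun D f => hext D f) hcomm (fun j => if j = i0 then y i0 • F j else F j)
      (fun j => rfl) η hη
    refine ⟨?_, fun hc => ?_⟩
    · refine (ge_of_log hwv s hs ext (fun D f => hext D f) (fun D D'' h => hext2 D D'' h) hy ht F
        hF hyr _ (fun j => rfl) h1.1 D hD).mono ?_
      apply le_of_eq
      ring
    · refine (ge_of_log hwv s hs ext (fun D f => hext D f) (fun D D'' h => hext2 D D'' h) hy ht F
        hF hyr _ (fun j => rfl) (h1.2 hc) D hD).mono ?_
      apply le_of_eq
      ring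
  have hlin : ∀ (X : Matrix (Fin (d + r)) (Fin (d + r)) (fixedField G))
      (D : Fin (d + r) → Derivation k (fixedField G) (fixedField G)),
      s (fun j => ext (∑ l, X j l • D l)) =
        (algebraMap (fixedField G) L X.det) ^ m * s (fun j => ext (D j)) := by
    intro X D
    have e1 : (fun j => ext (∑ l, X j l • D l)) = fun j => ∑ l,
        (X.map (algebraMap (fixedField G) L)) j l • ext (D l) := by
      funext j
      symm
      apply hext2
      intro f
      rw [Pool.Agent.W721.PG.EFF2.der_sum, Pool.Agent.W721.PG.EFF2.der_sum, map_sum]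
      refine Finset.sum_congr rfl fun l _ => ?_
      rw [hext, map_mul]
      rfl
    have e3 : (X.map (algebraMap (fixedField G) L)).det = algebraMap (fixedField G) L X.det := by
      rw [RingHom.map_det]
      rfl
    rw [e1, hs, e3]
  let q : ℕ := ⌈1 / ε⌉₊
  have hq : 1 ≤ (q : ℝ) * ε := by
    have h1 : 1 / ε ≤ q := Nat.le_ceil _
    rwa [div_le_iff₀ hε] at h1
  have hq0 : 1 ≤ q := by
    by_contra hcon
    have : q = 0 := by omega
    rw [this] at hq
    simp only [Nat.cast_zero, zero_mul] at hq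
    linarith
  let Θ0 : (Fin (d + r) → Derivation k (fixedField G) (fixedField G)) → L := fun D =>
    (∏ h : G, (h : L ≃ₐ[k] L) (s (fun j => ext (D j)))) ^ q
  have hinv : ∀ (g : G) D, (g : L ≃ₐ[k] L) (Θ0 D) = Θ0 D := by
    intro g D
    change (g : L ≃ₐ[k] L) ((∏ h : G, (h : L ≃ₐ[k] L) (s (fun j => ext (D j)))) ^ q) = _
    rw [map_pow, map_prod]
    congr 1
    exact Fintype.prod_equiv (Equiv.mulLeft g) _ _ (fun h => rfl)
  -- nonvanishing
  have hzL : IsTranscendenceBasis k (algebraMap (fixedField G) L ∘ z) := hz.algebraMap_comp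
  have hE' : ∀ i j, ext (E i) ((algebraMap (fixedField G) L ∘ z) j) = if i = j then 1 else 0 := by
    intro i j
    rw [Function.comp_apply, hext, hE]
    split_ifs <;> simp
  have hsE : s (fun j => ext (E j)) ≠ 0 := by
    refine mul_ne_zero ha (pow_ne_zero m ?_)
    intro h0
    have h1 : (stack (fun l j => α l (ext (E j))) (fun b j => η b (ext (E j)))) =
        Matrix.of fun i j => (Fin.append α η) i (ext (E j)) := by
      ext i j
      refine Fin.addCases (fun l => ?_) (fun b => ?_) i
      · rw [stack_left, Matrix.of_apply, Fin.append_left]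
      · rw [stack_right, Matrix.of_apply, Fin.append_right]
    rw [h1] at h0
    obtain ⟨c, hc0, hc⟩ := Matrix.exists_vecMul_eq_zero_iff.2 h0
    apply hc0
    rw [Fintype.linearIndependent_iff] at hli
    funext i
    refine hli c ?_ i
    ext D
    rw [← Pool.Agent.W73.PG.PULL.expand _ hzL (fun j => ext (E j)) hE' D, map_sum,
      LinearMap.zero_apply]
    refine Finset.sum_eq_zero fun b _ => ?_
    rw [map_smul, LinearMap.sum_apply]
    have h2 : ∑ i, (c i • (Fin.append α η) i) (ext (E b)) = 0 := congrFun hc b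
    rw [h2, smul_zero]
  have hΘ0E : Θ0 E ≠ 0 := pow_ne_zero _ (Finset.prod_ne_zero_iff.2 fun h _ => by simpa using hsE)
  let N : ℕ := m * (Fintype.card G * q)
  have hN : 1 ≤ N := Nat.mul_pos (by omega) (Nat.mul_pos Fintype.card_pos (by omega))
  let Θ : (Fin (d + r) → Derivation k (fixedField G) (fixedField G)) → fixedField G :=
    fun D => ⟨Θ0 D, fun g => hinv g D⟩
  have hΘ : IsPluriForm k (fixedField G) (d + r) N Θ := by
    intro X D
    apply Subtype.ext
    change (∏ h : G, (h : L ≃ₐ[k] L) (s (fun j => ext (∑ l, X j l • D l)))) ^ q =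
      algebraMap (fixedField G) L (X.det ^ N * Θ D)
    rw [map_mul, map_pow]
    have h1 : ∀ h : G, (h : L ≃ₐ[k] L) (s (fun j => ext (∑ l, X j l • D l))) =
        (algebraMap (fixedField G) L X.det) ^ m * (h : L ≃ₐ[k] L) (s (fun j => ext (D j))) := by
      intro h
      rw [hlin, map_mul, map_pow]
      congr 2
      exact X.det.2 h
    rw [Finset.prod_congr rfl fun h _ => h1 h, Finset.prod_mul_distrib, Finset.prod_const,
      Finset.card_univ, mul_pow, ← pow_mul, ← pow_mul]
    rfl
  have hfac : ∀ (v : Place k (fixedField G)) (w : Place k L) (e : ℕ), IsDivisorial v (d + r) →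
      Over w v e → (∃ I : Subgroup G, Nat.card I = e ∧ ∀ g ∈ I, Inert w (g : L ≃ₐ[k] L)) →
      ∀ D : Fin (d + r) → Derivation k (fixedField G) (fixedField G), (∀ j, Pres v (D j)) →
        ∀ h : G, GeR w (-(m * (e * δ v))) ((h : L ≃ₐ[k] L) (s (fun j => ext (D j)))) ∧
          (1 < e * (1 - δ v) → GeR w (-(m * (e * δ v)) + m * ε)
            ((h : L ≃ₐ[k] L) (s (fun j => ext (D j))))) := by
    intro v w e hv hwv hI D hD h
    have h1 := hloc v (w.comp (h : L ≃ₐ[k] L)) e hv
      (over_comp hwv (h : L ≃ₐ[k] L) (fun z => z.2 h)) (inertia_conj hI h) D hD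
    exact ⟨GeR.comp.1 h1.1, fun hc => GeR.comp.1 (h1.2 hc)⟩
  have hΘr : ∀ v : Place k (fixedField G), IsDivisorial v (d + r) →
      ∀ D : Fin (d + r) → Derivation k (fixedField G) (fixedField G), (∀ j, Pres v (D j)) →
        GeR v (-(N * δ v)) (Θ D) := by
    intro v hv D hD
    obtain ⟨w, e, I, hwv, hcard, hI⟩ := exists_inertia G v
    apply GeR.down hwv
    change GeR w _ (Θ0 D)
    have h1 := (GeR.prod (w := w) Finset.univ _ _ fun h _ =>
      (hfac v w e hv hwv ⟨I, hcard, hI⟩ D hD h).1).pow q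
    refine h1.mono ?_
    rw [Finset.card_univ]
    simp only [N]
    push_cast
    apply le_of_eq
    ring
  have hΘv : ∀ (v : Place k (fixedField G)) (w : Place k L) (e : ℕ), IsDivisorial v (d + r) →
      Over w v e → 1 < e * (1 - δ v) →
      (∃ I : Subgroup G, Nat.card I = e ∧ ∀ g ∈ I, Inert w (g : L ≃ₐ[k] L)) →
      ∀ D : Fin (d + r) → Derivation k (fixedField G) (fixedField G), (∀ j, Pres v (D j)) →
        GeR w (e * (-(N * δ v)) + 1) (algebraMap (fixedField G) L (Θ D)) := by
    intro v w e hv hwv hc hI D hD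
    change GeR w _ (Θ0 D)
    have h1 := (GeR.prod (w := w) Finset.univ _ _ fun h _ =>
      (hfac v w e hv hwv hI D hD h).2 hc).pow q
    refine h1.mono ?_
    rw [Finset.card_univ]
    simp only [N]
    push_cast
    have h2 : (1 : ℝ) ≤ m * Fintype.card G := by
      have : 1 ≤ m * Fintype.card G := Nat.mul_pos (by omega) Fintype.card_pos
      exact_mod_cast this
    have h3 : (1 : ℝ) ≤ (m * Fintype.card G) * (q * ε) := one_le_mul_of_one_le_of_one_le h2 hq
    nlinarith
  refine ⟨kod_self δ hN Θ hΘ hΘr ⟨E, fun h => hΘ0E (congrArg Subtype.val h)⟩,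
    fun h => ⟨fun hh => pair_up hessK hnK hδ' hh, fun hh =>
      pair_desc hn hess G δ δ' (fun v _ => hδ v) hδ' N Θ hΘ hΘr
        ⟨E, fun h => hΘ0E (congrArg Subtype.val h)⟩ hΘv hh⟩,
    fun h hh => pair_num hessK hnK hδ' hh⟩

/-- Main theorem on quotients, with tensors, without boundary. -/
theorem main_C0 {d r m : ℕ} (hn : Algebra.trdeg k L = (d + r : ℕ))
    (hess : Algebra.EssFiniteType k L) (G : Subgroup (L ≃ₐ[k] L)) [Finite G]
    {W : Submodule k (Derivation k L L →ₗ[L] L)}
    (hWr : ∀ η ∈ W, ∀ w : Place k L, IsDivisorial w (d + r) → ∀ D : Derivation k L L, Pres w D →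
      w.Reg (η D))
    (hWG : ∀ g ∈ G, ∀ η ∈ W, gForm g η ∈ W)
    {α : Fin d → (Derivation k L L →ₗ[L] L)} {a : L} (ha : a ≠ 0) (hm : 1 ≤ m)
    (hT : ∀ w : Place k L, IsDivisorial w (d + r) → ∀ D : Fin d → Derivation k L L,
      (∀ j f, w.Reg f → w.Reg (D j f)) → w.Reg (a * (Matrix.of fun i j => α i (D j)).det ^ m))
    (hRT : ReidTaiTensor d r m G α a W)
    (η : Fin r → (Derivation k L L →ₗ[L] L)) (hη : ∀ i, η i ∈ W)
    (hli : LinearIndependent L (Fin.append α η)) :
    KodTr k (fixedField G) (d + r) 0 ∧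
      (∀ h, KodTr k (fixedField G) (d + r) h ↔ KodTr k L (d + r) h) ∧
      ∀ h, NumLe k L (d + r) (fun _ => False) h →
        NumLe k (fixedField G) (d + r) (fun _ => False) h := by
  have hm0 : (0 : ℝ) < m := by exact_mod_cast hm
  have h1 := main_C hn hess G hWr hWG (δ := fun _ => 0) (fun _ => le_rfl) (δ' := fun _ => 0)
    isPull_zero ha hm (by
      intro v hv D hD
      rcases hT v hv D hD with h | h
      · exact Or.inl h
      · right
        rw [mul_zero, neg_zero]
        exact_mod_cast h) (ε := 1 / m) (by positivity) (by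
      intro g w v hg _ ζ hζ η b hηb
      obtain ⟨s, hs1, hs2⟩ := hRT g w v hg ζ hζ η b hηb
      refine ⟨s / m, ?_, ?_⟩
      · rw [mul_div_cancel₀ _ hm0.ne']
        exact hs1
      · have h2 : ((m * orderOf g + 1 : ℕ) : ℝ) ≤ ((m * ∑ i, b i + s : ℕ) : ℝ) := by
          exact_mod_cast hs2
        push_cast at h2
        have h3 : (m : ℝ) * (orderOf g * (1 - 0) + 1 / m) ≤ m * (∑ i, (b i : ℝ) + s / m) := by
          rw [mul_add, mul_add, mul_div_cancel₀ _ hm0.ne', mul_div_cancel₀ _ hm0.ne']
          linarith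
        exact le_of_mul_le_mul_left h3 hm0) η hη hli
  obtain ⟨h2, h3, h4⟩ := h1
  refine ⟨pairKod_zero.1 h2, fun h => ?_, fun h hh => ?_⟩
  · rw [← pairKod_zero, ← pairKod_zero]
    exact h3 h
  · exact pairNum_zero.1 (h4 h (pairNum_zero.2 hh))

end

end Pool.Agent.Y174
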