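import Pool.Agent.Y174.Defs
import Pool.Agent.W762.PG.PRES
import Pool.Agent.W357.PG.EXT
import Pool.Agent.W513.PG.SYM
import Pool.Agent.W672.PG.KOD2
import Pool.Agent.W73.PG.PULL
import Pool.Agent.W636.PG.Trans

/-! Descent of pluricanonical forms from a Galois cover, with the help of an invariant form which
vanishes along the ramified divisors. -/

set_option autoImplicit false
set_option linter.overlappingInstances false
set_option linter.unusedSectionVars false

universe u v

open FF IntermediateField Pool.Agent.W619.PQ Pool.Agent.W619.PL Pool.Agent.W619.TW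
  Pool.Agent.W603.LV Pool.Agent.W619.Y Pool.Agent.W672.PG

namespace Pool.Agent.Y174

theorem pPRES : S_PRES.{u, v} := Pool.Agent.W762.PG.main
theorem pEXT : S_EXT.{u, v} := Pool.Agent.W357.PG.main

section

variable {k : Type v} {L : Type u} [Field k] [CharZero k] [Field L] [Algebra k L]

theorem over_comp {K : IntermediateField k L} {w : Place k L} {v : Place k K} {e : ℕ}
    (h : Over w v e) (g : L ≃ₐ[k] L) (hg : ∀ z : K, g z = z) : Over (w.comp g) v e := by
  refine ⟨h.1, fun f => ?_⟩
  rw [Place.comp_ord, ← h.2 f]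
  congr 1
  exact hg f

theorem divisorial_up {K : Type*} [Field K] [Algebra k K] [Algebra K L] [IsScalarTower k K L]
    {w : Place k L} {v : Place k K} {e n : ℕ} (h : Over w v e)
    (hv : IsDivisorial v n) : IsDivisorial w n := by
  obtain ⟨y, hy⟩ := hv
  refine ⟨fun i => algebraMap K L (y i), fun p hp => ?_⟩
  obtain ⟨h1, h2⟩ := hy p hp
  have h3 : MvPolynomial.aeval (fun i => algebraMap K L (y i)) p =
      algebraMap K L (MvPolynomial.aeval y p) := by
    rw [← MvPolynomial.aeval_algebraMap_apply]
    rfl
  rw [h3, h.2, h2, mul_zero]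
  exact ⟨(map_ne_zero_iff _ (algebraMap K L).injective).2 h1, rfl⟩

theorem ge_comp {w : Place k L} {g : L ≃ₐ[k] L} {N : ℤ} {z : L} :
    Ge (w.comp g) N z ↔ Ge w N (g z) := by
  unfold Ge
  rw [Place.comp_ord]
  simp

/-- The value of a pluricanonical form which is regular at `w`, at vector fields from the fixed field
which are regular at `v`. -/
theorem ge_form {K : IntermediateField k L} [FiniteDimensional K L] {n m : ℕ} {w : Place k L}
    {v : Place k K} {e : ℕ} (h : Over w v e)
    (s : (Fin n → Derivation k L L) → L) (hs : IsPluriForm k L n m s) (hr : RegularAt w n s)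
    (D : Fin n → Derivation k K K) (hD : ∀ j, Pres v (D j))
    (D' : Fin n → Derivation k L L) (hD' : ∀ j (f : K), D' j (algebraMap K L f) =
      algebraMap K L (D j f)) :
    Ge w (if e = 1 then 0 else -(n * m * e : ℤ)) (s D') := by
  by_cases he : e = 1
  · rw [if_pos he]
    refine hr D' fun j z hz => ?_
    refine pPRES k K L v w e h (D' j) (fun x hx => ?_) (Or.inl he) z hz
    rw [hD']
    exact h.reg.2 (hD j x hx)
  · rw [if_neg he]
    obtain ⟨t, ht0, ht⟩ := v.surj
    have htr : v.Reg t := Or.inr (by omega)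
    have ht0' : algebraMap K L t ≠ 0 := by simpa using ht0
    -- the logarithmic vector fields
    have h1 : w.Reg (s (fun j => algebraMap K L t • D' j)) := by
      refine hr _ fun j z hz => ?_
      refine pPRES k K L v w e h (algebraMap K L t • D' j) (fun x hx => ?_) (Or.inr fun x hx => ?_)
        z hz
      · change w.Reg (algebraMap K L t * D' j (algebraMap K L x))
        rw [hD', ← map_mul]
        exact h.reg.2 (v.reg_mul htr (hD j x hx))
      · change w.Reg (algebraMap K L t * D' j (algebraMap K L x) / algebraMap K L x)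
        rw [hD', ← map_mul, ← map_div₀]
        refine h.reg.2 ?_
        refine log_of_pres v (t • D j) (fun y hy => v.reg_mul htr (hD j y hy)) ht0 ht ?_ x
        change v.Reg (t * D j t / t)
        rw [mul_div_cancel_left₀ _ ht0]
        exact hD j t htr
    have h2 : s (fun j => algebraMap K L t • D' j) = (algebraMap K L t) ^ (n * m) * s D' := by
      have h3 := hs (Matrix.diagonal fun _ => algebraMap K L t) D'
      have h4 : (fun i => ∑ j, (Matrix.diagonal fun _ : Fin n => algebraMap K L t) i j • D' j) =
          fun j => algebraMap K L t • D' j := by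
        funext i
        rw [Finset.sum_eq_single i]
        · rw [Matrix.diagonal_apply_eq]
        · intro b _ hb
          rw [Matrix.diagonal_apply_ne _ (Ne.symm hb), zero_smul]
        · intro hi
          exact absurd (Finset.mem_univ i) hi
      rw [h4, Matrix.det_diagonal, Finset.prod_const, Finset.card_univ, Fintype.card_fin,
        ← pow_mul] at h3
      exact h3
    rw [h2] at h1
    have h5 : Ge w 0 ((algebraMap K L t) ^ (n * m) * s D') := h1
    have h6 := h5.of_mul (pow_ne_zero _ ht0')
    rw [w.ord_pow, h.2, ht] at h6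
    refine h6.mono ?_
    push_cast
    ring_nf
    rfl

/-- Descent of pluricanonical forms. -/
theorem kod_desc {n A : ℕ} (hn : Algebra.trdeg k L = n) (G : Subgroup (L ≃ₐ[k] L)) [Finite G]
    (N : ℕ) (Θ : (Fin n → Derivation k (fixedField G) (fixedField G)) → fixedField G)
    (hΘ : IsPluriForm k (fixedField G) n N Θ)
    (hΘr : ∀ v : Place k (fixedField G), IsDivisorial v n → RegularAt v n Θ)
    (hΘ0 : ∃ D, Θ D ≠ 0)
    (hΘv : ∀ (v : Place k (fixedField G)) (w : Place k L) (e : ℕ), IsDivisorial v n → Over w v e →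
      e ≠ 1 → (∃ I : Subgroup G, Nat.card I = e ∧ ∀ g ∈ I, Inert w (g : L ≃ₐ[k] L)) →
      ∀ D : Fin n → Derivation k (fixedField G) (fixedField G), (∀ j, Pres v (D j)) →
        Ge v 1 (Θ D))
    (hL : KodTr k L n A) : KodTr k (fixedField G) n A := by
  classical
  have halgK := Pool.Agent.W721.PG.EFF2.alg_fixed G
  have hfin := fixed_finite G
  have := Fintype.ofFinite G
  obtain ⟨m, hm, ω, hω, DL, hDL0, hDLi⟩ := hL
  obtain ⟨hnK, z, hz⟩ := Pool.Agent.W721.PG.EFF2.exists_basis (fixedField G) n hn
  choose ext hext hext2 hext3 using pEXT k (fixedField G) L n hnK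
  have hfix : ∀ (g : G) (f : fixedField G), (g : L ≃ₐ[k] L) (algebraMap (fixedField G) L f) =
      algebraMap (fixedField G) L f := fun g f => f.2 g
  -- the frame
  obtain ⟨E, hE⟩ := Pool.Agent.W636.PG.exists_duals k (fixedField G) n z hz
  have hzL : IsTranscendenceBasis k (algebraMap (fixedField G) L ∘ z) := hz.algebraMap_comp
  have hE' : ∀ i j, ext (E i) ((algebraMap (fixedField G) L ∘ z) j) = if i = j then 1 else 0 := by
    intro i j
    rw [Function.comp_apply, hext, hE]
    split_ifs <;> simp
  have hval : ∀ l, ω l DL = (Matrix.of fun i j => DL i ((algebraMap (fixedField G) L ∘ z) j)).det ^ m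
      * ω l (fun j => ext (E j)) := fun l =>
    Pool.Agent.W636.PG.form_eq k L n m _ hzL _ hE' (ω l) (hω l).1 DL
  have hdet0 : (Matrix.of fun i j => DL i ((algebraMap (fixedField G) L ∘ z) j)).det ^ m ≠ 0 := by
    intro h0
    apply hDL0 0
    rw [hval, h0, zero_mul]
  have hωE0 : ∀ l, ω l (fun j => ext (E j)) ≠ 0 := by
    intro l h0
    apply hDL0 l
    rw [hval, h0, mul_zero]
  have hΘE : Θ E ≠ 0 := by
    obtain ⟨D, hD⟩ := hΘ0
    intro h0
    apply hD
    rw [Pool.Agent.W636.PG.form_eq k (fixedField G) n N z hz E hE Θ hΘ D, h0, mul_zero]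
  have hΘEL : algebraMap (fixedField G) L (Θ E) ≠ 0 := by simpa using hΘE
  -- the functions
  let V : (Fin n → Derivation k (fixedField G) (fixedField G)) → Fin (A + 1) → L :=
    fun D l => ω l (fun j => ext (D j)) * (algebraMap (fixedField G) L (Θ D)) ^ (n * m)
  have hV0 : ∀ l, V E l ≠ 0 := fun l => mul_ne_zero (hωE0 l) (pow_ne_zero _ hΘEL)
  have hVi : AlgebraicIndependent k (fun l : Fin A => V E l.succ / V E 0) := by
    have e1 : (fun l : Fin A => V E l.succ / V E 0) = fun l : Fin A => ω l.succ DL / ω 0 DL := by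
      funext l
      rw [hval, hval]
      change ω l.succ _ * _ / (ω 0 _ * _) = _
      rw [mul_div_mul_right _ _ (pow_ne_zero _ hΘEL), mul_div_mul_left _ _ hdet0]
    rw [e1]
    exact hDLi
  have hVlin : ∀ (X : Matrix (Fin n) (Fin n) (fixedField G))
      (D : Fin n → Derivation k (fixedField G) (fixedField G)) l,
      V (fun i => ∑ j, X i j • D j) l =
        V D l * (algebraMap (fixedField G) L X.det) ^ (m + N * (n * m)) := by
    intro X D l
    have e1 : (fun j => ext (∑ l, X j l • D l)) = fun j => ∑ l,
        (X.map (algebraMap (fixedField G) L)) j l • ext (D l) := by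
      funext j
      symm
      apply hext2
      intro f
      rw [Pool.Agent.W721.PG.EFF2.der_sum, Pool.Agent.W721.PG.EFF2.der_sum, map_sum]
      refine Finset.sum_congr rfl fun l _ => ?_
      rw [hext, map_mul]
      rfl
    have e3 : (X.map (algebraMap (fixedField G) L)).det = algebraMap (fixedField G) L X.det := by
      rw [RingHom.map_det]
      rfl
    change ω l (fun j => ext (∑ l, X j l • D l)) *
      (algebraMap (fixedField G) L (Θ (fun i => ∑ j, X i j • D j))) ^ (n * m) = _
    rw [e1, (hω l).1, hΘ, e3, map_mul, map_pow]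
    change _ = ω l (fun j => ext (D j)) * (algebraMap (fixedField G) L (Θ D)) ^ (n * m) * _
    rw [pow_add, mul_pow, ← pow_mul]
    ring
  -- symmetric functions
  obtain ⟨R, t, r, q, hR, hrq, hs0, hsi⟩ := Pool.Agent.W513.PG.main k L G 1 A
    (fun g l => (g : L ≃ₐ[k] L) (V E l)) (fun l => by
      change V E l ≠ 0
      exact hV0 l) (by
      have e1 : (fun l : Fin A => ((1 : G) : L ≃ₐ[k] L) (V E l.succ) /
          ((1 : G) : L ≃ₐ[k] L) (V E 0)) = fun l : Fin A => V E l.succ / V E 0 := rfl
      rw [e1]
      exact hVi)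
  let s : (Fin n → Derivation k (fixedField G) (fixedField G)) → Fin (A + 1) → L :=
    fun D j => esy (fun g : G => (g : L ≃ₐ[k] L) (V D (t j))) (r j) ^ q j
  have hsG : ∀ D j (g : G), (g : L ≃ₐ[k] L) (s D j) = s D j := by
    intro D j g
    change (g : L ≃ₐ[k] L) (esy (fun g : G => (g : L ≃ₐ[k] L) (V D (t j))) (r j) ^ q j) = _
    rw [map_pow]
    congr 1
    exact esy_inv _ (g : L ≃ₐ[k] L) (Equiv.mulLeft g) (fun i => rfl) _
  have hsA : ∀ (X : Matrix (Fin n) (Fin n) (fixedField G))
      (D : Fin n → Derivation k (fixedField G) (fixedField G)) j,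
      s (fun i => ∑ j, X i j • D j) j =
        (algebraMap (fixedField G) L X.det) ^ ((m + N * (n * m)) * R) * s D j := by
    intro X D j
    have e1 : (fun g : G => (g : L ≃ₐ[k] L) (V (fun i => ∑ j, X i j • D j) (t j))) =
        fun g : G => (g : L ≃ₐ[k] L) (V D (t j)) *
          (algebraMap (fixedField G) L X.det) ^ (m + N * (n * m)) := by
      funext g
      rw [hVlin, map_mul, map_pow, hfix]
    change esy (fun g : G => (g : L ≃ₐ[k] L) (V (fun i => ∑ j, X i j • D j) (t j))) (r j) ^ q j =
      (algebraMap (fixedField G) L X.det) ^ ((m + N * (n * m)) * R) *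
        esy (fun g : G => (g : L ≃ₐ[k] L) (V D (t j))) (r j) ^ q j
    rw [e1, esy_mul, mul_pow, ← pow_mul, ← pow_mul, hrq j]
  refine ⟨(m + N * (n * m)) * R, Nat.mul_pos (by omega) hR, fun j D => ⟨s D j, fun g => hsG D j g⟩,
    fun l => ⟨?_, ?_, ?_⟩, E, fun l h0 => ?_, ?_⟩
  · intro X D
    apply Subtype.ext
    change s (fun i => ∑ j, X i j • D j) l =
      algebraMap (fixedField G) L (X.det ^ ((m + N * (n * m)) * R) * ⟨s D l, fun g => hsG D l g⟩)
    rw [hsA, map_mul, map_pow]
    rfl
  · intro v hv _ D hD
    apply Pool.Agent.W721.PG.EFF2.dom_of_reg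
    obtain ⟨w, e, I, hwv, hcard, hI⟩ := exists_inertia G v
    rw [← hwv.reg]
    have hVreg : ∀ l (g : G), Ge w 0 ((g : L ≃ₐ[k] L) (V D l)) := by
      intro l g
      rw [← ge_comp]
      have hov := over_comp hwv (g : L ≃ₐ[k] L) (fun z => z.2 g)
      have hdv := divisorial_up hov hv
      have hreg : RegularAt (w.comp (g : L ≃ₐ[k] L)) n (ω l) := by
        intro D' hD'
        rcases (hω l).2.1 _ hdv (fun h => h) D' hD' with h | ⟨s', hs', hs0', hle⟩
        · exact Or.inl h
        · refine Or.inr ?_
          simpa using hle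
      have h1 := ge_form hov (ω l) (hω l).1 hreg D hD (fun j => ext (D j)) (fun j f => hext _ f)
      by_cases he : e = 1
      · rw [if_pos he] at h1
        have h2 : Ge (w.comp (g : L ≃ₐ[k] L)) 0 (algebraMap (fixedField G) L (Θ D)) :=
          hov.reg.2 (hΘr v hv D hD)
        have h5 := h1.mul (h2.pow (n * m))
        rw [mul_zero, add_zero] at h5
        exact h5
      · rw [if_neg he] at h1
        have h2 := hΘv v w e hv hwv he ⟨I, hcard, hI⟩ D hD
        have h3 : Ge (w.comp (g : L ≃ₐ[k] L)) e (algebraMap (fixedField G) L (Θ D)) := by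
          rcases h2 with h2 | h2
          · left; rw [h2, map_zero]
          · right
            rw [hov.2]
            have : (0 : ℤ) < e := by exact_mod_cast hov.1
            nlinarith
        have h4 := h1.mul (h3.pow (n * m))
        refine h4.mono ?_
        push_cast
        linarith
    exact ge_pow0 (ge_esy _ (fun g => hVreg (t l) g) _) _
  · intro v _ hv
    exact hv.elim
  · exact pow_ne_zero _ (hs0 l) (congrArg Subtype.val h0)
  · have hsi' : AlgebraicIndependent k fun l : Fin A =>
        ((⟨s E l.succ, fun g => hsG E l.succ g⟩ / ⟨s E 0, fun g => hsG E 0 g⟩ :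
          fixedField G) : L) := hsi
    exact (AlgHom.algebraicIndependent_iff (fixedField G).val (Subtype.val_injective)).1 hsi'

end

end Pool.Agent.Y174
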