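import Pool.Agent.W619.Y.Stm6

/-! Multivalued 1-forms, symmetric differentials, maximal Albanese dimension: definitions. -/

set_option autoImplicit false
set_option linter.overlappingInstances false
set_option linter.unusedSectionVars false

universe u v

open FF Pool.Agent.W619.PQ

namespace Pool.Agent.Y174

section

variable {k : Type v} {K L : Type u} [Field k] [Field K] [Field L] [Algebra k K] [Algebra k L]
  [Algebra K L]

/-- A multivalued 1-form `ω` on the variety `V` of dimension `n` with function field `K`, with values
in a finite extension `L` of `K`, is regular: along each prime divisor `v` over `V` it takes the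
vector fields which are regular along `v` to functions which are integral over the ring of the
functions regular along `v`. -/
def MultiReg (n : ℕ) (ω : Derivation k K K →ₗ[K] L) : Prop :=
  ∀ v : Place k K, IsDivisorial v n → ∀ D : Derivation k K K, (∀ f, v.Reg f → v.Reg (D f)) →
    ∃ p : Polynomial K, p.Monic ∧ (∀ i, v.Reg (p.coeff i)) ∧ Polynomial.aeval (ω D) p = 0

/-- `s` is a rational symmetric differential of degree `m` on the variety with function field `K`: a
function of rational vector fields such that `s (∑ i, a i • D i)` is a homogeneous polynomial of
degree `m` in the `a i`. -/
def IsSymDiff (m : ℕ) (s : Derivation k K K → K) : Prop :=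
  ∀ (r : ℕ) (D : Fin r → Derivation k K K), ∃ p : MvPolynomial (Fin r) K, p.IsHomogeneous m ∧
    ∀ a : Fin r → K, s (∑ i, a i • D i) = MvPolynomial.eval a p

/-- The symmetric differential `s` is regular: along each prime divisor `v` over the variety of
dimension `n` it takes the vector fields which are regular along `v` to functions regular
along `v`. -/
def SymReg (n : ℕ) (s : Derivation k K K → K) : Prop :=
  ∀ v : Place k K, IsDivisorial v n → ∀ D : Derivation k K K, (∀ f, v.Reg f → v.Reg (D f)) →
    v.Reg (s D)

variable (k K) in
/-- The `m`-th symmetric power of the cotangent bundle of the variety of dimension `n` with function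
field `K` is generically generated by its global sections: the regular symmetric differentials
of degree `m` span the space of all rational symmetric differentials of degree `m` over `K`. -/
def GenGen (n m : ℕ) : Prop :=
  ∀ s : Derivation k K K → K, IsSymDiff m s →
    s ∈ Submodule.span K {s : Derivation k K K → K | IsSymDiff m s ∧ SymReg n s}

variable (k L)

/-- The variety `Z` of dimension `n` with function field `L` has maximal Albanese dimension: there
are `n` regular 1-forms on `Z` which are linearly independent over `L`. -/
def MaxAlb (n : ℕ) : Prop :=
  ∃ η : Fin n → (Derivation k L L →ₗ[L] L), LinearIndependent L η ∧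
    ∀ i, ∀ w : Place k L, IsDivisorial w n → ∀ D : Derivation k L L,
      (∀ f, w.Reg f → w.Reg (D f)) → w.Reg (η i D)

end

end Pool.Agent.Y174
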