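import Pool.Agent.Y174.HDefs
import Pool.Agent.Y174.Main1
import Pool.Agent.W619.TW.Rot

/-! Quotients of varieties of maximal Albanese dimension by terminal actions: local estimates. -/

set_option autoImplicit false
set_option linter.overlappingInstances false
set_option linter.unusedSectionVars false

universe u v

open FF IntermediateField Pool.Agent.W619.PQ Pool.Agent.W619.PL Pool.Agent.W619.TW
  Pool.Agent.W603.LV Pool.Agent.W619.Y

namespace Pool.Agent.Y174

section

variable {k : Type v} {L : Type u} [Field k] [CharZero k] [Field L] [Algebra k L]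

theorem gForm_comm (g : L ≃ₐ[k] L) (η : Derivation k L L →ₗ[L] L) (D : Derivation k L L)
    (hD : ∀ z, g (D z) = D (g z)) : gForm g η D = g (η D) := by
  rw [gForm_apply]
  congr 2
  ext z
  rw [conj_apply, ← hD, AlgEquiv.symm_apply_apply]

theorem gForm_mul (g h : L ≃ₐ[k] L) (η : Derivation k L L →ₗ[L] L) :
    gForm (g * h) η = gForm g (gForm h η) := by
  ext D
  rw [gForm_apply, gForm_apply, gForm_apply, AlgEquiv.mul_apply]
  rfl

theorem gForm_one (η : Derivation k L L →ₗ[L] L) : gForm (1 : L ≃ₐ[k] L) η = η := by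
  ext D
  rfl

theorem gForm_add (g : L ≃ₐ[k] L) (η θ : Derivation k L L →ₗ[L] L) :
    gForm g (η + θ) = gForm g η + gForm g θ := by
  ext D
  rw [gForm_apply, LinearMap.add_apply, LinearMap.add_apply, map_add]
  rfl

theorem gForm_smul (g : L ≃ₐ[k] L) (c : k) (η : Derivation k L L →ₗ[L] L) :
    gForm g (c • η) = c • gForm g η := by
  ext D
  rw [gForm_apply, LinearMap.smul_apply, LinearMap.smul_apply, map_smul]
  rfl

theorem gForm_sum (g : L ≃ₐ[k] L) {ι : Type*} (s : Finset ι) (η : ι → Derivation k L L →ₗ[L] L) :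
    gForm g (∑ i ∈ s, η i) = ∑ i ∈ s, gForm g (η i) := by
  classical
  induction s using Finset.induction_on with
  | empty =>
    ext D
    rw [Finset.sum_empty, Finset.sum_empty, gForm_apply, LinearMap.zero_apply,
      LinearMap.zero_apply, map_zero]
  | insert a s ha ih => rw [Finset.sum_insert ha, Finset.sum_insert ha, gForm_add, ih]

/-- Order of eigenvectors. -/
theorem eigen_ge {w : Place k L} {g : L ≃ₐ[k] L} {ζ : k} {e : ℕ} (hζ : IsPrimitiveRoot ζ e)
    (hg : ∀ z : L, z ≠ 0 → Ge w (w.ord z + 1) (g z - algebraMap k L (ζ ^ w.ord z) * z))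
    {a : ℕ} (ha : a < e) {z : L} (hz : Ge w 0 z) (hgz : g z = algebraMap k L (ζ ^ a) * z) :
    Ge w a z := by
  by_cases hz0 : z = 0
  · exact Or.inl hz0
  have hz' := hz.resolve_left hz0
  right
  have h1 := hg z hz0
  rw [hgz, ← sub_mul, ← map_sub] at h1
  have h2 : ζ ^ a - ζ ^ w.ord z = 0 := by
    by_contra h0
    have h3 : algebraMap k L (ζ ^ a - ζ ^ w.ord z) ≠ 0 :=
      (map_ne_zero_iff _ (algebraMap k L).injective).2 h0
    have h4 := h1.resolve_left (mul_ne_zero h3 hz0)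
    rw [w.ord_mul h3 hz0, w.ord_const h0] at h4
    omega
  have he : e ≠ 0 := by omega
  have hζ0 : ζ ≠ 0 := hζ.ne_zero he
  obtain ⟨m, hm⟩ := Int.eq_ofNat_of_zero_le hz'
  rw [hm, zpow_natCast, sub_eq_zero] at h2
  have h3 : a = m % e := by
    refine hζ.pow_inj ha (Nat.mod_lt _ (by omega)) ?_
    rw [h2]
    conv_lhs => rw [← Nat.mod_add_div m e]
    rw [pow_add, pow_mul, hζ.pow_eq_one, one_pow, mul_one]
  rw [hm]
  have : a ≤ m := by
    rw [h3]
    exact Nat.mod_le _ _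
  exact_mod_cast this

/-- the eigencomponents of a form -/
noncomputable def comp (g : L ≃ₐ[k] L) (ζ : k) (e : ℕ) (b : ℕ) (η : Derivation k L L →ₗ[L] L) :
    Derivation k L L →ₗ[L] L :=
  (e : k)⁻¹ • ∑ j ∈ Finset.range e, (ζ⁻¹) ^ (b * j) • gForm (g ^ j) η

theorem comp_mem {g : L ≃ₐ[k] L} {W : Submodule k (Derivation k L L →ₗ[L] L)}
    (hW : ∀ η ∈ W, gForm g η ∈ W) (ζ : k) (e b : ℕ) {η : Derivation k L L →ₗ[L] L} (hη : η ∈ W) :
    comp g ζ e b η ∈ W := by
  have h1 : ∀ j : ℕ, gForm (g ^ j) η ∈ W := by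
    intro j
    induction j with
    | zero => rw [pow_zero, gForm_one]; exact hη
    | succ j ih => rw [pow_succ', gForm_mul]; exact hW _ ih
  exact W.smul_mem _ (W.sum_mem fun j _ => W.smul_mem _ (h1 j))

theorem comp_eigen {g : L ≃ₐ[k] L} {ζ : k} {e : ℕ} (hζ : IsPrimitiveRoot ζ e) (he : 0 < e)
    (hge : g ^ e = 1) (b : ℕ) (η : Derivation k L L →ₗ[L] L) :
    gForm g (comp g ζ e b η) = ζ ^ b • comp g ζ e b η := by
  have hζ0 : ζ ≠ 0 := hζ.ne_zero he.ne'
  unfold comp
  rw [gForm_smul, gForm_sum, smul_comm (ζ ^ b)]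
  congr 1
  rw [Finset.smul_sum]
  have h1 : ∀ j, gForm g ((ζ⁻¹) ^ (b * j) • gForm (g ^ j) η) =
      ζ ^ b • ((ζ⁻¹) ^ (b * (j + 1)) • gForm (g ^ (j + 1)) η) := by
    intro j
    have h2 : ζ⁻¹ ^ (b * j) = ζ ^ b * ζ⁻¹ ^ (b * (j + 1)) := by
      rw [mul_add, mul_one, pow_add, mul_left_comm, ← mul_pow, mul_inv_cancel₀ hζ0, one_pow,
        mul_one]
    rw [gForm_smul, ← gForm_mul, ← pow_succ', smul_smul, ← h2]
  rw [Finset.sum_congr rfl fun j _ => h1 j]
  obtain ⟨e', rfl⟩ := Nat.exists_eq_succ_of_ne_zero he.ne'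
  rw [Finset.sum_range_succ, Finset.sum_range_succ']
  congr 1
  rw [hge, mul_zero, pow_zero, pow_zero, one_smul, mul_comm b, pow_mul, inv_pow, hζ.pow_eq_one,
    inv_one, one_pow, one_smul]

theorem sum_comp {g : L ≃ₐ[k] L} {ζ : k} {e : ℕ} (hζ : IsPrimitiveRoot ζ e) (he : 0 < e)
    (η : Derivation k L L →ₗ[L] L) : ∑ b : Fin e, comp g ζ e b η = η := by
  have hζ0 : ζ ≠ 0 := hζ.ne_zero he.ne'
  have he0 : (e : k) ≠ 0 := Nat.cast_ne_zero.2 he.ne'
  unfold comp
  rw [← Finset.smul_sum, Finset.sum_comm]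
  have h1 : ∀ j ∈ Finset.range e, ∑ b : Fin e, (ζ⁻¹) ^ ((b : ℕ) * j) • gForm (g ^ j) η =
      (if j = 0 then (e : k) else 0) • gForm (g ^ j) η := by
    intro j hj
    rw [← Finset.sum_smul]
    congr 1
    by_cases hj0 : j = 0
    · subst hj0
      simp
    · rw [if_neg hj0]
      have h2 : ∀ b : Fin e, (ζ⁻¹) ^ ((b : ℕ) * j) = (ζ⁻¹ ^ j) ^ (b : ℕ) := fun b => by
        rw [mul_comm, pow_mul]
      rw [Finset.sum_congr rfl fun b _ => h2 b, Fin.sum_univ_eq_sum_range (fun b => (ζ⁻¹ ^ j) ^ b)]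
      have h3 : ζ⁻¹ ^ j ≠ 1 := by
        intro h
        have h4 : ζ ^ j = 1 := by
          rw [inv_pow, inv_eq_one] at h
          exact h
        have h5 := hζ.dvd_of_pow_eq_one j h4
        have h6 := Nat.le_of_dvd (by omega) h5
        have := Finset.mem_range.1 hj
        omega
      rw [geom_sum_eq h3, ← pow_mul, mul_comm, pow_mul, inv_pow, hζ.pow_eq_one, inv_one, one_pow,
        sub_self, zero_div]
  rw [Finset.sum_congr rfl h1]
  have h2 : ∀ j ∈ Finset.range e, (if j = 0 then (e : k) else 0) • gForm (g ^ j) η =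
      if j = 0 then (e : k) • η else 0 := by
    intro j _
    split_ifs with h
    · subst h
      rw [pow_zero, gForm_one]
    · rw [zero_smul]
  rw [Finset.sum_congr rfl h2, Finset.sum_ite_eq', if_pos (Finset.mem_range.2 he), smul_smul,
    inv_mul_cancel₀ he0, one_smul]

end

end Pool.Agent.Y174
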