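import Pool.Agent.Y174.H1

/-! Quotients of varieties of maximal Albanese dimension by terminal actions: the determinant of `n`
forms at a ramified place. -/

set_option autoImplicit false
set_option linter.overlappingInstances false
set_option linter.unusedSectionVars false

universe u v

open FF IntermediateField Pool.Agent.W619.PQ Pool.Agent.W619.PL Pool.Agent.W619.TW
  Pool.Agent.W603.LV Pool.Agent.W619.Y

namespace Pool.Agent.Y174

section

variable {k : Type v} {L : Type u} [Field k] [CharZero k] [Field L] [Algebra k L]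

theorem ge_prod_sum {w : Place k L} {ι : Type*} (s : Finset ι) (a : ι → ℕ) (f : ι → L)
    (h : ∀ i ∈ s, Ge w (a i) (f i)) : Ge w ((∑ i ∈ s, a i : ℕ) : ℤ) (∏ i ∈ s, f i) := by
  classical
  induction s using Finset.induction_on with
  | empty => simpa using Ge.one (P := w)
  | insert b s hb ih =>
    rw [Finset.prod_insert hb, Finset.sum_insert hb]
    push_cast
    have h1 := (h b (Finset.mem_insert_self _ _)).mul
      (ih fun i hi => h i (Finset.mem_insert_of_mem hi))
    push_cast at h1
    exact h1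

theorem ge_det_rows {n : ℕ} (w : Place k L) (A : Matrix (Fin n) (Fin n) L) (a : Fin n → ℕ)
    (hA : ∀ i j, Ge w (a i) (A i j)) : Ge w ((∑ i, a i : ℕ) : ℤ) A.det := by
  rw [Matrix.det_apply']
  refine Ge.sum _ _ fun σ _ => ?_
  have h1 : Ge w 0 (((Equiv.Perm.sign σ : ℤ) : L)) := Ge.intCast (P := w) _
  have h2 : Ge w ((∑ i, a i : ℕ) : ℤ) (∏ i, A (σ i) i) := by
    have h3 := ge_prod_sum (w := w) Finset.univ (fun i => a (σ i)) (fun i => A (σ i) i)
      (fun i _ => hA (σ i) i)
    have h4 : ∑ i, a (σ i) = ∑ i, a i := Equiv.sum_comp σ a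
    rw [h4] at h3
    exact h3
  simpa using h1.mul h2

theorem det_expand {n e : ℕ} (η : Fin n → Derivation k L L →ₗ[L] L)
    (θ : Fin n → Fin e → Derivation k L L →ₗ[L] L) (h : ∀ i, ∑ b, θ i b = η i)
    (D : Fin n → Derivation k L L) :
    (Matrix.of fun i j => η i (D j)).det =
      ∑ r : Fin n → Fin e, (Matrix.of fun i j => θ i (r i) (D j)).det := by
  classical
  have h1 : (Matrix.of fun i j => η i (D j)) = fun i => ∑ b, fun j => θ i b (D j) := by
    funext i j
    rw [Matrix.of_apply, Finset.sum_apply, ← h i, LinearMap.sum_apply]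
  have h2 := MultilinearMap.map_sum
    (Matrix.detRowAlternating (n := Fin n) (R := L)).toMultilinearMap
    (fun (i : Fin n) (b : Fin e) => (fun j => θ i b (D j) : Fin n → L))
  rw [h1]
  exact h2

theorem det_zero_of_dep {n : ℕ} (η : Fin n → Derivation k L L →ₗ[L] L)
    (h : ¬ LinearIndependent L η) (D : Fin n → Derivation k L L) :
    (Matrix.of fun i j => η i (D j)).det = 0 := by
  classical
  rw [Fintype.not_linearIndependent_iff] at h
  obtain ⟨c, hc, i, hi⟩ := h
  refine Matrix.exists_vecMul_eq_zero_iff.1 ⟨c, fun h0 => hi (congrFun h0 i), ?_⟩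
  funext j
  have h1 := LinearMap.congr_fun hc (D j)
  rw [LinearMap.sum_apply, LinearMap.zero_apply] at h1
  exact h1

/-- The determinant of `n` forms at a ramified place. -/
theorem local_det [IsAlgClosed k] {n : ℕ} (G : Subgroup (L ≃ₐ[k] L)) [Finite G]
    {W : Submodule k (Derivation k L L →ₗ[L] L)}
    (hWr : ∀ η ∈ W, ∀ w : Place k L, IsDivisorial w n → ∀ D : Derivation k L L, Pres w D →
      w.Reg (η D))
    (hWG : ∀ g ∈ G, ∀ η ∈ W, gForm g η ∈ W) (hRT : ReidTai n G W)
    {v : Place k (fixedField G)} {w : Place k L} {e : ℕ} (hwv : Over w v e)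
    (hv : IsDivisorial v n) (he : e ≠ 1)
    (hI : ∃ I : Subgroup G, Nat.card I = e ∧ ∀ g ∈ I, Inert w (g : L ≃ₐ[k] L))
    {t : fixedField G} (ht0 : t ≠ 0) (ht : v.ord t = 1) {i0 : Fin n}
    (F : Fin n → Derivation k (fixedField G) (fixedField G)) (hF : ∀ j, Pres v (F j))
    (hFt : ∀ j, j ≠ i0 → F j t = 0)
    (F' : Fin n → Derivation k L L)
    (hF' : ∀ j (f : fixedField G), F' j (algebraMap (fixedField G) L f) =
      algebraMap (fixedField G) L (F j f))
    (hcomm : ∀ g ∈ G, ∀ j z, g (F' j z) = F' j (g z))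
    (η : Fin n → Derivation k L L →ₗ[L] L) (hη : ∀ i, η i ∈ W) :
    Ge w 1 (Matrix.of fun i j => η i (F' j)).det := by
  classical
  have hfin := fixed_finite G
  obtain ⟨I, hcard, hIn⟩ := hI
  obtain ⟨g, hgI, hgord, ζ, hζ, hgz⟩ := exists_rot_generator w I hIn
  rw [hcard] at hgord hζ
  have he0 : 0 < e := hwv.1
  have hw : IsDivisorial w n := divisorial_up hwv hv
  have hgG : (g : L ≃ₐ[k] L) ∈ G := g.2
  have hg1 : (g : L ≃ₐ[k] L) ≠ 1 := by
    intro h
    rw [h, orderOf_one] at hgord
    exact he hgord.symm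
  have hge : (g : L ≃ₐ[k] L) ^ e = 1 := by
    rw [← hgord]
    exact pow_orderOf_eq_one _
  have hin : ∀ z, w.Reg z → (g : L ≃ₐ[k] L) z - z = 0 ∨ 0 < w.ord ((g : L ≃ₐ[k] L) z - z) := by
    intro z hz
    rcases hIn g hgI z hz with h | h
    · exact Or.inl h
    · exact Or.inr (by omega)
  have ht0' : algebraMap (fixedField G) L t ≠ 0 := by simpa using ht0
  -- the logarithmic frame
  let Fq : Fin n → Derivation k (fixedField G) (fixedField G) := fun j =>
    if j = i0 then t • F j else F j
  let Fl : Fin n → Derivation k L L := fun j =>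
    if j = i0 then algebraMap (fixedField G) L t • F' j else F' j
  have hFq : ∀ j, Pres v (Fq j) := by
    intro j f hf
    by_cases hj : j = i0
    · simp only [Fq, hj, if_true]
      exact v.reg_mul (Or.inr (by omega)) (hF _ f hf)
    · simp only [Fq, hj, if_false]
      exact hF j f hf
  have hFqt : ∀ j, v.Reg (Fq j t / t) := by
    intro j
    by_cases hj : j = i0
    · simp only [Fq, hj, if_true]
      change v.Reg (t * F i0 t / t)
      rw [mul_div_cancel_left₀ _ ht0]
      exact hF _ t (Or.inr (by omega))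
    · simp only [Fq, hj, if_false]
      rw [hFt j hj, zero_div]
      exact Or.inl rfl
  have hFl : ∀ j (f : fixedField G), Fl j (algebraMap (fixedField G) L f) =
      algebraMap (fixedField G) L (Fq j f) := by
    intro j f
    by_cases hj : j = i0
    · simp only [Fq, Fl, hj, if_true]
      change algebraMap (fixedField G) L t * F' i0 _ = algebraMap (fixedField G) L (t * F i0 f)
      rw [hF', map_mul]
    · simp only [Fq, Fl, hj, if_false]
      exact hF' j f
  have hFlcomm : ∀ j z, (g : L ≃ₐ[k] L) (Fl j z) = Fl j ((g : L ≃ₐ[k] L) z) := by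
    intro j z
    by_cases hj : j = i0
    · simp only [Fl, hj, if_true]
      change (g : L ≃ₐ[k] L) (algebraMap (fixedField G) L t * F' i0 z) =
        algebraMap (fixedField G) L t * F' i0 _
      rw [map_mul, hcomm _ hgG]
      congr 1
      exact t.2 g
    · simp only [Fl, hj, if_false]
      exact hcomm _ hgG j z
  have hFlp : ∀ j, Pres w (Fl j) := by
    intro j z hz
    refine pPRES k (fixedField G) L v w e hwv (Fl j) (fun x hx => ?_) (Or.inr fun x hx => ?_) z hz
    · rw [hFl]
      exact hwv.reg.2 (hFq j x hx)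
    · rw [hFl, ← map_div₀]
      exact hwv.reg.2 (log_of_pres v (Fq j) (hFq j) ht0 ht (hFqt j) x)
  -- expansion into eigenforms
  rw [det_expand η (fun i b => comp (g : L ≃ₐ[k] L) ζ e b (η i))
    (fun i => sum_comp hζ he0 (η i)) F']
  refine Ge.sum _ _ fun r _ => ?_
  by_cases hli : LinearIndependent L (fun i => comp (g : L ≃ₐ[k] L) ζ e (r i) (η i))
  · have hmem : ∀ i, comp (g : L ≃ₐ[k] L) ζ e (r i) (η i) ∈ W := fun i =>
      comp_mem (hWG _ hgG) ζ e (r i) (hη i)
    have h1 := hRT g hgG hg1 ⟨w, hw, hin⟩ ζ (by rw [hgord]; exact hζ) _ (fun i => (r i : ℕ)) hmem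
      hli (fun i => by rw [hgord]; exact (r i).2) (fun i => comp_eigen hζ he0 hge _ _)
    rw [hgord] at h1
    have h2 : Ge w ((∑ i, (r i : ℕ) : ℕ) : ℤ) (Matrix.of fun i j =>
        comp (g : L ≃ₐ[k] L) ζ e (r i) (η i) (Fl j)).det := by
      refine ge_det_rows w _ _ fun i j => ?_
      rw [Matrix.of_apply]
      refine eigen_ge hζ hgz (r i).2 (hWr _ (hmem i) w hw _ (hFlp j)) ?_
      rw [← gForm_comm _ _ _ (hFlcomm j), comp_eigen hζ he0 hge, LinearMap.smul_apply,
        Algebra.smul_def]
    have h3 : (Matrix.of fun i j => comp (g : L ≃ₐ[k] L) ζ e (r i) (η i) (Fl j)).det =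
        algebraMap (fixedField G) L t *
          (Matrix.of fun i j => comp (g : L ≃ₐ[k] L) ζ e (r i) (η i) (F' j)).det := by
      have h4 : (Matrix.of fun i j => comp (g : L ≃ₐ[k] L) ζ e (r i) (η i) (Fl j)) =
          (Matrix.of fun i j => comp (g : L ≃ₐ[k] L) ζ e (r i) (η i) (F' j)).updateCol i0
            (algebraMap (fixedField G) L t •
              fun i => comp (g : L ≃ₐ[k] L) ζ e (r i) (η i) (F' i0)) := by
        ext i j
        rw [Matrix.updateCol_apply, Matrix.of_apply]
        by_cases hj : j = i0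
        · simp only [Fl, hj, if_true]
          rw [map_smul, smul_eq_mul]
          rfl
        · simp only [Fl, hj, if_false]
          rfl
      rw [h4, Matrix.det_updateCol_smul]
      congr 2
      ext i j
      rw [Matrix.updateCol_apply, Matrix.of_apply]
      split_ifs with hj
      · rw [hj]
      · rfl
    rw [h3] at h2
    have h5 := h2.of_mul ht0'
    rw [hwv.2, ht] at h5
    refine h5.mono ?_
    push_cast
    have : (e : ℤ) < ∑ i, ((r i : ℕ) : ℤ) := by exact_mod_cast h1
    linarith
  · rw [det_zero_of_dep _ hli]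
    exact Or.inl rfl

end

end Pool.Agent.Y174
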