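import Pool.Agent.Y174.Theta
import Pool.Agent.W824.PG.Many
import Pool.Agent.W240.PG.Frame
import Pool.Agent.W828.PG.DIVI

/-! Varieties whose cotangent bundle is generated by regular multivalued 1-forms. -/

set_option autoImplicit false
set_option linter.overlappingInstances false
set_option linter.unusedSectionVars false

universe u v

open FF IntermediateField Pool.Agent.W619.PQ Pool.Agent.W619.PL Pool.Agent.W619.TW
  Pool.Agent.W603.LV Pool.Agent.W619.Y Pool.Agent.W672.PG Pool.Agent.W824.PG

namespace Pool.Agent.Y174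

theorem pFRAME : S_FRAME.{u, v} := Pool.Agent.W240.PG.Frame.main pPRES
theorem pDIVI : S_DIVI.{u, v} := Pool.Agent.W828.PG.main
theorem pPULL : S_PULL.{u, v} := Pool.Agent.W73.PG.PULL.main pFRAME pDIVI
theorem pTRANS : S_TRANS.{u, v} := Pool.Agent.W636.PG.main pPULL

section

variable {k : Type v} [Field k] [CharZero k] {K L : Type u} [Field K] [Field L] [Algebra k K]
  [Algebra k L] [Algebra K L] [IsScalarTower k K L]

/-- Pull-back of pluricanonical forms. -/
theorem kod_up [FiniteDimensional K L] (hess : Algebra.EssFiniteType k K) {n A : ℕ}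
    (hn : Algebra.trdeg k K = n) (h : KodTr k K n A) : KodTr k L n A := by
  classical
  obtain ⟨m, hm, ω, hω, D, hD0, hDi⟩ := h
  obtain ⟨y, hy⟩ := Pool.Agent.W636.PG.exists_basis k K n hn
  obtain ⟨E, hE⟩ := Pool.Agent.W636.PG.exists_duals k K n y hy
  have hyL : IsTranscendenceBasis k (algebraMap K L ∘ y) := hy.algebraMap_comp
  obtain ⟨E', hE'⟩ := Pool.Agent.W636.PG.exists_duals k L n _ hyL
  have hval : ∀ l, ω l D = (Matrix.of fun i j => D i (y j)).det ^ m * ω l E := fun l =>
    Pool.Agent.W636.PG.form_eq k K n m y hy E hE (ω l) (hω l).1 D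
  have hdet0 : (Matrix.of fun i j => D i (y j)).det ^ m ≠ 0 := by
    intro h0
    apply hD0 0
    rw [hval, h0, zero_mul]
  have hE0 : ∀ l, ω l E ≠ 0 := by
    intro l h0
    apply hD0 l
    rw [hval, h0, mul_zero]
  have hdet : (Matrix.of fun a b => E' a (algebraMap K L (y b))).det = 1 := by
    have h1 : (Matrix.of fun a b => E' a (algebraMap K L (y b))) = 1 := by
      ext a b
      rw [Matrix.of_apply, Matrix.one_apply]
      exact hE' a b
    rw [h1, Matrix.det_one]
  refine ⟨m, hm, fun l D => (Matrix.of fun a b => D a (algebraMap K L (y b))).det ^ m *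
    algebraMap K L (ω l E), fun l => ?_, E', fun l => ?_, ?_⟩
  · have h1 := pPULL k K L n hn (fun y hy => fin_adj hess y hy) (fun _ => False) {1} m 0 y E hy hE
      (ω l) (hω l)
    rw [bdUp_false, Finset.image_singleton, map_one] at h1
    exact h1
  · change (Matrix.of fun a b => E' a (algebraMap K L (y b))).det ^ m *
      algebraMap K L (ω l E) ≠ 0
    rw [hdet, one_pow, one_mul]
    exact (map_ne_zero_iff _ (algebraMap K L).injective).2 (hE0 l)
  · have h1 : (fun l : Fin A => (Matrix.of fun a b => E' a (algebraMap K L (y b))).det ^ m *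
        algebraMap K L (ω l.succ E) / ((Matrix.of fun a b => E' a (algebraMap K L (y b))).det ^ m *
        algebraMap K L (ω 0 E))) = fun l : Fin A =>
          IsScalarTower.toAlgHom k K L (ω l.succ D / ω 0 D) := by
      funext l
      rw [hdet, one_pow, one_mul, one_mul, hval, hval, mul_div_mul_left _ _ hdet0]
      change _ = algebraMap K L _
      rw [map_div₀]
    rw [h1]
    exact (AlgHom.algebraicIndependent_iff (IsScalarTower.toAlgHom k K L)
      (algebraMap K L).injective).2 hDi

theorem kod_equiv {K' : Type u} [Field K'] [Algebra k K'] (e : K ≃ₐ[k] K')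
    (hess : Algebra.EssFiniteType k K) {n A : ℕ}
    (hn : Algebra.trdeg k K = n) (h : KodTr k K n A) : KodTr k K' n A := by
  let iA : Algebra K K' := e.toRingEquiv.toRingHom.toAlgebra
  have t1 : IsScalarTower k K K' := IsScalarTower.of_algebraMap_eq fun c => (e.commutes c).symm
  have f1 : FiniteDimensional K K' :=
    Module.Finite.of_surjective (Algebra.linearMap K K') e.surjective
  exact kod_up hess hn h

/-- Roots of monic polynomials with regular coefficients are regular. -/
theorem ge_of_root {v : Place k K} {w : Place k L} {e : ℕ} (h : Over w v e) {x : L}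
    {p : Polynomial K} (hp : p.Monic) (hc : ∀ i, v.Reg (p.coeff i))
    (hx : Polynomial.aeval x p = 0) : Ge w 0 x := by
  by_cases hx0 : x = 0
  · exact Or.inl hx0
  by_contra hcon
  have hlt : w.ord x < 0 := by
    by_contra h2
    exact hcon (Or.inr (not_lt.1 h2))
  have hd : 0 < p.natDegree := by
    rcases Nat.eq_zero_or_pos p.natDegree with h0 | h0
    · rw [hp.natDegree_eq_zero.1 h0, map_one] at hx
      exact absurd hx one_ne_zero
    · exact h0
  rw [Polynomial.aeval_eq_sum_range, Finset.sum_range_succ, hp.coeff_natDegree, one_smul] at hx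
  have h1 : x ^ p.natDegree = -∑ i ∈ Finset.range p.natDegree, p.coeff i • x ^ i :=
    eq_neg_of_add_eq_zero_right hx
  have h2 : Ge w ((p.natDegree - 1 : ℕ) * w.ord x)
      (-∑ i ∈ Finset.range p.natDegree, p.coeff i • x ^ i) := by
    refine (Ge.sum _ _ fun i hi => ?_).neg
    rw [Algebra.smul_def]
    have h3 : Ge w 0 (algebraMap K L (p.coeff i)) := h.reg.2 (hc i)
    have h4 : Ge w (i * w.ord x) (x ^ i) := Or.inr (by rw [w.ord_pow])
    have h5 := h3.mul h4
    refine h5.mono ?_
    have h6 : i ≤ p.natDegree - 1 := by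
      have := Finset.mem_range.1 hi
      omega
    have h7 : (i : ℤ) ≤ (p.natDegree - 1 : ℕ) := by exact_mod_cast h6
    nlinarith
  rw [← h1] at h2
  rcases h2 with h2 | h2
  · exact hx0 (pow_eq_zero_iff hd.ne' |>.1 h2)
  · rw [w.ord_pow] at h2
    have h3 : ((p.natDegree - 1 : ℕ) : ℤ) = p.natDegree - 1 := by
      rw [Nat.cast_sub hd]
      simp
    rw [h3] at h2
    nlinarith

theorem MultiReg.ge {n : ℕ} {ω : Derivation k K K →ₗ[K] L} (hω : MultiReg n ω) {v : Place k K}
    {w : Place k L} {e : ℕ} (h : Over w v e) (hv : IsDivisorial v n) {D : Derivation k K K}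
    (hD : Pres v D) : Ge w 0 (ω D) := by
  obtain ⟨p, hp, hc, hx⟩ := hω v hv D hD
  exact ge_of_root h hp hc hx

/-- the 1-form on `L` defined by a multivalued form -/
noncomputable def lift {n : ℕ} (z : Fin n → K) (E : Fin n → Derivation k K K)
    (ω : Derivation k K K →ₗ[K] L) : Derivation k L L →ₗ[L] L where
  toFun D := ∑ b, D (algebraMap K L (z b)) * ω (E b)
  map_add' D D' := by
    rw [← Finset.sum_add_distrib]
    refine Finset.sum_congr rfl fun b _ => ?_
    change (D _ + D' _) * _ = _
    rw [add_mul]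
  map_smul' c D := by
    rw [RingHom.id_apply, smul_eq_mul, Finset.mul_sum]
    refine Finset.sum_congr rfl fun b _ => ?_
    change c * D _ * _ = _
    rw [mul_assoc]

theorem lift_apply {n : ℕ} (z : Fin n → K) (E : Fin n → Derivation k K K)
    (ω : Derivation k K K →ₗ[K] L) (D : Derivation k L L) :
    lift z E ω D = ∑ b, D (algebraMap K L (z b)) * ω (E b) := rfl

theorem lift_eq {n : ℕ} (z : Fin n → K) (hz : IsTranscendenceBasis k z)
    (E : Fin n → Derivation k K K) (hE : ∀ i j, E i (z j) = if i = j then 1 else 0)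
    (y : Fin n → K) (hy : IsTranscendenceBasis k y)
    (F : Fin n → Derivation k K K) (hF : ∀ i j, F i (y j) = if i = j then 1 else 0)
    (ω : Derivation k K K →ₗ[K] L) (D : Derivation k L L) :
    lift z E ω D = lift y F ω D := by
  rw [lift_apply, lift_apply]
  have h1 : ∀ b, D (algebraMap K L (z b)) =
      ∑ c, D (algebraMap K L (y c)) * algebraMap K L (F c (z b)) := fun b =>
    Pool.Agent.W73.PG.PULL.chain y hy F hF D (z b)
  have h2 : ∀ c, ω (F c) = ∑ b, algebraMap K L (F c (z b)) * ω (E b) := fun c =>
    form_expand z hz E hE ω (F c)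
  simp only [h1, h2, Finset.sum_mul, Finset.mul_sum]
  rw [Finset.sum_comm]
  refine Finset.sum_congr rfl fun c _ => Finset.sum_congr rfl fun b _ => ?_
  ring

theorem maxAlb_of [FiniteDimensional K L] (hess : Algebra.EssFiniteType k K) {n : ℕ}
    (hn : Algebra.trdeg k K = n) (z : Fin n → K) (hz : IsTranscendenceBasis k z)
    (E : Fin n → Derivation k K K) (hE : ∀ i j, E i (z j) = if i = j then 1 else 0)
    (S : Set (Derivation k K K →ₗ[K] L))
    (hreg : ∀ ω ∈ S, ∀ (v : Place k K) (w : Place k L) (e : ℕ), IsDivisorial v n →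
      Over w v e → ∀ D, Pres v D → Ge w 0 (ω D))
    (hspan : Submodule.span L ((fun ω : Derivation k K K →ₗ[K] L => fun j => ω (E j)) '' S) = ⊤) :
    MaxAlb k L n := by
  classical
  have hzL : IsTranscendenceBasis k (algebraMap K L ∘ z) := hz.algebraMap_comp
  obtain ⟨E', hE'⟩ := Pool.Agent.W636.PG.exists_duals k L n _ hzL
  obtain ⟨f, hf1, -, hf3⟩ := Submodule.exists_fun_fin_finrank_span_eq L
    ((fun ω : Derivation k K K →ₗ[K] L => fun j => ω (E j)) '' S)
  have hfr : Module.finrank L (Submodule.span L
      ((fun ω : Derivation k K K →ₗ[K] L => fun j => ω (E j)) '' S)) = n := by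
    rw [hspan, finrank_top, Module.finrank_fin_fun]
  choose J hJ1 hJ2 using hf1
  let e : Fin n ≃ Fin (Module.finrank L (Submodule.span L
      ((fun ω : Derivation k K K →ₗ[K] L => fun j => ω (E j)) '' S))) := finCongr hfr.symm
  refine ⟨fun i => lift z E (J (e i)), ?_, fun i w hw D hD => ?_⟩
  · let T : (Derivation k L L →ₗ[L] L) →ₗ[L] (Fin n → L) :=
      { toFun := fun η j => η (E' j)
        map_add' := fun η η' => rfl
        map_smul' := fun c η => rfl }
    refine LinearIndependent.of_comp T ?_
    have h1 : (T ∘ fun i => lift z E (J (e i))) = f ∘ e := by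
      funext i j
      change ∑ b, E' j (algebraMap K L (z b)) * J (e i) (E b) = f (e i) j
      have h2 : ∀ b, E' j (algebraMap K L (z b)) = if j = b then 1 else 0 := fun b => hE' j b
      simp only [h2, ite_mul, one_mul, zero_mul, Finset.sum_ite_eq, Finset.mem_univ, if_true]
      exact congrFun (hJ2 (e i)) j
    rw [h1]
    exact hf3.comp e e.injective
  · obtain ⟨r, v, hwv⟩ := Pool.Agent.W73.PG.PULL.exists_over' (K := K) w
    have hv := pDIVI k K L n v w r hwv hw
    obtain ⟨y', F, i0, hy', hF, ht, hyr, hpres⟩ := pFRAME k K n hn (fun y hy => fin_adj hess y hy)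
      v hv
    rw [lift_eq z hz E hE y' hy' F hF, lift_apply]
    have h1 : Ge w 0 (∑ b, D (algebraMap K L (y' b)) * J (e i) (F b)) := by
      refine Ge.sum _ _ fun b _ => ?_
      have h2 : Ge w 0 (D (algebraMap K L (y' b))) := hD _ (hwv.reg.2 (hyr b))
      have h3 := hreg _ (hJ1 (e i)) v w r hv hwv (F b) (hpres b)
      simpa using h2.mul h3
    exact h1

/-- `n` independent regular 1-forms give a canonical form. -/
theorem kod_zero {n : ℕ} {y : Fin n → L} (hy : IsTranscendenceBasis k y) (h : MaxAlb k L n) :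
    KodTr k L n 0 := by
  classical
  obtain ⟨η, hη, hr⟩ := h
  obtain ⟨E, hE⟩ := Pool.Agent.W636.PG.exists_duals k L n y hy
  refine ⟨1, le_rfl, fun _ D => (Matrix.of fun i j => η i (D j)).det, fun l => ⟨?_, ?_, ?_⟩, E,
    fun _ => ?_, ?_⟩
  · intro X D
    have e2 : (Matrix.of fun i j => η i (∑ l, X j l • D l)) =
        (Matrix.of fun i j => η i (D j)) * X.transpose := by
      ext i j
      simp only [Matrix.of_apply, Matrix.mul_apply, Matrix.transpose_apply]
      rw [map_sum]
      refine Finset.sum_congr rfl fun l _ => ?_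
      rw [map_smul, smul_eq_mul, mul_comm]
    change (Matrix.of fun i j => η i (∑ l, X j l • D l)).det =
      X.det ^ 1 * (Matrix.of fun i j => η i (D j)).det
    rw [e2, Matrix.det_mul, Matrix.det_transpose, pow_one, mul_comm]
  · intro w hw _ D hD
    apply Pool.Agent.W721.PG.EFF2.dom_of_reg
    exact ge_det w _ fun i j => hr i w hw (D j) (hD j)
  · intro v _ hv
    exact hv.elim
  · intro h0
    obtain ⟨c, hc0, hc⟩ := Matrix.exists_vecMul_eq_zero_iff.2 h0
    apply hc0
    rw [Fintype.linearIndependent_iff] at hη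
    funext i
    refine hη c ?_ i
    ext D
    rw [LinearMap.zero_apply, LinearMap.sum_apply]
    have h1 : ∀ i, η i D = ∑ b, D (y b) * η i (E b) := by
      intro i
      have := form_expand (K := L) (L := L) y hy E hE (η i) D
      simpa using this
    have h2 : ∀ b, ∑ i, c i * η i (E b) = 0 := fun b => congrFun hc b
    calc ∑ i, (c i • η i) D = ∑ i, ∑ b, c i * (D (y b) * η i (E b)) := by
          refine Finset.sum_congr rfl fun i _ => ?_
          rw [LinearMap.smul_apply, smul_eq_mul, h1, Finset.mul_sum]
      _ = ∑ b, D (y b) * ∑ i, c i * η i (E b) := by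
          rw [Finset.sum_comm]
          refine Finset.sum_congr rfl fun b _ => ?_
          rw [Finset.mul_sum]
          exact Finset.sum_congr rfl fun i _ => by ring
      _ = 0 := by simp [h2]
  · exact algebraicIndependent_empty_type_iff.2 (algebraMap k L).injective

end

end Pool.Agent.Y174
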