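import Pool.Agent.Y174.T1
import Pool.Agent.Y174.Multi

/-! Symmetric differentials on a variety of Kodaira dimension at most `0`. -/

set_option autoImplicit false
set_option linter.overlappingInstances false
set_option linter.unusedSectionVars false

universe u v

open FF MvPolynomial Pool.Agent.W619.PQ Pool.Agent.W619.PL Pool.Agent.W619.TW
  Pool.Agent.W603.LV Pool.Agent.W619.Y Pool.Agent.Y174.T

namespace Pool.Agent.Y174

section gen

theorem det_ne {K : Type*} [Field K] {I : Type*} [Fintype I] (d1 d2 : DecidableEq I)
    (M : Matrix I I K) (h : @Matrix.det I d1 _ K _ M ≠ 0) : @Matrix.det I d2 _ K _ M ≠ 0 := by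
  obtain rfl : d1 = d2 := Subsingleton.elim _ _
  exact h

/-- a spanning family of vectors contains a basis -/
theorem exists_det {K : Type*} [Field K] {I : Type*} [Fintype I] [DecidableEq I] {α : Type*}
    (x : α → I → K) (h : Submodule.span K (Set.range x) = ⊤) :
    ∃ β : I → α, (Matrix.of fun l => x (β l)).det ≠ 0 := by
  obtain ⟨f, hf1, -, hf3⟩ := Submodule.exists_fun_fin_finrank_span_eq K (Set.range x)
  have hfr : Module.finrank K (Submodule.span K (Set.range x)) = Fintype.card I := by
    rw [h, finrank_top, Module.finrank_fintype_fun_eq_card]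
  let e : I ≃ Fin (Module.finrank K (Submodule.span K (Set.range x))) :=
    (Fintype.equivFin I).trans (finCongr hfr.symm)
  choose β hβ using hf1
  refine ⟨fun l => β (e l), ?_⟩
  have h2 : LinearIndependent K (fun l => x (β (e l))) := by
    have h3 : (fun l => x (β (e l))) = f ∘ e := by
      funext l
      exact hβ _
    rw [h3]
    exact hf3.comp e e.injective
  have h3 : IsUnit (Matrix.of fun l => x (β (e l))) :=
    Matrix.linearIndependent_rows_iff_isUnit.1 h2
  exact ((Matrix.isUnit_iff_isUnit_det _).1 h3).ne_zero

/-- interpolation points over an infinite subfield -/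
theorem exists_points (k K : Type*) [Field k] [CharZero k] [Field K] [Algebra k K] (n m : ℕ) :
    ∃ β : Ex n m → Fin n → k, ∀ [DecidableEq (Ex n m)], (Matrix.of fun (l d : Ex n m) =>
      eval (fun i => algebraMap k K (β l i)) (mono K n m d : MvPolynomial (Fin n) K)).det ≠ 0 := by
  classical
  obtain ⟨β, hβ⟩ := exists_det (K := K) (I := Ex n m) (α := Fin n → k) (fun b d =>
    eval (fun i => algebraMap k K (b i)) (mono K n m d : MvPolynomial (Fin n) K)) (by
    by_contra hcon
    obtain ⟨f, hf0, hf⟩ := Submodule.exists_le_ker_of_lt_top _ (lt_top_iff_ne_top.2 hcon)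
    apply hf0
    let c : Ex n m → K := fun d => f (Pi.single d 1)
    have hfc : ∀ x : Ex n m → K, f x = ∑ d, x d * c d := by
      intro x
      have h1 : x = ∑ d, x d • (Pi.single d (1 : K) : Ex n m → K) := by
        funext i
        rw [Finset.sum_apply]
        simp [Pi.single_apply]
      conv_lhs => rw [h1]
      rw [map_sum]
      refine Finset.sum_congr rfl fun j _ => ?_
      rw [map_smul, smul_eq_mul]
    have hp : (∑ d, c d • (mono K n m d : MvPolynomial (Fin n) K)) = 0 := by
      refine funext_set (fun _ => Set.range (algebraMap k K))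
        (fun _ => Set.infinite_range_of_injective (algebraMap k K).injective) fun x hx => ?_
      have hx' : ∀ i, ∃ b, algebraMap k K b = x i := fun i => hx i (Set.mem_univ i)
      choose b hb using hx'
      have h1 := hf (Submodule.subset_span ⟨b, rfl⟩)
      change f _ = 0 at h1
      rw [hfc] at h1
      rw [map_zero, map_sum, ← h1]
      refine Finset.sum_congr rfl fun d _ => ?_
      have h2 : (fun i => algebraMap k K (b i)) = x := funext hb
      change _ = eval (fun i => algebraMap k K (b i)) (mono K n m d : MvPolynomial (Fin n) K) * c d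
      rw [h2, smul_eval, mul_comm]
    have hc : ∀ d, c d = 0 := by
      have h1 := Fintype.linearIndependent_iff.1 (mono_indep (K := K) (n := n) (m := m)) c (by
        apply Subtype.ext
        rw [Submodule.coe_sum]
        exact hp)
      exact h1
    ext x
    simp only [hfc, hc, LinearMap.comp_apply, LinearMap.zero_apply]
    simp)
  refine ⟨β, fun {inst} => ?_⟩
  exact det_ne _ _ _ hβ

end gen

section

variable {k : Type v} [Field k] [CharZero k] {K : Type u} [Field K] [Algebra k K] {n m : ℕ}

/-- the symmetric differential defined by a polynomial in the differentials of the coordinates -/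
noncomputable def sym (y : Fin n → K) (p : MvPolynomial (Fin n) K) (D : Derivation k K K) : K :=
  eval (fun c => D (y c)) p

/-- the coefficients of homogeneous polynomials -/
noncomputable def cf (J : Ex n m → homogeneousSubmodule (Fin n) K m) :
    Matrix (Ex n m) (Ex n m) K := Matrix.of fun d j => (T.basis K n m).repr (J j) d

theorem det_sub [DecidableEq (Ex n m)] (β : Ex n m → Fin n → K)
    (A : Matrix (Fin n) (Fin n) K) (J : Ex n m → homogeneousSubmodule (Fin n) K m) :
    (Matrix.of fun l j : Ex n m => eval (β l) (sub A (J j : MvPolynomial (Fin n) K))).det =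
      (Matrix.of fun (l d : Ex n m) => eval (β l)
        (mono K n m d : MvPolynomial (Fin n) K)).det * chi m A * (cf J).det := by
  classical
  have h1 : (Matrix.of fun l j : Ex n m => eval (β l) (sub A (J j : MvPolynomial (Fin n) K))) =
      (Matrix.of fun (l d : Ex n m) => eval (β l) (mono K n m d : MvPolynomial (Fin n) K)) *
        (LinearMap.toMatrix (T.basis K n m) (T.basis K n m) (subm m A) * cf J) := by
    ext l j
    rw [Matrix.mul_apply, Matrix.of_apply, ← subm_coe]
    have h2 : ∀ d, (LinearMap.toMatrix (T.basis K n m) (T.basis K n m) (subm m A) * cf J) d j =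
        (T.basis K n m).repr (subm m A (J j)) d := by
      intro d
      have h3 := LinearMap.toMatrix_mulVec_repr (T.basis K n m) (T.basis K n m) (subm m A) (J j)
      rw [← congrFun h3 d]
      rfl
    have h4 := (T.basis K n m).sum_repr (subm m A (J j))
    conv_lhs => rw [← h4]
    rw [Submodule.coe_sum, map_sum]
    refine Finset.sum_congr rfl fun d _ => ?_
    rw [h2, Submodule.coe_smul, smul_eval, basis_apply, Matrix.of_apply, mul_comm]
  rw [h1, Matrix.det_mul, Matrix.det_mul, LinearMap.det_toMatrix, mul_assoc]
  rfl

/-- The canonical form given by a determinant of symmetric differentials. -/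
theorem sym_form [DecidableEq (Ex n m)] {w : ℕ}
    (hw : ∀ A : Matrix (Fin n) (Fin n) K, chi m A = A.det ^ w)
    (y : Fin n → K) (J : Ex n m → homogeneousSubmodule (Fin n) K m)
    (hJ : ∀ j, ∀ v : Place k K, IsDivisorial v n → ∀ D : Derivation k K K, Pres v D →
      v.Reg (sym y (J j : MvPolynomial (Fin n) K) D)) :
    IsSec k K n (fun _ => False) {1} w 0
      (fun D => (cf J).det * (Matrix.of fun i c => D i (y c)).det ^ w) := by
  classical
  refine ⟨fun X D => ?_, fun v hv _ D hD => ?_, fun v _ h => h.elim⟩
  · change (cf J).det * (Matrix.of fun i c => (∑ j, X i j • D j) (y c)).det ^ w =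
      X.det ^ w * ((cf J).det * (Matrix.of fun i c => D i (y c)).det ^ w)
    have e : (Matrix.of fun i c => (∑ j, X i j • D j) (y c)) =
        X * Matrix.of fun i c => D i (y c) := by
      ext i c
      rw [Matrix.of_apply, Matrix.mul_apply, Pool.Agent.W721.PG.EFF2.der_sum]
      rfl
    rw [e, Matrix.det_mul, mul_pow]
    ring
  · apply Pool.Agent.W721.PG.EFF2.dom_of_reg
    obtain ⟨β, hβ⟩ := exists_points k K n m
    have hβ' := hβ
    -- the values of the forms
    have h1 : Ge v 0 (Matrix.of fun l j : Ex n m => eval (fun i => algebraMap k K (β l i))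
        (sub (Matrix.of fun i c => D i (y c)) (J j : MvPolynomial (Fin n) K))).det := by
      refine ge_det v _ fun l j => ?_
      rw [Matrix.of_apply, T.eval_sub]
      have h2 := hJ j v hv (∑ i, algebraMap k K (β l i) • D i) (fun f hf => by
        rw [Pool.Agent.W721.PG.EFF2.der_sum]
        have h3 : Ge v 0 (∑ i, algebraMap k K (β l i) * D i f) := by
          refine Ge.sum _ _ fun i _ => ?_
          have h4 : Ge v 0 (D i f) := hD i f hf
          simpa using (Ge.const (P := v) (β l i)).mul h4
        exact h3)
      unfold sym at h2
      have h5 : (fun c => (∑ i, algebraMap k K (β l i) • D i) (y c)) =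
          fun c => ∑ i, algebraMap k K (β l i) * (Matrix.of fun i c => D i (y c)) i c := by
        funext c
        rw [Pool.Agent.W721.PG.EFF2.der_sum]
        rfl
      rw [h5] at h2
      exact h2
    rw [det_sub, hw] at h1
    -- the determinant of the monomials is a constant
    obtain ⟨a, ha⟩ : ∃ a : k, algebraMap k K a = (Matrix.of fun (l d : Ex n m) =>
        eval (fun i => algebraMap k K (β l i)) (mono K n m d : MvPolynomial (Fin n) K)).det := by
      refine ⟨(Matrix.of fun (l d : Ex n m) => ∏ i, β l i ^ d.1 i).det, ?_⟩
      rw [RingHom.map_det]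
      congr 1
      ext l d
      rw [RingHom.mapMatrix_apply, Matrix.map_apply, Matrix.of_apply, Matrix.of_apply, map_prod]
      change _ = eval (fun i => algebraMap k K (β l i)) (monomial d.1 (1 : K))
      rw [eval_monomial, one_mul, Finsupp.prod_fintype _ _ (fun i => pow_zero _)]
      exact Finset.prod_congr rfl fun i _ => map_pow _ _ _
    have ha0 : a ≠ 0 := by
      intro h0
      apply hβ'
      rw [← ha, h0, map_zero]
    have h6 := (Ge.const (P := v) a⁻¹).mul h1
    rw [← ha, map_inv₀] at h6
    have h7 : (algebraMap k K a)⁻¹ * (algebraMap k K a * (Matrix.of fun i c => D i (y c)).det ^ w *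
        (cf J).det) = (cf J).det * (Matrix.of fun i c => D i (y c)).det ^ w := by
      have : algebraMap k K a ≠ 0 := (map_ne_zero_iff _ (algebraMap k K).injective).2 ha0
      field_simp
    rw [h7, zero_add] at h6
    exact h6

/-- On a variety with `κ ≤ 0` the coefficients of a regular symmetric differential with respect to a
basis of regular symmetric differentials are constants. -/
theorem const_coeff [IsAlgClosed k] [DecidableEq (Ex n m)] (hn : 1 ≤ n) (hm : 1 ≤ m)
    (hκ : ¬ KodTr k K n 1)
    (y : Fin n → K) (hy : IsTranscendenceBasis k y) (J : Ex n m → homogeneousSubmodule (Fin n) K m)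
    (hJ : ∀ j, ∀ v : Place k K, IsDivisorial v n → ∀ D : Derivation k K K, Pres v D →
      v.Reg (sym y (J j : MvPolynomial (Fin n) K) D)) (hJ0 : (cf J).det ≠ 0)
    (s : homogeneousSubmodule (Fin n) K m)
    (hs : ∀ v : Place k K, IsDivisorial v n → ∀ D : Derivation k K K, Pres v D →
      v.Reg (sym y (s : MvPolynomial (Fin n) K) D)) :
    ∃ c : Ex n m → k, s = ∑ j, algebraMap k K (c j) • J j := by
  classical
  obtain ⟨E, hE⟩ := Pool.Agent.W636.PG.exists_duals k K n y hy
  have hK0 : CharZero K := charZero_of_injective_algebraMap (algebraMap k K).injective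
  obtain ⟨w, hw1, hw⟩ := chi_eq (K := K) n m
  have hdetE : (Matrix.of fun i c => E i (y c)).det = 1 := by
    have h1 : (Matrix.of fun i c => E i (y c)) = 1 := by
      ext a b
      rw [Matrix.of_apply, Matrix.one_apply]
      exact hE a b
    rw [h1, Matrix.det_one]
  -- the coefficients
  let x : Ex n m → K := (cf J)⁻¹.mulVec fun d => (T.basis K n m).repr s d
  have hu : IsUnit (cf J).det := isUnit_iff_ne_zero.2 hJ0
  have hx : (cf J).mulVec x = fun d => (T.basis K n m).repr s d := by
    rw [Matrix.mulVec_mulVec, Matrix.mul_nonsing_inv _ hu, Matrix.one_mulVec]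
  have hsx : s = ∑ j, x j • J j := by
    apply (T.basis K n m).repr.injective
    ext d
    rw [← congrFun hx d, map_sum, Finsupp.finset_sum_apply]
    refine Finset.sum_congr rfl fun j _ => ?_
    rw [map_smul, Finsupp.smul_apply, smul_eq_mul, mul_comm]
    rfl
  have hxc : ∀ j, ∃ c : k, algebraMap k K c = x j := by
    intro j
    by_contra hcon
    have htr : Transcendental k (x j) := by
      intro halg
      apply hcon
      have h1 : IsIntegral k (x j) := halg.isIntegral
      have h2 : (minpoly k (x j)).degree = 1 :=
        IsAlgClosed.degree_eq_one_of_irreducible k (minpoly.irreducible h1)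
      exact minpoly.mem_range_of_degree_eq_one k (x j) h2
    have hx0 : x j ≠ 0 := fun h0 => htr (by rw [h0]; exact isAlgebraic_zero)
    apply hκ
    let J' : Ex n m → homogeneousSubmodule (Fin n) K m := Function.update J j s
    have hdet' : (cf J').det = x j * (cf J).det := by
      have h1 : cf J' = (cf J).updateCol j ((cf J).mulVec x) := by
        ext d i
        rw [Matrix.updateCol_apply]
        by_cases hi : i = j
        · subst hi
          rw [if_pos rfl, hx]
          change (T.basis K n m).repr (Function.update J i s i) d = _
          rw [Function.update_self]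
        · rw [if_neg hi]
          change (T.basis K n m).repr (Function.update J j s i) d = _
          rw [Function.update_of_ne hi]
          rfl
      rw [h1]
      have h2 : (cf J).mulVec x = fun d => ∑ i, x i • cf J d i := by
        funext d
        refine Finset.sum_congr rfl fun i _ => ?_
        rw [smul_eq_mul, mul_comm]
      rw [h2, Matrix.det_updateCol_sum]
      rfl
    refine ⟨w, hw1 hn hm, fun l D => (if l = 0 then (cf J).det else (cf J').det) *
      (Matrix.of fun i c => D i (y c)).det ^ w, fun l => ?_, E, fun l => ?_, ?_⟩
    · by_cases hl : l = 0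
      · simp only [hl, if_true]
        exact sym_form hw y J hJ
      · simp only [hl, if_false]
        refine sym_form hw y J' fun i => ?_
        by_cases hi : i = j
        · subst hi
          have : J' i = s := Function.update_self ..
          rw [this]
          exact hs
        · have : J' i = J i := Function.update_of_ne hi ..
          rw [this]
          exact hJ i
    · change (if l = 0 then (cf J).det else (cf J').det) *
        (Matrix.of fun i c => E i (y c)).det ^ w ≠ 0
      rw [hdetE, one_pow, mul_one]
      split_ifs
      · exact hJ0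
      · rw [hdet']
        exact mul_ne_zero hx0 hJ0
    · have h1 : (fun l : Fin 1 => (if l.succ = 0 then (cf J).det else (cf J').det) *
          (Matrix.of fun i c => E i (y c)).det ^ w / ((if (0 : Fin 2) = 0 then (cf J).det else
            (cf J').det) * (Matrix.of fun i c => E i (y c)).det ^ w)) = fun _ => x j := by
        funext l
        rw [hdetE, one_pow, mul_one, mul_one, if_pos rfl, if_neg (Fin.succ_ne_zero l), hdet',
          mul_div_cancel_right₀ _ hJ0]
      change AlgebraicIndependent k (fun l : Fin 1 => (if l.succ = 0 then (cf J).det else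
        (cf J').det) * (Matrix.of fun i c => E i (y c)).det ^ w / ((if (0 : Fin 2) = 0 then
          (cf J).det else (cf J').det) * (Matrix.of fun i c => E i (y c)).det ^ w))
      rw [h1]
      exact algebraicIndependent_unique_type_iff.2 htr
  choose c hc using hxc
  exact ⟨c, by rw [hsx]; exact Finset.sum_congr rfl fun j _ => by rw [hc]⟩

end

end Pool.Agent.Y174
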