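import Pool.Agent.Y174.H2
import Pool.Agent.Y174.T2

/-! Quotients of varieties of maximal Albanese dimension by terminal actions: main theorem. -/

set_option autoImplicit false
set_option linter.overlappingInstances false
set_option linter.unusedSectionVars false

universe u v

open FF IntermediateField Pool.Agent.W619.PQ Pool.Agent.W619.PL Pool.Agent.W619.TW
  Pool.Agent.W603.LV Pool.Agent.W619.Y Pool.Agent.W824.PG

namespace Pool.Agent.Y174

section

variable {k : Type v} {L : Type u} [Field k] [CharZero k] [Field L] [Algebra k L]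

/-- A subfield `K` of a finitely generated field `L` with `L` finite over `K` is finitely
generated. -/
theorem ess_down {K : Type u} [Field K] [Algebra k K] [Algebra K L] [IsScalarTower k K L]
    [FiniteDimensional K L] (hess : Algebra.EssFiniteType k L) {n : ℕ} (y : Fin n → K)
    (hy : IsTranscendenceBasis k y) : Algebra.EssFiniteType k K := by
  set K0 := IntermediateField.adjoin k (Set.range y) with hK0
  have t2 : IsScalarTower k K0 K := inferInstance
  have hess1 : Algebra.EssFiniteType K0 L := Algebra.EssFiniteType.of_comp k K0 L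
  have halg1 : Algebra.IsAlgebraic K0 K := hy.isAlgebraic_field
  have halg2 : Algebra.IsAlgebraic K0 L := Algebra.IsAlgebraic.trans K0 K L
  obtain ⟨s, hs⟩ := IntermediateField.fg_top K0 L
  have h1 : FiniteDimensional K0 (IntermediateField.adjoin K0 (s : Set L)) :=
    IntermediateField.finiteDimensional_adjoin fun x _ =>
      (halg2.isAlgebraic x).isIntegral
  rw [hs] at h1
  have h2 : FiniteDimensional K0 L := h1.equiv IntermediateField.topEquiv.toLinearEquiv
  have h3 : FiniteDimensional K0 K := FiniteDimensional.left K0 K L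
  have h4 : Algebra.EssFiniteType K0 K := inferInstance
  have h5 : Algebra.EssFiniteType k K0 :=
    IntermediateField.essFiniteType_iff.2
      (IntermediateField.fg_adjoin_of_finite (Set.finite_range y))
  exact Algebra.EssFiniteType.comp k K0 K

/-- The invariant form. -/
theorem exists_theta2 [IsAlgClosed k] {n : ℕ} (hn : Algebra.trdeg k L = n)
    (hess : Algebra.EssFiniteType k L) (G : Subgroup (L ≃ₐ[k] L)) [Finite G]
    {W : Submodule k (Derivation k L L →ₗ[L] L)}
    (hWr : ∀ η ∈ W, ∀ w : Place k L, IsDivisorial w n → ∀ D : Derivation k L L, Pres w D →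
      w.Reg (η D))
    (hWG : ∀ g ∈ G, ∀ η ∈ W, gForm g η ∈ W) (hRT : ReidTai n G W)
    (η : Fin n → Derivation k L L →ₗ[L] L) (hη : ∀ i, η i ∈ W)
    (hηi : LinearIndependent L η) :
    ∃ (N : ℕ) (Θ : (Fin n → Derivation k (fixedField G) (fixedField G)) → fixedField G),
      IsPluriForm k (fixedField G) n N Θ ∧
      (∀ v : Place k (fixedField G), IsDivisorial v n → RegularAt v n Θ) ∧ (∃ D, Θ D ≠ 0) ∧
      ∀ (v : Place k (fixedField G)) (w : Place k L) (e : ℕ), IsDivisorial v n → Over w v e →
        e ≠ 1 → (∃ I : Subgroup G, Nat.card I = e ∧ ∀ g ∈ I, Inert w (g : L ≃ₐ[k] L)) →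
        ∀ D : Fin n → Derivation k (fixedField G) (fixedField G), (∀ j, Pres v (D j)) →
          Ge v 1 (Θ D) := by
  classical
  have halgK := Pool.Agent.W721.PG.EFF2.alg_fixed G
  have := Fintype.ofFinite G
  have hfin := fixed_finite G
  obtain ⟨hnK, z, hz⟩ := Pool.Agent.W721.PG.EFF2.exists_basis (fixedField G) n hn
  have hessK : Algebra.EssFiniteType k (fixedField G) := ess_down hess z hz
  obtain ⟨E, hE⟩ := Pool.Agent.W636.PG.exists_duals k (fixedField G) n z hz
  choose ext hext hext2 hext3 using pEXT k (fixedField G) L n hnK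
  have hzL : IsTranscendenceBasis k (algebraMap (fixedField G) L ∘ z) := hz.algebraMap_comp
  have hE' : ∀ i j, ext (E i) ((algebraMap (fixedField G) L ∘ z) j) = if i = j then 1 else 0 := by
    intro i j
    rw [Function.comp_apply, hext, hE]
    split_ifs <;> simp
  have hcomm : ∀ g ∈ G, ∀ D x, g (ext D x) = ext D (g x) := fun g hg D x =>
    hext3 D g (fun f => f.2 ⟨g, hg⟩) x
  have hgval : ∀ g ∈ G, ∀ (θ : Derivation k L L →ₗ[L] L) D,
      g (θ (ext D)) = gForm g θ (ext D) := fun g hg θ D =>
    (gForm_comm g θ (ext D) (fun x => hcomm g hg D x)).symm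
  have hgdet : ∀ g ∈ G, ∀ (θ : Fin n → Derivation k L L →ₗ[L] L)
      (D : Fin n → Derivation k (fixedField G) (fixedField G)),
      g (Matrix.of fun i j => θ i (ext (D j))).det =
        (Matrix.of fun i j => gForm g (θ i) (ext (D j))).det := by
    intro g hg θ D
    have h1 := RingHom.map_det (g : L →+* L) (Matrix.of fun i j => θ i (ext (D j)))
    refine h1.trans ?_
    congr 1
    ext i j
    exact hgval g hg (θ i) (D j)
  have hlin : ∀ (θ : Fin n → Derivation k L L →ₗ[L] L) (X : Matrix (Fin n) (Fin n) (fixedField G))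
      (D : Fin n → Derivation k (fixedField G) (fixedField G)),
      (Matrix.of fun i j => θ i (ext (∑ l, X j l • D l))).det =
        algebraMap (fixedField G) L X.det * (Matrix.of fun i j => θ i (ext (D j))).det := by
    intro θ X D
    have e1 : ∀ j, ext (∑ l, X j l • D l) = ∑ l,
        (X.map (algebraMap (fixedField G) L)) j l • ext (D l) := by
      intro j
      symm
      apply hext2
      intro f
      rw [Pool.Agent.W721.PG.EFF2.der_sum, Pool.Agent.W721.PG.EFF2.der_sum, map_sum]
      refine Finset.sum_congr rfl fun l _ => ?_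
      rw [hext, map_mul]
      rfl
    have e3 : (X.map (algebraMap (fixedField G) L)).det = algebraMap (fixedField G) L X.det := by
      rw [RingHom.map_det]
      rfl
    have e2 : (Matrix.of fun i j => θ i (ext (∑ l, X j l • D l))) =
        (Matrix.of fun i j => θ i (ext (D j))) *
          (X.map (algebraMap (fixedField G) L)).transpose := by
      ext i j
      rw [Matrix.of_apply, e1, map_sum, Matrix.mul_apply]
      refine Finset.sum_congr rfl fun l _ => ?_
      rw [map_smul, smul_eq_mul, Matrix.transpose_apply, Matrix.of_apply, mul_comm]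
    rw [e2, Matrix.det_mul, Matrix.det_transpose, e3, mul_comm]
  -- regularity of the determinants
  have hreg : ∀ (θ : Fin n → Derivation k L L →ₗ[L] L), (∀ i, θ i ∈ W) →
      ∀ (v : Place k (fixedField G)) (w : Place k L) (e : ℕ), IsDivisorial v n → Over w v e →
      (∃ I : Subgroup G, Nat.card I = e ∧ ∀ g ∈ I, Inert w (g : L ≃ₐ[k] L)) →
      ∀ D : Fin n → Derivation k (fixedField G) (fixedField G), (∀ j, Pres v (D j)) →
        Ge w (if e = 1 then 0 else 1) (Matrix.of fun i j => θ i (ext (D j))).det := by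
    intro θ hθ v w e hv hwv hI D hD
    by_cases he : e = 1
    · rw [if_pos he]
      refine ge_det w _ fun i j => ?_
      refine hWr _ (hθ i) w (divisorial_up hwv hv) _ fun x hx => ?_
      refine pPRES k (fixedField G) L v w e hwv (ext (D j)) (fun x hx => ?_) (Or.inl he) x hx
      rw [hext]
      exact hwv.reg.2 (hD j x hx)
    · rw [if_neg he]
      obtain ⟨y, F, i0, hy, hF, ht, hyr, hpres⟩ := pFRAME k (fixedField G) n hnK
        (fun y hy => fin_adj hessK y hy) v hv
      have ht0 : y i0 ≠ 0 := by
        intro h0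
        rw [h0, v.ord_zero] at ht
        exact zero_ne_one ht
      have h1 := local_det G hWr hWG hRT hwv hv he hI ht0 ht (i0 := i0) F hpres
        (fun j hj => by rw [hF, if_neg hj]) (fun j => ext (F j)) (fun j f => hext _ f)
        (fun g hg j x => hcomm g hg _ x) θ hθ
      have h2 : ∀ j, D j = ∑ l, (Matrix.of fun a b => D a (y b)) j l • F l := fun j =>
        (Pool.Agent.W73.PG.PULL.expand y hy F hF (D j)).symm
      have h3 := hlin θ (Matrix.of fun a b => D a (y b)) F
      have h4 : (Matrix.of fun i j => θ i (ext (D j))) = (Matrix.of fun i j => θ i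
          (ext (∑ l, (Matrix.of fun a b => D a (y b)) j l • F l))) := by
        ext i j
        rw [Matrix.of_apply, Matrix.of_apply, ← h2 j]
      rw [h4, h3]
      have h5 : Ge w 0 (algebraMap (fixedField G) L (Matrix.of fun a b => D a (y b)).det) := by
        refine hwv.reg.2 ?_
        exact ge_det v _ fun a b => hD a _ (hyr b)
      simpa using h5.mul h1
  let Θ0 : (Fin n → Derivation k (fixedField G) (fixedField G)) → L := fun D =>
    ∏ h : G, (h : L ≃ₐ[k] L) (Matrix.of fun i j => η i (ext (D j))).det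
  have hinv : ∀ (g : G) D, (g : L ≃ₐ[k] L) (Θ0 D) = Θ0 D := by
    intro g D
    change (g : L ≃ₐ[k] L) (∏ h : G, (h : L ≃ₐ[k] L) (Matrix.of fun i j => η i (ext (D j))).det) = _
    rw [map_prod]
    exact Fintype.prod_equiv (Equiv.mulLeft g) _ _ (fun h => rfl)
  have hdet0 : (Matrix.of fun i j => η i (ext (E j))).det ≠ 0 := by
    intro h0
    obtain ⟨c, hc0, hc⟩ := Matrix.exists_vecMul_eq_zero_iff.2 h0
    apply hc0
    rw [Fintype.linearIndependent_iff] at hηi
    funext i
    refine hηi c ?_ i
    ext D
    rw [LinearMap.zero_apply, LinearMap.sum_apply]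
    have h1 : ∀ i, η i D = ∑ b, D ((algebraMap (fixedField G) L ∘ z) b) * η i (ext (E b)) := by
      intro i
      have := form_expand (K := L) (L := L) _ hzL (fun j => ext (E j)) hE' (η i) D
      simpa using this
    have h2 : ∀ b, ∑ i, c i * η i (ext (E b)) = 0 := fun b => congrFun hc b
    calc ∑ i, (c i • η i) D = ∑ i, ∑ b,
          c i * (D ((algebraMap (fixedField G) L ∘ z) b) * η i (ext (E b))) := by
          refine Finset.sum_congr rfl fun i _ => ?_
          rw [LinearMap.smul_apply, smul_eq_mul, h1, Finset.mul_sum]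
      _ = ∑ b, D ((algebraMap (fixedField G) L ∘ z) b) * ∑ i, c i * η i (ext (E b)) := by
          rw [Finset.sum_comm]
          refine Finset.sum_congr rfl fun b _ => ?_
          rw [Finset.mul_sum]
          exact Finset.sum_congr rfl fun i _ => by ring
      _ = 0 := by simp [h2]
  have hΘ0E : Θ0 E ≠ 0 := Finset.prod_ne_zero_iff.2 fun h _ => by simpa using hdet0
  refine ⟨Fintype.card G, fun D => ⟨Θ0 D, fun g => hinv g D⟩, ?_, ?_, ⟨E, fun h => hΘ0E
    (congrArg Subtype.val h)⟩, ?_⟩
  · intro X D
    apply Subtype.ext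
    change ∏ h : G, (h : L ≃ₐ[k] L) (Matrix.of fun i j => η i (ext (∑ l, X j l • D l))).det =
      algebraMap (fixedField G) L (X.det ^ Fintype.card G * ⟨Θ0 D, fun g => hinv g D⟩)
    rw [map_mul, map_pow]
    have h1 : ∀ h : G, (h : L ≃ₐ[k] L) (Matrix.of fun i j =>
        η i (ext (∑ l, X j l • D l))).det = algebraMap (fixedField G) L X.det *
          (h : L ≃ₐ[k] L) (Matrix.of fun i j => η i (ext (D j))).det := by
      intro h
      rw [hlin, map_mul]
      congr 1
      exact X.det.2 h
    rw [Finset.prod_congr rfl fun h _ => h1 h, Finset.prod_mul_distrib, Finset.prod_const,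
      Finset.card_univ]
    rfl
  · intro v hv D hD
    obtain ⟨w, e, I, hwv, hcard, hI⟩ := exists_inertia G v
    rw [← hwv.reg]
    change Ge w 0 (Θ0 D)
    refine Pool.Agent.W721.PG.EFF2.ge_prod0 _ _ fun h _ => ?_
    rw [hgdet h h.2]
    have h1 := hreg (fun i => gForm (h : L ≃ₐ[k] L) (η i)) (fun i => hWG _ h.2 _ (hη i)) v w e hv
      hwv ⟨I, hcard, hI⟩ D hD
    refine h1.mono ?_
    split_ifs <;> omega
  · rintro v w e hv hwv he hI D hD
    have h1 : Ge w 1 (Θ0 D) := by
      change Ge w 1 (∏ h : G, (h : L ≃ₐ[k] L) (Matrix.of fun i j => η i (ext (D j))).det)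
      rw [← Finset.mul_prod_erase Finset.univ _ (Finset.mem_univ (1 : G))]
      have h2 : ∀ h : G, Ge w 1 ((h : L ≃ₐ[k] L) (Matrix.of fun i j => η i (ext (D j))).det) := by
        intro h
        rw [hgdet h h.2]
        have h3 := hreg (fun i => gForm (h : L ≃ₐ[k] L) (η i)) (fun i => hWG _ h.2 _ (hη i)) v w e
          hv hwv hI D hD
        rw [if_neg he] at h3
        exact h3
      have h3 : Ge w 0 (∏ h ∈ Finset.univ.erase (1 : G),
          (h : L ≃ₐ[k] L) (Matrix.of fun i j => η i (ext (D j))).det) :=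
        Pool.Agent.W721.PG.EFF2.ge_prod0 _ _ fun h _ => (h2 h).mono (by omega)
      simpa using (h2 1).mul h3
    rcases h1 with h1 | h1
    · left
      exact Subtype.ext h1
    · right
      have h2 := hwv.2 ⟨Θ0 D, fun g => hinv g D⟩
      have h3 : (1 : ℤ) ≤ e * v.ord ⟨Θ0 D, fun g => hinv g D⟩ := by
        rw [← h2]
        exact h1
      have h4 : (0 : ℤ) < e := by exact_mod_cast hwv.1
      by_contra hcon
      push Not at hcon
      have : v.ord ⟨Θ0 D, fun g => hinv g D⟩ ≤ 0 := by omega
      nlinarith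

/-- Main theorem. -/
theorem main4 [IsAlgClosed k] {n : ℕ} (hn : Algebra.trdeg k L = n)
    (hess : Algebra.EssFiniteType k L) (G : Subgroup (L ≃ₐ[k] L)) [Finite G]
    {W : Submodule k (Derivation k L L →ₗ[L] L)}
    (hWr : ∀ η ∈ W, ∀ w : Place k L, IsDivisorial w n → ∀ D : Derivation k L L, Pres w D →
      w.Reg (η D))
    (hWs : Submodule.span L (W : Set (Derivation k L L →ₗ[L] L)) = ⊤)
    (hWG : ∀ g ∈ G, ∀ η ∈ W, gForm g η ∈ W) (hRT : ReidTai n G W) :
    MaxAlb k L n ∧ KodTr k (fixedField G) n 0 ∧
      (∀ a, KodTr k (fixedField G) n a ↔ KodTr k L n a) ∧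
      ∀ a, NumLe k L n (fun _ => False) a → NumLe k (fixedField G) n (fun _ => False) a := by
  classical
  have halgK := Pool.Agent.W721.PG.EFF2.alg_fixed G
  have hfin := fixed_finite G
  obtain ⟨y, hy⟩ := Pool.Agent.W636.PG.exists_basis k L n hn
  obtain ⟨E, hE⟩ := Pool.Agent.W636.PG.exists_duals k L n y hy
  obtain ⟨hnK, z, hz⟩ := Pool.Agent.W721.PG.EFF2.exists_basis (fixedField G) n hn
  have hessK : Algebra.EssFiniteType k (fixedField G) := ess_down hess z hz
  -- `n` independent forms
  obtain ⟨β, hβ⟩ := exists_det (K := L) (I := Fin n) (α := W) (fun θ j => θ.1 (E j)) (by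
    let T : (Derivation k L L →ₗ[L] L) →ₗ[L] (Fin n → L) :=
      { toFun := fun η j => η (E j)
        map_add' := fun η η' => rfl
        map_smul' := fun c η => rfl }
    have h1 : Set.range (fun (θ : W) j => θ.1 (E j)) = T '' W := by
      ext x
      constructor
      · rintro ⟨θ, rfl⟩
        exact ⟨θ.1, θ.2, rfl⟩
      · rintro ⟨θ, hθ, rfl⟩
        exact ⟨⟨θ, hθ⟩, rfl⟩
    rw [h1, Submodule.span_image, hWs, Submodule.map_top, LinearMap.range_eq_top]
    intro c
    let θ : Derivation k L L →ₗ[L] L :=
      { toFun := fun D => ∑ j, c j * D (y j)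
        map_add' := fun D D' => by
          rw [← Finset.sum_add_distrib]
          exact Finset.sum_congr rfl fun j _ => by rw [Derivation.add_apply, mul_add]
        map_smul' := fun a D => by
          rw [RingHom.id_apply, smul_eq_mul, Finset.mul_sum]
          exact Finset.sum_congr rfl fun j _ => by
            rw [Derivation.smul_apply, smul_eq_mul, mul_left_comm] }
    refine ⟨θ, ?_⟩
    funext j
    change ∑ i, c i * E j (y i) = c j
    simp [hE])
  have hβi : LinearIndependent L (fun i => (β i).1) := by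
    by_contra hcon
    exact hβ (det_zero_of_dep _ hcon E)
  have hmax : MaxAlb k L n := ⟨fun i => (β i).1, hβi, fun i w hw D hD => hWr _ (β i).2 w hw D hD⟩
  obtain ⟨N, Θ, hΘ, hΘr, hΘ0, hΘv⟩ := exists_theta2 hn hess G hWr hWG hRT (fun i => (β i).1)
    (fun i => (β i).2) hβi
  have hdesc : ∀ a, KodTr k L n a → KodTr k (fixedField G) n a := fun a ha =>
    kod_desc hn G N Θ hΘ hΘr hΘ0 hΘv ha
  refine ⟨hmax, hdesc 0 (kod_zero hy hmax), fun a => ⟨fun h => kod_up hessK hnK h, hdesc a⟩, ?_⟩
  have h1 := (pTRANS k (fixedField G) L n hnK (fun y hy => fin_adj hessK y hy)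
    (fun _ => False)).2.2
  rw [bdUp_false] at h1
  exact h1

end

end Pool.Agent.Y174
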