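import Pool.Agent.Y174.BDefs

/-! Log canonical pairs `(V, B + Δ)`, logarithmic multivalued 1-forms: definitions. -/

set_option autoImplicit false
set_option linter.overlappingInstances false
set_option linter.unusedSectionVars false

universe u v

open FF Pool.Agent.W619.PQ Pool.Agent.W619.TW

namespace Pool.Agent.Y174

section

variable {k : Type v} {K L : Type u} [Field k] [Field K] [Field L] [Algebra k K] [Algebra k L]
  [Algebra K L]

/-- `D` is a local section along `v` of the logarithmic tangent sheaf of `(V, B)`, where `B` consists
of the prime divisors with `Bd v`: it is regular along `v`, and tangent to the divisor `v` if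
`Bd v` holds. -/
def LogFld (Bd : Place k K → Prop) (v : Place k K) (D : Derivation k K K) : Prop :=
  (¬ Bd v → ∀ f, v.Reg f → v.Reg (D f)) ∧ (Bd v → ∀ f, v.Reg (D f / f))

/-- A multivalued 1-form `ω` on the variety `V` of dimension `n` with function field `K`, with values
in an algebraic extension `L` of `K`, is logarithmic with poles along the prime divisors `v` over `V`
with `Bd v`: along each prime divisor `v` over `V` it takes the local sections of the logarithmic
tangent sheaf to functions which are integral over the ring of the functions regular along `v`. -/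
def MultiLog (n : ℕ) (Bd : Place k K → Prop) (ω : Derivation k K K →ₗ[K] L) : Prop :=
  ∀ v : Place k K, IsDivisorial v n → ∀ D : Derivation k K K, LogFld Bd v D →
    ∃ p : Polynomial K, p.Monic ∧ (∀ i, v.Reg (p.coeff i)) ∧ Polynomial.aeval (ω D) p = 0

/-- The tensor `a (α 0 ∧ ... ∧ α (d - 1)) ^ m` is a section of `(Ω ^ d (log B)) ^ ⊗ m` twisted by
`m Δ`, where `B` consists of the prime divisors with `Bd v` and `Δ` has the multiplicities `δ v`
along the other ones: its values on local sections of the logarithmic tangent sheaf are zero or of
order at least `0` along `v` if `Bd v` holds, and of order at least `- m δ v` otherwise. -/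
def TensorLog (n m : ℕ) (Bd : Place k K → Prop) (δ : Place k K → ℝ) {d : ℕ}
    (α : Fin d → Derivation k K K →ₗ[K] K) (a : K) : Prop :=
  ∀ v : Place k K, IsDivisorial v n → ∀ D : Fin d → Derivation k K K, (∀ j, LogFld Bd v (D j)) →
    a * (Matrix.of fun i j => α i (D j)).det ^ m = 0 ∨
      (Bd v → 0 ≤ v.ord (a * (Matrix.of fun i j => α i (D j)).det ^ m)) ∧
      (¬ Bd v → -(m * δ v) ≤ (v.ord (a * (Matrix.of fun i j => α i (D j)).det ^ m) : ℝ))

/-- The place `w` of `L` lies over a place `v` of `K` with `Bd v`. -/
def BdOn (Bd : Place k K → Prop) (w : Place k L) : Prop :=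
  ∃ (v : Place k K) (e : ℕ), LiesOn w v e ∧ Bd v

end

end Pool.Agent.Y174
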