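import Pool.Agent.Y174.B7
import Pool.Agent.Y174.LDefs

/-! Logarithmic frames. -/

set_option autoImplicit false
set_option linter.overlappingInstances false
set_option linter.unusedSectionVars false

universe u v

open FF IntermediateField Pool.Agent.W619.PQ Pool.Agent.W619.PL Pool.Agent.W619.TW
  Pool.Agent.W603.LV Pool.Agent.W619.Y Pool.Agent.W824.PG

namespace Pool.Agent.Y174

section

variable {k : Type v} {K : Type u} [Field k] [Field K] [Algebra k K]

open Classical in
/-- the scaling factors of the logarithmic frame -/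
noncomputable def lq {n : ℕ} (Bd : Place k K → Prop) (v : Place k K) (y : Fin n → K)
    (i0 j : Fin n) : K := if Bd v ∧ j = i0 then y i0 else 1

theorem lq_neg {n : ℕ} {Bd : Place k K → Prop} {v : Place k K} (y : Fin n → K)
    (i0 j : Fin n) (h : ¬ Bd v) : lq Bd v y i0 j = 1 := if_neg fun h' => h h'.1

theorem lq_self {n : ℕ} {Bd : Place k K → Prop} {v : Place k K} (y : Fin n → K)
    (i0 : Fin n) (h : Bd v) : lq Bd v y i0 i0 = y i0 := if_pos ⟨h, rfl⟩

theorem lq_ne {n : ℕ} {Bd : Place k K → Prop} {v : Place k K} (y : Fin n → K)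
    {i0 j : Fin n} (h : j ≠ i0) : lq Bd v y i0 j = 1 := if_neg fun h' => h h'.2

theorem lq_ne_zero {n : ℕ} {Bd : Place k K → Prop} {v : Place k K} {y : Fin n → K}
    {i0 : Fin n} (j : Fin n) (h0 : y i0 ≠ 0) : lq Bd v y i0 j ≠ 0 := by
  unfold lq
  split_ifs
  · exact h0
  · exact one_ne_zero

theorem ne_zero_of_ord {v : Place k K} {t : K} (ht : v.ord t = 1) : t ≠ 0 := by
  intro h0
  rw [h0, v.ord_zero] at ht
  exact zero_ne_one ht

theorem logFld_iff {Bd : Place k K → Prop} {v : Place k K} (h : ¬ Bd v)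
    {D : Derivation k K K} : LogFld Bd v D ↔ Pres v D :=
  ⟨fun h' => h'.1 h, fun h' => ⟨fun _ => h', fun h'' => (h h'').elim⟩⟩

theorem LogFld.pres {Bd : Place k K → Prop} {v : Place k K} {D : Derivation k K K}
    (h : LogFld Bd v D) : Pres v D := by
  intro f hf
  by_cases hB : Bd v
  · by_cases hf0 : f = 0
    · rw [hf0, map_zero]
      exact Or.inl rfl
    have h1 := reg_mul (h.2 hB f) hf
    rwa [div_mul_cancel₀ _ hf0] at h1
  · exact h.1 hB f hf

end

section

variable {k : Type v} {K : Type u} [Field k] [CharZero k] [Field K] [Algebra k K]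

/-- the logarithmic frame -/
theorem log_frame {n : ℕ} (Bd : Place k K → Prop) {v : Place k K} {y : Fin n → K}
    {F : Fin n → Derivation k K K} {i0 : Fin n} (hF : ∀ i j, F i (y j) = if i = j then 1 else 0)
    (ht : v.ord (y i0) = 1) (hFp : ∀ i, Pres v (F i)) (j : Fin n) :
    LogFld Bd v (lq Bd v y i0 j • F j) := by
  have ht0 := ne_zero_of_ord ht
  refine ⟨fun h f hf => ?_, fun h f => ?_⟩
  · rw [lq_neg y i0 j h, one_smul]
    exact hFp j f hf
  · have hP : Pres v (lq Bd v y i0 j • F j) := by
      intro f hf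
      rw [Derivation.smul_apply, smul_eq_mul]
      refine reg_mul ?_ (hFp j f hf)
      unfold lq
      split_ifs
      · exact Or.inr (by omega)
      · exact Or.inr v.ord_one.ge
    refine log_of_pres v _ hP ht0 ht ?_ f
    rw [Derivation.smul_apply, smul_eq_mul, hF]
    by_cases hj : j = i0
    · rw [if_pos hj, mul_one, hj, lq_self y i0 h, div_self ht0]
      exact Or.inr v.ord_one.ge
    · rw [if_neg hj, mul_zero, zero_div]
      exact Or.inl rfl

/-- the coordinates in the logarithmic frame -/
noncomputable def lco {n : ℕ} (Bd : Place k K → Prop) (v : Place k K) (y : Fin n → K)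
    (i0 j : Fin n) : Derivation k K K →ₗ[K] K where
  toFun D := D (y j) / lq Bd v y i0 j
  map_add' D D' := by rw [Derivation.add_apply, add_div]
  map_smul' c D := by
    rw [Derivation.smul_apply, smul_eq_mul, RingHom.id_apply, smul_eq_mul, mul_div_assoc]

theorem lco_apply {n : ℕ} (Bd : Place k K → Prop) (v : Place k K) (y : Fin n → K)
    (i0 j : Fin n) (D : Derivation k K K) : lco Bd v y i0 j D = D (y j) / lq Bd v y i0 j := rfl

theorem log_coord {n : ℕ} (Bd : Place k K → Prop) {v : Place k K} {y : Fin n → K}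
    {i0 : Fin n} (hyr : ∀ i, v.Reg (y i)) {D : Derivation k K K} (hD : LogFld Bd v D)
    (j : Fin n) : v.Reg (D (y j) / lq Bd v y i0 j) := by
  by_cases h : Bd v
  · by_cases hj : j = i0
    · rw [hj, lq_self y i0 h]
      exact hD.2 h _
    · rw [lq_ne y hj, div_one]
      exact hD.pres _ (hyr j)
  · rw [lq_neg y i0 j h, div_one]
    exact hD.1 h _ (hyr j)

theorem log_expand {n : ℕ} (Bd : Place k K → Prop) {v : Place k K} {y : Fin n → K}
    (hy : IsTranscendenceBasis k y)
    {F : Fin n → Derivation k K K} {i0 : Fin n} (hF : ∀ i j, F i (y j) = if i = j then 1 else 0)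
    (ht0 : y i0 ≠ 0) (D : Derivation k K K) :
    D = ∑ j, (D (y j) / lq Bd v y i0 j) • (lq Bd v y i0 j • F j) := by
  conv_lhs => rw [← Pool.Agent.W73.PG.PULL.expand y hy F hF D]
  refine Finset.sum_congr rfl fun j _ => ?_
  rw [smul_smul, div_mul_cancel₀ _ (lq_ne_zero j ht0)]

/-- from logarithmic to regular vector fields -/
theorem log_to_pres {n N : ℕ} (hn : Algebra.trdeg k K = n) (hess : Algebra.EssFiniteType k K)
    (Bd : Place k K → Prop) {v : Place k K} (hv : IsDivisorial v n)
    (Θ : (Fin n → Derivation k K K) → K) (hΘ : IsPluriForm k K n N Θ) {c : ℝ}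
    (h : ∀ D : Fin n → Derivation k K K, (∀ j, LogFld Bd v (D j)) → GeR v c (Θ D))
    (D : Fin n → Derivation k K K) (hD : ∀ j, Pres v (D j)) :
    (Bd v → GeR v (c - N) (Θ D)) ∧ (¬ Bd v → GeR v c (Θ D)) := by
  classical
  obtain ⟨y, F, i0, hy, hF, ht, hyr, hpres⟩ := pFRAME k K n hn
    (fun y hy => fin_adj hess y hy) v hv
  have ht0 := ne_zero_of_ord ht
  refine ⟨fun hB => ?_, fun hB => h D fun j => (logFld_iff hB).2 (hD j)⟩
  have h1 : (fun i => D i) = fun i => ∑ j, (Matrix.of fun a b => D a (y b) / lq Bd v y i0 b) i j •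
      (lq Bd v y i0 j • F j) := funext fun i => log_expand Bd hy hF ht0 (D i)
  have h2 : Θ D = (Matrix.of fun a b => D a (y b) / lq Bd v y i0 b).det ^ N *
      Θ (fun j => lq Bd v y i0 j • F j) := by
    conv_lhs => rw [show D = fun i => D i from rfl, h1]
    exact hΘ _ _
  rw [h2]
  have h3 : (Matrix.of fun a b => D a (y b)).det =
      (Matrix.of fun a b => D a (y b) / lq Bd v y i0 b).det * y i0 := by
    have h4 : (Matrix.of fun a b => D a (y b)) =
        (Matrix.of fun a b => D a (y b) / lq Bd v y i0 b) *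
          Matrix.diagonal (fun b => lq Bd v y i0 b) := by
      ext a b
      rw [Matrix.mul_diagonal, Matrix.of_apply, Matrix.of_apply,
        div_mul_cancel₀ _ (lq_ne_zero b ht0)]
    rw [h4, Matrix.det_mul, Matrix.det_diagonal]
    congr 1
    have h5 : ∀ b, lq Bd v y i0 b = if b = i0 then y i0 else 1 := by
      intro b
      by_cases hb : b = i0
      · rw [if_pos hb, hb, lq_self y i0 hB]
      · rw [if_neg hb, lq_ne y hb]
    rw [Finset.prod_congr rfl fun b _ => h5 b, Finset.prod_ite_eq' Finset.univ i0,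
      if_pos (Finset.mem_univ _)]
  have h4 : Ge v 0 (Matrix.of fun a b => D a (y b)).det :=
    ge_det v _ fun a b => hD a _ (hyr b)
  have h5 : Ge v (-1) (Matrix.of fun a b => D a (y b) / lq Bd v y i0 b).det := by
    have h6 : Ge v (-1) (y i0)⁻¹ := Or.inr (by rw [v.ord_inv, ht])
    have h7 := h4.mul h6
    rw [h3, mul_inv_cancel_right₀ ht0] at h7
    simpa using h7
  have h6 := (Ge.toR (h5.pow N)).mul (h _ (fun j => log_frame Bd hF ht hpres j))
  refine h6.mono ?_
  push_cast
  linarith

end

section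

variable {k : Type v} {K : Type u} [Field k] [Field K] [Algebra k K]

/-- The tensor is good: it is `a' (β 0 ∧ ... ∧ β (d - 1)) ^ m`, with the `β` regular on the vector
fields with the property `P`. -/
def AGoodP {d : ℕ} (m : ℕ) (P : Derivation k K K → Prop) (v : Place k K)
    (α : Fin d → Derivation k K K →ₗ[K] K) (a : K) (c : ℝ) : Prop :=
  ∃ (Z : Matrix (Fin d) (Fin d) K) (β : Fin d → Derivation k K K →ₗ[K] K),
    (∀ i D, P D → v.Reg (β i D)) ∧ (∀ (D : Derivation k K K) l, α l D = ∑ i, Z l i * β i D) ∧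
      GeR v c (a * Z.det ^ m)

/-- The tensor is good. -/
theorem agood_ofP {d n m : ℕ} {c : ℝ} {α : Fin d → Derivation k K K →ₗ[K] K} {a : K}
    (hα : LinearIndependent K α) {P : Derivation k K K → Prop} {v : Place k K}
    (co : Fin n → Derivation k K K →ₗ[K] K) (F : Fin n → Derivation k K K)
    (hexp0 : ∀ D, D = ∑ j, co j D • F j) (hco : ∀ D, P D → ∀ j, v.Reg (co j D))
    (hF : ∀ j, P (F j))
    (h : ∀ D : Fin d → Derivation k K K, (∀ j, P (D j)) →
      GeR v c (a * (Matrix.of fun i j => α i (D j)).det ^ m)) : AGoodP m P v α a c := by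
  classical
  let C : Matrix (Fin d) (Fin n) K := Matrix.of fun l j => α l (F j)
  have hexp : ∀ D l, α l D = ∑ j, co j D * C l j := by
    intro D l
    conv_lhs => rw [hexp0 D]
    rw [map_sum]
    exact Finset.sum_congr rfl fun j _ => by rw [map_smul, smul_eq_mul]; rfl
  have hspan := linind_cols C (fun c hc l => by
    rw [Fintype.linearIndependent_iff] at hα
    refine hα c ?_ l
    ext D
    rw [LinearMap.sum_apply, LinearMap.zero_apply]
    have h1 : ∀ l, (c l • α l) D = ∑ j, co j D * (c l * C l j) := by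
      intro l
      rw [LinearMap.smul_apply, smul_eq_mul, hexp, Finset.mul_sum]
      exact Finset.sum_congr rfl fun j _ => by ring
    rw [Finset.sum_congr rfl fun l _ => h1 l, Finset.sum_comm]
    refine Finset.sum_eq_zero fun j _ => ?_
    rw [← Finset.mul_sum, hc j, mul_zero])
  obtain ⟨c0, hc0⟩ := exists_det (K := K) (I := Fin d) (α := Fin n) (fun j l => C l j) hspan
  -- the minor of least order
  let mn : (Fin d → Fin n) → K := fun c => (Matrix.of fun i => fun l => C l (c i)).det
  let Sg : Finset (Fin d → Fin n) := Finset.univ.filter fun c => mn c ≠ 0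
  obtain ⟨c, hcS, hcmin⟩ := Finset.exists_min_image Sg (fun c => v.ord (mn c))
    ⟨c0, Finset.mem_filter.2 ⟨Finset.mem_univ _, hc0⟩⟩
  have hc : mn c ≠ 0 := (Finset.mem_filter.1 hcS).2
  let Z : Matrix (Fin d) (Fin d) K := Matrix.of fun l i => C l (c i)
  have hZ : Z.det = mn c := by
    rw [← Matrix.det_transpose]
    rfl
  have hZ0 : Z.det ≠ 0 := by rw [hZ]; exact hc
  let B : Fin d → Fin n → K := fun i j => (Z.det)⁻¹ * Z.cramer (fun l => C l j) i
  have hB : ∀ l j, ∑ i, Z l i * B i j = C l j := by
    intro l j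
    have h1 := congrFun (Matrix.mulVec_cramer Z (fun l => C l j)) l
    have h2 : ∑ i, Z l i * Z.cramer (fun l => C l j) i = Z.det * C l j := h1
    have h3 : ∀ i, Z l i * B i j = (Z.det)⁻¹ * (Z l i * Z.cramer (fun l => C l j) i) := by
      intro i
      simp only [B]
      ring
    rw [Finset.sum_congr rfl fun i _ => h3 i, ← Finset.mul_sum, h2, inv_mul_cancel_left₀ hZ0]
  have hBr : ∀ i j, v.Reg (B i j) := by
    intro i j
    have h1 : Z.cramer (fun l => C l j) i = mn (Function.update c i j) := by
      rw [Matrix.cramer_apply, ← Matrix.det_transpose]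
      change _ = (Matrix.of fun i' => fun l => C l (Function.update c i j i')).det
      congr 1
      ext i' l
      rw [Matrix.transpose_apply, Matrix.updateCol_apply, Matrix.of_apply]
      by_cases hi : i' = i
      · rw [if_pos hi, hi, Function.update_self]
      · rw [if_neg hi, Function.update_of_ne hi]
        rfl
    by_cases h0 : mn (Function.update c i j) = 0
    · left
      simp only [B, h1, h0, mul_zero]
    · right
      simp only [B, h1]
      have h2 := hcmin (Function.update c i j) (Finset.mem_filter.2 ⟨Finset.mem_univ _, h0⟩)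
      rw [v.ord_mul (inv_ne_zero hZ0) h0, v.ord_inv, hZ]
      omega
  let β : Fin d → Derivation k K K →ₗ[K] K := fun i =>
    { toFun := fun D => ∑ j, co j D * B i j
      map_add' := fun D D' => by
        rw [← Finset.sum_add_distrib]
        exact Finset.sum_congr rfl fun j _ => by rw [map_add, add_mul]
      map_smul' := fun x D => by
        rw [RingHom.id_apply, smul_eq_mul, Finset.mul_sum]
        exact Finset.sum_congr rfl fun j _ => by
          rw [map_smul, smul_eq_mul, mul_assoc] }
  refine ⟨Z, β, fun i D hD => ?_, fun D l => ?_, ?_⟩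
  · have h1 : Ge v 0 (∑ j, co j D * B i j) := by
      refine Ge.sum _ _ fun j _ => ?_
      have h2 : Ge v 0 (co j D) := hco D hD j
      simpa using h2.mul (hBr i j)
    exact h1
  · rw [hexp]
    change _ = ∑ i, Z l i * ∑ j, co j D * B i j
    have h1 : ∀ i, Z l i * ∑ j, co j D * B i j = ∑ j, co j D * (Z l i * B i j) := by
      intro i
      rw [Finset.mul_sum]
      exact Finset.sum_congr rfl fun j _ => by ring
    rw [Finset.sum_congr rfl fun i _ => h1 i, Finset.sum_comm]
    refine Finset.sum_congr rfl fun j _ => ?_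
    rw [← Finset.mul_sum, hB]
  · exact h (fun i => F (c i)) (fun j => hF _)

end

section

variable {k : Type v} {L : Type u} [Field k] [CharZero k] [Field L] [Algebra k L]

/-- The local estimate. -/
theorem adet_geP {K : Type u} [Field K] [Algebra k K] [Algebra K L] [IsScalarTower k K L]
    {d r m : ℕ} {P : Derivation k K K → Prop} {v : Place k K} {w : Place k L} {e : ℕ}
    (hwv : Over w v e)
    {α : Fin d → Derivation k K K →ₗ[K] K} {a : K} {c : ℝ} (hA : AGoodP m P v α a c)
    (J : Fin r → Derivation k K K →ₗ[K] L)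
    (D : Fin (d + r) → Derivation k K K) (hD : ∀ j, P (D j))
    (hJ : ∀ i j, Ge w 0 (J i (D j))) :
    GeR w (e * c) (algebraMap K L a * adet α J D ^ m) ∧
      ∀ i0, (∀ j, Ge w 1 (J i0 (D j))) → 1 ≤ m →
        GeR w (e * c + 1) (algebraMap K L a * adet α J D ^ m) := by
  classical
  obtain ⟨Z, β, hβ, hZ, hZa⟩ := hA
  have h1 : algebraMap K L a * adet α J D ^ m =
      algebraMap K L (a * Z.det ^ m) * adet β J D ^ m := by
    rw [adet_change α β Z hZ J D, mul_pow, map_mul, map_pow]
    ring
  have h2 : GeR w (e * c) (algebraMap K L (a * Z.det ^ m)) := hZa.up hwv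
  have h3 : ∀ i j, Ge w 0 ((Matrix.of fun (i j : Fin (d + r)) =>
      Fin.addCases (motive := fun _ => L)
      (fun l => algebraMap K L (β l (D j))) (fun a => J a (D j)) i) i j) := by
    intro i j
    refine Fin.addCases (fun l => ?_) (fun b => ?_) i
    · simp only [Matrix.of_apply, Fin.addCases_left]
      exact hwv.reg.2 (hβ l _ (hD j))
    · simp only [Matrix.of_apply, Fin.addCases_right]
      exact hJ b j
  refine ⟨?_, fun i0 hi0 hm => ?_⟩
  · rw [h1]
    have h4 : Ge w 0 (adet β J D) := ge_det w _ h3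
    have h5 := h2.mul (Ge.toR (h4.pow m))
    refine h5.mono ?_
    simp
  · rw [h1]
    have h4 : Ge w 1 (adet β J D) := by
      refine ge_det_row w _ h3 (Fin.natAdd d i0) fun j => ?_
      simp only [Matrix.of_apply, Fin.addCases_right]
      exact hi0 j
    have h5 := h2.mul (Ge.toR (h4.pow m))
    refine h5.mono ?_
    push_cast
    have : (1 : ℝ) ≤ m := by exact_mod_cast hm
    linarith

/-- The tensor is good on logarithmic fields. -/
theorem agood_log {d n m : ℕ} (hn : Algebra.trdeg k L = n) (hess : Algebra.EssFiniteType k L)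
    {Bd : Place k L → Prop} {δ : Place k L → ℝ} {α : Fin d → Derivation k L L →ₗ[L] L}
    {a : L} (hα : LinearIndependent L α) (h : TensorLog n m Bd δ α a) {v : Place k L}
    (hv : IsDivisorial v n) :
    (Bd v → AGoodP m (LogFld Bd v) v α a 0) ∧
      (¬ Bd v → AGoodP m (LogFld Bd v) v α a (-(m * δ v))) := by
  obtain ⟨y, F, i0, hy, hF, ht, hyr, hpres⟩ := pFRAME k L n hn
    (fun y hy => fin_adj hess y hy) v hv
  have ht0 := ne_zero_of_ord ht
  have h1 : ∀ c : ℝ, (∀ D : Fin d → Derivation k L L, (∀ j, LogFld Bd v (D j)) →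
      GeR v c (a * (Matrix.of fun i j => α i (D j)).det ^ m)) →
        AGoodP m (LogFld Bd v) v α a c := fun c h' =>
    agood_ofP hα (fun j => lco Bd v y i0 j) (fun j => lq Bd v y i0 j • F j)
      (fun D => log_expand Bd hy hF ht0 D) (fun D hD j => log_coord Bd hyr hD j)
      (fun j => log_frame Bd hF ht hpres j) h'
  refine ⟨fun hB => h1 0 fun D hD => ?_, fun hB => h1 _ fun D hD => ?_⟩
  · rcases h v hv D hD with h2 | ⟨h2, -⟩
    · exact Or.inl h2
    · exact Or.inr (by exact_mod_cast h2 hB)
  · rcases h v hv D hD with h2 | ⟨-, h2⟩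
    · exact Or.inl h2
    · exact Or.inr (h2 hB)

end

end Pool.Agent.Y174
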