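import Pool.Agent.Y174.L2

/-! Logarithmic multivalued forms modulo a subsheaf of the cotangent sheaf: the theorem over a fixed
field, transport. -/

set_option autoImplicit false
set_option linter.overlappingInstances false
set_option linter.unusedSectionVars false

universe u v

open FF IntermediateField Pool.Agent.W619.PQ Pool.Agent.W619.PL Pool.Agent.W619.TW
  Pool.Agent.W603.LV Pool.Agent.W619.Y Pool.Agent.W824.PG

namespace Pool.Agent.Y174

section

variable {k : Type v} [Field k] [CharZero k] {K L : Type u} [Field K] [Field L] [Algebra k K]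
  [Algebra k L] [Algebra K L] [IsScalarTower k K L]

theorem bdOn_iff {Bd : Place k K → Prop} {v : Place k K} {w : Place k L} {e : ℕ}
    (h : LiesOn w v e) : BdOn Bd w ↔ Bd v := by
  constructor
  · rintro ⟨v', e', h', hB⟩
    rwa [(liesOn_unique h h').1]
  · exact fun hB => ⟨v, e, h, hB⟩

/-- coordinates of logarithmic vector fields on the cover -/
theorem log_coord_up {n : ℕ} (Bd : Place k K → Prop) {v : Place k K} {w : Place k L} {e : ℕ}
    (hwv : LiesOn w v e) {y : Fin n → K}
    {i0 : Fin n} (hyr : ∀ i, v.Reg (y i)) {D : Derivation k L L}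
    (hD : LogFld (BdOn Bd) w D) (j : Fin n) :
    w.Reg (D (algebraMap K L (y j)) / algebraMap K L (lq Bd v y i0 j)) := by
  have hwv' : Over w v e := hwv
  by_cases h : Bd v
  · by_cases hj : j = i0
    · rw [hj, lq_self y i0 h]
      exact hD.2 ((bdOn_iff hwv).2 h) _
    · rw [lq_ne y hj, map_one, div_one]
      exact hD.pres _ (hwv'.reg.2 (hyr j))
  · rw [lq_neg y i0 j h, map_one, div_one]
    exact hD.1 (fun h' => h ((bdOn_iff hwv).1 h')) _ (hwv'.reg.2 (hyr j))

/-- lifts of logarithmic multivalued forms are logarithmic -/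
theorem lift_log [FiniteDimensional K L] (hess : Algebra.EssFiniteType k K) {n : ℕ}
    (hn : Algebra.trdeg k K = n) (z : Fin n → K) (hz : IsTranscendenceBasis k z)
    (E : Fin n → Derivation k K K) (hE : ∀ i j, E i (z j) = if i = j then 1 else 0)
    (Bd : Place k K → Prop) (ω : Derivation k K K →ₗ[K] L)
    (hreg : ∀ (v : Place k K) (w : Place k L) (e : ℕ), IsDivisorial v n →
      Over w v e → ∀ D, LogFld Bd v D → Ge w 0 (ω D)) (w : Place k L) (hw : IsDivisorial w n)
    (D : Derivation k L L) (hD : LogFld (BdOn Bd) w D) : w.Reg (lift z E ω D) := by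
  obtain ⟨r, v, hwv⟩ := Pool.Agent.W73.PG.PULL.exists_over' (K := K) w
  have hv := pDIVI k K L n v w r hwv hw
  obtain ⟨y', F, i0, hy', hF, ht, hyr, hpres⟩ := pFRAME k K n hn (fun y hy => fin_adj hess y hy)
    v hv
  have ht0 := ne_zero_of_ord ht
  rw [lift_eq z hz E hE y' hy' F hF, lift_apply]
  have h1 : Ge w 0 (∑ b, D (algebraMap K L (y' b)) * ω (F b)) := by
    refine Ge.sum _ _ fun b _ => ?_
    have h2 : Ge w 0 (D (algebraMap K L (y' b)) / algebraMap K L (lq Bd v y' i0 b)) :=
      log_coord_up Bd hwv hyr hD b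
    have h3 := hreg v w r hv hwv (lq Bd v y' i0 b • F b) (log_frame Bd hF ht hpres b)
    have h4 := h2.mul h3
    have h5 : algebraMap K L (lq Bd v y' i0 b) ≠ 0 := by simpa using lq_ne_zero b ht0
    rw [map_smul, Algebra.smul_def, ← mul_assoc, div_mul_cancel₀ _ h5] at h4
    simpa using h4
  exact h1

/-- The logarithmic 1-forms on the cover, modulo a subsheaf. -/
theorem rel_formsL [FiniteDimensional K L] (hess : Algebra.EssFiniteType k K) {d r : ℕ}
    (hn : Algebra.trdeg k K = (d + r : ℕ)) (Bd : Place k K → Prop)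
    {α : Fin d → Derivation k K K →ₗ[K] K}
    (z : Fin (d + r) → K)
    (hz : IsTranscendenceBasis k z) (F : Fin (d + r) → Derivation k K K)
    (hF : ∀ i j, F i (z j) = if i = j then 1 else 0)
    (E : Fin (d + r) → Derivation k K K)
    (h1 : ∀ l c : Fin d, α l (E (Fin.castAdd r c)) = if c = l then 1 else 0)
    (h2 : ∀ (l : Fin d) (a : Fin r), α l (E (Fin.natAdd d a)) = 0)
    (S : Set (Derivation k K K →ₗ[K] L))
    (hreg : ∀ ω ∈ S, ∀ (v : Place k K) (w : Place k L) (e : ℕ), IsDivisorial v (d + r) →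
      Over w v e → ∀ D, LogFld Bd v D → Ge w 0 (ω D))
    (hspan : Submodule.span L ((fun ω : Derivation k K K →ₗ[K] L =>
      fun j => ω (E (Fin.natAdd d j))) '' S) = ⊤) :
    ∃ (α' : Fin d → (Derivation k L L →ₗ[L] L)) (η : Fin r → (Derivation k L L →ₗ[L] L)),
      (∀ l, IsPullForm (α l) (α' l)) ∧ LinearIndependent L (Fin.append α' η) ∧
      ∀ i, ∀ w : Place k L, IsDivisorial w (d + r) → ∀ D : Derivation k L L,
        LogFld (BdOn Bd) w D → w.Reg (η i D) := by
  classical
  obtain ⟨β, hβ⟩ := exists_det (K := L) (I := Fin r) (α := S)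
    (fun θ j => θ.1 (E (Fin.natAdd d j))) (by
    rw [← hspan]
    congr 1
    ext c
    constructor
    · rintro ⟨θ, rfl⟩
      exact ⟨θ.1, θ.2, rfl⟩
    · rintro ⟨θ, hθ, rfl⟩
      exact ⟨⟨θ, hθ⟩, rfl⟩)
  choose ext hext hext2 hext3 using pEXT k K L (d + r) hn
  refine ⟨fun l => lift z F (emb (α l)), fun i => lift z F (β i).1, fun l D D' h => ?_, ?_,
    fun i w hw D hD => lift_log hess hn _ hz F hF Bd (β i).1 (hreg _ (β i).2) w hw D hD⟩
  · rw [lift_ext z hz F hF _ D D' h]
    rfl
  · by_contra hcon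
    have h3 := det_zero_of_dep _ hcon (fun j => ext (E j))
    have h4 : (Matrix.of fun i j => (Fin.append (fun l => lift z F (emb (α l)))
        (fun i => lift z F (β i).1)) i (ext (E j))).det = adet α (fun i => (β i).1) E := by
      unfold adet
      congr 1
      ext i j
      refine Fin.addCases (fun l => ?_) (fun b => ?_) i
      · rw [Matrix.of_apply, Matrix.of_apply, Fin.append_left, Fin.addCases_left,
          lift_ext z hz F hF _ (E j) _ (fun f => hext _ f)]
        rfl
      · rw [Matrix.of_apply, Matrix.of_apply, Fin.append_right, Fin.addCases_right,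
          lift_ext z hz F hF _ (E j) _ (fun f => hext _ f)]
    rw [h4, adet_block α _ E h1 h2] at h3
    exact hβ h3

end

section

variable {k : Type v} [Field k] [CharZero k] {L : Type u} [Field L] [Algebra k L]
  {G : Subgroup (L ≃ₐ[k] L)}

/-- The theorem over a fixed field. -/
theorem fixed_L [Finite G] (hess : Algebra.EssFiniteType k (fixedField G)) {d r m : ℕ}
    (hm : 1 ≤ m) (hn : Algebra.trdeg k L = (d + r : ℕ))
    (Bd : Place k (fixedField G) → Prop)
    (δ : Place k (fixedField G) → ℝ) (hδ : ∀ v, 0 ≤ δ v) (hB : ∀ v, Bd v → δ v = 1)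
    (δ' : Place k L → ℝ)
    (hδ' : IsPull δ δ')
    (α : Fin d → Derivation k (fixedField G) (fixedField G) →ₗ[fixedField G] fixedField G)
    (hα : LinearIndependent (fixedField G) α) (a : fixedField G)
    (ha : a ≠ 0) (hT : TensorLog (d + r) m Bd δ α a)
    (S : Set (Derivation k (fixedField G) (fixedField G) →ₗ[fixedField G] L)) (hSf : S.Finite)
    (hS : ∀ g : G, ∀ ω ∈ S, act g ω ∈ S)
    (hker : ∀ D : Derivation k (fixedField G) (fixedField G), (∀ l, α l D = 0) →
      (∀ ω ∈ S, ω D = 0) → D = 0)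
    (hfaith : ∀ g : G, g ≠ 1 → ∃ ω ∈ S, ∃ D : Derivation k (fixedField G) (fixedField G),
      (∀ l, α l D = 0) ∧ (g : L ≃ₐ[k] L) (ω D) ≠ ω D)
    (hreg : ∀ ω ∈ S, ∀ (v : Place k (fixedField G)) (w : Place k L) (e : ℕ),
      IsDivisorial v (d + r) → Over w v e → ∀ D, LogFld Bd v D → Ge w 0 (ω D)) :
    (∃ (α' : Fin d → (Derivation k L L →ₗ[L] L)) (η : Fin r → (Derivation k L L →ₗ[L] L)),
      (∀ l, IsPullForm (α l) (α' l)) ∧ LinearIndependent L (Fin.append α' η) ∧
      ∀ i, ∀ w : Place k L, IsDivisorial w (d + r) → ∀ D : Derivation k L L,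
        LogFld (BdOn Bd) w D → w.Reg (η i D)) ∧
      PairKod k (fixedField G) (d + r) δ 0 ∧
      ∀ a, PairKod k L (d + r) δ' a → PairKod k (fixedField G) (d + r) δ a := by
  classical
  have halgK := Pool.Agent.W721.PG.EFF2.alg_fixed G
  have hfin := fixed_finite G
  obtain ⟨hnK, z, hz⟩ := Pool.Agent.W721.PG.EFF2.exists_basis (fixedField G) (d + r) hn
  obtain ⟨F, hF⟩ := Pool.Agent.W636.PG.exists_duals k (fixedField G) (d + r) _ hz
  obtain ⟨E, hE1, hE2, hexp, hEli⟩ := exists_adapted hα z hz F hF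
  have hessL : Algebra.EssFiniteType k L := by
    have h1 : Algebra.EssFiniteType (fixedField G) L := inferInstance
    exact Algebra.EssFiniteType.comp k (fixedField G) L
  obtain ⟨N, Θ, hN, hΘ, hΘr, hΘ0, hΘv⟩ := exists_theta_L hm hn hess Bd δ hB α hα a ha hT S hSf hS
    hker hfaith hreg
  refine ⟨?_, kod_self δ hN Θ hΘ hΘr hΘ0, fun a ha => pair_desc hn hessL G δ δ'
    (fun v _ => hδ v) hδ' N Θ hΘ hΘr hΘ0 (fun v w e hv hwv he hI D hD =>
      hΘv v w e hv hwv (fun h1 => ?_) (fun h1 => ?_) hI D hD) ha⟩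
  · refine rel_formsL hess hnK Bd z hz F hF E hE1 hE2 S hreg ?_
    refine span_top' (fun j => E (Fin.natAdd d j)) S hS fun t ht => ?_
    have h2 : (∑ j, t j • E (Fin.natAdd d j)) = 0 := by
      apply hker
      · intro l
        rw [map_sum]
        exact Finset.sum_eq_zero fun j _ => by rw [map_smul, hE2, smul_zero]
      · exact ht
    exact hEli t h2
  · rw [hB v h1] at he
    norm_num at he
  · rw [h1] at he
    have := hδ v
    simp only [Nat.cast_one, one_mul] at he
    linarith

end

section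

variable {k : Type v} [Field k] [CharZero k] {K L : Type u} [Field K] [Field L] [Algebra k K]
  [Algebra k L] [Algebra K L] [IsScalarTower k K L]

theorem reg_plc {K' : Type u} [Field K'] [Algebra k K'] (e : K ≃ₐ[k] K') (v : Place k K')
    (f : K) : (plc e v).Reg f ↔ v.Reg (e f) := by
  constructor
  · rintro (h | h)
    · left; rw [h, map_zero]
    · right; exact h
  · rintro (h | h)
    · left; exact (map_eq_zero_iff _ e.injective).1 h
    · right; exact h

theorem logFld_equiv {K' : Type u} [Field K'] [Algebra k K'] (e : K ≃ₐ[k] K')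
    (Bd : Place k K → Prop) (v : Place k K') (D : Derivation k K' K')
    (hD : LogFld (fun v => Bd (plc e v)) v D) : LogFld Bd (plc e v) (cDer e.symm D) := by
  refine ⟨fun h => pres_equiv e v D (hD.1 h), fun h f => ?_⟩
  have h2 := hD.2 h (e f)
  rw [reg_plc, map_div₀]
  have h3 : e (cDer e.symm D f) = D (e f) := by
    rw [cDer_apply]
    change e (e.symm (D (e f))) = _
    rw [e.apply_symm_apply]
  rw [h3]
  exact h2

theorem trA_log {K' : Type u} [Field K'] [Algebra k K'] (e : K ≃ₐ[k] K') {d n m : ℕ}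
    {Bd : Place k K → Prop} {δ : Place k K → ℝ} {α : Fin d → Derivation k K K →ₗ[K] K} {a : K}
    (h : TensorLog n m Bd δ α a) :
    TensorLog n m (fun v => Bd (plc e v)) (fun v => δ (plc e v)) (fun l => trA e (α l))
      (e a) := by
  intro v hv D hD
  have h1 := h (plc e v) (div_equiv e v hv) (fun j => cDer e.symm (D j))
    (fun j => logFld_equiv e Bd v (D j) (hD j))
  have h2 : e a * (Matrix.of fun i j => trA e (α i) (D j)).det ^ m =
      e (a * (Matrix.of fun i j => α i (cDer e.symm (D j))).det ^ m) := by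
    rw [map_mul, map_pow]
    congr 2
    have h3 := RingHom.map_det (e : K →+* K') (Matrix.of fun i j => α i (cDer e.symm (D j)))
    exact h3.symm
  rw [h2]
  rcases h1 with h1 | h1
  · left; rw [h1, map_zero]
  · right; exact h1

/-- The theorem for a Galois extension, given by an isomorphism with a fixed field. -/
theorem main_isoL [FiniteDimensional K L] (hess : Algebra.EssFiniteType k K)
    {d r m : ℕ} (hnL : Algebra.trdeg k L = (d + r : ℕ))
    (G : Subgroup (L ≃ₐ[k] L)) [Finite G] (e : K ≃ₐ[k] fixedField G)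
    (he : ∀ x, ((e x : fixedField G) : L) = algebraMap K L x) (hm : 1 ≤ m)
    (Bd : Place k K → Prop) (δ : Place k K → ℝ) (hδ : ∀ v, 0 ≤ δ v) (hB : ∀ v, Bd v → δ v = 1)
    (δ' : Place k L → ℝ) (hδ' : IsPull δ δ')
    (α : Fin d → Derivation k K K →ₗ[K] K) (hα : LinearIndependent K α) (a : K)
    (ha : a ≠ 0) (hT : TensorLog (d + r) m Bd δ α a)
    {ι : Type*} [Finite ι] (ω : ι → Derivation k K K →ₗ[K] L)
    (hregK : ∀ (i : ι) (v : Place k K) (w : Place k L) (e : ℕ), IsDivisorial v (d + r) →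
      Over w v e → ∀ D, LogFld Bd v D → Ge w 0 (ω i D))
    (hker : ∀ D : Derivation k K K, (∀ l, α l D = 0) → (∀ i, ω i D = 0) → D = 0)
    (hfaith : ∀ g : G, g ≠ 1 → ∃ (h : G) (i : ι) (D : Derivation k K K), (∀ l, α l D = 0) ∧
      (g : L ≃ₐ[k] L) ((h : L ≃ₐ[k] L) (ω i D)) ≠ (h : L ≃ₐ[k] L) (ω i D)) :
    (∃ (α' : Fin d → (Derivation k L L →ₗ[L] L)) (η : Fin r → (Derivation k L L →ₗ[L] L)),
      (∀ l, IsPullForm (α l) (α' l)) ∧ LinearIndependent L (Fin.append α' η) ∧
      ∀ i, ∀ w : Place k L, IsDivisorial w (d + r) → ∀ D : Derivation k L L,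
        LogFld (BdOn Bd) w D → w.Reg (η i D)) ∧
      PairKod k K (d + r) δ 0 ∧
      ∀ a, PairKod k L (d + r) δ' a → PairKod k K (d + r) δ a := by
  classical
  have hess' : Algebra.EssFiniteType k (fixedField G) :=
    (Algebra.EssFiniteType.iff_of_algEquiv e).1 hess
  have halgK := Pool.Agent.W721.PG.EFF2.alg_fixed G
  obtain ⟨hnK, -⟩ := Pool.Agent.W721.PG.EFF2.exists_basis (fixedField G) (d + r) hnL
  have hcc : ∀ D : Derivation k K K, cDer e.symm (cDer e D) = D := cDer_cDer e
  have hcc' : ∀ D : Derivation k (fixedField G) (fixedField G), cDer e (cDer e.symm D) = D :=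
    cDer_cDer e.symm
  have key := fixed_L (k := k) (G := G) hess' hm hnL (fun v => Bd (plc e v))
    (fun v => δ (plc e v)) (fun v => hδ _) (fun v h => hB _ h) δ'
    (by
      intro v w r hwv
      exact hδ' (plc e v) w r (over_equiv e he v w r hwv))
    (fun l => trA e (α l)) (trA_li e hα) (e a)
    (fun h0 => ha ((map_eq_zero_iff _ e.injective).1 h0)) (trA_log e hT)
    (Set.range fun p : G × ι => act p.1 (trE e he (ω p.2))) (Set.finite_range _)
    (by
      rintro g _ ⟨⟨h, i⟩, rfl⟩
      refine ⟨(g * h, i), ?_⟩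
      ext D
      rfl)
    (by
      intro D hDα hD
      have h1 : cDer e.symm D = 0 := by
        apply hker _ (fun l => (trA_zero e (α l) D).1 (hDα l))
        intro i
        have h2 := hD _ ⟨(1, i), rfl⟩
        exact h2
      rw [← hcc' D, h1]
      ext x
      rw [cDer_apply]
      simp)
    (by
      intro g hg
      obtain ⟨h, i, D, hD, hne⟩ := hfaith g hg
      refine ⟨_, ⟨(h, i), rfl⟩, cDer e D, fun l => ?_, ?_⟩
      · rw [trA_zero, hcc]
        exact hD l
      · change (g : L ≃ₐ[k] L) ((h : L ≃ₐ[k] L) (ω i (cDer e.symm (cDer e D)))) ≠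
          (h : L ≃ₐ[k] L) (ω i (cDer e.symm (cDer e D)))
        rw [hcc]
        exact hne)
    (by
      rintro _ ⟨⟨g, i⟩, rfl⟩ v w r hv h D hD
      change Ge w 0 ((g : L ≃ₐ[k] L) (ω i (cDer e.symm D)))
      rw [← ge_comp]
      have h1 := over_comp h (g : L ≃ₐ[k] L) (fun z => z.2 g)
      exact hregK i (plc e v) _ r (div_equiv e v hv) (over_equiv e he v _ r h1) _
        (logFld_equiv e Bd v D hD))
  obtain ⟨⟨α', η, hα', hli, hη⟩, hK0, hdesc⟩ := key
  have hpl : ∀ v : Place k K, (fun v => δ (plc e v)) (plc e.symm v) = δ v := by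
    intro v
    change δ (plc e (plc e.symm v)) = δ v
    rw [plc_symm]
  have hBd : ∀ w : Place k L, BdOn Bd w ↔ BdOn (fun v => Bd (plc e v)) w := by
    intro w
    constructor
    · rintro ⟨v, r, h, hBv⟩
      refine ⟨plc e.symm v, r, ⟨h.1, fun f => ?_⟩, ?_⟩
      · have h1 := h.2 (e.symm f)
        rw [← he, e.apply_symm_apply] at h1
        exact h1
      · change Bd (plc e (plc e.symm v))
        rw [plc_symm]
        exact hBv
    · rintro ⟨v, r, h, hBv⟩
      exact ⟨plc e v, r, over_equiv e he v w r h, hBv⟩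
  refine ⟨⟨α', η, fun l D D' h => ?_, hli, fun i w hw D hD => hη i w hw D ?_⟩,
    pair_equiv e.symm hess' hnK _ δ hδ hpl hK0, fun a ha => pair_equiv e.symm hess' hnK _ δ hδ
      hpl (hdesc a ha)⟩
  · have h1 := hα' l (cDer e D) D' (fun f => by
      have h2 : algebraMap (fixedField G) L f = algebraMap K L (e.symm f) := by
        rw [← he, e.apply_symm_apply]
        rfl
      rw [h2, h]
      have h3 : algebraMap K L (D (e.symm f)) = ((e (D (e.symm f)) : fixedField G) : L) :=
        (he _).symm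
      rw [h3]
      rfl)
    rw [h1]
    change ((e (α l (cDer e.symm (cDer e D))) : fixedField G) : L) = _
    rw [hcc, he]
  · exact ⟨fun h => hD.1 fun h' => h ((hBd w).1 h'), fun h => hD.2 ((hBd w).2 h)⟩

end

end Pool.Agent.Y174
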