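import Pool.Agent.Y174.L3

/-! Logarithmic multivalued forms modulo a subsheaf, pairs: main theorems. -/

set_option autoImplicit false
set_option linter.overlappingInstances false
set_option linter.unusedSectionVars false

universe u v

open FF IntermediateField Pool.Agent.W619.PQ Pool.Agent.W619.PL Pool.Agent.W619.TW
  Pool.Agent.W603.LV Pool.Agent.W619.Y Pool.Agent.W824.PG

namespace Pool.Agent.Y174

section

variable {k : Type v} [Field k] [CharZero k] {K L : Type u} [Field K] [Field L] [Algebra k K]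
  [Algebra k L] [Algebra K L] [IsScalarTower k K L]

theorem MultiLog.ge [FiniteDimensional K L] {n : ℕ} {Bd : Place k K → Prop}
    {ω : Derivation k K K →ₗ[K] L} (hω : MultiLog n Bd ω) {v : Place k K}
    {w : Place k L} {e : ℕ} (h : Over w v e) (hv : IsDivisorial v n) {D : Derivation k K K}
    (hD : LogFld Bd v D) : Ge w 0 (ω D) := by
  obtain ⟨p, hp, hc, hx⟩ := hω v hv D hD
  exact ge_of_root h hp hc hx

/-- Main theorem, for a Galois extension. -/
theorem main_L [FiniteDimensional K L] [IsGalois K L] (hess : Algebra.EssFiniteType k K)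
    {d r m : ℕ} (hn : Algebra.trdeg k K = (d + r : ℕ)) (hm : 1 ≤ m)
    (Bd : Place k K → Prop) (δ : Place k K → ℝ) (hδ : ∀ v, 0 ≤ δ v) (hB : ∀ v, Bd v → δ v = 1)
    (δ' : Place k L → ℝ) (hδ' : IsPull δ δ')
    (α : Fin d → Derivation k K K →ₗ[K] K) (hα : LinearIndependent K α) (a : K)
    (ha : a ≠ 0) (hT : TensorLog (d + r) m Bd δ α a)
    {ι : Type*} [Finite ι] (ω : ι → Derivation k K K →ₗ[K] L)
    (hregK : ∀ (i : ι) (v : Place k K) (w : Place k L) (e : ℕ), IsDivisorial v (d + r) →
      Over w v e → ∀ D, LogFld Bd v D → Ge w 0 (ω i D))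
    (hker : ∀ D : Derivation k K K, (∀ l, α l D = 0) → (∀ i, ω i D = 0) → D = 0)
    (hgen : IntermediateField.adjoin K {z | ∃ (g : L ≃ₐ[K] L) (i : ι) (D : Derivation k K K),
      (∀ l, α l D = 0) ∧ g (ω i D) = z} = ⊤) :
    (∃ (α' : Fin d → (Derivation k L L →ₗ[L] L)) (η : Fin r → (Derivation k L L →ₗ[L] L)),
      (∀ l, IsPullForm (α l) (α' l)) ∧ LinearIndependent L (Fin.append α' η) ∧
      ∀ i, ∀ w : Place k L, IsDivisorial w (d + r) → ∀ D : Derivation k L L,
        LogFld (BdOn Bd) w D → w.Reg (η i D)) ∧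
      PairKod k K (d + r) δ 0 ∧
      (∀ a, PairKod k K (d + r) δ a ↔ PairKod k L (d + r) δ' a) ∧
      ∀ a, PairNum k L (d + r) δ' a → PairNum k K (d + r) δ a := by
  classical
  have hGf : Finite (gal k K L) := gal_finite
  have hnL : Algebra.trdeg k L = (d + r : ℕ) := trdeg_up (K := K) hn
  have key := main_isoL (k := k) (K := K) (L := L) hess hnL (gal k K L)
    (eqv (k := k) (K := K) (L := L)) (fun x => eqv_coe x) hm Bd δ hδ hB δ' hδ' α hα a ha hT ω
    hregK hker (by
      intro g hg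
      by_contra hcon
      push Not at hcon
      apply hg
      have h1 : ∀ (h : L ≃ₐ[K] L) i (D : Derivation k K K), (∀ l, α l D = 0) →
          (g : L ≃ₐ[k] L) (h (ω i D)) = h (ω i D) := by
        intro h i D hD
        exact hcon ⟨h.restrictScalars k, fun y => h.commutes y⟩ i D hD
      have h2 : IntermediateField.adjoin K {z | ∃ (g : L ≃ₐ[K] L) (i : ι)
          (D : Derivation k K K), (∀ l, α l D = 0) ∧ g (ω i D) = z} ≤
          IntermediateField.fixedField (Subgroup.zpowers (galK g)) := by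
        rw [IntermediateField.adjoin_le_iff]
        rintro _ ⟨h', i, D, hD, rfl⟩ ⟨h, hh⟩
        obtain ⟨m, rfl⟩ := Subgroup.mem_zpowers_iff.1 hh
        have h3 : galK g (h' (ω i D)) = h' (ω i D) := h1 h' i D hD
        have h4 : galK g ∈ MulAction.stabilizer (L ≃ₐ[K] L) (h' (ω i D)) := h3
        exact Subgroup.zpow_mem _ h4 m
      rw [hgen, top_le_iff] at h2
      apply Subtype.ext
      ext z
      have h3 : z ∈ IntermediateField.fixedField (Subgroup.zpowers (galK g)) := by
        rw [h2]; trivial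
      exact h3 ⟨galK g, Subgroup.mem_zpowers _⟩)
  obtain ⟨h1, hK0, hdesc⟩ := key
  exact ⟨h1, hK0, fun a => ⟨fun h => pair_up hess hn hδ' h, hdesc a⟩,
    fun a h => pair_num hess hn hδ' h⟩

end

section

variable {k : Type v} [Field k] [CharZero k] {K Ω : Type u} [Field K] [Field Ω] [Algebra k K]
  [Algebra k Ω] [Algebra K Ω] [IsScalarTower k K Ω]

theorem MultiLog.trc {n : ℕ} {Bd : Place k K → Prop} {ω : Derivation k K K →ₗ[K] Ω}
    (h : MultiLog n Bd ω) (L : IntermediateField K Ω) [CharZero L] [Algebra.IsIntegral L Ω] :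
    MultiLog n Bd (trc L ω) := by
  intro v hv D hD
  rw [multi_iff]
  exact integral_trace v L _ ((multi_iff v _).1 (h v hv D hD))

/-- Main theorem, with values in a normal algebraic extension `Ω` of `K`. -/
theorem main_L2 [Normal K Ω] (hess : Algebra.EssFiniteType k K) {d r m : ℕ}
    (hn : Algebra.trdeg k K = (d + r : ℕ)) (hm : 1 ≤ m)
    (Bd : Place k K → Prop) (δ : Place k K → ℝ) (hδ : ∀ v, 0 ≤ δ v) (hB : ∀ v, Bd v → δ v = 1)
    (α : Fin d → Derivation k K K →ₗ[K] K) (hα : LinearIndependent K α) (a : K)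
    (ha : a ≠ 0) (hT : TensorLog (d + r) m Bd δ α a)
    {ι : Type*} [Finite ι] (ω : ι → Derivation k K K →ₗ[K] Ω)
    (hreg : ∀ i, MultiLog (d + r) Bd (ω i))
    (hker : ∀ D : Derivation k K K, (∀ l, α l D = 0) → (∀ i, ω i D = 0) → D = 0) :
    ∃ L : IntermediateField K Ω, FiniteDimensional K L ∧ IsGalois K L ∧
      (∃ (α' : Fin d → (Derivation k L L →ₗ[L] L)) (η : Fin r → (Derivation k L L →ₗ[L] L)),
        (∀ l, IsPullForm (α l) (α' l)) ∧ LinearIndependent L (Fin.append α' η) ∧
        ∀ i, ∀ w : Place k L, IsDivisorial w (d + r) → ∀ D : Derivation k L L,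
          LogFld (BdOn Bd) w D → w.Reg (η i D)) ∧
      PairKod k K (d + r) δ 0 ∧ ∀ δ' : Place k L → ℝ, IsPull δ δ' →
        (∀ a, PairKod k K (d + r) δ a ↔ PairKod k L (d + r) δ' a) ∧
        ∀ a, PairNum k L (d + r) δ' a → PairNum k K (d + r) δ a := by
  classical
  have hK0 : CharZero K := charZero_of_injective_algebraMap (algebraMap k K).injective
  obtain ⟨z, hz⟩ := Pool.Agent.W636.PG.exists_basis k K (d + r) hn
  obtain ⟨E, hE⟩ := Pool.Agent.W636.PG.exists_duals k K (d + r) z hz
  let V : Set Ω := {z | ∃ (g : Ω ≃ₐ[K] Ω) (i : ι) (D : Derivation k K K),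
    (∀ l, α l D = 0) ∧ g (ω i D) = z}
  let L : IntermediateField K Ω := IntermediateField.adjoin K V
  -- finiteness
  let V0 : Set Ω := ⋃ p : ι × Fin (d + r),
    {x | Polynomial.aeval x (minpoly K (ω p.1 (E p.2))) = 0}
  have hV0 : V0.Finite := by
    refine Set.finite_iUnion fun p => ?_
    have h1 : minpoly K (ω p.1 (E p.2)) ≠ 0 :=
      minpoly.ne_zero (Algebra.IsIntegral.isIntegral _)
    refine ((minpoly K (ω p.1 (E p.2))).rootSet Ω).toFinite.subset fun x hx => ?_
    exact (Polynomial.mem_rootSet.2 ⟨h1, hx⟩)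
  have hgV0 : ∀ (g : Ω ≃ₐ[K] Ω) i j, g (ω i (E j)) ∈ V0 := by
    intro g i j
    refine Set.mem_iUnion.2 ⟨(i, j), ?_⟩
    change Polynomial.aeval (g (ω i (E j))) (minpoly K (ω i (E j))) = 0
    have h1 := Polynomial.aeval_algHom_apply (g : Ω →ₐ[K] Ω) (ω i (E j)) (minpoly K (ω i (E j)))
    rw [minpoly.aeval, map_zero] at h1
    exact h1
  have hLV0 : L ≤ IntermediateField.adjoin K V0 := by
    rw [IntermediateField.adjoin_le_iff]
    rintro _ ⟨g, i, D, -, rfl⟩
    rw [form_expand z hz E hE (ω i) D, map_sum]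
    refine sum_mem fun b _ => ?_
    rw [map_mul, AlgEquiv.commutes]
    exact mul_mem (IntermediateField.algebraMap_mem _ _)
      (IntermediateField.subset_adjoin K V0 (hgV0 g i b))
  have hfin0 : FiniteDimensional K (IntermediateField.adjoin K V0) := by
    have := hV0.to_subtype
    exact IntermediateField.finiteDimensional_adjoin fun x _ => Algebra.IsIntegral.isIntegral x
  have hfin : FiniteDimensional K L :=
    Module.Finite.of_injective (IntermediateField.inclusion hLV0).toLinearMap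
      (IntermediateField.inclusion hLV0).injective
  -- normality
  have hnorm : Normal K L := by
    rw [IntermediateField.normal_iff_forall_map_le']
    intro σ
    change (IntermediateField.adjoin K V).map _ ≤ _
    rw [IntermediateField.adjoin_map, IntermediateField.adjoin_le_iff]
    rintro _ ⟨_, ⟨g, i, D, hD, rfl⟩, rfl⟩
    exact IntermediateField.subset_adjoin K V ⟨σ * g, i, D, hD, rfl⟩
  have hgal : IsGalois K L := ⟨⟩
  have hL0 : CharZero L := charZero_of_injective_algebraMap (algebraMap K L).injective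
  have hint : Algebra.IsIntegral L Ω := Algebra.IsIntegral.tower_top K
  have hmem : ∀ i (D : Derivation k K K), (∀ l, α l D = 0) → ω i D ∈ L := fun i D hD =>
    IntermediateField.subset_adjoin K V ⟨1, i, D, hD, rfl⟩
  let ω' : ι → Derivation k K K →ₗ[K] L := fun i => trc L (ω i)
  have hω' : ∀ i (D : Derivation k K K), (∀ l, α l D = 0) → ((ω' i D : L) : Ω) = ω i D :=
    fun i D hD => trc_eq L (ω i) D (hmem i D hD)
  have h1 := fun (δ' : Place k L → ℝ) (hδ' : IsPull δ δ') =>
    main_L (k := k) (K := K) (L := L) hess hn hm Bd δ hδ hB δ' hδ' α hα a ha hT ω'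
    (fun i v w r hv h D hD => (MultiLog.trc (hreg i) L).ge h hv hD) (by
    intro D hD0 hD
    apply hker D hD0
    intro i
    rw [← hω' i D hD0, hD i]
    rfl) (by
    rw [eq_top_iff]
    intro x _
    have h2 : L ≤ (IntermediateField.adjoin K {z : L | ∃ (g : L ≃ₐ[K] L) (i : ι)
        (D : Derivation k K K), (∀ l, α l D = 0) ∧ g (ω' i D) = z}).map L.val := by
      change IntermediateField.adjoin K V ≤ _
      rw [IntermediateField.adjoin_le_iff]
      rintro _ ⟨g, i, D, hD, rfl⟩
      refine ⟨g.restrictNormal L (ω' i D), IntermediateField.subset_adjoin K _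
        ⟨g.restrictNormal L, i, D, hD, rfl⟩, ?_⟩
      have h3 := AlgEquiv.restrictNormal_commutes g L (ω' i D)
      have h4 : algebraMap L Ω (ω' i D) = ω i D := hω' i D hD
      rw [h4] at h3
      exact h3
    obtain ⟨y, hy, hyx⟩ := h2 x.2
    have h3 : y = x := Subtype.ext hyx
    rw [← h3]
    exact hy)
  obtain ⟨δ0, hδ0⟩ := exists_pull (L := L) δ
  exact ⟨L, hfin, hgal, (h1 δ0 hδ0).1, (h1 δ0 hδ0).2.1, fun δ' hδ' =>
    ⟨(h1 δ' hδ').2.2.1, (h1 δ' hδ').2.2.2⟩⟩

end

end Pool.Agent.Y174
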