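import Pool.Agent.Y174.Main1

/-! Varieties whose cotangent bundle is generated by regular multivalued 1-forms, with values in the
algebraic closure. -/

set_option autoImplicit false
set_option linter.overlappingInstances false
set_option linter.unusedSectionVars false

universe u v

open FF IntermediateField Pool.Agent.W619.PQ Pool.Agent.W619.PL Pool.Agent.W619.TW
  Pool.Agent.W603.LV Pool.Agent.W619.Y Pool.Agent.W672.PG Pool.Agent.W824.PG

namespace Pool.Agent.Y174

section

variable {k : Type v} [Field k] [CharZero k] {K Ω : Type u} [Field K] [Field Ω] [Algebra k K]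
  [Algebra k Ω] [Algebra K Ω] [IsScalarTower k K Ω]

/-- Main theorem, with values in a normal algebraic extension `Ω` of `K`. -/
theorem main2 [Normal K Ω] (hess : Algebra.EssFiniteType k K) {n : ℕ}
    (hn : Algebra.trdeg k K = n) {ι : Type*} [Finite ι] (ω : ι → Derivation k K K →ₗ[K] Ω)
    (hreg : ∀ i, MultiReg n (ω i)) (hker : ∀ D, (∀ i, ω i D = 0) → D = 0) :
    ∃ L : IntermediateField K Ω, FiniteDimensional K L ∧ IsGalois K L ∧
      IntermediateField.adjoin K {z | ∃ (g : Ω ≃ₐ[K] Ω) (i : ι) (D : Derivation k K K),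
        g (ω i D) = z} = L ∧
      MaxAlb k L n ∧ KodTr k K n 0 ∧ (∀ a, KodTr k K n a ↔ KodTr k L n a) ∧
      ∀ a, NumLe k L n (fun _ => False) a → NumLe k K n (fun _ => False) a := by
  classical
  have hK0 : CharZero K := charZero_of_injective_algebraMap (algebraMap k K).injective
  obtain ⟨z, hz⟩ := Pool.Agent.W636.PG.exists_basis k K n hn
  obtain ⟨E, hE⟩ := Pool.Agent.W636.PG.exists_duals k K n z hz
  let V : Set Ω := {z | ∃ (g : Ω ≃ₐ[K] Ω) (i : ι) (D : Derivation k K K), g (ω i D) = z}
  let L : IntermediateField K Ω := IntermediateField.adjoin K V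
  -- finiteness
  let V0 : Set Ω := ⋃ p : ι × Fin n, {x | Polynomial.aeval x (minpoly K (ω p.1 (E p.2))) = 0}
  have hV0 : V0.Finite := by
    refine Set.finite_iUnion fun p => ?_
    have h1 : minpoly K (ω p.1 (E p.2)) ≠ 0 :=
      minpoly.ne_zero (Algebra.IsIntegral.isIntegral _)
    refine ((minpoly K (ω p.1 (E p.2))).rootSet Ω).toFinite.subset fun x hx => ?_
    exact (Polynomial.mem_rootSet.2 ⟨h1, hx⟩)
  have hgV0 : ∀ (g : Ω ≃ₐ[K] Ω) i j, g (ω i (E j)) ∈ V0 := by
    intro g i j
    refine Set.mem_iUnion.2 ⟨(i, j), ?_⟩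
    change Polynomial.aeval (g (ω i (E j))) (minpoly K (ω i (E j))) = 0
    have h1 := Polynomial.aeval_algHom_apply (g : Ω →ₐ[K] Ω) (ω i (E j)) (minpoly K (ω i (E j)))
    rw [minpoly.aeval, map_zero] at h1
    exact h1
  have hLV0 : L ≤ IntermediateField.adjoin K V0 := by
    rw [IntermediateField.adjoin_le_iff]
    rintro _ ⟨g, i, D, rfl⟩
    rw [form_expand z hz E hE (ω i) D, map_sum]
    refine sum_mem fun b _ => ?_
    rw [map_mul, AlgEquiv.commutes]
    exact mul_mem (IntermediateField.algebraMap_mem _ _)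
      (IntermediateField.subset_adjoin K V0 (hgV0 g i b))
  have hfin0 : FiniteDimensional K (IntermediateField.adjoin K V0) := by
    have := hV0.to_subtype
    exact IntermediateField.finiteDimensional_adjoin fun x _ => Algebra.IsIntegral.isIntegral x
  have hfin : FiniteDimensional K L :=
    Module.Finite.of_injective (IntermediateField.inclusion hLV0).toLinearMap
      (IntermediateField.inclusion hLV0).injective
  -- normality
  have hnorm : Normal K L := by
    rw [IntermediateField.normal_iff_forall_map_le']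
    intro σ
    change (IntermediateField.adjoin K V).map _ ≤ _
    rw [IntermediateField.adjoin_map, IntermediateField.adjoin_le_iff]
    rintro _ ⟨_, ⟨g, i, D, rfl⟩, rfl⟩
    exact IntermediateField.subset_adjoin K V ⟨σ * g, i, D, rfl⟩
  have hgal : IsGalois K L := ⟨⟩
  have hmem : ∀ i D, ω i D ∈ L := fun i D =>
    IntermediateField.subset_adjoin K V ⟨1, i, D, rfl⟩
  let ω' : ι → Derivation k K K →ₗ[K] L := fun i =>
    (ω i).codRestrict (Subalgebra.toSubmodule L.toSubalgebra) (hmem i)
  have hω' : ∀ i D, ((ω' i D : L) : Ω) = ω i D := fun i D => rfl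
  have h1 := main1 (k := k) (K := K) (L := L) hess hn ω' (by
    intro i v hv D hD
    obtain ⟨p, hp, hc, hx⟩ := hreg i v hv D hD
    refine ⟨p, hp, hc, ?_⟩
    apply Subtype.ext
    have h2 : ((Polynomial.aeval (ω' i D) p : L) : Ω) = Polynomial.aeval (ω i D) p := by
      rw [← hω' i D]
      exact (Polynomial.aeval_algebraMap_apply Ω (ω' i D) p).symm
    rw [h2, hx]
    rfl) (by
    intro D hD
    apply hker
    intro i
    rw [← hω' i D, hD i]
    rfl) (by
    rw [eq_top_iff]
    intro x _
    have h2 : L ≤ (IntermediateField.adjoin K {z : L | ∃ (g : L ≃ₐ[K] L) (i : ι)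
        (D : Derivation k K K), g (ω' i D) = z}).map L.val := by
      change IntermediateField.adjoin K V ≤ _
      rw [IntermediateField.adjoin_le_iff]
      rintro _ ⟨g, i, D, rfl⟩
      refine ⟨g.restrictNormal L (ω' i D), IntermediateField.subset_adjoin K _
        ⟨g.restrictNormal L, i, D, rfl⟩, ?_⟩
      exact AlgEquiv.restrictNormal_commutes g L (ω' i D)
    obtain ⟨y, hy, hyx⟩ := h2 x.2
    have h3 : y = x := Subtype.ext hyx
    rw [← h3]
    exact hy)
  exact ⟨L, hfin, hgal, rfl, h1⟩

end

end Pool.Agent.Y174
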