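import Pool.Agent.Y174.H3
import Pool.Agent.W308.PG.YLOC
import Pool.Agent.W419.PG.DIVR

/-! Relative versions: varieties over a base, coordinates and determinants. -/

set_option autoImplicit false
set_option linter.overlappingInstances false
set_option linter.unusedSectionVars false

universe u v

open FF IntermediateField Pool.Agent.W619.PQ Pool.Agent.W619.PL Pool.Agent.W619.TW
  Pool.Agent.W603.LV Pool.Agent.W619.Y Pool.Agent.W824.PG

namespace Pool.Agent.Y174

theorem pDIVR : S_DIVR.{u, v} := Pool.Agent.W419.PG.main
theorem pYLOC : S_YLOC.{u, v} := Pool.Agent.W308.PG.YLOC.main pFRAME pDIVR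

section

variable {k : Type v} {K : Type u} [Field k] [Field K] [Algebra k K]

/-- Extension of a system of independent functions to a transcendence basis. -/
theorem exists_append {d r : ℕ} (y : Fin d → K) (hy : AlgebraicIndependent k y)
    (hn : Algebra.trdeg k K = (d + r : ℕ)) :
    ∃ x : Fin r → K, IsTranscendenceBasis k (Fin.append y x) := by
  classical
  obtain ⟨t, hst, ht⟩ := exists_isTranscendenceBasis_superset (R := k) (s := Set.range y)
    hy.to_subtype_range
  have hcard : Cardinal.mk t = (d + r : ℕ) := by rw [ht.cardinalMk_eq_trdeg, hn]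
  have htf : Finite t := by
    rw [← Cardinal.lt_aleph0_iff_finite, hcard]
    exact Cardinal.natCast_lt_aleph0
  have hnc : Nat.card t = d + r := by rw [Nat.card, hcard, Cardinal.toNat_natCast]
  have htfin : t.Finite := Set.toFinite t
  have h1 : (t \ Set.range y).ncard = r := by
    rw [Set.ncard_sdiff hst (Set.finite_range y)]
    have h2 : t.ncard = d + r := hnc
    have h3 : (Set.range y).ncard = d := by
      rw [← Set.image_univ, Set.ncard_image_of_injective _ hy.injective, Set.ncard_univ,
        Nat.card_fin]
    omega
  have h4 : Finite (t \ Set.range y : Set K) := (htfin.subset Set.sdiff_subset).to_subtype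
  obtain ⟨e⟩ : Nonempty (Fin r ≃ (t \ Set.range y : Set K)) :=
    ⟨(Finite.equivFinOfCardEq h1).symm⟩
  refine ⟨fun i => (e i).1, ?_⟩
  have hinj : Function.Injective (Fin.append y (fun i => (e i).1)) := by
    rw [Fin.append_injective_iff]
    refine ⟨hy.injective, fun a b h => e.injective (Subtype.ext h), fun i j h => ?_⟩
    exact (e j).2.2 ⟨i, h⟩
  have hrange : Set.range (Fin.append y (fun i => (e i).1)) ⊆ t := by
    rintro _ ⟨i, rfl⟩
    refine Fin.addCases (fun l => ?_) (fun j => ?_) i
    · rw [Fin.append_left]
      exact hst ⟨l, rfl⟩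
    · rw [Fin.append_right]
      exact (e j).2.1
  have hind : AlgebraicIndependent k (Fin.append y (fun i => (e i).1)) := by
    refine AlgebraicIndependent.of_subtype_range hinj ?_
    exact ht.1.mono hrange
  refine hind.isTranscendenceBasis_of_lift_trdeg_le_of_finite ?_
  rw [hn]
  simp

/-- the differential of a function -/
def dform (y : K) : Derivation k K K →ₗ[K] K where
  toFun D := D y
  map_add' _ _ := rfl
  map_smul' _ _ := rfl

theorem dform_apply (y : K) (D : Derivation k K K) : dform y D = D y := rfl

end

section

variable {k : Type v} {K L : Type u} [Field k] [Field K] [Algebra k K] [Field L] [Algebra k L]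
  [Algebra K L] [IsScalarTower k K L]

/-- the determinant of the differentials of `d` functions and `r` multivalued forms -/
noncomputable def rdet {d r : ℕ} (y : Fin d → K) (J : Fin r → Derivation k K K →ₗ[K] L)
    (D : Fin (d + r) → Derivation k K K) : L :=
  (Matrix.of fun (i j : Fin (d + r)) => Fin.addCases (motive := fun _ => L)
    (fun l => algebraMap K L (D j (y l))) (fun a => J a (D j)) i).det

theorem rdet_lin {d r : ℕ} (y : Fin d → K) (J : Fin r → Derivation k K K →ₗ[K] L)
    (X : Matrix (Fin (d + r)) (Fin (d + r)) K) (D : Fin (d + r) → Derivation k K K) :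
    rdet y J (fun i => ∑ j, X i j • D j) = algebraMap K L X.det * rdet y J D := by
  unfold rdet
  have e3 : (X.map (algebraMap K L)).det = algebraMap K L X.det := by
    rw [RingHom.map_det]
    rfl
  have e2 : (Matrix.of fun (i j : Fin (d + r)) => Fin.addCases (motive := fun _ => L)
      (fun l => algebraMap K L ((∑ c, X j c • D c) (y l))) (fun a => J a (∑ c, X j c • D c)) i) =
      (Matrix.of fun (i j : Fin (d + r)) => Fin.addCases (motive := fun _ => L)
        (fun l => algebraMap K L (D j (y l))) (fun a => J a (D j)) i) *
        (X.map (algebraMap K L)).transpose := by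
    ext i j
    rw [Matrix.mul_apply]
    refine Fin.addCases (fun l => ?_) (fun a => ?_) i
    · simp only [Matrix.of_apply, Fin.addCases_left, Matrix.transpose_apply, Matrix.map_apply]
      rw [Pool.Agent.W721.PG.EFF2.der_sum, map_sum]
      exact Finset.sum_congr rfl fun c _ => by rw [map_mul, mul_comm]
    · simp only [Matrix.of_apply, Fin.addCases_right, Matrix.transpose_apply, Matrix.map_apply]
      rw [map_sum]
      exact Finset.sum_congr rfl fun c _ => by rw [map_smul, Algebra.smul_def, mul_comm]
  rw [e2, Matrix.det_mul, Matrix.det_transpose, e3, mul_comm]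

/-- a block determinant -/
theorem rdet_block {d r : ℕ} (y : Fin d → K) (J : Fin r → Derivation k K K →ₗ[K] L)
    (E : Fin (d + r) → Derivation k K K)
    (h1 : ∀ l c : Fin d, E (Fin.castAdd r c) (y l) = if c = l then 1 else 0)
    (h2 : ∀ (l : Fin d) (a : Fin r), E (Fin.natAdd d a) (y l) = 0) :
    rdet y J E = (Matrix.of fun i j => J i (E (Fin.natAdd d j))).det := by
  unfold rdet
  rw [← Matrix.det_submatrix_equiv_self finSumFinEquiv]
  have h3 : (Matrix.submatrix (Matrix.of fun (i j : Fin (d + r)) =>
      Fin.addCases (motive := fun _ => L)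
      (fun l => algebraMap K L (E j (y l))) (fun a => J a (E j)) i) finSumFinEquiv
        finSumFinEquiv) = Matrix.fromBlocks (1 : Matrix (Fin d) (Fin d) L) 0
          (Matrix.of fun i c => J i (E (Fin.castAdd r c)))
          (Matrix.of fun i j => J i (E (Fin.natAdd d j))) := by
    ext (i | i) (j | j)
    · simp only [Matrix.submatrix_apply, Matrix.of_apply, finSumFinEquiv_apply_left,
        Fin.addCases_left, Matrix.fromBlocks_apply₁₁, h1, Matrix.one_apply]
      by_cases h : j = i
      · rw [if_pos h, if_pos h.symm, map_one]
      · rw [if_neg h, if_neg (Ne.symm h), map_zero]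
    · simp only [Matrix.submatrix_apply, Matrix.of_apply, finSumFinEquiv_apply_left,
        finSumFinEquiv_apply_right, Fin.addCases_left, Matrix.fromBlocks_apply₁₂, h2, map_zero,
        Matrix.zero_apply]
    · simp only [Matrix.submatrix_apply, Matrix.of_apply, finSumFinEquiv_apply_left,
        finSumFinEquiv_apply_right, Fin.addCases_right, Matrix.fromBlocks_apply₂₁]
    · simp only [Matrix.submatrix_apply, Matrix.of_apply,
        finSumFinEquiv_apply_right, Fin.addCases_right, Matrix.fromBlocks_apply₂₂]
  rw [h3, Matrix.det_fromBlocks_zero₁₂, Matrix.det_one, one_mul]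

/-- change of the functions -/
theorem rdet_change {d r : ℕ} (y : Fin d → K) (z : Fin d → K) (Z : Matrix (Fin d) (Fin d) K)
    (h : ∀ (D : Derivation k K K) l, D (y l) = ∑ c, Z l c * D (z c))
    (J : Fin r → Derivation k K K →ₗ[K] L) (D : Fin (d + r) → Derivation k K K) :
    rdet y J D = algebraMap K L Z.det * rdet z J D := by
  unfold rdet
  rw [← Matrix.det_submatrix_equiv_self finSumFinEquiv,
    ← Matrix.det_submatrix_equiv_self finSumFinEquiv]
  have h3 : (Matrix.submatrix (Matrix.of fun (i j : Fin (d + r)) =>
      Fin.addCases (motive := fun _ => L)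
      (fun l => algebraMap K L (D j (y l))) (fun a => J a (D j)) i) finSumFinEquiv
        finSumFinEquiv) =
      Matrix.fromBlocks (Z.map (algebraMap K L)) 0 0 (1 : Matrix (Fin r) (Fin r) L) *
        (Matrix.submatrix (Matrix.of fun (i j : Fin (d + r)) =>
          Fin.addCases (motive := fun _ => L)
          (fun l => algebraMap K L (D j (z l))) (fun a => J a (D j)) i) finSumFinEquiv
          finSumFinEquiv) := by
    ext (i | i) j
    · rw [Matrix.mul_apply, Fintype.sum_sum_type]
      simp only [Matrix.submatrix_apply, Matrix.of_apply, finSumFinEquiv_apply_left,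
        Fin.addCases_left, Matrix.fromBlocks_apply₁₁, Matrix.fromBlocks_apply₁₂,
        Matrix.zero_apply, zero_mul, Finset.sum_const_zero, add_zero, Matrix.map_apply]
      rw [h, map_sum]
      exact Finset.sum_congr rfl fun c _ => map_mul _ _ _
    · rw [Matrix.mul_apply, Fintype.sum_sum_type]
      simp only [Matrix.submatrix_apply, Matrix.of_apply, finSumFinEquiv_apply_left,
        finSumFinEquiv_apply_right,
        Fin.addCases_right, Matrix.fromBlocks_apply₂₁, Matrix.fromBlocks_apply₂₂,
        Matrix.zero_apply, zero_mul, Finset.sum_const_zero, zero_add, Matrix.one_apply]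
      rw [Finset.sum_eq_single i]
      · rw [if_pos rfl, one_mul]
      · intro b _ hb
        rw [if_neg (Ne.symm hb), zero_mul]
      · intro hi
        exact absurd (Finset.mem_univ _) hi
  have e3 : (Z.map (algebraMap K L)).det = algebraMap K L Z.det := by
    rw [RingHom.map_det]
    rfl
  rw [h3, Matrix.det_mul, Matrix.det_fromBlocks_zero₁₂, Matrix.det_one, mul_one, e3]

end

end Pool.Agent.Y174
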