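import Pool.Agent.Y174.R1

/-! Relative versions: the invariant form for multivalued forms. -/

set_option autoImplicit false
set_option linter.overlappingInstances false
set_option linter.unusedSectionVars false

universe u v

open FF IntermediateField Pool.Agent.W619.PQ Pool.Agent.W619.PL Pool.Agent.W619.TW
  Pool.Agent.W603.LV Pool.Agent.W619.Y Pool.Agent.W824.PG

namespace Pool.Agent.Y174

section

variable {k : Type v} {L : Type u} [Field k] [CharZero k] [Field L] [Algebra k L]
  {G : Subgroup (L ≃ₐ[k] L)}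

theorem span_top' {r : ℕ} [Finite G] (E : Fin r → Derivation k (fixedField G) (fixedField G))
    (S : Set (Derivation k (fixedField G) (fixedField G) →ₗ[fixedField G] L))
    (hS : ∀ g : G, ∀ ω ∈ S, act g ω ∈ S)
    (hker : ∀ t : Fin r → fixedField G, (∀ ω ∈ S, ω (∑ j, t j • E j) = 0) → ∀ j, t j = 0) :
    Submodule.span L ((fun ω : Derivation k (fixedField G) (fixedField G) →ₗ[fixedField G] L =>
      fun j => ω (E j)) '' S) = ⊤ := by
  classical
  have := Fintype.ofFinite G
  have hL0 : CharZero L := charZero_of_injective_algebraMap (algebraMap k L).injective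
  by_contra hcon
  obtain ⟨f, hf0, hf⟩ := Submodule.exists_le_ker_of_lt_top _ (lt_top_iff_ne_top.2 hcon)
  let d : Fin r → L := fun j => f (Pi.single j 1)
  have hfd : ∀ x : Fin r → L, f x = ∑ j, x j * d j := by
    intro x
    have h1 : x = ∑ j, x j • (Pi.single j (1 : L) : Fin r → L) := by
      funext i
      rw [Finset.sum_apply]
      simp [Pi.single_apply]
    conv_lhs => rw [h1]
    rw [map_sum]
    refine Finset.sum_congr rfl fun j _ => ?_
    rw [map_smul, smul_eq_mul]
  have hd0 : ∃ j0, d j0 ≠ 0 := by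
    by_contra h
    push Not at h
    apply hf0
    ext x
    simp only [hfd, LinearMap.zero_apply, LinearMap.comp_apply]
    simp [h]
  obtain ⟨j0, hj0⟩ := hd0
  have h1 : ∀ ω ∈ S, ∑ j, ω (E j) * (d j / d j0) = 0 := by
    intro ω hω
    have h2 : f (fun j => ω (E j)) = 0 := by
      have h3 := hf (Submodule.subset_span ⟨ω, hω, rfl⟩)
      exact h3
    rw [hfd] at h2
    have h3 : ∑ j, ω (E j) * (d j / d j0) = (∑ j, ω (E j) * d j) / d j0 := by
      rw [Finset.sum_div]
      exact Finset.sum_congr rfl fun j _ => by rw [mul_div_assoc]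
    rw [h3, h2, zero_div]
  have h2 : ∀ ω ∈ S, ∀ g : G, ∑ j, ω (E j) * (g : L ≃ₐ[k] L) (d j / d j0) = 0 := by
    intro ω hω g
    have h3 := congrArg (g : L ≃ₐ[k] L) (h1 (act g⁻¹ ω) (hS g⁻¹ ω hω))
    rw [map_zero, map_sum] at h3
    rw [← h3]
    refine Finset.sum_congr rfl fun j _ => ?_
    rw [map_mul, ← act_apply, act_inv]
  let t : Fin r → fixedField G := fun j => ⟨∑ g : G, (g : L ≃ₐ[k] L) (d j / d j0), fun h => by
    change (h : L ≃ₐ[k] L) (∑ g : G, (g : L ≃ₐ[k] L) (d j / d j0)) = _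
    rw [map_sum]
    exact Fintype.sum_equiv (Equiv.mulLeft h) _ _ (fun g => rfl)⟩
  have h3 : t j0 = 0 := by
    apply hker t
    intro ω hω
    rw [map_sum]
    have h4 : ∀ j, ω (t j • E j) = ∑ g : G, ω (E j) * (g : L ≃ₐ[k] L) (d j / d j0) := by
      intro j
      rw [map_smul, Algebra.smul_def, mul_comm, ← Finset.mul_sum]
      rfl
    rw [Finset.sum_congr rfl fun j _ => h4 j, Finset.sum_comm]
    exact Finset.sum_eq_zero fun g _ => h2 ω hω g
  have h6 : (t j0 : L) = Fintype.card G := by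
    change ∑ g : G, (g : L ≃ₐ[k] L) (d j0 / d j0) = _
    rw [div_self hj0]
    simp
  rw [h3] at h6
  exact (Nat.cast_ne_zero (R := L)).2 Fintype.card_ne_zero h6.symm

/-- The local estimate. -/
theorem rdet_ge {K : Type u} [Field K] [Algebra k K] [Algebra K L] [IsScalarTower k K L]
    {d r m : ℕ} {v : Place k K} {w : Place k L} {e : ℕ} (hwv : Over w v e) {y : Fin d → K} {a : K}
    (hY : YGood d m v y a) (J : Fin r → Derivation k K K →ₗ[K] L)
    (D : Fin (d + r) → Derivation k K K) (hD : ∀ j, Pres v (D j))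
    (hJ : ∀ i j, Ge w 0 (J i (D j))) :
    Ge w 0 (algebraMap K L a * rdet y J D ^ m) ∧
      ∀ i0, (∀ j, Ge w 1 (J i0 (D j))) → 1 ≤ m →
        Ge w 1 (algebraMap K L a * rdet y J D ^ m) := by
  classical
  obtain ⟨Z, z, hz, hZ, hZa⟩ := hY
  have h1 : algebraMap K L a * rdet y J D ^ m =
      algebraMap K L (a * Z.det ^ m) * rdet z J D ^ m := by
    rw [rdet_change y z Z hZ J D, mul_pow, map_mul, map_pow]
    ring
  have h2 : Ge w 0 (algebraMap K L (a * Z.det ^ m)) := hwv.reg.2 hZa
  have h3 : ∀ i j, Ge w 0 ((Matrix.of fun (i j : Fin (d + r)) =>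
      Fin.addCases (motive := fun _ => L)
      (fun l => algebraMap K L (D j (z l))) (fun a => J a (D j)) i) i j) := by
    intro i j
    refine Fin.addCases (fun l => ?_) (fun b => ?_) i
    · simp only [Matrix.of_apply, Fin.addCases_left]
      exact hwv.reg.2 (hD j _ (hz l))
    · simp only [Matrix.of_apply, Fin.addCases_right]
      exact hJ b j
  refine ⟨?_, fun i0 hi0 hm => ?_⟩
  · rw [h1]
    have h4 : Ge w 0 (rdet z J D) := ge_det w _ h3
    have h5 := h2.mul (h4.pow m)
    rw [mul_zero, add_zero] at h5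
    exact h5
  · rw [h1]
    have h4 : Ge w 1 (rdet z J D) := by
      refine ge_det_row w _ h3 (Fin.natAdd d i0) fun j => ?_
      simp only [Matrix.of_apply, Fin.addCases_right]
      exact hi0 j
    have h5 := h2.mul (h4.pow m)
    refine h5.mono ?_
    rw [mul_one, zero_add]
    exact_mod_cast hm

/-- The invariant form. -/
theorem exists_theta_rel {d r m : ℕ} (hm : 1 ≤ m) (hn : Algebra.trdeg k L = (d + r : ℕ))
    [Finite G] (y : Fin d → fixedField G) (hy : AlgebraicIndependent k y) (a : fixedField G)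
    (ha : a ≠ 0) (hY : ∀ v : Place k (fixedField G), IsDivisorial v (d + r) → YGood d m v y a)
    (S : Set (Derivation k (fixedField G) (fixedField G) →ₗ[fixedField G] L)) (hSf : S.Finite)
    (hS : ∀ g : G, ∀ ω ∈ S, act g ω ∈ S)
    (hker : ∀ D : Derivation k (fixedField G) (fixedField G), (∀ l, D (y l) = 0) →
      (∀ ω ∈ S, ω D = 0) → D = 0)
    (hfaith : ∀ g : G, g ≠ 1 → ∃ ω ∈ S, ∃ D : Derivation k (fixedField G) (fixedField G),
      (∀ l, D (y l) = 0) ∧ (g : L ≃ₐ[k] L) (ω D) ≠ ω D)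
    (hreg : ∀ ω ∈ S, ∀ (v : Place k (fixedField G)) (w : Place k L) (e : ℕ),
      IsDivisorial v (d + r) → Over w v e → ∀ D, Pres v D → Ge w 0 (ω D)) :
    ∃ (N : ℕ) (Θ : (Fin (d + r) → Derivation k (fixedField G) (fixedField G)) → fixedField G),
      1 ≤ N ∧ IsPluriForm k (fixedField G) (d + r) N Θ ∧
      (∀ v : Place k (fixedField G), IsDivisorial v (d + r) → RegularAt v (d + r) Θ) ∧
      (∃ D, Θ D ≠ 0) ∧
      ∀ (v : Place k (fixedField G)) (w : Place k L) (e : ℕ), IsDivisorial v (d + r) →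
        Over w v e → e ≠ 1 →
        (∃ I : Subgroup G, Nat.card I = e ∧ ∀ g ∈ I, Inert w (g : L ≃ₐ[k] L)) →
        ∀ D : Fin (d + r) → Derivation k (fixedField G) (fixedField G), (∀ j, Pres v (D j)) →
          Ge v 1 (Θ D) := by
  classical
  have halgK := Pool.Agent.W721.PG.EFF2.alg_fixed G
  have := Fintype.ofFinite G
  obtain ⟨hnK, -⟩ := Pool.Agent.W721.PG.EFF2.exists_basis (fixedField G) (d + r) hn
  obtain ⟨z, hz⟩ := exists_append y hy hnK
  obtain ⟨E, hE⟩ := Pool.Agent.W636.PG.exists_duals k (fixedField G) (d + r) _ hz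
  have hE1 : ∀ l c : Fin d, E (Fin.castAdd r c) (y l) = if c = l then 1 else 0 := by
    intro l c
    have h1 := hE (Fin.castAdd r c) (Fin.castAdd r l)
    rw [Fin.append_left] at h1
    rw [h1]
    by_cases h : c = l
    · rw [if_pos h, if_pos (by rw [h])]
    · rw [if_neg h, if_neg (fun h' => h (Fin.castAdd_injective d r h'))]
  have hE2 : ∀ (l : Fin d) (b : Fin r), E (Fin.natAdd d b) (y l) = 0 := by
    intro l b
    have h1 := hE (Fin.natAdd d b) (Fin.castAdd r l)
    rw [Fin.append_left] at h1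
    rw [h1, if_neg]
    intro h
    have h2 := congrArg Fin.val h
    simp only [Fin.val_natAdd, Fin.val_castAdd] at h2
    omega
  have hE3 : ∀ b j : Fin r, E (Fin.natAdd d j) (z b) = if j = b then 1 else 0 := by
    intro b j
    have h1 := hE (Fin.natAdd d j) (Fin.natAdd d b)
    rw [Fin.append_right] at h1
    rw [h1]
    by_cases h : j = b
    · rw [if_pos h, if_pos (by rw [h])]
    · rw [if_neg h, if_neg (fun h' => h (Fin.natAdd_injective r d h'))]
  -- expansion of vertical vector fields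
  have hexp : ∀ D : Derivation k (fixedField G) (fixedField G), (∀ l, D (y l) = 0) →
      D = ∑ j, D (z j) • E (Fin.natAdd d j) := by
    intro D hD
    conv_lhs => rw [← Pool.Agent.W73.PG.PULL.expand _ hz E hE D]
    rw [Fin.sum_univ_add]
    simp only [Fin.append_left, Fin.append_right, hD, zero_smul, Finset.sum_const_zero, zero_add]
  let x : (Derivation k (fixedField G) (fixedField G) →ₗ[fixedField G] L) → (Fin r → L) :=
    fun ω j => ω (E (Fin.natAdd d j))
  let S0 : Finset (Derivation k (fixedField G) (fixedField G) →ₗ[fixedField G] L) := hSf.toFinset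
  have hS0 : ∀ ω, ω ∈ S0 ↔ ω ∈ S := fun ω => hSf.mem_toFinset
  let S2 : Finset (Derivation k (fixedField G) (fixedField G) →ₗ[fixedField G] L) :=
    S0 ∪ (S0 ×ˢ S0).image (fun p => p.1 - p.2)
  have hS2 : ∀ ω, ω ∈ S2 ↔ ω ∈ S ∨ ∃ a ∈ S, ∃ b ∈ S, a - b = ω := by
    intro ω
    simp only [S2, Finset.mem_union, Finset.mem_image, Finset.mem_product, hS0, Prod.exists]
    constructor
    · rintro (h | ⟨a, b, ⟨h1, h2⟩, h3⟩)
      · exact Or.inl h
      · exact Or.inr ⟨a, h1, b, h2, h3⟩
    · rintro (h | ⟨a, h1, b, h2, h3⟩)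
      · exact Or.inl h
      · exact Or.inr ⟨a, b, ⟨h1, h2⟩, h3⟩
  have hactsub : ∀ (g : G) a b, act g (a - b) = act g a - act g b := by
    intro g a b
    ext D
    change (g : L ≃ₐ[k] L) (a D - b D) = (g : L ≃ₐ[k] L) (a D) - (g : L ≃ₐ[k] L) (b D)
    rw [map_sub]
  have hS2G : ∀ g : G, ∀ ω ∈ S2, act g ω ∈ S2 := by
    intro g ω hω
    rw [hS2] at hω ⊢
    rcases hω with h | ⟨a, ha, b, hb, rfl⟩
    · exact Or.inl (hS g ω h)
    · exact Or.inr ⟨act g a, hS g a ha, act g b, hS g b hb, (hactsub g a b).symm⟩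
  have hS2r : ∀ ω ∈ S2, ∀ (v : Place k (fixedField G)) (w : Place k L) (e : ℕ),
      IsDivisorial v (d + r) → Over w v e → ∀ D, Pres v D → Ge w 0 (ω D) := by
    intro ω hω v w e hv hwv D hD
    rw [hS2] at hω
    rcases hω with h | ⟨a, ha, b, hb, rfl⟩
    · exact hreg ω h v w e hv hwv D hD
    · exact (hreg a ha v w e hv hwv D hD).sub (hreg b hb v w e hv hwv D hD)
  let W : Finset (Fin r → (Derivation k (fixedField G) (fixedField G) →ₗ[fixedField G] L)) :=
    (Fintype.piFinset (fun _ : Fin r => S2)).filter (fun J => rdet y J E ≠ 0)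
  have hW : ∀ J, J ∈ W ↔ (∀ i, J i ∈ S2) ∧ rdet y J E ≠ 0 := by
    intro J
    simp only [W, Finset.mem_filter, Fintype.mem_piFinset]
  have hgdet : ∀ (g : G) (J : Fin r → (Derivation k (fixedField G) (fixedField G)
      →ₗ[fixedField G] L)) (D : Fin (d + r) → Derivation k (fixedField G) (fixedField G)),
      (g : L ≃ₐ[k] L) (rdet y J D) = rdet y (fun i => act g (J i)) D := by
    intro g J D
    unfold rdet
    refine (RingHom.map_det ((g : L ≃ₐ[k] L) : L →+* L) _).trans ?_
    congr 1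
    ext i j
    refine Fin.addCases (fun l => ?_) (fun b => ?_) i
    · simp only [RingHom.mapMatrix_apply, Matrix.map_apply, Matrix.of_apply, Fin.addCases_left]
      exact (D j (y l)).2 g
    · simp only [RingHom.mapMatrix_apply, Matrix.map_apply, Matrix.of_apply, Fin.addCases_right]
      rfl
  let Θ0 : (Fin (d + r) → Derivation k (fixedField G) (fixedField G)) → L := fun D =>
    ∏ J ∈ W, (algebraMap (fixedField G) L a * rdet y J D ^ m)
  have hinv : ∀ (g : G) D, (g : L ≃ₐ[k] L) (Θ0 D) = Θ0 D := by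
    intro g D
    change (g : L ≃ₐ[k] L) (∏ J ∈ W, (algebraMap (fixedField G) L a * rdet y J D ^ m)) = _
    rw [map_prod]
    have hmem : ∀ (h : G) J, J ∈ W → (fun i => act h (J i)) ∈ W := by
      intro h J hJ
      rw [hW] at hJ ⊢
      refine ⟨fun i => hS2G h _ (hJ.1 i), ?_⟩
      rw [← hgdet h J E]
      simpa using hJ.2
    refine Finset.prod_nbij (fun J i => act g (J i)) (fun J hJ => hmem g J hJ) ?_ ?_ ?_
    · intro J _ J' _ h
      funext i
      exact act_inj g (congrFun h i)
    · intro J hJ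
      refine ⟨fun i => act g⁻¹ (J i), hmem g⁻¹ J hJ, ?_⟩
      funext i
      exact act_inv g (J i)
    · intro J _
      rw [map_mul, map_pow, hgdet g J D]
      congr 1
      exact a.2 g
  have haL : algebraMap (fixedField G) L a ≠ 0 := by simpa using ha
  have hΘ0E : Θ0 E ≠ 0 := Finset.prod_ne_zero_iff.2 fun J hJ =>
    mul_ne_zero haL (pow_ne_zero _ ((hW J).1 hJ).2)
  have hge0 : ∀ (v : Place k (fixedField G)) (w : Place k L) (e : ℕ), IsDivisorial v (d + r) →
      Over w v e → ∀ D : Fin (d + r) → Derivation k (fixedField G) (fixedField G),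
      (∀ j, Pres v (D j)) → ∀ J ∈ W, ∀ i j, Ge w 0 (J i (D j)) := by
    intro v w e hv hwv D hD J hJ i j
    exact hS2r _ (((hW J).1 hJ).1 i) v w e hv hwv _ (hD j)
  have htop : Submodule.span L (x '' (S2 : Set _)) = ⊤ := by
    refine top_le_iff.1 ?_
    have h1 := span_top' (fun j => E (Fin.natAdd d j)) S hS (fun t ht => by
      have h2 : (∑ j, t j • E (Fin.natAdd d j)) = 0 := by
        apply hker
        · intro l
          rw [Pool.Agent.W721.PG.EFF2.der_sum]
          exact Finset.sum_eq_zero fun j _ => by rw [hE2, mul_zero]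
        · exact ht
      intro j0
      have h3 : (∑ j, t j • E (Fin.natAdd d j)) (z j0) = t j0 := by
        rw [Pool.Agent.W721.PG.EFF2.der_sum]
        simp [hE3]
      rw [← h3, h2]
      rfl)
    rw [← h1]
    refine Submodule.span_mono (Set.image_mono fun ω hω => ?_)
    exact (hS2 ω).2 (Or.inl hω)
  have hWne : W.Nonempty := by
    obtain ⟨β, hβ⟩ := exists_det (K := L) (I := Fin r) (α := (S2 : Set
        (Derivation k (fixedField G) (fixedField G) →ₗ[fixedField G] L))) (fun θ => x θ.1) (by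
      rw [← htop]
      congr 1
      ext c
      constructor
      · rintro ⟨θ, rfl⟩
        exact ⟨θ.1, θ.2, rfl⟩
      · rintro ⟨θ, hθ, rfl⟩
        exact ⟨⟨θ, hθ⟩, rfl⟩)
    refine ⟨fun i => (β i).1, (hW _).2 ⟨fun i => (β i).2, ?_⟩⟩
    rw [rdet_block y _ E hE1 hE2]
    exact hβ
  refine ⟨W.card * m, fun D => ⟨Θ0 D, fun g => hinv g D⟩,
    Nat.mul_pos hWne.card_pos (by omega), ?_, ?_, ⟨E, fun h => hΘ0E
    (congrArg Subtype.val h)⟩, ?_⟩
  · intro X D
    apply Subtype.ext
    change ∏ J ∈ W, (algebraMap (fixedField G) L a *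
        rdet y J (fun i => ∑ j, X i j • D j) ^ m) =
      algebraMap (fixedField G) L (X.det ^ (W.card * m) * ⟨Θ0 D, fun g => hinv g D⟩)
    rw [map_mul, map_pow]
    have h1 : ∀ J ∈ W, algebraMap (fixedField G) L a * rdet y J (fun i => ∑ j, X i j • D j) ^ m =
        (algebraMap (fixedField G) L X.det) ^ m *
          (algebraMap (fixedField G) L a * rdet y J D ^ m) := by
      intro J _
      rw [rdet_lin, mul_pow]
      ring
    rw [Finset.prod_congr rfl h1, Finset.prod_mul_distrib, Finset.prod_const, ← pow_mul,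
      mul_comm m]
    rfl
  · intro v hv D hD
    obtain ⟨w, e, I, hwv, hcard, hI⟩ := exists_inertia G v
    rw [← hwv.reg]
    change Ge w 0 (Θ0 D)
    exact Pool.Agent.W721.PG.EFF2.ge_prod0 _ _ fun J hJ =>
      (rdet_ge hwv (hY v hv) J D hD (hge0 v w e hv hwv D hD J hJ)).1
  · rintro v w e hv hwv he ⟨I, hcard, hI⟩ D hD
    -- a nontrivial element of the inertia group
    have hI1 : ∃ g ∈ I, g ≠ 1 := by
      by_contra hcon
      push Not at hcon
      apply he
      rw [← hcard, Nat.card_eq_one_iff_exists]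
      exact ⟨1, fun g => Subtype.ext (hcon g g.2)⟩
    obtain ⟨g, hgI, hg1⟩ := hI1
    obtain ⟨ω, hω, D0, hD0, hωg⟩ := hfaith g hg1
    have hδ : ω - act g ω ∈ (S2 : Set _) := (hS2 _).2 (Or.inr ⟨ω, hω, act g ω, hS g ω hω, rfl⟩)
    have hδ0 : x (ω - act g ω) ≠ 0 := by
      intro h
      apply hωg
      have h1 : (ω - act g ω) D0 = 0 := by
        rw [hexp D0 hD0, map_sum]
        refine Finset.sum_eq_zero fun j _ => ?_
        have h2 : (ω - act g ω) (E (Fin.natAdd d j)) = 0 := congrFun h j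
        rw [map_smul, h2, smul_zero]
      have h2 : ω D0 - (g : L ≃ₐ[k] L) (ω D0) = 0 := h1
      exact (sub_eq_zero.1 h2).symm
    obtain ⟨J, hJ, ⟨i0, hi0⟩, hJ0⟩ := exists_tuple x (S2 : Set _) htop _ hδ hδ0
    have hJW : J ∈ W := (hW J).2 ⟨hJ, by
      rw [rdet_block y J E hE1 hE2]
      exact hJ0⟩
    have h1 : Ge w 1 (Θ0 D) := by
      change Ge w 1 (∏ J ∈ W, (algebraMap (fixedField G) L a * rdet y J D ^ m))
      rw [← Finset.mul_prod_erase W _ hJW]
      have h2 : Ge w 1 (algebraMap (fixedField G) L a * rdet y J D ^ m) := by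
        refine (rdet_ge hwv (hY v hv) J D hD (hge0 v w e hv hwv D hD J hJW)).2 i0 (fun j => ?_) hm
        rw [hi0]
        have h3 := hI g hgI (ω (D j)) (hreg ω hω v w e hv hwv _ (hD j))
        have h4 := h3.neg
        rw [neg_sub] at h4
        exact h4
      have h3 : Ge w 0 (∏ J ∈ W.erase J, (algebraMap (fixedField G) L a * rdet y J D ^ m)) :=
        Pool.Agent.W721.PG.EFF2.ge_prod0 _ _ fun J' hJ' =>
          (rdet_ge hwv (hY v hv) J' D hD
            (hge0 v w e hv hwv D hD J' (Finset.mem_of_mem_erase hJ'))).1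
      simpa using h2.mul h3
    rcases h1 with h1 | h1
    · left
      exact Subtype.ext h1
    · right
      have h2 := hwv.2 ⟨Θ0 D, fun g => hinv g D⟩
      have h3 : (1 : ℤ) ≤ e * v.ord ⟨Θ0 D, fun g => hinv g D⟩ := by
        rw [← h2]
        exact h1
      have h4 : (0 : ℤ) < e := by exact_mod_cast hwv.1
      by_contra hcon
      push Not at hcon
      have : v.ord ⟨Θ0 D, fun g => hinv g D⟩ ≤ 0 := by omega
      nlinarith

end

end Pool.Agent.Y174
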