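import Pool.Agent.Y174.R2

/-! Relative versions: forms on the cover, transport. -/

set_option autoImplicit false
set_option linter.overlappingInstances false
set_option linter.unusedSectionVars false

universe u v

open FF IntermediateField Pool.Agent.W619.PQ Pool.Agent.W619.PL Pool.Agent.W619.TW
  Pool.Agent.W603.LV Pool.Agent.W619.Y Pool.Agent.W824.PG

namespace Pool.Agent.Y174

section

variable {k : Type v} [Field k] [CharZero k] {K L : Type u} [Field K] [Field L] [Algebra k K]
  [Algebra k L] [Algebra K L] [IsScalarTower k K L]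

/-- transport of good forms -/
theorem ygood_equiv {K' : Type u} [Field K'] [Algebra k K'] (e : K ≃ₐ[k] K') {d m : ℕ}
    {v : Place k K'} {y : Fin d → K} {a : K} (h : YGood d m (plc e v) y a) :
    YGood d m v (fun l => e (y l)) (e a) := by
  obtain ⟨Z, z, hz, hZ, hZa⟩ := h
  refine ⟨Z.map e, fun c => e (z c), fun c => ?_, fun D l => ?_, ?_⟩
  · rcases hz c with h | h
    · left
      change e (z c) = 0
      rw [h, map_zero]
    · right; exact h
  · have h1 := hZ (cDer e.symm D) l
    have h2 := congrArg e h1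
    rw [map_sum] at h2
    have h3 : e ((cDer e.symm D) (y l)) = D (e (y l)) := by
      rw [cDer_apply]
      simp
    rw [h3] at h2
    rw [h2]
    refine Finset.sum_congr rfl fun c _ => ?_
    rw [map_mul, Matrix.map_apply, cDer_apply]
    simp
  · have h1 : (Z.map e).det = e Z.det := by
      have h2 := RingHom.map_det (e : K →+* K') Z
      exact h2.symm
    rw [h1, ← map_pow, ← map_mul]
    rcases hZa with h | h
    · left; rw [h, map_zero]
    · right; exact h

theorem div_equiv {K' : Type u} [Field K'] [Algebra k K'] (e : K ≃ₐ[k] K') {n : ℕ}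
    (v : Place k K') (hv : IsDivisorial v n) : IsDivisorial (plc e v) n := by
  obtain ⟨y, hy⟩ := hv
  refine ⟨fun i => e.symm (y i), fun p hp => ?_⟩
  obtain ⟨h1, h2⟩ := hy p hp
  have h3 : MvPolynomial.aeval (fun i => e.symm (y i)) p =
      e.symm (MvPolynomial.aeval y p) := by
    have := MvPolynomial.comp_aeval_apply (f := y) (e.symm : _ →ₐ[k] K) p
    exact this.symm
  rw [h3]
  refine ⟨(map_ne_zero_iff _ e.symm.injective).2 h1, ?_⟩
  change v.ord (e (e.symm _)) = 0
  rw [e.apply_symm_apply]
  exact h2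

theorem pres_equiv {K' : Type u} [Field K'] [Algebra k K'] (e : K ≃ₐ[k] K')
    (v : Place k K') (D : Derivation k K' K') (hD : Pres v D) :
    Pres (plc e v) (cDer e.symm D) := by
  intro f hf
  have h1 : v.Reg (e f) := by
    rcases hf with hf | hf
    · left; rw [hf, map_zero]
    · right; exact hf
  have h2 := hD _ h1
  have h3 : cDer e.symm D f = e.symm (D (e f)) := rfl
  rw [h3]
  rcases h2 with h2 | h2
  · left; rw [h2, map_zero]
  · right
    change 0 ≤ v.ord (e (e.symm _))
    rw [e.apply_symm_apply]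
    exact h2

/-- lifts of regular multivalued forms are regular -/
theorem lift_reg [FiniteDimensional K L] (hess : Algebra.EssFiniteType k K) {n : ℕ}
    (hn : Algebra.trdeg k K = n) (z : Fin n → K) (hz : IsTranscendenceBasis k z)
    (E : Fin n → Derivation k K K) (hE : ∀ i j, E i (z j) = if i = j then 1 else 0)
    (ω : Derivation k K K →ₗ[K] L)
    (hreg : ∀ (v : Place k K) (w : Place k L) (e : ℕ), IsDivisorial v n →
      Over w v e → ∀ D, Pres v D → Ge w 0 (ω D)) (w : Place k L) (hw : IsDivisorial w n)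
    (D : Derivation k L L) (hD : Pres w D) : w.Reg (lift z E ω D) := by
  obtain ⟨r, v, hwv⟩ := Pool.Agent.W73.PG.PULL.exists_over' (K := K) w
  have hv := pDIVI k K L n v w r hwv hw
  obtain ⟨y', F, i0, hy', hF, ht, hyr, hpres⟩ := pFRAME k K n hn (fun y hy => fin_adj hess y hy)
    v hv
  rw [lift_eq z hz E hE y' hy' F hF, lift_apply]
  have h1 : Ge w 0 (∑ b, D (algebraMap K L (y' b)) * ω (F b)) := by
    refine Ge.sum _ _ fun b _ => ?_
    have h2 : Ge w 0 (D (algebraMap K L (y' b))) := hD _ (hwv.reg.2 (hyr b))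
    have h3 := hreg v w r hv hwv (F b) (hpres b)
    simpa using h2.mul h3
  exact h1

/-- dual vector fields for an extended system of coordinates -/
theorem duals_append {d r : ℕ} {y : Fin d → K} {z : Fin r → K}
    {E : Fin (d + r) → Derivation k K K}
    (hE : ∀ i j, E i (Fin.append y z j) = if i = j then 1 else 0) :
    (∀ l c : Fin d, E (Fin.castAdd r c) (y l) = if c = l then 1 else 0) ∧
    (∀ (l : Fin d) (b : Fin r), E (Fin.natAdd d b) (y l) = 0) ∧
    (∀ b j : Fin r, E (Fin.natAdd d j) (z b) = if j = b then 1 else 0) := by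
  refine ⟨fun l c => ?_, fun l b => ?_, fun b j => ?_⟩
  · have h1 := hE (Fin.castAdd r c) (Fin.castAdd r l)
    rw [Fin.append_left] at h1
    rw [h1]
    by_cases h : c = l
    · rw [if_pos h, if_pos (by rw [h])]
    · rw [if_neg h, if_neg (fun h' => h (Fin.castAdd_injective d r h'))]
  · have h1 := hE (Fin.natAdd d b) (Fin.castAdd r l)
    rw [Fin.append_left] at h1
    rw [h1, if_neg]
    intro h
    have h2 := congrArg Fin.val h
    simp only [Fin.val_natAdd, Fin.val_castAdd] at h2
    omega
  · have h1 := hE (Fin.natAdd d j) (Fin.natAdd d b)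
    rw [Fin.append_right] at h1
    rw [h1]
    by_cases h : j = b
    · rw [if_pos h, if_pos (by rw [h])]
    · rw [if_neg h, if_neg (fun h' => h (Fin.natAdd_injective r d h'))]

/-- The regular 1-forms on the cover, relative version. -/
theorem rel_forms [FiniteDimensional K L] (hess : Algebra.EssFiniteType k K) {d r : ℕ}
    (hn : Algebra.trdeg k K = (d + r : ℕ)) (y : Fin d → K) (z : Fin r → K)
    (hz : IsTranscendenceBasis k (Fin.append y z)) (E : Fin (d + r) → Derivation k K K)
    (hE : ∀ i j, E i (Fin.append y z j) = if i = j then 1 else 0)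
    (S : Set (Derivation k K K →ₗ[K] L))
    (hreg : ∀ ω ∈ S, ∀ (v : Place k K) (w : Place k L) (e : ℕ), IsDivisorial v (d + r) →
      Over w v e → ∀ D, Pres v D → Ge w 0 (ω D))
    (hspan : Submodule.span L ((fun ω : Derivation k K K →ₗ[K] L =>
      fun j => ω (E (Fin.natAdd d j))) '' S) = ⊤) :
    ∃ η : Fin r → (Derivation k L L →ₗ[L] L),
      (∀ i, ∀ w : Place k L, IsDivisorial w (d + r) → ∀ D : Derivation k L L, Pres w D →
        w.Reg (η i D)) ∧
      ∀ D : Derivation k L L, (∀ l, D (algebraMap K L (y l)) = 0) → (∀ i, η i D = 0) → D = 0 := by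
  classical
  obtain ⟨h1, h2, h3⟩ := duals_append hE
  have hzL : IsTranscendenceBasis k (algebraMap K L ∘ Fin.append y z) := hz.algebraMap_comp
  obtain ⟨β, hβ⟩ := exists_det (K := L) (I := Fin r) (α := S)
    (fun θ j => θ.1 (E (Fin.natAdd d j))) (by
    rw [← hspan]
    congr 1
    ext c
    constructor
    · rintro ⟨θ, rfl⟩
      exact ⟨θ.1, θ.2, rfl⟩
    · rintro ⟨θ, hθ, rfl⟩
      exact ⟨⟨θ, hθ⟩, rfl⟩)
  refine ⟨fun i => lift (Fin.append y z) E (β i).1, fun i w hw D hD =>
    lift_reg hess hn _ hz E hE (β i).1 (hreg _ (β i).2) w hw D hD, fun D hD hη => ?_⟩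
  have h4 : ∀ i, ∑ j, (β i).1 (E (Fin.natAdd d j)) * D (algebraMap K L (z j)) = 0 := by
    intro i
    have h5 := hη i
    rw [lift_apply, Fin.sum_univ_add] at h5
    simp only [Fin.append_left, Fin.append_right, hD, zero_mul, Finset.sum_const_zero,
      zero_add] at h5
    rw [← h5]
    exact Finset.sum_congr rfl fun j _ => mul_comm _ _
  have h5 : (fun j => D (algebraMap K L (z j))) = 0 :=
    Matrix.eq_zero_of_mulVec_eq_zero hβ (funext h4)
  ext x
  refine der_zero D _ hzL (fun i => ?_) x
  refine Fin.addCases (fun l => ?_) (fun j => ?_) i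
  · rw [Function.comp_apply, Fin.append_left]
    exact hD l
  · rw [Function.comp_apply, Fin.append_right]
    exact congrFun h5 j

end

end Pool.Agent.Y174
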