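import Pool.Agent.Y174.R3

/-! Relative versions: the theorem for multivalued forms over a fixed field. -/

set_option autoImplicit false
set_option linter.overlappingInstances false
set_option linter.unusedSectionVars false

universe u v

open FF IntermediateField Pool.Agent.W619.PQ Pool.Agent.W619.PL Pool.Agent.W619.TW
  Pool.Agent.W603.LV Pool.Agent.W619.Y Pool.Agent.W824.PG

namespace Pool.Agent.Y174

section

variable {k : Type v} [Field k] [CharZero k] {L : Type u} [Field L] [Algebra k L]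
  {G : Subgroup (L ≃ₐ[k] L)}

/-- Main theorem, relative version, over a fixed field. -/
theorem fixed_rel [Finite G] (hess : Algebra.EssFiniteType k (fixedField G)) {d r m : ℕ}
    (hm : 1 ≤ m) (hn : Algebra.trdeg k L = (d + r : ℕ))
    (y : Fin d → fixedField G) (hy : AlgebraicIndependent k y) (a : fixedField G)
    (ha : a ≠ 0) (hY : ∀ v : Place k (fixedField G), IsDivisorial v (d + r) → YGood d m v y a)
    (S : Set (Derivation k (fixedField G) (fixedField G) →ₗ[fixedField G] L)) (hSf : S.Finite)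
    (hS : ∀ g : G, ∀ ω ∈ S, act g ω ∈ S)
    (hker : ∀ D : Derivation k (fixedField G) (fixedField G), (∀ l, D (y l) = 0) →
      (∀ ω ∈ S, ω D = 0) → D = 0)
    (hfaith : ∀ g : G, g ≠ 1 → ∃ ω ∈ S, ∃ D : Derivation k (fixedField G) (fixedField G),
      (∀ l, D (y l) = 0) ∧ (g : L ≃ₐ[k] L) (ω D) ≠ ω D)
    (hreg : ∀ ω ∈ S, ∀ (v : Place k (fixedField G)) (w : Place k L) (e : ℕ),
      IsDivisorial v (d + r) → Over w v e → ∀ D, Pres v D → Ge w 0 (ω D)) :
    (∃ η : Fin r → (Derivation k L L →ₗ[L] L),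
      (∀ i, ∀ w : Place k L, IsDivisorial w (d + r) → ∀ D : Derivation k L L, Pres w D →
        w.Reg (η i D)) ∧
      ∀ D : Derivation k L L, (∀ l, D (y l : L) = 0) → (∀ i, η i D = 0) → D = 0) ∧
      KodTr k (fixedField G) (d + r) 0 ∧
      ∀ a, KodTr k L (d + r) a → KodTr k (fixedField G) (d + r) a := by
  classical
  have halgK := Pool.Agent.W721.PG.EFF2.alg_fixed G
  have hfin := fixed_finite G
  obtain ⟨hnK, -⟩ := Pool.Agent.W721.PG.EFF2.exists_basis (fixedField G) (d + r) hn
  obtain ⟨N, Θ, hN, hΘ, hΘr, hΘ0, hΘv⟩ := exists_theta_rel hm hn y hy a ha hY S hSf hS hker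
    hfaith hreg
  refine ⟨?_, ?_, fun a ha => kod_desc hn G N Θ hΘ hΘr hΘ0 hΘv ha⟩
  · obtain ⟨z, hz⟩ := exists_append y hy hnK
    obtain ⟨E, hE⟩ := Pool.Agent.W636.PG.exists_duals k (fixedField G) (d + r) _ hz
    obtain ⟨h1, h2, h3⟩ := duals_append hE
    refine rel_forms hess hnK y z hz E hE S hreg ?_
    refine span_top' (fun j => E (Fin.natAdd d j)) S hS fun t ht => ?_
    have h4 : (∑ j, t j • E (Fin.natAdd d j)) = 0 := by
      apply hker
      · intro l
        rw [Pool.Agent.W721.PG.EFF2.der_sum]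
        exact Finset.sum_eq_zero fun j _ => by rw [h2, mul_zero]
      · exact ht
    intro j0
    have h5 : (∑ j, t j • E (Fin.natAdd d j)) (z j0) = t j0 := by
      rw [Pool.Agent.W721.PG.EFF2.der_sum]
      simp [h3]
    rw [← h5, h4]
    rfl
  · obtain ⟨D0, hD0⟩ := hΘ0
    refine ⟨N, hN, fun _ => Θ, fun _ => ⟨hΘ, fun v hv _ D hD => ?_, fun v _ h => h.elim⟩, D0,
      fun _ => hD0, ?_⟩
    · apply Pool.Agent.W721.PG.EFF2.dom_of_reg
      exact hΘr v hv D hD
    · exact algebraicIndependent_empty_type_iff.2 (algebraMap k (fixedField G)).injective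

end

end Pool.Agent.Y174
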