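import Pool.Agent.Y174.R4

/-! Relative versions: the theorem for multivalued forms with values in a finite extension. -/

set_option autoImplicit false
set_option linter.overlappingInstances false
set_option linter.unusedSectionVars false

universe u v

open FF IntermediateField Pool.Agent.W619.PQ Pool.Agent.W619.PL Pool.Agent.W619.TW
  Pool.Agent.W603.LV Pool.Agent.W619.Y Pool.Agent.W824.PG

namespace Pool.Agent.Y174

section

variable {k : Type v} [Field k] [CharZero k] {K L : Type u} [Field K] [Field L] [Algebra k K]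
  [Algebra k L] [Algebra K L] [IsScalarTower k K L]

/-- a multivalued form, transported to an isomorphic field -/
noncomputable def trE {G : Subgroup (L ≃ₐ[k] L)} (e : K ≃ₐ[k] fixedField G)
    (he : ∀ x, ((e x : fixedField G) : L) = algebraMap K L x)
    (ω : Derivation k K K →ₗ[K] L) :
    Derivation k (fixedField G) (fixedField G) →ₗ[fixedField G] L where
  toFun D := ω (cDer e.symm D)
  map_add' D D' := by
    rw [← map_add]
    congr 1
    ext x
    rw [cDer_apply, Derivation.add_apply, map_add]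
    rfl
  map_smul' c D := by
    have h1 : cDer e.symm (c • D) = (e.symm c) • cDer e.symm D := by
      ext x
      rw [cDer_apply, Derivation.smul_apply, smul_eq_mul, map_mul]
      rfl
    have h2 : algebraMap K L (e.symm c) = c := by
      rw [← he, e.apply_symm_apply]
    rw [h1, map_smul, Algebra.smul_def, h2, RingHom.id_apply, Algebra.smul_def]
    rfl

theorem trE_apply {G : Subgroup (L ≃ₐ[k] L)} (e : K ≃ₐ[k] fixedField G)
    (he : ∀ x, ((e x : fixedField G) : L) = algebraMap K L x)
    (ω : Derivation k K K →ₗ[K] L) (D : Derivation k (fixedField G) (fixedField G)) :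
    trE e he ω D = ω (cDer e.symm D) := rfl

theorem over_equiv {G : Subgroup (L ≃ₐ[k] L)} (e : K ≃ₐ[k] fixedField G)
    (he : ∀ x, ((e x : fixedField G) : L) = algebraMap K L x)
    (v : Place k (fixedField G)) (w : Place k L) (r : ℕ) (h : Over w v r) :
    Over w (plc e v) r := by
  refine ⟨h.1, fun f => ?_⟩
  have h1 := h.2 (e f)
  rw [← he]
  exact h1

/-- Main theorem, relative version, after the choice of coordinates of the base. -/
theorem main_coord [FiniteDimensional K L] (hess : Algebra.EssFiniteType k K)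
    {d r m : ℕ} (hn : Algebra.trdeg k K = (d + r : ℕ)) (hnL : Algebra.trdeg k L = (d + r : ℕ))
    (G : Subgroup (L ≃ₐ[k] L)) [Finite G] (e : K ≃ₐ[k] fixedField G)
    (he : ∀ x, ((e x : fixedField G) : L) = algebraMap K L x) (hm : 1 ≤ m)
    (y : Fin d → K) (hy : AlgebraicIndependent k y) (a : K) (ha : a ≠ 0)
    (hY : ∀ v : Place k K, IsDivisorial v (d + r) → YGood d m v y a)
    {ι : Type*} [Finite ι] (ω : ι → Derivation k K K →ₗ[K] L)
    (hregK : ∀ (i : ι) (v : Place k K) (w : Place k L) (e : ℕ), IsDivisorial v (d + r) →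
      Over w v e → ∀ D, Pres v D → Ge w 0 (ω i D))
    (hker : ∀ D : Derivation k K K, (∀ l, D (y l) = 0) → (∀ i, ω i D = 0) → D = 0)
    (hfaith : ∀ g : G, g ≠ 1 → ∃ (h : G) (i : ι) (D : Derivation k K K), (∀ l, D (y l) = 0) ∧
      (g : L ≃ₐ[k] L) ((h : L ≃ₐ[k] L) (ω i D)) ≠ (h : L ≃ₐ[k] L) (ω i D)) :
    (∃ η : Fin r → (Derivation k L L →ₗ[L] L),
      (∀ i, ∀ w : Place k L, IsDivisorial w (d + r) → ∀ D : Derivation k L L, Pres w D →
        w.Reg (η i D)) ∧
      ∀ D : Derivation k L L, (∀ l, D (algebraMap K L (y l)) = 0) → (∀ i, η i D = 0) → D = 0) ∧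
      KodTr k K (d + r) 0 ∧ ∀ a, KodTr k L (d + r) a → KodTr k K (d + r) a := by
  classical
  have hess' : Algebra.EssFiniteType k (fixedField G) :=
    (Algebra.EssFiniteType.iff_of_algEquiv e).1 hess
  have halgK := Pool.Agent.W721.PG.EFF2.alg_fixed G
  obtain ⟨hnK, -⟩ := Pool.Agent.W721.PG.EFF2.exists_basis (fixedField G) (d + r) hnL
  have hcc : ∀ D : Derivation k K K, cDer e.symm (cDer e D) = D := cDer_cDer e
  have hcc' : ∀ D : Derivation k (fixedField G) (fixedField G), cDer e (cDer e.symm D) = D :=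
    cDer_cDer e.symm
  have hDy : ∀ D : Derivation k (fixedField G) (fixedField G),
      (∀ l, D (e (y l)) = 0) → ∀ l, (cDer e.symm D) (y l) = 0 := by
    intro D hD l
    rw [cDer_apply]
    have h1 : e.symm.symm (y l) = e (y l) := rfl
    rw [h1, hD l, map_zero]
  have key := fixed_rel (k := k) (G := G) hess' hm hnL (fun l => e (y l))
    (hy.map' (f := (e : K →ₐ[k] fixedField G)) e.injective) (e a)
    (fun h0 => ha ((map_eq_zero_iff _ e.injective).1 h0))
    (fun v hv => ygood_equiv e (hY _ (div_equiv e v hv)))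
    (Set.range fun p : G × ι => act p.1 (trE e he (ω p.2))) (Set.finite_range _)
    (by
      rintro g _ ⟨⟨h, i⟩, rfl⟩
      refine ⟨(g * h, i), ?_⟩
      ext D
      rfl)
    (by
      intro D hDy0 hD
      have h1 : cDer e.symm D = 0 := by
        apply hker _ (hDy D hDy0)
        intro i
        have h2 := hD _ ⟨(1, i), rfl⟩
        exact h2
      rw [← hcc' D, h1]
      ext x
      rw [cDer_apply]
      simp)
    (by
      intro g hg
      obtain ⟨h, i, D, hD, hne⟩ := hfaith g hg
      refine ⟨_, ⟨(h, i), rfl⟩, cDer e D, fun l => ?_, ?_⟩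
      · rw [cDer_apply, e.symm_apply_apply, hD l, map_zero]
      · change (g : L ≃ₐ[k] L) ((h : L ≃ₐ[k] L) (ω i (cDer e.symm (cDer e D)))) ≠
          (h : L ≃ₐ[k] L) (ω i (cDer e.symm (cDer e D)))
        rw [hcc]
        exact hne)
    (by
      rintro _ ⟨⟨g, i⟩, rfl⟩ v w r hv h D hD
      change Ge w 0 ((g : L ≃ₐ[k] L) (ω i (cDer e.symm D)))
      rw [← ge_comp]
      have h1 := over_comp h (g : L ≃ₐ[k] L) (fun z => z.2 g)
      exact hregK i (plc e v) _ r (div_equiv e v hv) (over_equiv e he v _ r h1) _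
        (pres_equiv e v D hD))
  obtain ⟨⟨η, hη1, hη2⟩, hK0, hdesc⟩ := key
  refine ⟨⟨η, hη1, fun D hD hD' => hη2 D (fun l => ?_) hD'⟩,
    kod_equiv e.symm hess' hnK hK0, fun a ha => kod_equiv e.symm hess' hnK (hdesc a ha)⟩
  rw [he]
  exact hD l

end

end Pool.Agent.Y174
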