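import Pool.Agent.Y174.R5

/-! Relative versions: the theorem for multivalued forms over a base. -/

set_option autoImplicit false
set_option linter.overlappingInstances false
set_option linter.unusedSectionVars false

universe u v

open FF IntermediateField Pool.Agent.W619.PQ Pool.Agent.W619.PL Pool.Agent.W619.TW
  Pool.Agent.W603.LV Pool.Agent.W619.Y Pool.Agent.W824.PG

namespace Pool.Agent.Y174

section

variable {k : Type v} [Field k] [CharZero k] {K L : Type u} [Field K] [Field L] [Algebra k K]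
  [Algebra k L] [Algebra K L] [IsScalarTower k K L]

/-- coordinates of the base, with a good form -/
theorem base_coord (M : IntermediateField k K) (hessM : Algebra.EssFiniteType k M) {d n : ℕ}
    (hn : Algebra.trdeg k K = n) (hM : Algebra.trdeg k M = d) (hMk : KodTr k M d 0) :
    ∃ (m : ℕ) (y : Fin d → M) (a : K), 1 ≤ m ∧ IsTranscendenceBasis k y ∧ a ≠ 0 ∧
      ∀ v : Place k K, IsDivisorial v n → YGood d m v (fun l => (y l : K)) a := by
  obtain ⟨m, hm, ω, hω, D, hD, -⟩ := hMk
  obtain ⟨y, hy⟩ := Pool.Agent.W636.PG.exists_basis k M d hM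
  obtain ⟨E, hE⟩ := Pool.Agent.W636.PG.exists_duals k M d y hy
  have h1 := hω 0
  have h2 : ω 0 E ≠ 0 := by
    intro h
    apply hD 0
    rw [Pool.Agent.W636.PG.form_eq k M d m y hy E hE (ω 0) h1.1 D, h, mul_zero]
  have h3 : ∀ u : Place k M, IsDivisorial u d → RegularAt u d (ω 0) := by
    intro u hu D' hD'
    have h4 := h1.2.1 u hu (fun h => h) D' hD'
    rcases h4 with h4 | ⟨s, hs, -, h4⟩
    · exact Or.inl h4
    · right
      simpa using h4
  refine ⟨m, y, ((ω 0 E : M) : K), hm, hy, ?_, fun v hv =>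
    pYLOC k K M d n m hM hn (fun y hy => fin_adj hessM y hy) (ω 0) h1.1 h3 y E hy hE v hv⟩
  intro h
  apply h2
  exact Subtype.ext h

/-- Main theorem, relative version. -/
theorem main_rel [FiniteDimensional K L] [IsGalois K L] (hess : Algebra.EssFiniteType k K)
    {d r : ℕ} (hn : Algebra.trdeg k K = (d + r : ℕ)) (M : IntermediateField k K)
    (hessM : Algebra.EssFiniteType k M) (hM : Algebra.trdeg k M = d) (hMk : KodTr k M d 0)
    {ι : Type*} [Finite ι] (ω : ι → Derivation k K K →ₗ[K] L)
    (hregK : ∀ (i : ι) (v : Place k K) (w : Place k L) (e : ℕ), IsDivisorial v (d + r) →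
      Over w v e → ∀ D, Pres v D → Ge w 0 (ω i D))
    (hker : ∀ D : Derivation k K K, (∀ y : M, D y = 0) → (∀ i, ω i D = 0) → D = 0)
    (hgen : IntermediateField.adjoin K {z | ∃ (g : L ≃ₐ[K] L) (i : ι) (D : Derivation k K K),
      (∀ y : M, D y = 0) ∧ g (ω i D) = z} = ⊤) :
    (∃ η : Fin r → (Derivation k L L →ₗ[L] L),
      (∀ i, ∀ w : Place k L, IsDivisorial w (d + r) → ∀ D : Derivation k L L, Pres w D →
        w.Reg (η i D)) ∧
      ∀ D : Derivation k L L, (∀ y : M, D (algebraMap K L y) = 0) → (∀ i, η i D = 0) → D = 0) ∧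
      KodTr k K (d + r) 0 ∧ (∀ a, KodTr k K (d + r) a ↔ KodTr k L (d + r) a) ∧
      ∀ a, NumLe k L (d + r) (fun _ => False) a → NumLe k K (d + r) (fun _ => False) a := by
  classical
  have hGf : Finite (gal k K L) := gal_finite
  have hnL : Algebra.trdeg k L = (d + r : ℕ) := trdeg_up (K := K) hn
  obtain ⟨m, y, a, hm, hy, ha, hY⟩ := base_coord M hessM hn hM hMk
  have hyK : AlgebraicIndependent k (fun l => (y l : K)) :=
    hy.1.map' (f := M.val) M.val.injective
  have hDK : ∀ D : Derivation k K K, (∀ l, D (y l : K) = 0) → ∀ z : M, D (z : K) = 0 := by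
    intro D hD z
    exact der_zero (D.compAlgebraMap M) y hy hD z
  have hDL : ∀ D : Derivation k L L, (∀ l, D (algebraMap K L (y l : K)) = 0) →
      ∀ z : M, D (algebraMap K L (z : K)) = 0 := by
    intro D hD z
    exact der_zero ((D.compAlgebraMap K).compAlgebraMap M) y hy hD z
  have key := main_coord (k := k) (K := K) (L := L) hess hn hnL (gal k K L)
    (eqv (k := k) (K := K) (L := L)) (fun x => eqv_coe x) hm (fun l => (y l : K)) hyK a ha hY ω
    hregK (fun D hD hD' => hker D (hDK D hD) hD') (by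
      intro g hg
      by_contra hcon
      push Not at hcon
      apply hg
      have h1 : ∀ (h : L ≃ₐ[K] L) i (D : Derivation k K K), (∀ z : M, D z = 0) →
          (g : L ≃ₐ[k] L) (h (ω i D)) = h (ω i D) := by
        intro h i D hD
        exact hcon ⟨h.restrictScalars k, fun y => h.commutes y⟩ i D (fun l => hD (y l))
      have h2 : IntermediateField.adjoin K {z | ∃ (g : L ≃ₐ[K] L) (i : ι)
          (D : Derivation k K K), (∀ y : M, D y = 0) ∧ g (ω i D) = z} ≤
          IntermediateField.fixedField (Subgroup.zpowers (galK g)) := by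
        rw [IntermediateField.adjoin_le_iff]
        rintro _ ⟨h', i, D, hD, rfl⟩ ⟨h, hh⟩
        obtain ⟨m, rfl⟩ := Subgroup.mem_zpowers_iff.1 hh
        have h3 : galK g (h' (ω i D)) = h' (ω i D) := h1 h' i D hD
        have h4 : galK g ∈ MulAction.stabilizer (L ≃ₐ[K] L) (h' (ω i D)) := h3
        exact Subgroup.zpow_mem _ h4 m
      rw [hgen, top_le_iff] at h2
      apply Subtype.ext
      ext z
      have h3 : z ∈ IntermediateField.fixedField (Subgroup.zpowers (galK g)) := by
        rw [h2]; trivial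
      exact h3 ⟨galK g, Subgroup.mem_zpowers _⟩)
  obtain ⟨⟨η, hη1, hη2⟩, hK0, hdesc⟩ := key
  refine ⟨⟨η, hη1, fun D hD hD' => hη2 D (fun l => hD (y l)) hD'⟩, hK0,
    fun a => ⟨fun h => kod_up hess hn h, hdesc a⟩, ?_⟩
  have h1 := (pTRANS k K L (d + r) hn (fun y hy => fin_adj hess y hy) (fun _ => False)).2.2
  rw [bdUp_false] at h1
  exact h1

end

end Pool.Agent.Y174
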