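import Pool.Agent.Y174.R6
import Mathlib.FieldTheory.NormalizedTrace

/-! Relative versions: traces of multivalued forms. -/

set_option autoImplicit false
set_option linter.overlappingInstances false
set_option linter.unusedSectionVars false

universe u v

open FF IntermediateField Pool.Agent.W619.PQ Pool.Agent.W619.PL Pool.Agent.W619.TW
  Pool.Agent.W603.LV Pool.Agent.W619.Y Pool.Agent.W824.PG

namespace Pool.Agent.Y174

section

variable {k : Type v} [Field k] {K : Type u} [Field K] [Algebra k K]

theorem reg_zero (v : Place k K) : v.Reg 0 := Or.inl rfl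

theorem reg_mul {v : Place k K} {f g : K} (hf : v.Reg f) (hg : v.Reg g) : v.Reg (f * g) := by
  have h : Ge v 0 (f * g) := by
    have := (show Ge v 0 f from hf).mul (show Ge v 0 g from hg)
    simpa using this
  exact h

theorem reg_add {v : Place k K} {f g : K} (hf : v.Reg f) (hg : v.Reg g) : v.Reg (f + g) :=
  (show Ge v 0 f from hf).add (show Ge v 0 g from hg)

/-- the ring of the functions which are regular along `v` -/
def regRing (v : Place k K) : Subring K where
  carrier := {f | v.Reg f}
  mul_mem' hf hg := reg_mul hf hg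
  one_mem' := Or.inr v.ord_one.ge
  add_mem' hf hg := reg_add hf hg
  zero_mem' := reg_zero v
  neg_mem' {f} hf := (show Ge v 0 f from hf).neg

theorem mem_regRing {v : Place k K} {f : K} : f ∈ regRing v ↔ v.Reg f := Iff.rfl

theorem multi_iff {Ω : Type*} [Field Ω] [Algebra K Ω] (v : Place k K) (x : Ω) :
    (∃ p : Polynomial K, p.Monic ∧ (∀ i, v.Reg (p.coeff i)) ∧ Polynomial.aeval x p = 0) ↔
      IsIntegral (regRing v) x := by
  constructor
  · rintro ⟨p, hp, hc, hx⟩
    have hc' : (↑p.coeffs : Set K) ⊆ regRing v := by
      intro c hc0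
      obtain ⟨i, -, rfl⟩ := Polynomial.mem_coeffs_iff.1 (Finset.mem_coe.1 hc0)
      exact hc i
    refine ⟨p.toSubring (regRing v) hc', (Polynomial.monic_toSubring _ _ _).2 hp, ?_⟩
    have h1 : (p.toSubring (regRing v) hc').map (algebraMap (regRing v) K) = p := by
      ext i
      rw [Polynomial.coeff_map]
      exact Polynomial.coeff_toSubring p _ _
    have h2 : algebraMap (regRing v) Ω = (algebraMap K Ω).comp (algebraMap (regRing v) K) := rfl
    rw [h2, ← Polynomial.eval₂_map, h1]
    exact hx
  · rintro ⟨p, hp, hx⟩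
    refine ⟨p.map (algebraMap (regRing v) K), hp.map _, fun i => ?_, ?_⟩
    · rw [Polynomial.coeff_map]
      exact (p.coeff i).2
    · have h2 : algebraMap (regRing v) Ω = (algebraMap K Ω).comp (algebraMap (regRing v) K) := rfl
      rw [h2, ← Polynomial.eval₂_map] at hx
      exact hx

end

section

variable {k : Type v} [Field k] [CharZero k] {K Ω : Type u} [Field K] [Field Ω] [Algebra k K]
  [Algebra k Ω] [Algebra K Ω] [IsScalarTower k K Ω]

theorem integral_trace (v : Place k K) (L : IntermediateField K Ω) [CharZero L]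
    [Algebra.IsIntegral L Ω] (x : Ω) (hx : IsIntegral (regRing v) x) :
    IsIntegral (regRing v) (Algebra.normalizedTrace L Ω x) := by
  have hxL : IsIntegral L x := Algebra.IsIntegral.isIntegral x
  have hfd : FiniteDimensional L (IntermediateField.adjoin L {x}) :=
    IntermediateField.adjoin.finiteDimensional hxL
  have t1 : IsScalarTower (regRing v) L (IntermediateField.adjoin L {x}) := by
    refine IsScalarTower.of_algebraMap_eq fun c => ?_
    rfl
  have t2 : IsScalarTower (regRing v) (IntermediateField.adjoin L {x}) Ω := by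
    refine IsScalarTower.of_algebraMap_eq fun c => ?_
    rfl
  rw [Algebra.normalizedTrace_def]
  have h1 : IsIntegral (regRing v) (AdjoinSimple.gen L x) := by
    rw [← isIntegral_algebraMap_iff
      (algebraMap (IntermediateField.adjoin L {x}) Ω).injective]
    exact hx
  have h2 := Algebra.isIntegral_trace (L := L) h1
  set N := Module.finrank L (IntermediateField.adjoin L {x}) with hN
  have hk : (algebraMap k K ((N : k)⁻¹)) ∈ regRing v := by
    by_cases h0 : (N : k)⁻¹ = 0
    · rw [h0, map_zero]
      exact reg_zero v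
    · exact Or.inr (v.ord_const h0).ge
  have h3 : ((N : L)⁻¹ : L) = algebraMap (regRing v) L ⟨_, hk⟩ := by
    change _ = algebraMap K L (algebraMap k K ((N : k)⁻¹))
    rw [map_inv₀, map_inv₀, map_natCast, map_natCast]
  rw [h3, smul_eq_mul]
  exact isIntegral_algebraMap.mul h2

/-- the trace of a multivalued form -/
noncomputable def trc (L : IntermediateField K Ω) [CharZero L] [Algebra.IsIntegral L Ω]
    (ω : Derivation k K K →ₗ[K] Ω) : Derivation k K K →ₗ[K] L :=
  ((Algebra.normalizedTrace L Ω).restrictScalars K).comp ω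

theorem trc_apply (L : IntermediateField K Ω) [CharZero L] [Algebra.IsIntegral L Ω]
    (ω : Derivation k K K →ₗ[K] Ω) (D : Derivation k K K) :
    trc L ω D = Algebra.normalizedTrace L Ω (ω D) := rfl

theorem trc_eq (L : IntermediateField K Ω) [CharZero L] [Algebra.IsIntegral L Ω]
    (ω : Derivation k K K →ₗ[K] Ω) (D : Derivation k K K) (h : ω D ∈ L) :
    ((trc L ω D : L) : Ω) = ω D := by
  rw [trc_apply]
  have h1 := Algebra.normalizedTrace_algebraMap_apply L L Ω ⟨ω D, h⟩
  rw [Algebra.normalizedTrace_self_apply] at h1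
  have h2 : algebraMap L Ω ⟨ω D, h⟩ = ω D := rfl
  rw [h2] at h1
  rw [h1]

theorem MultiReg.trc {n : ℕ} {ω : Derivation k K K →ₗ[K] Ω} (h : MultiReg n ω)
    (L : IntermediateField K Ω) [CharZero L] [Algebra.IsIntegral L Ω] : MultiReg n (trc L ω) := by
  intro v hv D hD
  rw [multi_iff]
  exact integral_trace v L _ ((multi_iff v _).1 (h v hv D hD))

end

end Pool.Agent.Y174
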