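import Pool.Agent.Y174.U2

/-! Logarithmic symmetric differentials on a pair with `κ ≤ 0`: the cyclic cover. -/

set_option autoImplicit false
set_option linter.overlappingInstances false
set_option linter.unusedSectionVars false

universe u v

open FF MvPolynomial Pool.Agent.W619.PQ Pool.Agent.W619.PL Pool.Agent.W619.TW
  Pool.Agent.W603.LV Pool.Agent.W619.Y Pool.Agent.Y174.T

namespace Pool.Agent.Y174

section

variable {k : Type v} [Field k] [CharZero k] {K : Type u} [Field K] [Algebra k K] {n m : ℕ}

/-- A basis of logarithmic symmetric differentials. -/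
theorem exists_JL {Bd : Place k K → Prop} (y : Fin n → K) (hy : IsTranscendenceBasis k y) (hgen : GenGenLog k K n m Bd) :
    ∃ J : Ex n m → homogeneousSubmodule (Fin n) K m, (∀ [DecidableEq (Ex n m)], (cf J).det ≠ 0) ∧
      ∀ j, ∀ v : Place k K, IsDivisorial v n → ∀ D : Derivation k K K, LogFld Bd v D →
        v.Reg (sym y (J j : MvPolynomial (Fin n) K) D) := by
  classical
  obtain ⟨E, hE⟩ := Pool.Agent.W636.PG.exists_duals k K n y hy
  let R : Set (homogeneousSubmodule (Fin n) K m) :=
    {p | SymLog n Bd (sym (k := k) y (p : MvPolynomial (Fin n) K))}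
  have hR : Submodule.span K R = ⊤ := by
    rw [eq_top_iff]
    intro p _
    have h1 := hgen (sym y (p : MvPolynomial (Fin n) K)) (sym_isSymDiff y _ p.2)
    have h2 : {s : Derivation k K K → K | IsSymDiff m s ∧ SymLog n Bd s} ⊆ symL y '' R := by
      rintro s ⟨hs1, hs2⟩
      obtain ⟨q, hq, hqe⟩ := hs1 n E
      have hs : s = sym y q := by
        funext D
        have h3 := hqe fun c => D (y c)
        rw [Pool.Agent.W73.PG.PULL.expand y hy E hE D] at h3
        exact h3
      refine ⟨⟨q, hq⟩, ?_, ?_⟩
      · change SymLog n Bd (sym y q)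
        rw [← hs]
        exact hs2
      · rw [symL_apply]
        exact hs.symm
    have h3 := Submodule.span_mono h2 h1
    rw [Submodule.span_image, ← symL_apply] at h3
    obtain ⟨q, hq, hqe⟩ := h3
    rw [← symL_inj y E hE hqe]
    exact hq
  let b := (T.basis K n m).repr.trans (Finsupp.linearEquivFunOnFinite K K (Ex n m))
  have hb : ∀ (p : homogeneousSubmodule (Fin n) K m) (d : Ex n m),
      b p d = (T.basis K n m).repr p d := fun _ _ => rfl
  obtain ⟨β, hβ⟩ := exists_det (K := K) (I := Ex n m) (α := R) (fun p => b p) (by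
    have h1 : Set.range (fun p : R => b p) = b '' R := by
      ext x
      constructor
      · rintro ⟨p, rfl⟩
        exact ⟨p, p.2, rfl⟩
      · rintro ⟨p, hp, rfl⟩
        exact ⟨⟨p, hp⟩, rfl⟩
    rw [h1]
    have h2 : Submodule.span K (b '' R) = Submodule.map (b : homogeneousSubmodule (Fin n) K m →ₗ[K]
        (Ex n m → K)) (Submodule.span K R) := by
      rw [Submodule.map_span]
      rfl
    rw [h2, hR, Submodule.map_top, LinearMap.range_eq_top]
    exact b.surjective)
  refine ⟨fun j => (β j).1, fun {inst} => ?_, fun j v hv D hD => (β j).2 v hv D hD⟩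
  have h1 : cf (fun j => (β j).1) = (Matrix.of fun l => b (β l)).transpose := rfl
  rw [h1, Matrix.det_transpose]
  exact det_ne _ _ _ hβ

/-- The symmetric differentials split into linear forms. -/
theorem exists_formsL [IsAlgClosed k] (hess : Algebra.EssFiniteType k K)
    (hnK : Algebra.trdeg k K = n) (hn : 1 ≤ n) (hm : 1 ≤ m) {Bd : Place k K → Prop}
    {δ : Place k K → ℝ} (hδ : ∀ v, 0 ≤ δ v) (hB : ∀ v, Bd v → δ v = 1)
    (hκ : ¬ PairKod k K n δ 1)
    (y : Fin n → K) (hy : IsTranscendenceBasis k y) (hgen : GenGenLog k K n m Bd) :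
    ∃ (φ : K) (ℓ : Fin n → MvPolynomial (Fin n) K), φ ≠ 0 ∧ (∀ i, (ℓ i).IsHomogeneous 1) ∧
      (∀ i, ∀ v : Place k K, IsDivisorial v n → ∀ D : Derivation k K K, LogFld Bd v D →
        v.Reg (φ * eval (fun c => D (y c)) (ℓ i) ^ m)) ∧
      ∀ D : Derivation k K K, (∀ i, eval (fun c => D (y c)) (ℓ i) = 0) → ∀ c, D (y c) = 0 := by
  classical
  obtain ⟨J, hJ0, hJ⟩ := exists_JL y hy hgen
  obtain ⟨τ, hτ⟩ := exists_products J hJ0
  -- the products
  have hprod : ∀ i j, ((J i : MvPolynomial (Fin n) K) * (J j : MvPolynomial (Fin n) K)) ∈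
      homogeneousSubmodule (Fin n) K (2 * m) := by
    intro i j
    have h1 : ((J i : MvPolynomial (Fin n) K) *
        (J j : MvPolynomial (Fin n) K)).IsHomogeneous (m + m) :=
      IsHomogeneous.mul (J i).2 (J j).2
    rw [← two_mul] at h1
    exact h1
  let P : Ex n (2 * m) → homogeneousSubmodule (Fin n) K (2 * m) := fun l =>
    ⟨_, hprod (τ l).1 (τ l).2⟩
  have hP0 : (cf P).det ≠ 0 := by
    have h1 : cf P = (Matrix.of fun (d l : Ex n (2 * m)) => coeff d.1
        ((J (τ l).1 : MvPolynomial (Fin n) K) * (J (τ l).2 : MvPolynomial (Fin n) K))) := by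
      ext d l
      rw [cf_apply]
      rfl
    rw [h1]
    exact hτ
  have hreg2 : ∀ i j, ∀ v : Place k K, IsDivisorial v n → ∀ D : Derivation k K K, LogFld Bd v D →
      v.Reg (sym y ((J i : MvPolynomial (Fin n) K) * (J j : MvPolynomial (Fin n) K)) D) := by
    intro i j v hv D hD
    rw [sym_mul]
    have h1 : Ge v 0 (sym y (J i : MvPolynomial (Fin n) K) D) := hJ i v hv D hD
    have h2 : Ge v 0 (sym y (J j : MvPolynomial (Fin n) K) D) := hJ j v hv D hD
    have h3 : Ge v 0 (sym y (J i : MvPolynomial (Fin n) K) D *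
        sym y (J j : MvPolynomial (Fin n) K) D) := by simpa using h1.mul h2
    exact h3
  have hc : ∀ i j, ∃ c : Ex n (2 * m) → k,
      (J i : MvPolynomial (Fin n) K) * (J j : MvPolynomial (Fin n) K) =
        ∑ l, C (algebraMap k K (c l)) * ((J (τ l).1 : MvPolynomial (Fin n) K) *
          (J (τ l).2 : MvPolynomial (Fin n) K)) := by
    intro i j
    obtain ⟨c, hc⟩ := const_coeffL (m := 2 * m) hess hnK hn (by omega) hδ hB hκ y hy P
      (fun l v hv D hD => hreg2 _ _ v hv D hD) hP0 ⟨_, hprod i j⟩
      (fun v hv D hD => hreg2 i j v hv D hD)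
    refine ⟨c, ?_⟩
    have h1 := congrArg Subtype.val hc
    rw [Submodule.coe_sum] at h1
    refine h1.trans (Finset.sum_congr rfl fun l _ => ?_)
    rw [Submodule.coe_smul, smul_eq_C_mul]
  choose c hc using hc
  have hcf : cf J = (Matrix.of fun (d j : Ex n m) => coeff d.1 (J j : MvPolynomial (Fin n) K)) := by
    ext d j
    rw [cf_apply]
    rfl
  obtain ⟨α, hα, hrel⟩ := split (k := k) (fun j => (J j : MvPolynomial (Fin n) K))
    (fun j => (J j).2) (by rw [← hcf]; exact hJ0) τ hτ c hc
  -- the new basis
  let x : Ex n m → homogeneousSubmodule (Fin n) K m := fun a => ∑ j, algebraMap k K (α a j) • J j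
  have hx : ∀ a, (x a : MvPolynomial (Fin n) K) =
      ∑ j, C (algebraMap k K (α a j)) * (J j : MvPolynomial (Fin n) K) := by
    intro a
    change ((∑ j, algebraMap k K (α a j) • J j : homogeneousSubmodule (Fin n) K m) :
      MvPolynomial (Fin n) K) = _
    rw [Submodule.coe_sum]
    refine Finset.sum_congr rfl fun l _ => ?_
    rw [Submodule.coe_smul, smul_eq_C_mul]
  have hcx : cf x = cf J * (α.map (algebraMap k K)).transpose := by
    ext d a
    rw [cf_apply, hx, coeff_sum, Matrix.mul_apply]
    refine Finset.sum_congr rfl fun j _ => ?_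
    rw [coeff_C_mul, cf_apply, Matrix.transpose_apply, Matrix.map_apply, mul_comm]
  have hcx0 : (cf x).det ≠ 0 := by
    rw [hcx, Matrix.det_mul, Matrix.det_transpose]
    refine mul_ne_zero hJ0 ?_
    have h1 : (α.map (algebraMap k K)).det = algebraMap k K α.det := by
      rw [RingHom.map_det]
      rfl
    rw [h1]
    exact (map_ne_zero_iff _ (algebraMap k K).injective).2 hα
  have hind : LinearIndependent K x := by
    rw [Fintype.linearIndependent_iff]
    intro g hg
    have h1 : (cf x).mulVec g = 0 := by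
      funext d
      have h2 := congrArg (fun p => (T.basis K n m).repr p d) hg
      simp only [map_sum, map_zero, Finsupp.zero_apply, Finsupp.finset_sum_apply, map_smul,
        Finsupp.smul_apply, smul_eq_mul] at h2
      exact (Finset.sum_congr rfl fun j _ => mul_comm _ _).trans h2
    have h2 := Matrix.eq_zero_of_mulVec_eq_zero hcx0 h1
    exact fun i => congrFun h2 i
  obtain ⟨φ, ℓ, hφ, hℓ, hxl⟩ := veronese hn hm x (fun a b c d h => by
    rw [hx, hx, hx, hx]
    exact hrel a b c d h) hind
  refine ⟨φ, ℓ, hφ, hℓ, fun i v hv D hD => ?_, fun D hD => ?_⟩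
  · -- regularity
    let a : Ex n m := ⟨Finsupp.single i m, by simp⟩
    have h1 : (x a : MvPolynomial (Fin n) K) = C φ * ℓ i ^ m := by
      rw [hxl a, Finset.prod_eq_single i]
      · change C φ * ℓ i ^ (Finsupp.single i m i) = _
        rw [Finsupp.single_eq_same]
      · intro b _ hb
        change ℓ b ^ (Finsupp.single i m b) = 1
        rw [Finsupp.single_eq_of_ne hb, pow_zero]
      · intro h
        exact absurd (Finset.mem_univ i) h
    have h2 : φ * eval (fun c => D (y c)) (ℓ i) ^ m =
        eval (fun c => D (y c)) (x a : MvPolynomial (Fin n) K) := by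
      rw [h1, map_mul, map_pow, eval_C]
    rw [h2, hx, map_sum]
    have h3 : Ge v 0 (∑ j, eval (fun c => D (y c)) (C (algebraMap k K (α a j)) *
        (J j : MvPolynomial (Fin n) K))) := by
      refine Ge.sum _ _ fun j _ => ?_
      rw [map_mul, eval_C]
      have h4 : Ge v 0 (eval (fun c => D (y c)) (J j : MvPolynomial (Fin n) K)) :=
        hJ j v hv D hD
      simpa using (Ge.const (P := v) (α a j)).mul h4
    exact h3
  · -- the kernel
    intro c
    have hx0 : ∀ a, eval (fun c => D (y c)) (x a : MvPolynomial (Fin n) K) = 0 := by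
      intro a
      rw [hxl a, map_mul, map_prod]
      have h1 : ∃ i, a.1 i ≠ 0 := by
        by_contra hcon
        push Not at hcon
        have h2 : a.1.degree = 0 := by
          rw [Finsupp.degree_eq_sum]
          exact Finset.sum_eq_zero fun i _ => hcon i
        have h3 := a.2
        omega
      obtain ⟨i, hi⟩ := h1
      rw [Finset.prod_eq_zero (Finset.mem_univ i) (by rw [map_pow, hD i, zero_pow hi]), mul_zero]
    have hall : ∀ p : homogeneousSubmodule (Fin n) K m,
        eval (fun c => D (y c)) (p : MvPolynomial (Fin n) K) = 0 := by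
      intro p
      have hu : IsUnit (cf x).det := isUnit_iff_ne_zero.2 hcx0
      set z := (cf x)⁻¹.mulVec fun d => (T.basis K n m).repr p d with hz
      have hz2 : (cf x).mulVec z = fun d => (T.basis K n m).repr p d := by
        rw [hz, Matrix.mulVec_mulVec, Matrix.mul_nonsing_inv _ hu, Matrix.one_mulVec]
      have h1 : p = ∑ j, z j • x j := by
        apply (T.basis K n m).repr.injective
        ext d
        rw [← congrFun hz2 d, map_sum, Finsupp.finset_sum_apply]
        refine Finset.sum_congr rfl fun j _ => ?_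
        rw [map_smul, Finsupp.smul_apply, smul_eq_mul, mul_comm]
        rfl
      have h2 := congrArg Subtype.val h1
      rw [Submodule.coe_sum] at h2
      rw [h2, map_sum]
      refine Finset.sum_eq_zero fun j _ => ?_
      rw [Submodule.coe_smul, smul_eval, hx0, mul_zero]
    have h1 := hall ⟨X c ^ m, by
      have h2 := (isHomogeneous_X K c).pow m
      rw [one_mul] at h2
      exact h2⟩
    change eval (fun c => D (y c)) (X c ^ m) = 0 at h1
    rw [map_pow, eval_X] at h1
    exact pow_eq_zero_iff (by omega) |>.1 h1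

open IntermediateField in
/-- Main theorem on symmetric differentials. -/
theorem main3L [IsAlgClosed k] (hess : Algebra.EssFiniteType k K)
    (hn : Algebra.trdeg k K = n) (hm : 1 ≤ m) {Bd : Place k K → Prop}
    {δ : Place k K → ℝ} (hδ : ∀ v, 0 ≤ δ v) (hB : ∀ v, Bd v → δ v = 1)
    (hκ : ¬ PairKod k K n δ 1) (hgen : GenGenLog k K n m Bd) :
    ∃ t : AlgebraicClosure K, t ≠ 0 ∧ (∃ f : K, algebraMap K (AlgebraicClosure K) f = t ^ m) ∧
      (∃ (η : Fin n → (Derivation k K⟮t⟯ K⟮t⟯ →ₗ[K⟮t⟯] K⟮t⟯)), LinearIndependent K⟮t⟯ η ∧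
        ∀ i, ∀ w : Place k K⟮t⟯, IsDivisorial w n → ∀ D : Derivation k K⟮t⟯ K⟮t⟯,
          LogFld (BdOn Bd) w D → w.Reg (η i D)) ∧
      PairKod k K n δ 0 ∧ ∀ δ' : Place k K⟮t⟯ → ℝ, IsPull δ δ' →
        (∀ a, PairKod k K n δ a ↔ PairKod k K⟮t⟯ n δ' a) ∧
        ∀ a, PairNum k K⟮t⟯ n δ' a → PairNum k K n δ a := by
  classical
  have hK0 : CharZero K := charZero_of_injective_algebraMap (algebraMap k K).injective
  obtain ⟨y, hy⟩ := Pool.Agent.W636.PG.exists_basis k K n hn
  obtain ⟨E, hE⟩ := Pool.Agent.W636.PG.exists_duals k K n y hy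
  have hexp := fun D : Derivation k K K => Pool.Agent.W73.PG.PULL.expand y hy E hE D
  rcases Nat.eq_zero_or_pos n with hn0 | hn1
  · -- dimension `0`
    subst hn0
    obtain ⟨L, hfd, hgal, hadj, hA, hK, hKod⟩ := main_L0 (k := k) (K := K)
      (Ω := AlgebraicClosure K) hess hn Bd δ hδ hB (ι := Fin 0) (fun i => i.elim0)
      (fun i => i.elim0) (fun D _ => by rw [← hexp D]; simp)
    have hL : L = K⟮(1 : AlgebraicClosure K)⟯ := by
      rw [← hadj, IntermediateField.adjoin_one]
      have h1 : {z : AlgebraicClosure K | ∃ (g : AlgebraicClosure K ≃ₐ[K] AlgebraicClosure K)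
          (i : Fin 0) (D : Derivation k K K),
          g ((fun i : Fin 0 => (i.elim0 : Derivation k K K →ₗ[K] AlgebraicClosure K)) i D) = z} =
          ∅ := by
        ext z
        refine ⟨?_, fun h => h.elim⟩
        rintro ⟨g, i, _⟩
        exact i.elim0
      rw [h1, IntermediateField.adjoin_empty]
    subst hL
    exact ⟨1, one_ne_zero, ⟨1, by simp⟩, hA, hK, hKod⟩
  · obtain ⟨φ, ℓ, hφ, hℓ, hreg, hker⟩ := exists_formsL hess hn hn1 hm hδ hB hκ y hy hgen
    obtain ⟨t, ht⟩ := IsAlgClosed.exists_pow_nat_eq (algebraMap K (AlgebraicClosure K) φ)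
      (n := m) (by omega)
    have ht0 : t ≠ 0 := by
      intro h0
      rw [h0, zero_pow (by omega)] at ht
      exact hφ ((map_eq_zero_iff _ (algebraMap K (AlgebraicClosure K)).injective).1 ht.symm)
    have hker' : ∀ D : Derivation k K K, (∀ i, mform (k := k) y t (ℓ i) D = 0) → D = 0 := by
      intro D hD
      have h1 := hker D fun i => by
        have h2 := hD i
        rw [mform_apply y t (hℓ i)] at h2
        exact (map_eq_zero_iff _ (algebraMap K (AlgebraicClosure K)).injective).1
          ((mul_eq_zero.1 h2).resolve_left ht0)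
      rw [← hexp D]
      refine Finset.sum_eq_zero fun b _ => ?_
      rw [h1 b, zero_smul]
    obtain ⟨L, hfd, hgal, hadj, hA, hK, hKod⟩ := main_L0 (k := k) (K := K)
      (Ω := AlgebraicClosure K) hess hn Bd δ hδ hB (ι := Fin n) (fun i => mform y t (ℓ i))
      (fun i v hv D hD => by
        refine ⟨Polynomial.X ^ m - Polynomial.C (φ * eval (fun c => D (y c)) (ℓ i) ^ m),
          Polynomial.monic_X_pow_sub_C _ (by omega), fun j => ?_, ?_⟩
        · have h1 : Ge v 0 (φ * eval (fun c => D (y c)) (ℓ i) ^ m) := hreg i v hv D hD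
          rw [Polynomial.coeff_sub, Polynomial.coeff_X_pow, Polynomial.coeff_C]
          have h2 : Ge v 0 ((if j = m then 1 else 0 : K) -
              if j = 0 then φ * eval (fun c => D (y c)) (ℓ i) ^ m else 0) := by
            rw [sub_eq_add_neg]
            refine Ge.add ?_ (Ge.neg ?_)
            · split_ifs
              · simpa using Ge.const (P := v) (1 : k)
              · exact Ge.zero
            · split_ifs
              · exact h1
              · exact Ge.zero
          exact h2
        · rw [mform_apply y t (hℓ i), map_sub, map_pow, Polynomial.aeval_X, Polynomial.aeval_C,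
            mul_pow, ht, map_mul, map_pow, sub_self]) hker'
    have hL : L = K⟮t⟯ := by
      rw [← hadj]
      apply le_antisymm
      · rw [IntermediateField.adjoin_le_iff]
        rintro _ ⟨g, i, D, rfl⟩
        change g (mform (k := k) y t (ℓ i) D) ∈ K⟮t⟯
        rw [mform_apply y t (hℓ i), map_mul, AlgEquiv.commutes]
        refine mul_mem ?_ (IntermediateField.algebraMap_mem _ _)
        have h1 : (g t / t) ^ m = 1 := by
          rw [div_pow, ← map_pow, ht, AlgEquiv.commutes, div_self]
          exact (map_ne_zero_iff _ (algebraMap K (AlgebraicClosure K)).injective).2 hφ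
        have h2 : IsIntegral k (g t / t) := IsIntegral.of_pow (n := m) (by omega) (by
          rw [h1]
          exact isIntegral_one)
        obtain ⟨c, hc⟩ := minpoly.mem_range_of_degree_eq_one k (g t / t)
          (IsAlgClosed.degree_eq_one_of_irreducible k (minpoly.irreducible h2))
        have h3 : g t = algebraMap K (AlgebraicClosure K) (algebraMap k K c) * t := by
          rw [← IsScalarTower.algebraMap_apply, hc, div_mul_cancel₀ _ ht0]
        rw [h3]
        exact mul_mem (IntermediateField.algebraMap_mem _ _)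
          (IntermediateField.mem_adjoin_simple_self K t)
      · rw [IntermediateField.adjoin_simple_le_iff]
        obtain ⟨i, hi⟩ : ∃ i, mform (k := k) y t (ℓ i) (E ⟨0, hn1⟩) ≠ 0 := by
          by_contra hcon
          push Not at hcon
          have h1 := hker' _ hcon
          have h2 := hE ⟨0, hn1⟩ ⟨0, hn1⟩
          rw [h1, if_pos rfl] at h2
          exact zero_ne_one h2
        have h4 := hi
        rw [mform_apply y t (hℓ i)] at h4
        have h5 := right_ne_zero_of_mul h4
        have h3 : t = mform (k := k) y t (ℓ i) (E ⟨0, hn1⟩) *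
            (algebraMap K (AlgebraicClosure K) (eval (fun c => (E ⟨0, hn1⟩) (y c)) (ℓ i)))⁻¹ := by
          rw [mform_apply y t (hℓ i), mul_assoc, mul_inv_cancel₀ h5, mul_one]
        have h6 : mform (k := k) y t (ℓ i) (E ⟨0, hn1⟩) ∈
            IntermediateField.adjoin K {z | ∃ (g : AlgebraicClosure K ≃ₐ[K] AlgebraicClosure K)
              (i : Fin n) (D : Derivation k K K), g (mform (k := k) y t (ℓ i) D) = z} :=
          IntermediateField.subset_adjoin K _ ⟨AlgEquiv.refl, i, _, rfl⟩
        have h7 := mul_mem h6 (IntermediateField.algebraMap_mem _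
          (eval (fun c => (E ⟨0, hn1⟩) (y c)) (ℓ i))⁻¹)
        rw [map_inv₀, ← h3] at h7
        exact h7
    subst hL
    exact ⟨t, ht0, ⟨φ, ht.symm⟩, hA, hK, hKod⟩

end

end Pool.Agent.Y174
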