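import Pool.Agent.Y174.V2

/-! The geometric generic fibre: restriction of symmetric differentials. -/

set_option autoImplicit false
set_option linter.overlappingInstances false
set_option linter.unusedSectionVars false

universe u v

open FF MvPolynomial Pool.Agent.W619.PQ Pool.Agent.W619.PL Pool.Agent.W619.TW
  Pool.Agent.W603.LV Pool.Agent.W619.Y Pool.Agent.W824.PG Pool.Agent.Y174.T

namespace Pool.Agent.Y174

section

variable {K F : Type*} [Field K] [Field F] [Algebra K F] {n m : ℕ}

theorem eval₂_sub (A : Matrix (Fin n) (Fin n) K) (a : Fin n → F) (p : MvPolynomial (Fin n) K) :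
    eval₂ (algebraMap K F) a (sub A p) =
      eval₂ (algebraMap K F) (fun c => ∑ i, a i * algebraMap K F (A i c)) p := by
  induction p using MvPolynomial.induction_on with
  | C a => simp [sub]
  | add p q hp hq => rw [map_add, eval₂_add, hp, hq, eval₂_add]
  | mul_X p i hp =>
    rw [map_mul, eval₂_mul, hp, eval₂_mul]
    congr 1
    simp only [sub, aeval_X, eval₂_X]
    rw [eval₂_sum]
    refine Finset.sum_congr rfl fun j _ => ?_
    rw [eval₂_mul, eval₂_C, eval₂_X, mul_comm]

theorem exists_comb [DecidableEq (Ex n m)] (J : Ex n m → homogeneousSubmodule (Fin n) K m)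
    (hJ : (cf J).det ≠ 0) (p : homogeneousSubmodule (Fin n) K m) :
    ∃ z : Ex n m → K, p = ∑ j, z j • J j := by
  have hu : IsUnit (cf J).det := isUnit_iff_ne_zero.2 hJ
  set z := (cf J)⁻¹.mulVec fun d => (T.basis K n m).repr p d with hz
  have hz2 : (cf J).mulVec z = fun d => (T.basis K n m).repr p d := by
    rw [hz, Matrix.mulVec_mulVec, Matrix.mul_nonsing_inv _ hu, Matrix.one_mulVec]
  refine ⟨z, ?_⟩
  apply (T.basis K n m).repr.injective
  ext d
  rw [← congrFun hz2 d, map_sum, Finsupp.finsetSum_apply]
  refine Finset.sum_congr rfl fun j _ => ?_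
  rw [map_smul, Finsupp.smul_apply, smul_eq_mul, mul_comm]
  rfl

end

section

variable {k : Type*} {K : Type*} [Field k] [CharZero k] [Field K] [Algebra k K] {n m : ℕ}

/-- The coefficients of a homogeneous polynomial with regular values at the constants are
regular. -/
theorem coeff_reg {v : Place k K} (p : homogeneousSubmodule (Fin n) K m)
    (h : ∀ β : Fin n → k, v.Reg (eval (fun i => algebraMap k K (β i))
      (p : MvPolynomial (Fin n) K))) (d : Ex n m) :
    v.Reg (coeff d.1 (p : MvPolynomial (Fin n) K)) := by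
  classical
  obtain ⟨β, hβ⟩ := exists_points k K n m
  have hβ' := hβ
  let N : Matrix (Ex n m) (Ex n m) k := Matrix.of fun l d => ∏ i, β l i ^ d.1 i
  have hN : N.map (algebraMap k K) = (Matrix.of fun (l d : Ex n m) =>
      eval (fun i => algebraMap k K (β l i)) (mono K n m d : MvPolynomial (Fin n) K)) := by
    ext l d
    rw [Matrix.map_apply, Matrix.of_apply]
    change algebraMap k K (∏ i, β l i ^ d.1 i) =
      eval (fun i => algebraMap k K (β l i)) (monomial d.1 (1 : K))
    rw [map_prod, eval_monomial, one_mul, Finsupp.prod_fintype _ _ (fun i => pow_zero _)]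
    exact Finset.prod_congr rfl fun i _ => map_pow _ _ _
  have hNd : N.det ≠ 0 := by
    intro h0
    apply hβ'
    rw [← hN, ← RingHom.mapMatrix_apply, ← RingHom.map_det, h0, map_zero]
  have hval : ∀ l, eval (fun i => algebraMap k K (β l i)) (p : MvPolynomial (Fin n) K) =
      ∑ d, algebraMap k K (N l d) * coeff d.1 (p : MvPolynomial (Fin n) K) := by
    intro l
    have h1 := (T.basis K n m).sum_repr p
    conv_lhs => rw [← h1]
    rw [Submodule.coe_sum, map_sum]
    refine Finset.sum_congr rfl fun d _ => ?_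
    rw [Submodule.coe_smul, smul_eval, basis_apply, T.repr_eq, mul_comm]
    congr 1
    have h2 := congrFun (congrFun hN l) d
    rw [Matrix.map_apply] at h2
    rw [h2]
    rfl
  have hu : IsUnit N.det := isUnit_iff_ne_zero.2 hNd
  have h1 : coeff d.1 (p : MvPolynomial (Fin n) K) = ∑ l, algebraMap k K (N⁻¹ d l) *
      eval (fun i => algebraMap k K (β l i)) (p : MvPolynomial (Fin n) K) := by
    have h2 : ∀ l, algebraMap k K (N⁻¹ d l) *
        eval (fun i => algebraMap k K (β l i)) (p : MvPolynomial (Fin n) K) =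
        ∑ d', algebraMap k K (N⁻¹ d l * N l d') * coeff d'.1 (p : MvPolynomial (Fin n) K) := by
      intro l
      rw [hval, Finset.mul_sum]
      exact Finset.sum_congr rfl fun d' _ => by rw [map_mul, mul_assoc]
    rw [Finset.sum_congr rfl fun l _ => h2 l, Finset.sum_comm]
    have h3 : ∀ d', ∑ l, algebraMap k K (N⁻¹ d l * N l d') *
        coeff d'.1 (p : MvPolynomial (Fin n) K) = if d = d' then coeff d'.1
          (p : MvPolynomial (Fin n) K) else 0 := by
      intro d'
      rw [← Finset.sum_mul, ← map_sum]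
      have h4 : ∑ l, N⁻¹ d l * N l d' = (1 : Matrix (Ex n m) (Ex n m) k) d d' := by
        rw [← Matrix.nonsing_inv_mul _ hu, Matrix.mul_apply]
      rw [h4, Matrix.one_apply]
      split_ifs <;> simp
    rw [Finset.sum_congr rfl fun d' _ => h3 d', Finset.sum_ite_eq Finset.univ d,
      if_pos (Finset.mem_univ _)]
  rw [h1]
  have h2 : Ge v 0 (∑ l, algebraMap k K (N⁻¹ d l) *
      eval (fun i => algebraMap k K (β l i)) (p : MvPolynomial (Fin n) K)) :=
    Ge.sum _ _ fun l _ => reg_mul (reg_const _) (h _)
  exact h2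

end

section

variable {k : Type v} {L K Λ F : Type u} [Field k] [CharZero k] [Field L] [Field K] [Field Λ]
  [Field F] [Algebra k L] [Algebra k K] [Algebra L K] [IsScalarTower k L K] [Algebra L Λ]
  [Algebra Λ F] [Algebra K F] [Algebra L F] [IsScalarTower L Λ F] [IsScalarTower L K F]
  [Algebra k Λ] [Algebra k F] [IsScalarTower k Λ F] [IsScalarTower k K F]
  [IsScalarTower k L Λ]

/-- Restrictions of logarithmic symmetric differentials are logarithmic. -/
theorem sym_res (hess : Algebra.EssFiniteType k K) [Algebra.IsAlgebraic K F] {d r m : ℕ}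
    (hn : Algebra.trdeg k K = (d + (r + 1) : ℕ)) {t : Fin d → L}
    (ht : AlgebraicIndependent k t) {Bd : Place k K → Prop} (y : Fin (d + (r + 1)) → K)
    (J : homogeneousSubmodule (Fin (d + (r + 1))) K m)
    (hJ : ∀ v : Place k K, IsDivisorial v (d + (r + 1)) → ∀ D : Derivation k K K,
      LogFld Bd v D → v.Reg (sym y (J : MvPolynomial (Fin (d + (r + 1))) K) D))
    (w : Place Λ F) (hw : IsDivisorial w (r + 1)) (D' : Derivation Λ F F)
    (hD' : LogFld (BdFib Bd) w D') :
    w.Reg (eval₂ (algebraMap K F) (fun c => D' (algebraMap K F (y c)))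
      (J : MvPolynomial (Fin (d + (r + 1))) K)) := by
  classical
  have hL0 : CharZero L := charZero_of_injective_algebraMap (algebraMap k L).injective
  obtain ⟨v, e, hwv, hv⟩ := exists_under (L := L) (K := K) w hw
  obtain ⟨hdiv, z, E, hs, hzr, hbas, hE, hP⟩ := exists_frame_fib hess hn ht hv
  let yv : Fin (d + (r + 1)) → K := Fin.append (algebraMap L K ∘ t) z
  let i0 : Fin (d + (r + 1)) := Fin.natAdd d 0
  have hyi0 : (resPl k v).ord (yv i0) = 1 := by
    change v.ord (Fin.append (algebraMap L K ∘ t) z (Fin.natAdd d 0)) = 1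
    rw [Fin.append_right]
    exact hs
  have hyr : ∀ i, (resPl k v).Reg (yv i) := by
    intro i
    change v.Reg (Fin.append (algebraMap L K ∘ t) z i)
    refine Fin.addCases (fun c => ?_) (fun j => ?_) i
    · rw [Fin.append_left]
      exact reg_const _
    · rw [Fin.append_right]
      exact hzr j
  have ht0 := ne_zero_of_ord hyi0
  have hlies : LiesOn (resPl k w) (resPl k v) e := hwv
  let D2 : Derivation k F F := D'.restrictScalars k
  have hD2 : LogFld (BdOn Bd) (resPl k w) D2 := hD'
  let a : Fin (d + (r + 1)) → F := fun c =>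
    D2 (algebraMap K F (yv c)) / algebraMap K F (lq Bd (resPl k v) yv i0 c)
  have ha : ∀ c, (resPl k w).Reg (a c) := fun c => log_coord_up Bd hlies hyr hD2 c
  let A : Matrix (Fin (d + (r + 1))) (Fin (d + (r + 1))) K :=
    Matrix.of fun c b => lq Bd (resPl k v) yv i0 c * E c (y b)
  have hval : ∀ b, D' (algebraMap K F (y b)) = ∑ c, a c * algebraMap K F (A c b) := by
    intro b
    have h1 := Pool.Agent.W73.PG.PULL.chain yv hbas E hE D2 (y b)
    refine h1.trans (Finset.sum_congr rfl fun c _ => ?_)
    have h2 : algebraMap K F (lq Bd (resPl k v) yv i0 c) ≠ 0 := by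
      simpa using lq_ne_zero (Bd := Bd) (v := resPl k v) c ht0
    change _ = D2 (algebraMap K F (yv c)) / algebraMap K F (lq Bd (resPl k v) yv i0 c) *
      algebraMap K F (lq Bd (resPl k v) yv i0 c * E c (y b))
    rw [map_mul, ← mul_assoc, div_mul_cancel₀ _ h2]
  have h1 : eval₂ (algebraMap K F) (fun c => D' (algebraMap K F (y c)))
      (J : MvPolynomial (Fin (d + (r + 1))) K) = eval₂ (algebraMap K F) a
        (sub A (J : MvPolynomial (Fin (d + (r + 1))) K)) := by
    rw [eval₂_sub]
    congr 1
    funext b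
    exact hval b
  rw [h1]
  have hcoef : ∀ e : Ex (d + (r + 1)) m, (resPl k v).Reg
      (coeff e.1 ((subm m A J : homogeneousSubmodule (Fin (d + (r + 1))) K m) :
        MvPolynomial (Fin (d + (r + 1))) K)) := by
    refine coeff_reg _ fun β => ?_
    rw [subm_coe, T.eval_sub]
    have h2 := hJ (resPl k v) hdiv (∑ i, algebraMap k K (β i) •
      (lq Bd (resPl k v) yv i0 i • E i)) (LogFld.sum _ _ _ (fun i _ => reg_const _)
        (fun i _ => log_frame Bd hE hyi0 hP i))
    unfold sym at h2
    have h5 : (fun c => (∑ i, algebraMap k K (β i) • (lq Bd (resPl k v) yv i0 i • E i)) (y c)) =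
        fun c => ∑ i, algebraMap k K (β i) * A i c := by
      funext c
      rw [Pool.Agent.W721.PG.EFF2.der_sum]
      rfl
    rw [h5] at h2
    exact h2
  -- the value
  have hover : Over (resPl k w) (resPl k v) e := hwv
  rw [eval₂_eq']
  have h3 : (∑ e ∈ (sub A (J : MvPolynomial (Fin (d + (r + 1))) K)).support,
      algebraMap K F (coeff e (sub A (J : MvPolynomial (Fin (d + (r + 1))) K))) *
        ∏ i, a i ^ e i) ∈ regRing (resPl k w) := by
    refine sum_mem fun e he => mul_mem ?_ (prod_mem fun i _ => pow_mem (ha i) _)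
    have h4 : e.degree = m := by
      by_contra hne
      exact mem_support_iff.1 he (IsHomogeneous.coeff_eq_zero (sub_hom A J.2) hne)
    exact hover.reg.2 (hcoef ⟨e, h4⟩)
  exact h3

end

end Pool.Agent.Y174
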