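import Pool.Agent.Y174.W4

/-! Symmetric differentials and the numerical dimension. -/

set_option autoImplicit false
set_option linter.overlappingInstances false
set_option linter.unusedSectionVars false

open FF IntermediateField Pool.Agent.W619.PQ Pool.Agent.W619.TW Pool.Agent.W619.Y

namespace Pool.Agent.Y174

section

variable {k : Type*} {K : Type*} [Field k] [Field K] [Algebra k K]

theorem genGenLog_false {n m : ℕ} : GenGenLog k K n m (fun _ => False) ↔ GenGen k K n m := by
  have h : {s : Derivation k K K → K | IsSymDiff m s ∧ SymLog n (fun _ => False) s} =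
      {s : Derivation k K K → K | IsSymDiff m s ∧ SymReg n s} := by
    ext s
    refine and_congr_right fun _ => ?_
    constructor
    · intro h v hv D hD
      exact h v hv D ⟨fun _ => hD, fun h => h.elim⟩
    · intro h v hv D hD
      exact h v hv D (hD.1 fun h => h)
  unfold GenGenLog GenGen
  rw [h]

end

section

theorem bdFib_false {k K Λ F : Type} [Field k] [Field K] [Algebra k K] [Field Λ] [Field F]
    [Algebra Λ F] [Algebra K F] :
    BdFib (Λ := Λ) (F := F) (fun _ : Place k K => False) = fun _ => False := by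
  funext w
  refine propext ⟨?_, fun h => h.elim⟩
  rintro ⟨v, e, -, h⟩
  exact h

end

section

variable {k L K Λ F : Type} [Field k] [CharZero k] [Field L] [Field K] [Field Λ]
  [Field F] [Algebra k L] [Algebra k K] [Algebra L K] [IsScalarTower k L K] [Algebra L Λ]
  [Algebra Λ F] [Algebra K F] [Algebra L F] [IsScalarTower L Λ F] [IsScalarTower L K F]
  [Algebra k Λ] [Algebra k F] [IsScalarTower k Λ F] [IsScalarTower k K F]
  [IsScalarTower k L Λ]

theorem gengen_fib0 (hess : Algebra.EssFiniteType k K) [Algebra.IsAlgebraic L Λ] {d r m : ℕ}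
    (hL : Algebra.trdeg k L = d) (hn : Algebra.trdeg k K = (d + (r + 1) : ℕ))
    (hgenF : IntermediateField.adjoin Λ (Set.range (algebraMap K F)) = ⊤)
    (hgen : GenGen k K (d + (r + 1)) m) : GenGen Λ F (r + 1) m := by
  have h1 := gengen_fib hess hL hn hgenF (genGenLog_false.2 hgen)
  rw [bdFib_false] at h1
  exact genGenLog_false.1 h1

/-- **Main theorem.** -/
theorem main_fib [IsAlgClosed Λ] (hessL : Algebra.EssFiniteType k L)
    (hess : Algebra.EssFiniteType k K) [Algebra.IsAlgebraic L Λ] {d r m : ℕ}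
    (hL : Algebra.trdeg k L = d) (hn : Algebra.trdeg k K = (d + (r + 1) : ℕ))
    (hcl : ∀ x : K, IsAlgebraic L x → x ∈ Set.range (algebraMap L K))
    (hgenF : IntermediateField.adjoin Λ (Set.range (algebraMap K F)) = ⊤)
    (hm : 1 ≤ m) (hκ : ¬ KodTr Λ F (r + 1) 1) (hgen : GenGen Λ F (r + 1) m) :
    ∃ t : AlgebraicClosure F, t ≠ 0 ∧ (∃ f : F, algebraMap F (AlgebraicClosure F) f = t ^ m) ∧
      MaxAlb Λ (IntermediateField.adjoin F {t}) (r + 1) ∧ KodTr Λ F (r + 1) 0 ∧
      (∀ a, KodTr Λ F (r + 1) a ↔ KodTr Λ (IntermediateField.adjoin F {t}) (r + 1) a) ∧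
      ∀ h, NumLe Λ (IntermediateField.adjoin F {t}) (r + 1) (fun _ => False) h →
        NumLe Λ F (r + 1) (fun _ => False) h ∧
        NumLe k K (d + (r + 1)) (fun _ => False) (d + h) := by
  have hL0 : CharZero L := charZero_of_injective_algebraMap (algebraMap k L).injective
  have hΛ0 : CharZero Λ := charZero_of_injective_algebraMap (algebraMap k Λ).injective
  have hessF := ess_F (F := F) hess hgenF
  have htr := trdeg_F (trdeg_LK (L := L) hL hn) hgenF
  obtain ⟨t, h1, h2, h3, h4, h5, h6⟩ := main3 hessF htr hm hκ hgen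
  exact ⟨t, h1, h2, h3, h4, h5, fun h hh => ⟨h6 h hh, easy_add hessL hess hgenF
    (fun x hx => hcl x hx.isAlgebraic) hL hn (h6 h hh)⟩⟩

end

end Pool.Agent.Y174
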