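import Pool.Agent.Y174.V3

/-! The geometric generic fibre: symmetric differentials generate generically. -/

set_option autoImplicit false
set_option linter.overlappingInstances false
set_option linter.unusedSectionVars false

universe u v

open FF MvPolynomial Pool.Agent.W619.PQ Pool.Agent.W619.PL Pool.Agent.W619.TW
  Pool.Agent.W603.LV Pool.Agent.W619.Y Pool.Agent.W824.PG Pool.Agent.Y174.T

namespace Pool.Agent.Y174

section

variable {K F : Type*} [Field K] [Field F] [Algebra K F] {n m : ℕ}

/-- extension of the scalars -/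
noncomputable def mapH (F : Type*) [Field F] [Algebra K F] (p : homogeneousSubmodule (Fin n) K m) :
    homogeneousSubmodule (Fin n) F m :=
  ⟨map (algebraMap K F) (p : MvPolynomial (Fin n) K), p.2.map (algebraMap K F)⟩

theorem cf_mapH (J : Ex n m → homogeneousSubmodule (Fin n) K m) :
    cf (fun j => mapH F (J j)) = (cf J).map (algebraMap K F) := by
  ext d j
  rw [Matrix.map_apply]
  change (T.basis F n m).repr (mapH F (J j)) d = algebraMap K F ((T.basis K n m).repr (J j) d)
  rw [T.repr_eq, T.repr_eq]
  exact coeff_map _ _ _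

/-- restriction to the fibre: the first `d` variables are replaced by zero -/
noncomputable def rest (F : Type*) [Field F] (d r : ℕ) :
    MvPolynomial (Fin (d + r)) F →ₐ[F] MvPolynomial (Fin r) F :=
  aeval (Fin.append (fun _ => 0) X)

theorem rest_hom {d r : ℕ} {p : MvPolynomial (Fin (d + r)) F} (hp : p.IsHomogeneous m) :
    (rest F d r p).IsHomogeneous m := by
  have h1 := hp.aeval (Fin.append (fun _ => 0) X : Fin (d + r) → MvPolynomial (Fin r) F) (n := 1)
    (fun c => by
      refine Fin.addCases (fun c => ?_) (fun j => ?_) c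
      · rw [Fin.append_left]
        exact isHomogeneous_zero _ _ _
      · rw [Fin.append_right]
        exact isHomogeneous_X _ _)
  rw [one_mul] at h1
  exact h1

theorem rest_eval {d r : ℕ} (p : MvPolynomial (Fin (d + r)) F) (a : Fin r → F) :
    eval a (rest F d r p) = eval (Fin.append (fun _ => 0) a) p := by
  unfold rest
  rw [eval_aeval]
  congr 2
  funext c
  refine Fin.addCases (fun c => ?_) (fun j => ?_) c
  · rw [Fin.append_left, Fin.append_left, map_zero]
  · rw [Fin.append_right, Fin.append_right, eval_X]

theorem rest_rename {d r : ℕ} (q : MvPolynomial (Fin r) F) :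
    rest F d r (rename (Fin.natAdd d) q) = q := by
  unfold rest
  rw [aeval_rename]
  have h1 : ((Fin.append (fun _ => 0) X : Fin (d + r) → MvPolynomial (Fin r) F) ∘
      Fin.natAdd d) = X := by
    funext j
    rw [Function.comp_apply, Fin.append_right]
  rw [h1, aeval_X_left, AlgHom.id_apply]

end

section

variable {k : Type v} {L K Λ F : Type u} [Field k] [CharZero k] [Field L] [Field K] [Field Λ]
  [Field F] [Algebra k L] [Algebra k K] [Algebra L K] [IsScalarTower k L K] [Algebra L Λ]
  [Algebra Λ F] [Algebra K F] [Algebra L F] [IsScalarTower L Λ F] [IsScalarTower L K F]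
  [Algebra k Λ] [Algebra k F] [IsScalarTower k Λ F] [IsScalarTower k K F]
  [IsScalarTower k L Λ]

/-- **Symmetric differentials on the geometric generic fibre.** -/
theorem gengen_fib (hess : Algebra.EssFiniteType k K) [Algebra.IsAlgebraic L Λ] {d r m : ℕ}
    (hL : Algebra.trdeg k L = d) (hn : Algebra.trdeg k K = (d + (r + 1) : ℕ))
    (hgenF : IntermediateField.adjoin Λ (Set.range (algebraMap K F)) = ⊤)
    {Bd : Place k K → Prop} (hgen : GenGenLog k K (d + (r + 1)) m Bd) :
    GenGenLog Λ F (r + 1) m (BdFib Bd) := by
  classical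
  have hL0 : CharZero L := charZero_of_injective_algebraMap (algebraMap k L).injective
  have hΛ0 : CharZero Λ := charZero_of_injective_algebraMap (algebraMap k Λ).injective
  have halg : Algebra.IsAlgebraic K F := alg_KF (L := L) hgenF
  have hLK := trdeg_LK (L := L) hL hn
  obtain ⟨t, ht⟩ := Pool.Agent.W636.PG.exists_basis k L d hL
  obtain ⟨x, hx⟩ := Pool.Agent.W636.PG.exists_basis L K (r + 1) hLK
  have hy := basis_append ht hx
  have hx' := basis_F hLK hgenF hx
  obtain ⟨E', hE'⟩ := Pool.Agent.W636.PG.exists_duals Λ F (r + 1) _ hx'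
  obtain ⟨J, hJ0, hJ⟩ := exists_JL _ hy hgen
  intro s hs
  obtain ⟨q, hq, hqe⟩ := hs (r + 1) E'
  have hsq : s = sym (algebraMap K F ∘ x) q := by
    funext D
    have h3 := hqe fun c => D ((algebraMap K F ∘ x) c)
    rw [Pool.Agent.W73.PG.PULL.expand _ hx' E' hE' D] at h3
    exact h3
  have hJF : (cf (fun j => mapH F (J j))).det ≠ 0 := by
    rw [cf_mapH, ← RingHom.mapMatrix_apply, ← RingHom.map_det]
    exact (map_ne_zero_iff _ (algebraMap K F).injective).2 hJ0
  obtain ⟨z, hz⟩ := exists_comb (fun j => mapH F (J j)) hJF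
    ⟨rename (Fin.natAdd d) q, (hq.rename_isHomogeneous : (rename (Fin.natAdd d) q :
      MvPolynomial (Fin (d + (r + 1))) F).IsHomogeneous m)⟩
  have hq2 : q = ∑ j, z j • rest F d (r + 1) (mapH F (J j) :
      MvPolynomial (Fin (d + (r + 1))) F) := by
    have h1 := congrArg Subtype.val hz
    rw [Submodule.coe_sum] at h1
    have h2 := congrArg (rest F d (r + 1)) h1
    rw [rest_rename, map_sum] at h2
    rw [h2]
    refine Finset.sum_congr rfl fun j _ => ?_
    rw [Submodule.coe_smul, map_smul]
  have hs2 : s = ∑ j, z j • sym (k := Λ) (algebraMap K F ∘ x)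
      (rest F d (r + 1) (mapH F (J j) : MvPolynomial (Fin (d + (r + 1))) F)) := by
    rw [hsq]
    funext D
    rw [Finset.sum_apply]
    unfold sym
    conv_lhs => rw [hq2]
    rw [map_sum]
    exact Finset.sum_congr rfl fun j _ => by rw [smul_eval]; rfl
  rw [hs2]
  refine Submodule.sum_mem _ fun j _ => Submodule.smul_mem _ _ (Submodule.subset_span ⟨?_, ?_⟩)
  · exact sym_isSymDiff _ _ (rest_hom (mapH F (J j)).2)
  · intro w hw D' hD'
    have h1 := sym_res hess hn ht.1 _ (J j) (hJ j) w hw D' hD'
    have h2 : sym (k := Λ) (algebraMap K F ∘ x)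
        (rest F d (r + 1) (mapH F (J j) : MvPolynomial (Fin (d + (r + 1))) F)) D' =
        eval₂ (algebraMap K F) (fun c => D' (algebraMap K F
          (Fin.append (algebraMap L K ∘ t) x c)))
          (J j : MvPolynomial (Fin (d + (r + 1))) K) := by
      unfold sym
      rw [rest_eval]
      change eval _ (map (algebraMap K F) (J j : MvPolynomial (Fin (d + (r + 1))) K)) = _
      rw [eval_map]
      congr 1
      funext c
      refine Fin.addCases (fun c => ?_) (fun i => ?_) c
      · rw [Fin.append_left, Fin.append_left, Function.comp_apply,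
          ← IsScalarTower.algebraMap_apply L K F, IsScalarTower.algebraMap_apply L Λ F,
          Derivation.map_algebraMap]
      · rw [Fin.append_right, Fin.append_right]
        rfl
    rw [h2]
    exact h1

end

end Pool.Agent.Y174
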