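import Mathlib

/-! Homogeneous polynomials: the determinant of a linear substitution. -/

set_option autoImplicit false
set_option linter.unusedSectionVars false

open MvPolynomial

namespace Pool.Agent.Y174.T

section

variable {K : Type*} [Field K] {n m : ℕ}


/-- linear substitution -/
noncomputable def sub (A : Matrix (Fin n) (Fin n) K) :
    MvPolynomial (Fin n) K →ₐ[K] MvPolynomial (Fin n) K :=
  aeval (fun c => ∑ i, C (A i c) * X i)

theorem eval_sub (A : Matrix (Fin n) (Fin n) K) (x : Fin n → K) (p : MvPolynomial (Fin n) K) :
    eval x (sub A p) = eval (fun c => ∑ i, x i * A i c) p := by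
  induction p using MvPolynomial.induction_on with
  | C a => simp [sub]
  | add p q hp hq => rw [map_add, map_add, hp, hq, map_add]
  | mul_X p i hp =>
    rw [map_mul, map_mul, hp, map_mul]
    congr 1
    simp only [sub, aeval_X, eval_X, map_sum, map_mul, eval_C]
    exact Finset.sum_congr rfl fun j _ => mul_comm _ _

theorem sub_comp (A B : Matrix (Fin n) (Fin n) K) (p : MvPolynomial (Fin n) K) :
    sub (A * B) p = sub A (sub B p) := by
  induction p using MvPolynomial.induction_on with
  | C a => simp [sub]
  | add p q hp hq => rw [map_add, map_add, map_add, hp, hq]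
  | mul_X p i hp =>
    rw [map_mul, map_mul, map_mul, hp]
    congr 1
    simp only [sub, aeval_X, map_sum, map_mul, Matrix.mul_apply, Finset.sum_mul, aeval_C,
      algebraMap_eq, Finset.mul_sum]
    rw [Finset.sum_comm]
    refine Finset.sum_congr rfl fun j _ => Finset.sum_congr rfl fun l _ => ?_
    ring

theorem sub_one (p : MvPolynomial (Fin n) K) : sub (1 : Matrix (Fin n) (Fin n) K) p = p := by
  induction p using MvPolynomial.induction_on with
  | C a => simp [sub]
  | add p q hp hq => rw [map_add, hp, hq]
  | mul_X p i hp =>
    rw [map_mul, hp]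
    congr 1
    simp [sub, Matrix.one_apply]

theorem sub_hom (A : Matrix (Fin n) (Fin n) K) {p : MvPolynomial (Fin n) K}
    (hp : p.IsHomogeneous m) : (sub A p).IsHomogeneous m := by
  have h1 := hp.aeval (fun c => ∑ i, C (A i c) * X i : Fin n → MvPolynomial (Fin n) K) (n := 1)
    (fun c => by
      refine IsHomogeneous.sum _ _ _ fun i _ => ?_
      simpa using (isHomogeneous_C (Fin n) (A i c)).mul (isHomogeneous_X K i))
  rw [one_mul] at h1
  exact h1

variable (m) in
/-- substitution on the homogeneous polynomials of degree `m` -/
noncomputable def subm (A : Matrix (Fin n) (Fin n) K) :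
    homogeneousSubmodule (Fin n) K m →ₗ[K] homogeneousSubmodule (Fin n) K m :=
  (sub A).toLinearMap.restrict fun _ hp => sub_hom A hp

theorem subm_coe (A : Matrix (Fin n) (Fin n) K) (p : homogeneousSubmodule (Fin n) K m) :
    ((subm m A p : homogeneousSubmodule (Fin n) K m) : MvPolynomial (Fin n) K) = sub A p := rfl

theorem subm_mul (A B : Matrix (Fin n) (Fin n) K) : subm m (A * B) = subm m A ∘ₗ subm m B := by
  ext p : 2
  rw [LinearMap.comp_apply, subm_coe, subm_coe, subm_coe, sub_comp]

theorem subm_one : subm m (1 : Matrix (Fin n) (Fin n) K) = LinearMap.id := by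
  ext p : 2
  rw [subm_coe, sub_one, LinearMap.id_apply]

variable (m) in
/-- its determinant -/
noncomputable def chi (A : Matrix (Fin n) (Fin n) K) : K := LinearMap.det (subm m A)

theorem chi_mul (A B : Matrix (Fin n) (Fin n) K) : chi m (A * B) = chi m A * chi m B := by
  unfold chi
  rw [subm_mul, LinearMap.det_comp]

theorem chi_one : chi m (1 : Matrix (Fin n) (Fin n) K) = 1 := by
  unfold chi
  rw [subm_one, LinearMap.det_id]

variable (n m) in
/-- the exponents of degree `m` -/
abbrev Ex : Type := {d : Fin n →₀ ℕ // d.degree = m}

variable (K n m) in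
/-- the basis of monomials -/
noncomputable def mono (d : Ex n m) : homogeneousSubmodule (Fin n) K m :=
  ⟨monomial d.1 1, isHomogeneous_monomial 1 d.2⟩

theorem mono_indep : LinearIndependent K (mono K n m) := by
  refine LinearIndependent.of_comp (homogeneousSubmodule (Fin n) K m).subtype ?_
  have h1 := (basisMonomials (Fin n) K).linearIndependent
  have h2 := h1.comp (Subtype.val : Ex n m → (Fin n →₀ ℕ)) Subtype.val_injective
  have h3 : (homogeneousSubmodule (Fin n) K m).subtype ∘ mono K n m =
      (basisMonomials (Fin n) K) ∘ (Subtype.val : Ex n m → (Fin n →₀ ℕ)) := by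
    funext d
    rw [Function.comp_apply, Function.comp_apply, coe_basisMonomials]
    rfl
  rw [h3]
  exact h2

theorem mono_span : ⊤ ≤ Submodule.span K (Set.range (mono K n m)) := by
  intro p _
  have h1 : p = ∑ d : {d // d ∈ (p : MvPolynomial (Fin n) K).support},
      (coeff d.1 (p : MvPolynomial (Fin n) K)) • mono K n m ⟨d.1, by
        have h2 := p.2
        by_contra h3
        exact mem_support_iff.1 d.2 (IsHomogeneous.coeff_eq_zero h2 h3)⟩ := by
    apply Subtype.ext
    rw [Submodule.coe_sum]
    conv_lhs => rw [← support_sum_monomial_coeff (p : MvPolynomial (Fin n) K)]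
    rw [← Finset.sum_coe_sort]
    refine Finset.sum_congr rfl fun d _ => ?_
    rw [Submodule.coe_smul]
    change _ = _ • monomial d.1 (1 : K)
    rw [smul_monomial, smul_eq_mul, mul_one]
  rw [h1]
  exact Submodule.sum_mem _ fun d _ => Submodule.smul_mem _ _ (Submodule.subset_span ⟨_, rfl⟩)

variable (K n m) in
/-- the basis of monomials -/
noncomputable def basis : Module.Basis (Ex n m) K (homogeneousSubmodule (Fin n) K m) :=
  Module.Basis.mk mono_indep mono_span

theorem basis_apply (d : Ex n m) : basis K n m d = mono K n m d := by
  unfold basis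
  rw [Module.Basis.mk_apply]

instance : Module.Finite K (homogeneousSubmodule (Fin n) K m) :=
  Module.Finite.iff_fg.2 (homogeneousSubmodule_fg (Fin n) K m)

instance : Finite (Ex n m) := Module.Finite.finite_basis (basis ℚ n m)

noncomputable instance : Fintype (Ex n m) := Fintype.ofFinite _

theorem chi_diag (t : Fin n → K) :
    chi m (Matrix.diagonal t) = ∏ i, t i ^ (∑ d : Ex n m, d.1 i) := by
  classical
  have h1 : ∀ d, subm m (Matrix.diagonal t) (basis K n m d) =
      (∏ i, t i ^ (d.1 i)) • basis K n m d := by
    intro d
    rw [basis_apply]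
    apply Subtype.ext
    rw [subm_coe, Submodule.coe_smul]
    change sub (Matrix.diagonal t) (monomial d.1 1) = (∏ i, t i ^ (d.1 i)) • monomial d.1 1
    rw [sub, aeval_monomial, map_one, one_mul, smul_monomial, smul_eq_mul, mul_one,
      monomial_eq, Finsupp.prod_fintype _ _ (fun i => pow_zero _),
      Finsupp.prod_fintype _ _ (fun i => pow_zero _), map_prod, ← Finset.prod_mul_distrib]
    refine Finset.prod_congr rfl fun i _ => ?_
    rw [Finset.sum_eq_single i]
    · rw [Matrix.diagonal_apply_eq, mul_pow, map_pow]
    · intro b _ hb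
      rw [Matrix.diagonal_apply_ne _ hb, map_zero, zero_mul]
    · intro h
      exact absurd (Finset.mem_univ i) h
  unfold chi
  rw [← LinearMap.det_toMatrix (basis K n m)]
  have h2 : LinearMap.toMatrix (basis K n m) (basis K n m) (subm m (Matrix.diagonal t)) =
      Matrix.diagonal fun d : Ex n m => ∏ i, t i ^ (d.1 i) := by
    ext a b
    rw [LinearMap.toMatrix_apply, h1, map_smul, Module.Basis.repr_self, Finsupp.smul_apply,
      Finsupp.single_apply, smul_eq_mul, Matrix.diagonal_apply]
    by_cases h : a = b
    · subst h; simp
    · rw [if_neg h, if_neg (Ne.symm h), mul_zero]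
  rw [h2, Matrix.det_diagonal, Finset.prod_comm]
  refine Finset.prod_congr rfl fun i _ => ?_
  rw [Finset.prod_pow_eq_pow_sum]

theorem sum_symm (i j : Fin n) : ∑ d : Ex n m, d.1 i = ∑ d : Ex n m, d.1 j := by
  classical
  let e : Ex n m ≃ Ex n m :=
    { toFun := fun d => ⟨Finsupp.equivMapDomain (Equiv.swap i j) d.1, by
        have h := d.2
        rw [Finsupp.degree_eq_sum] at h ⊢
        refine Eq.trans ?_ h
        exact Fintype.sum_equiv (Equiv.swap i j).symm _ _ (fun x => rfl)⟩
      invFun := fun d => ⟨Finsupp.equivMapDomain (Equiv.swap i j) d.1, by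
        have h := d.2
        rw [Finsupp.degree_eq_sum] at h ⊢
        refine Eq.trans ?_ h
        exact Fintype.sum_equiv (Equiv.swap i j).symm _ _ (fun x => rfl)⟩
      left_inv := fun d => by
        apply Subtype.ext
        ext x
        simp
      right_inv := fun d => by
        apply Subtype.ext
        ext x
        simp }
  refine Fintype.sum_equiv e _ _ fun d => ?_
  change d.1 i = d.1 ((Equiv.swap i j).symm j)
  simp

theorem chi_transv [CharZero K] (t : Matrix.TransvectionStruct (Fin n) K) :
    chi m t.toMatrix = 1 := by
  classical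
  obtain ⟨i, j, hij, c⟩ := t
  change chi m (Matrix.transvection i j c) = 1
  let u : Fin n → K := fun l => if l = i then 2 else 1
  let u' : Fin n → K := fun l => if l = i then 2⁻¹ else 1
  have h1 : Matrix.diagonal u * Matrix.transvection i j c * Matrix.diagonal u' =
      Matrix.transvection i j c * Matrix.transvection i j c := by
    rw [Matrix.transvection_mul_transvection_same _ _ hij]
    ext a b
    simp only [Matrix.diagonal_mul, Matrix.mul_diagonal, Matrix.transvection, Matrix.add_apply,
      Matrix.one_apply, Matrix.single_apply, u, u']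
    by_cases ha : a = i
    · subst ha
      by_cases hb : b = a
      · subst hb
        simp [Ne.symm hij]
      · by_cases hb2 : b = j
        · subst hb2
          simp [Ne.symm hb]
          have := hb
          simp [this]
          ring
        · simp [Ne.symm hb, Ne.symm hb2]
    · by_cases hb : b = i
      · subst hb
        have h2 : ¬ (b = a) := fun h => ha h.symm
        simp [ha, h2]
      · have h2 : ¬ (i = a) := fun h => ha h.symm
        simp [ha, hb, h2]
  have h2 : chi m (Matrix.diagonal u) * chi m (Matrix.diagonal u') = 1 := by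
    rw [← chi_mul, Matrix.diagonal_mul_diagonal]
    have : (fun l => u l * u' l) = fun _ => 1 := by
      funext l
      simp only [u, u']
      split_ifs <;> norm_num
    rw [this, Matrix.diagonal_one, chi_one]
  have h3 := congrArg (chi m) h1
  rw [chi_mul, chi_mul, chi_mul] at h3
  have h4 : chi m (Matrix.transvection i j c) * chi m (Matrix.transvection i j (-c)) = 1 := by
    rw [← chi_mul, Matrix.transvection_mul_transvection_same _ _ hij, add_neg_cancel,
      Matrix.transvection_zero, chi_one]
  have h5 : chi m (Matrix.transvection i j c) ≠ 0 := left_ne_zero_of_mul_eq_one h4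
  have h6 : chi m (Matrix.transvection i j c) =
      chi m (Matrix.transvection i j c) * chi m (Matrix.transvection i j c) := by
    rw [← h3]
    calc chi m (Matrix.transvection i j c) =
        (chi m (Matrix.diagonal u) * chi m (Matrix.diagonal u')) *
          chi m (Matrix.transvection i j c) := by rw [h2, one_mul]
      _ = _ := by ring
  exact (mul_left_cancel₀ h5 (by rw [mul_one]; exact h6)).symm

/-- the determinant of a linear substitution is a power of the determinant -/
theorem chi_eq [CharZero K] (n m : ℕ) : ∃ w : ℕ, (1 ≤ n → 1 ≤ m → 1 ≤ w) ∧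
    ∀ A : Matrix (Fin n) (Fin n) K, chi m A = A.det ^ w := by
  classical
  rcases Nat.eq_zero_or_pos n with hn | hn
  · subst hn
    refine ⟨0, fun h => absurd h (by norm_num), fun A => ?_⟩
    have : A = 1 := Subsingleton.elim _ _
    rw [this, chi_one, Matrix.det_one, pow_zero]
  · let i0 : Fin n := ⟨0, hn⟩
    refine ⟨∑ d : Ex n m, d.1 i0, fun _ hm => ?_, fun A => ?_⟩
    · let d0 : Ex n m := ⟨Finsupp.single i0 m, by simp⟩
      have h1 : d0.1 i0 ≤ ∑ d : Ex n m, d.1 i0 :=
        Finset.single_le_sum (f := fun d : Ex n m => d.1 i0) (fun _ _ => Nat.zero_le _)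
          (Finset.mem_univ d0)
      have h2 : d0.1 i0 = m := by simp [d0]
      omega
    · refine Matrix.diagonal_transvection_induction
        (fun A => chi m A = A.det ^ (∑ d : Ex n m, d.1 i0)) A (fun D _ => ?_) (fun t => ?_)
        (fun A B hA hB => ?_)
      · rw [chi_diag, Matrix.det_diagonal, ← Finset.prod_pow]
        refine Finset.prod_congr rfl fun i _ => ?_
        rw [sum_symm i i0]
      · rw [chi_transv, Matrix.TransvectionStruct.det, one_pow]
      · rw [chi_mul, hA, hB, Matrix.det_mul, mul_pow]

end

end Pool.Agent.Y174.T
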