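import Pool.Agent.Y174.T1

/-! Polynomials satisfying the relations of the Veronese variety are products of linear forms. -/

set_option autoImplicit false
set_option linter.unusedSectionVars false

open MvPolynomial

namespace Pool.Agent.Y174.T

section

variable {K : Type*} [Field K] {n m : ℕ}

theorem repr_eq (p : homogeneousSubmodule (Fin n) K m) (d : Ex n m) :
    (basis K n m).repr p d = coeff d.1 (p : MvPolynomial (Fin n) K) := by
  classical
  have h1 := (basis K n m).sum_repr p
  conv_rhs => rw [← h1]
  rw [Submodule.coe_sum, coeff_sum, Finset.sum_eq_single d]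
  · rw [Submodule.coe_smul, basis_apply, coeff_smul]
    change _ = _ • coeff d.1 (monomial d.1 (1 : K))
    rw [coeff_monomial, if_pos rfl, smul_eq_mul, mul_one]
  · intro b _ hb
    rw [Submodule.coe_smul, basis_apply, coeff_smul]
    change _ • coeff d.1 (monomial b.1 (1 : K)) = 0
    rw [coeff_monomial, if_neg (fun h => hb (Subtype.ext h)), smul_zero]
  · intro h
    exact absurd (Finset.mem_univ d) h

theorem td_pow {p : MvPolynomial (Fin n) K} (hp : p ≠ 0) (r : ℕ) :
    (p ^ r).totalDegree = r * p.totalDegree := by
  induction r with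
  | zero => simp
  | succ r ih =>
    rw [pow_succ, totalDegree_mul_of_isDomain (pow_ne_zero _ hp) hp, ih]
    ring

/-- A root of a homogeneous polynomial is homogeneous. -/
theorem hom_of_pow {ℓ z : MvPolynomial (Fin n) K} {φ : K} (hm : 1 ≤ m) (hz : z.IsHomogeneous m)
    (hz0 : z ≠ 0) (h : C φ * ℓ ^ m = z) : ℓ.IsHomogeneous 1 := by
  have hφ : φ ≠ 0 := by
    rintro rfl
    apply hz0
    rw [← h, map_zero, zero_mul]
  have hℓ : ℓ ≠ 0 := by
    rintro rfl
    apply hz0
    rw [← h, zero_pow (by omega), mul_zero]
  have hφC : (C φ : MvPolynomial (Fin n) K) ≠ 0 := by simpa using hφ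
  have h1 : z.totalDegree = m := hz.totalDegree hz0
  rw [← h, totalDegree_mul_of_isDomain hφC (pow_ne_zero _ hℓ), td_pow hℓ, totalDegree_C,
    zero_add] at h1
  have h2 : ℓ.totalDegree = 1 := by
    have : m * ℓ.totalDegree = m * 1 := by rw [h1, mul_one]
    exact Nat.eq_of_mul_eq_mul_left (by omega) this
  have h3 : coeff 0 ℓ = 0 := by
    have h4 : coeff 0 z = 0 := hz.coeff_eq_zero (by simp; omega)
    rw [← h, coeff_C_mul] at h4
    have h5 : coeff 0 (ℓ ^ m) = (coeff 0 ℓ) ^ m := by
      have := map_pow (constantCoeff (R := K) (σ := Fin n)) ℓ m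
      exact this
    rw [h5] at h4
    exact pow_eq_zero_iff (by omega) |>.1 ((mul_eq_zero.1 h4).resolve_left hφ)
  intro d hd
  have hwt : (Finsupp.weight (1 : Fin n → ℕ)) d = d.degree := by
    rw [Finsupp.degree_eq_weight_one]
    rfl
  rw [hwt]
  have h4 : d.degree ≤ 1 := by
    rw [← h2]
    have := le_totalDegree (mem_support_iff.2 hd)
    rw [Finsupp.degree_eq_sum]
    rw [Finsupp.sum_fintype _ _ (fun _ => rfl)] at this
    exact this
  have h5 : d.degree ≠ 0 := by
    intro h6
    apply hd
    rw [(Finsupp.degree_eq_zero_iff d).1 h6, h3]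
  omega

theorem veronese (hn : 1 ≤ n) (hm : 1 ≤ m) (x : Ex n m → homogeneousSubmodule (Fin n) K m)
    (hrel : ∀ a b c d : Ex n m, a.1 + b.1 = c.1 + d.1 →
      (x a : MvPolynomial (Fin n) K) * x b = x c * x d)
    (hind : LinearIndependent K x) :
    ∃ (φ : K) (ℓ : Fin n → MvPolynomial (Fin n) K), φ ≠ 0 ∧ (∀ i, (ℓ i).IsHomogeneous 1) ∧
      ∀ a : Ex n m, (x a : MvPolynomial (Fin n) K) = C φ * ∏ i, ℓ i ^ (a.1 i) := by
  classical
  let F := FractionRing (MvPolynomial (Fin n) K)
  let ι : MvPolynomial (Fin n) K →+* F := algebraMap _ _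
  have hι : Function.Injective ι := IsFractionRing.injective _ _
  let i0 : Fin n := ⟨0, hn⟩
  let e : Fin n → Ex n m := fun j => ⟨Finsupp.single j m, by simp⟩
  let e1 : Fin n → Ex n m := fun j => ⟨Finsupp.single i0 (m - 1) + Finsupp.single j 1, by
    rw [map_add, Finsupp.degree_single, Finsupp.degree_single]
    omega⟩
  have hx0 : ∀ a, (x a : MvPolynomial (Fin n) K) ≠ 0 := fun a h =>
    hind.ne_zero a (Subtype.ext h)
  let y : MvPolynomial (Fin n) K := x (e i0)
  have hy0 : y ≠ 0 := hx0 _
  have hιy : ι y ≠ 0 := (map_ne_zero_iff _ hι).2 hy0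
  let r : Fin n → F := fun j => ι (x (e1 j)) / ι y
  have hr0 : r i0 = 1 := by
    have h1 : e1 i0 = e i0 := by
      apply Subtype.ext
      change Finsupp.single i0 (m - 1) + Finsupp.single i0 1 = Finsupp.single i0 m
      rw [← Finsupp.single_add]
      congr 1
      omega
    change ι (x (e1 i0)) / ι y = 1
    rw [h1]
    exact div_self hιy
  have hyr : ∀ j, ι (x (e1 j)) = ι y * r j := fun j => by
    change _ = ι y * (ι (x (e1 j)) / ι y)
    rw [mul_div_cancel₀ _ hιy]
  -- claim A
  have hA : ∀ N : ℕ, ∀ a : Ex n m, m - a.1 i0 = N → ι (x a) = ι y * ∏ j, r j ^ (a.1 j) := by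
    intro N
    induction N with
    | zero =>
      intro a ha
      have h1 : a.1.degree = m := a.2
      have h2 : a.1 i0 = m := by
        have h3 : a.1 i0 ≤ a.1.degree := by
          rw [Finsupp.degree_eq_sum]
          exact Finset.single_le_sum (f := fun i => a.1 i) (fun _ _ => Nat.zero_le _)
            (Finset.mem_univ i0)
        omega
      have h3 : ∀ j, j ≠ i0 → a.1 j = 0 := by
        intro j hj
        rw [Finsupp.degree_eq_sum, ← Finset.add_sum_erase _ _ (Finset.mem_univ i0)] at h1
        have h4 : ∑ j ∈ Finset.univ.erase i0, a.1 j = 0 := by omega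
        exact Finset.sum_eq_zero_iff.1 h4 j (Finset.mem_erase.2 ⟨hj, Finset.mem_univ j⟩)
      have h4 : a = e i0 := by
        apply Subtype.ext
        ext j
        change a.1 j = Finsupp.single i0 m j
        by_cases hj : j = i0
        · subst hj; rw [Finsupp.single_eq_same, h2]
        · rw [h3 j hj, Finsupp.single_eq_of_ne hj]
      have h5 : ∏ j, r j ^ (a.1 j) = 1 := by
        refine Finset.prod_eq_one fun j _ => ?_
        by_cases hj : j = i0
        · rw [hj, hr0, one_pow]
        · rw [h3 j hj, pow_zero]
      rw [h5, mul_one, h4]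
    | succ N ih =>
      intro a ha
      have h1 : a.1.degree = m := a.2
      obtain ⟨j, hj, hj1⟩ : ∃ j, j ≠ i0 ∧ 1 ≤ a.1 j := by
        by_contra hcon
        push Not at hcon
        rw [Finsupp.degree_eq_sum, ← Finset.add_sum_erase _ _ (Finset.mem_univ i0)] at h1
        have h4 : ∑ j ∈ Finset.univ.erase i0, a.1 j = 0 :=
          Finset.sum_eq_zero fun j hj => by
            have := hcon j (Finset.mem_erase.1 hj).1
            omega
        omega
      let b : Fin n →₀ ℕ := a.1 - Finsupp.single j 1 + Finsupp.single i0 1
      have hle : Finsupp.single j 1 ≤ a.1 := by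
        intro i
        by_cases hi : i = j
        · subst hi; simpa using hj1
        · rw [Finsupp.single_eq_of_ne hi]; exact Nat.zero_le _
      have hb : b + Finsupp.single j 1 = a.1 + Finsupp.single i0 1 := by
        change a.1 - Finsupp.single j 1 + Finsupp.single i0 1 + Finsupp.single j 1 = _
        rw [add_right_comm, tsub_add_cancel_of_le hle]
      have hbd : b.degree = m := by
        have h2 := congrArg Finsupp.degree hb
        rw [map_add Finsupp.degree b, map_add Finsupp.degree a.1, Finsupp.degree_single,
          Finsupp.degree_single, h1] at h2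
        omega
      have hbi0 : b i0 = a.1 i0 + 1 := by
        have h2 := congrArg (fun f => f i0) hb
        simp only [Finsupp.add_apply] at h2
        rw [Finsupp.single_eq_of_ne (Ne.symm hj), Finsupp.single_eq_same] at h2
        omega
      have h2 := hrel a (e i0) ⟨b, hbd⟩ (e1 j) (by
        change a.1 + Finsupp.single i0 m = b + (Finsupp.single i0 (m - 1) + Finsupp.single j 1)
        have h3 : Finsupp.single i0 m = Finsupp.single i0 1 + Finsupp.single i0 (m - 1) := by
          rw [← Finsupp.single_add]
          congr 1
          omega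
        rw [h3, ← add_assoc, ← hb]
        abel)
      have h3 := ih ⟨b, hbd⟩ (by
        change m - b i0 = N
        omega)
      have h4 : ι (x a) * ι y = ι (x ⟨b, hbd⟩) * (ι y * r j) := by
        rw [← hyr, ← map_mul, ← map_mul]
        exact congrArg ι h2
      have h5 : ι (x a) = ι (x ⟨b, hbd⟩) * r j := by
        apply mul_right_cancel₀ hιy
        rw [h4]
        ring
      rw [h5, h3, mul_assoc]
      congr 1
      have h6 : (∏ i, r i ^ (b i)) * r j =
          ∏ i, r i ^ ((b + Finsupp.single j 1 : Fin n →₀ ℕ) i) := by
        simp only [Finsupp.add_apply, pow_add, Finset.prod_mul_distrib]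
        congr 1
        rw [Finset.prod_eq_single (f := fun i => r i ^ (Finsupp.single j 1 i)) j]
        · rw [Finsupp.single_eq_same, pow_one]
        · intro i _ hi
          rw [Finsupp.single_eq_of_ne hi, pow_zero]
        · intro h
          exact absurd (Finset.mem_univ j) h
      change (∏ i, r i ^ (b i)) * r j = _
      rw [h6, hb]
      simp only [Finsupp.add_apply, pow_add, Finset.prod_mul_distrib]
      rw [Finset.prod_eq_single i0 (f := fun i => r i ^ (Finsupp.single i0 1 i))]
      · rw [hr0, one_pow, mul_one]
      · intro i _ hi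
        rw [Finsupp.single_eq_of_ne hi, pow_zero]
      · intro h
        exact absurd (Finset.mem_univ i0) h
  have hA' : ∀ a : Ex n m, ι (x a) = ι y * ∏ j, r j ^ (a.1 j) := fun a => hA _ a rfl
  have hz : ∀ j, ι (x (e j)) = ι y * r j ^ m := by
    intro j
    rw [hA', Finset.prod_eq_single j]
    · change ι y * r j ^ (Finsupp.single j m j) = _
      rw [Finsupp.single_eq_same]
    · intro i _ hi
      change r i ^ (Finsupp.single j m i) = 1
      rw [Finsupp.single_eq_of_ne hi, pow_zero]
    · intro h
      exact absurd (Finset.mem_univ j) h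
  -- the first linear form
  have hyhom : y.IsHomogeneous m := (x (e i0)).2
  obtain ⟨φ, c, hφ0, hyc⟩ : ∃ (φ : K) (c : MvPolynomial (Fin n) K), φ ≠ 0 ∧ C φ * c ^ m = y := by
    by_cases hn1 : n = 1
    · refine ⟨coeff (Finsupp.single i0 m) y, X i0, ?_, ?_⟩
      · intro h0
        apply hy0
        ext d
        rw [coeff_zero]
        by_cases hd : d.degree = m
        · have h1 : d = Finsupp.single i0 m := by
            ext i
            have hi : i = i0 := by
              apply Fin.ext
              have := i.2
              change i.1 = 0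
              omega
            subst hi
            rw [Finsupp.single_eq_same, ← hd, Finsupp.degree_eq_sum]
            subst hn1
            simp [i0]
          rw [h1, h0]
        · exact hyhom.coeff_eq_zero hd
      · ext d
        rw [coeff_C_mul, coeff_X_pow]
        by_cases hd : Finsupp.single i0 m = d
        · rw [if_pos hd, mul_one, hd]
        · rw [if_neg hd, mul_zero]
          symm
          apply hyhom.coeff_eq_zero
          intro hdd
          apply hd
          ext i
          have hi : i = i0 := by
            apply Fin.ext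
            have := i.2
            change i.1 = 0
            omega
          subst hi
          rw [Finsupp.single_eq_same, ← hdd, Finsupp.degree_eq_sum]
          subst hn1
          simp [i0]
    · let j1 : Fin n := ⟨1, by omega⟩
      have hj1 : j1 ≠ i0 := by
        intro h
        have := congrArg Fin.val h
        simp [j1, i0] at this
      obtain ⟨b, c, g, hbc, hgb, hgc⟩ := UniqueFactorizationMonoid.exists_reduced_factors'
        (x (e1 j1) : MvPolynomial (Fin n) K) y hy0
      have hg0 : g ≠ 0 := by
        rintro rfl
        apply hy0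
        rw [← hgc, zero_mul]
      have hc0 : c ≠ 0 := by
        rintro rfl
        apply hy0
        rw [← hgc, mul_zero]
      have hb0 : b ≠ 0 := by
        rintro rfl
        apply hx0 (e1 j1)
        rw [← hgb, mul_zero]
      have h1 : (x (e j1) : MvPolynomial (Fin n) K) * y ^ (m - 1) = (x (e1 j1)) ^ m := by
        apply hι
        rw [map_mul, map_pow, map_pow, hz, hyr, mul_pow]
        have h2 : ι y ^ m = ι y ^ (m - 1) * ι y := by
          rw [← pow_succ]
          congr 1
          omega
        rw [h2]
        ring
      have h2 : (x (e j1) : MvPolynomial (Fin n) K) * c ^ (m - 1) = g * b ^ m := by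
        have h3 : g ^ (m - 1) * ((x (e j1) : MvPolynomial (Fin n) K) * c ^ (m - 1)) =
            g ^ (m - 1) * (g * b ^ m) := by
          have h4 : g ^ (m - 1) * (g * b ^ m) = (x (e1 j1) : MvPolynomial (Fin n) K) ^ m := by
            rw [← hgb, mul_pow, ← mul_assoc, ← pow_succ]
            congr 2
            omega
          rw [h4, ← h1, ← hgc, mul_pow]
          ring
        exact mul_left_cancel₀ (pow_ne_zero _ hg0) h3
      have h3 : c ^ (m - 1) ∣ g := by
        have h4 : c ^ (m - 1) ∣ g * b ^ m := ⟨_, by rw [← h2, mul_comm]⟩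
        have h5 : IsRelPrime (c ^ (m - 1)) (b ^ m) := hbc.symm.pow
        exact h5.dvd_of_dvd_mul_right h4
      obtain ⟨g', hg'⟩ := h3
      have hg'0 : g' ≠ 0 := by
        rintro rfl
        apply hg0
        rw [hg', mul_zero]
      have h4 : y = c ^ m * g' := by
        rw [← hgc, hg', mul_comm, ← mul_assoc, ← pow_succ']
        congr 2
        omega
      have h5 : m = m * c.totalDegree + g'.totalDegree := by
        conv_lhs => rw [← hyhom.totalDegree hy0]
        rw [h4, totalDegree_mul_of_isDomain (pow_ne_zero _ hc0) hg'0, td_pow hc0]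
      have h6 : c.totalDegree ≠ 0 := by
        intro h7
        have hcC := totalDegree_eq_zero_iff_eq_C.1 h7
        have h8 : g.totalDegree = m := by
          have := hyhom.totalDegree hy0
          rw [← hgc, totalDegree_mul_of_isDomain hg0 hc0, h7, add_zero] at this
          exact this
        have h9 : b.totalDegree = 0 := by
          have h10 := (x (e1 j1)).2
          have h11 := IsHomogeneous.totalDegree h10 (hx0 (e1 j1))
          rw [← hgb, totalDegree_mul_of_isDomain hg0 hb0, h8] at h11
          omega
        have hbC := totalDegree_eq_zero_iff_eq_C.1 h9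
        have hcc : coeff 0 c ≠ 0 := by
          intro h
          apply hc0
          rw [hcC, h, map_zero]
        -- linear dependence
        have h12 : e1 j1 ≠ e i0 := by
          intro h
          have h13 := congrArg (fun a : Ex n m => a.1 j1) h
          change (Finsupp.single i0 (m - 1) + Finsupp.single j1 1 : Fin n →₀ ℕ) j1 =
            (Finsupp.single i0 m : Fin n →₀ ℕ) j1 at h13
          rw [Finsupp.add_apply, Finsupp.single_eq_same, Finsupp.single_eq_of_ne hj1,
            Finsupp.single_eq_of_ne hj1] at h13
          omega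
        have h13 : coeff 0 c • x (e1 j1) = coeff 0 b • x (e i0) := by
          apply Subtype.ext
          rw [Submodule.coe_smul, Submodule.coe_smul, smul_eq_C_mul, smul_eq_C_mul, ← hbC, ← hcC]
          change c * (x (e1 j1) : MvPolynomial (Fin n) K) = b * y
          rw [← hgb, ← hgc]
          ring
        have h15 : LinearIndependent K ![x (e1 j1), x (e i0)] := by
          have h16 := hind.comp ![e1 j1, e i0] (by
            intro a b hab
            fin_cases a <;> fin_cases b
            · rfl
            · exact absurd hab h12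
            · exact absurd hab.symm h12
            · rfl)
          have h17 : x ∘ ![e1 j1, e i0] = ![x (e1 j1), x (e i0)] := by
            funext a
            fin_cases a <;> rfl
          rw [h17] at h16
          exact h16
        have h14 := (LinearIndependent.pair_iff.1 h15) (coeff 0 c) (-coeff 0 b) (by
          rw [neg_smul, h13, add_neg_cancel])
        exact hcc h14.1
      have h7 : c.totalDegree = 1 ∧ g'.totalDegree = 0 := by
        have h8 : 1 ≤ c.totalDegree := by omega
        have h9 : m * 1 ≤ m * c.totalDegree := Nat.mul_le_mul_left m h8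
        have h10 : m * c.totalDegree = m * 1 := by omega
        exact ⟨Nat.eq_of_mul_eq_mul_left (by omega) h10, by omega⟩
      have h8 := totalDegree_eq_zero_iff_eq_C.1 h7.2
      refine ⟨coeff 0 g', c, ?_, ?_⟩
      · intro h
        apply hg'0
        rw [h8, h, map_zero]
      · rw [← h8, h4, mul_comm]
  -- the other forms
  have hc0 : c ≠ 0 := by
    rintro rfl
    apply hy0
    rw [← hyc, zero_pow (by omega), mul_zero]
  have hφC : ι (C φ) ≠ 0 := (map_ne_zero_iff _ hι).2 (by simpa using hφ0)
  have hℓ : ∀ j, ∃ ℓ : MvPolynomial (Fin n) K, ι ℓ = ι c * r j := by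
    intro j
    have h1 : IsIntegral (MvPolynomial (Fin n) K) ((ι c * r j) ^ m) := by
      have h2 : (ι c * r j) ^ m = ι (C φ⁻¹ * (x (e j) : MvPolynomial (Fin n) K)) := by
        rw [map_mul, hz, ← hyc, map_mul, map_pow, mul_pow]
        have h3 : ι (C φ⁻¹) * ι (C φ) = 1 := by
          rw [← map_mul, ← map_mul, inv_mul_cancel₀ hφ0, map_one, map_one]
        calc ι c ^ m * r j ^ m = (ι (C φ⁻¹) * ι (C φ)) * (ι c ^ m * r j ^ m) := by
              rw [h3, one_mul]
          _ = _ := by ring
      rw [h2]
      exact isIntegral_algebraMap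
    exact IsIntegrallyClosed.exists_algebraMap_eq_of_isIntegral_pow (by omega) h1
  choose ℓ hℓ using hℓ
  have hzℓ : ∀ j, C φ * ℓ j ^ m = (x (e j) : MvPolynomial (Fin n) K) := by
    intro j
    apply hι
    rw [map_mul, map_pow, hℓ, hz, ← hyc, map_mul, map_pow]
    ring
  refine ⟨φ, ℓ, hφ0, fun j => hom_of_pow hm (x (e j)).2 (hx0 _) (hzℓ j), fun a => ?_⟩
  apply hι
  rw [hA', ← hyc, map_mul, map_mul, map_pow, map_prod]
  have h1 : ∏ j, ι (ℓ j ^ (a.1 j)) = ι c ^ m * ∏ j, r j ^ (a.1 j) := by
    have h2 : ∀ j, ι (ℓ j ^ (a.1 j)) = ι c ^ (a.1 j) * r j ^ (a.1 j) := by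
      intro j
      rw [map_pow, hℓ, mul_pow]
    rw [Finset.prod_congr rfl fun j _ => h2 j, Finset.prod_mul_distrib,
      Finset.prod_pow_eq_pow_sum]
    have h3 : ∑ j, a.1 j = m := by
      rw [← Finsupp.degree_eq_sum]
      exact a.2
    rw [h3]
  rw [h1]
  ring

end

end Pool.Agent.Y174.T
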