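import Pool.Agent.Y174.T3

/-! Specialization of systems of homogeneous polynomials with constant relations. -/

set_option autoImplicit false
set_option linter.unusedSectionVars false

open MvPolynomial

namespace Pool.Agent.Y174.T

section

/-- A finitely generated algebra inside a field has a point over an algebraically closed field. -/
theorem specialize {k K : Type*} [Field k] [IsAlgClosed k] [Field K] [Algebra k K] (S : Set K)
    (hS : S.Finite) : Nonempty (Algebra.adjoin k S →ₐ[k] k) := by
  have h1 : Algebra.FiniteType k (Algebra.adjoin k S) :=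
    (Subalgebra.fg_iff_finiteType _).1 ⟨hS.toFinset, by rw [Set.Finite.coe_toFinset]⟩
  obtain ⟨M, hM⟩ := Ideal.exists_maximal (Algebra.adjoin k S)
  letI := Ideal.Quotient.field M
  have h2 : Algebra.FiniteType k (Algebra.adjoin k S ⧸ M) :=
    Algebra.FiniteType.of_surjective (Ideal.Quotient.mkₐ k M) (Ideal.Quotient.mkₐ_surjective k M)
  have h3 : Module.Finite k (Algebra.adjoin k S ⧸ M) :=
    finite_of_finite_type_of_isJacobsonRing k _
  have h4 : Algebra.IsIntegral k (Algebra.adjoin k S ⧸ M) := Algebra.IsIntegral.of_finite k _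
  have h5 := IsAlgClosed.algebraMap_bijective_of_isIntegral (k := k)
    (K := Algebra.adjoin k S ⧸ M)
  exact ⟨((AlgEquiv.ofBijective (Algebra.ofId k _) h5).symm : _ →ₐ[k] k).comp
    (Ideal.Quotient.mkₐ k M)⟩

variable {k K : Type*} [Field k] [Field K] [Algebra k K] {n m : ℕ}

theorem sum_monomials {R : Type*} [CommRing R] {p : MvPolynomial (Fin n) R}
    (hp : p.IsHomogeneous m) : p = ∑ d : Ex n m, monomial d.1 (coeff d.1 p) := by
  classical
  ext e
  rw [coeff_sum]
  by_cases he : e.degree = m
  · rw [Finset.sum_eq_single (⟨e, he⟩ : Ex n m)]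
    · rw [coeff_monomial, if_pos rfl]
    · intro d _ hd
      rw [coeff_monomial, if_neg (fun h => hd (Subtype.ext h))]
    · intro h
      exact absurd (Finset.mem_univ _) h
  · rw [hp.coeff_eq_zero he]
    symm
    refine Finset.sum_eq_zero fun d _ => ?_
    rw [coeff_monomial, if_neg]
    intro h
    apply he
    rw [← h]
    exact d.2

theorem expand_prod {R : Type*} [CommRing R] (f : k →+* R) (J : Ex n m → MvPolynomial (Fin n) R)
    (τ : Ex n (2 * m) → Ex n m × Ex n m) (c : Ex n m → Ex n m → Ex n (2 * m) → k)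
    (α : Matrix (Ex n m) (Ex n m) k)
    (hJ : ∀ i j, J i * J j = ∑ l, C (f (c i j l)) * (J (τ l).1 * J (τ l).2)) (a b : Ex n m) :
    (∑ j, C (f (α a j)) * J j) * (∑ j, C (f (α b j)) * J j) =
      ∑ l, C (f (∑ i, ∑ j, α a i * α b j * c i j l)) * (J (τ l).1 * J (τ l).2) := by
  classical
  rw [Finset.sum_mul_sum]
  have h1 : ∀ i j, C (f (α a i)) * J i * (C (f (α b j)) * J j) =
      ∑ l, C (f (α a i * α b j * c i j l)) * (J (τ l).1 * J (τ l).2) := by
    intro i j
    calc C (f (α a i)) * J i * (C (f (α b j)) * J j) =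
        C (f (α a i)) * C (f (α b j)) * (J i * J j) := by ring
      _ = _ := by
        rw [hJ, Finset.mul_sum]
        refine Finset.sum_congr rfl fun l _ => ?_
        simp only [map_mul]
        ring
  simp only [h1]
  have h2 : ∀ l, C (f (∑ i, ∑ j, α a i * α b j * c i j l)) * (J (τ l).1 * J (τ l).2) =
      ∑ i, ∑ j, C (f (α a i * α b j * c i j l)) * (J (τ l).1 * J (τ l).2) := by
    intro l
    simp only [map_sum, Finset.sum_mul]
  simp only [h2]
  rw [Finset.sum_comm]
  symm
  rw [Finset.sum_comm]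
  have h3 : ∀ i : Ex n m, ∑ l, ∑ j, C (f (α a i * α b j * c i j l)) * (J (τ l).1 * J (τ l).2) =
      ∑ j, ∑ l, C (f (α a i * α b j * c i j l)) * (J (τ l).1 * J (τ l).2) := fun i =>
    Finset.sum_comm
  simp only [h3]
  rw [Finset.sum_comm]

theorem split [IsAlgClosed k] (Jp : Ex n m → MvPolynomial (Fin n) K)
    (hJh : ∀ j, (Jp j).IsHomogeneous m) [DecidableEq (Ex n m)] [DecidableEq (Ex n (2 * m))]
    (hJ0 : (Matrix.of fun (d j : Ex n m) => coeff d.1 (Jp j)).det ≠ 0)
    (τ : Ex n (2 * m) → Ex n m × Ex n m)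
    (hT : (Matrix.of fun (d l : Ex n (2 * m)) => coeff d.1 (Jp (τ l).1 * Jp (τ l).2)).det ≠ 0)
    (c : Ex n m → Ex n m → Ex n (2 * m) → k)
    (hc : ∀ i j, Jp i * Jp j = ∑ l, C (algebraMap k K (c i j l)) * (Jp (τ l).1 * Jp (τ l).2)) :
    ∃ α : Matrix (Ex n m) (Ex n m) k, α.det ≠ 0 ∧
      ∀ a b a' b' : Ex n m, a.1 + b.1 = a'.1 + b'.1 →
        (∑ j, C (algebraMap k K (α a j)) * Jp j) * (∑ j, C (algebraMap k K (α b j)) * Jp j) =
        (∑ j, C (algebraMap k K (α a' j)) * Jp j) *
          (∑ j, C (algebraMap k K (α b' j)) * Jp j) := by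
  classical
  -- the ring of the coefficients
  let d1 : K := (Matrix.of fun (d j : Ex n m) => coeff d.1 (Jp j)).det
  let d2 : K := (Matrix.of fun (d l : Ex n (2 * m)) => coeff d.1 (Jp (τ l).1 * Jp (τ l).2)).det
  let S : Set K := (Set.range fun p : Ex n m × Ex n m => coeff p.1.1 (Jp p.2)) ∪ {d1⁻¹, d2⁻¹}
  have hS : S.Finite := (Set.finite_range _).union (Set.toFinite _)
  obtain ⟨θ⟩ := specialize (k := k) S hS
  have hmem : ∀ (d j : Ex n m), coeff d.1 (Jp j) ∈ Algebra.adjoin k S := fun d j =>
    Algebra.subset_adjoin (Or.inl ⟨(d, j), rfl⟩)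
  let ι : Algebra.adjoin k S →+* K := algebraMap _ _
  have hι : Function.Injective ι := Subtype.val_injective
  let Jt : Ex n m → MvPolynomial (Fin n) (Algebra.adjoin k S) := fun j =>
    ∑ d : Ex n m, monomial d.1 ⟨coeff d.1 (Jp j), hmem d j⟩
  have hJt : ∀ j, map ι (Jt j) = Jp j := by
    intro j
    conv_rhs => rw [sum_monomials (hJh j)]
    rw [map_sum]
    refine Finset.sum_congr rfl fun d _ => ?_
    rw [map_monomial]
    rfl
  have hmapinj : Function.Injective (map ι : MvPolynomial (Fin n) (Algebra.adjoin k S) →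
      MvPolynomial (Fin n) K) := map_injective ι hι
  have hct : ∀ i j, Jt i * Jt j = ∑ l, C (algebraMap k (Algebra.adjoin k S) (c i j l)) *
      (Jt (τ l).1 * Jt (τ l).2) := by
    intro i j
    apply hmapinj
    rw [map_mul, hJt, hJt, hc, map_sum]
    refine Finset.sum_congr rfl fun l _ => ?_
    rw [map_mul, map_mul, hJt, hJt, map_C]
    rfl
  let Js : Ex n m → MvPolynomial (Fin n) k := fun j => map (θ : Algebra.adjoin k S →+* k) (Jt j)
  have hcs : ∀ i j, Js i * Js j = ∑ l, C (c i j l) * (Js (τ l).1 * Js (τ l).2) := by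
    intro i j
    have h1 := congrArg (map (θ : Algebra.adjoin k S →+* k)) (hct i j)
    rw [map_mul] at h1
    refine h1.trans ?_
    rw [map_sum]
    refine Finset.sum_congr rfl fun l _ => ?_
    rw [map_mul, map_mul, map_C]
    congr 2
    exact θ.commutes _
  have hJth : ∀ j, (Jt j).IsHomogeneous m := fun j =>
    IsHomogeneous.sum _ _ _ fun d _ => isHomogeneous_monomial _ d.2
  have hJsh : ∀ j, (Js j).IsHomogeneous m := fun j => (hJth j).map _
  -- the determinants
  have hunit : ∀ (x : Algebra.adjoin k S), (x : K) ≠ 0 → ((x : K))⁻¹ ∈ S → θ x ≠ 0 := by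
    intro x hx hxS h0
    have h1 : x * ⟨((x : K))⁻¹, Algebra.subset_adjoin hxS⟩ = 1 := by
      apply Subtype.ext
      change (x : K) * (x : K)⁻¹ = 1
      exact mul_inv_cancel₀ hx
    have h2 := congrArg θ h1
    rw [map_mul, h0, zero_mul, map_one] at h2
    exact zero_ne_one h2
  have hdet1 : (Matrix.of fun (d j : Ex n m) => coeff d.1 (Js j)).det ≠ 0 := by
    let x : Algebra.adjoin k S := (Matrix.of fun (d j : Ex n m) => coeff d.1 (Jt j)).det
    have h1 : (x : K) = d1 := by
      change ι (Matrix.of fun (d j : Ex n m) => coeff d.1 (Jt j)).det = _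
      rw [RingHom.map_det]
      congr 1
      ext d j
      rw [RingHom.mapMatrix_apply, Matrix.map_apply, Matrix.of_apply, Matrix.of_apply,
        ← coeff_map, hJt]
    have h2 : (Matrix.of fun (d j : Ex n m) => coeff d.1 (Js j)).det = θ x := by
      change _ = (θ : Algebra.adjoin k S →+* k)
        (Matrix.of fun (d j : Ex n m) => coeff d.1 (Jt j)).det
      rw [RingHom.map_det]
      have h3 : (Matrix.of fun (d j : Ex n m) => coeff d.1 (Js j)) =
          (θ : Algebra.adjoin k S →+* k).mapMatrix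
            (Matrix.of fun (d j : Ex n m) => coeff d.1 (Jt j)) := by
        ext d j
        rw [RingHom.mapMatrix_apply, Matrix.map_apply, Matrix.of_apply, Matrix.of_apply,
          ← coeff_map]
      rw [h3]
    rw [h2]
    refine hunit x (by rw [h1]; exact hJ0) ?_
    rw [h1]
    exact Or.inr (Or.inl rfl)
  have hdet2 : (Matrix.of fun (d l : Ex n (2 * m)) =>
      coeff d.1 (Js (τ l).1 * Js (τ l).2)).det ≠ 0 := by
    let x : Algebra.adjoin k S :=
      (Matrix.of fun (d l : Ex n (2 * m)) => coeff d.1 (Jt (τ l).1 * Jt (τ l).2)).det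
    have h1 : (x : K) = d2 := by
      change ι (Matrix.of fun (d l : Ex n (2 * m)) =>
        coeff d.1 (Jt (τ l).1 * Jt (τ l).2)).det = _
      rw [RingHom.map_det]
      congr 1
      ext d l
      rw [RingHom.mapMatrix_apply, Matrix.map_apply, Matrix.of_apply, Matrix.of_apply,
        ← coeff_map, map_mul, hJt, hJt]
    have h2 : (Matrix.of fun (d l : Ex n (2 * m)) =>
        coeff d.1 (Js (τ l).1 * Js (τ l).2)).det = θ x := by
      change _ = (θ : Algebra.adjoin k S →+* k)
        (Matrix.of fun (d l : Ex n (2 * m)) => coeff d.1 (Jt (τ l).1 * Jt (τ l).2)).det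
      rw [RingHom.map_det]
      congr 1
      ext d l
      rw [RingHom.mapMatrix_apply, Matrix.map_apply, Matrix.of_apply, Matrix.of_apply,
        ← coeff_map, map_mul]
    rw [h2]
    refine hunit x (by rw [h1]; exact hT) ?_
    rw [h1]
    exact Or.inr (Or.inr rfl)
  -- the matrix of the monomials
  let Cs : Matrix (Ex n m) (Ex n m) k := (Matrix.of fun (d j : Ex n m) => coeff d.1 (Js j))
  have hCu : IsUnit Cs.transpose.det := by
    rw [Matrix.det_transpose]
    exact isUnit_iff_ne_zero.2 hdet1
  let α : Matrix (Ex n m) (Ex n m) k := Cs.transpose⁻¹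
  have hα : α * Cs.transpose = 1 := Matrix.nonsing_inv_mul _ hCu
  have hmon : ∀ a : Ex n m, ∑ j, C (α a j) * Js j = monomial a.1 1 := by
    intro a
    ext e
    by_cases he : e.degree = m
    · rw [coeff_sum]
      have h1 := congrFun (congrFun hα a) ⟨e, he⟩
      rw [Matrix.mul_apply] at h1
      have h2 : ∑ j, coeff e (C (α a j) * Js j) = ∑ j, α a j * Cs.transpose j ⟨e, he⟩ := by
        refine Finset.sum_congr rfl fun j _ => ?_
        rw [coeff_C_mul]
        rfl
      rw [h2, h1, Matrix.one_apply, coeff_monomial]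
      by_cases h3 : a = ⟨e, he⟩
      · rw [if_pos h3, if_pos (congrArg Subtype.val h3)]
      · rw [if_neg h3, if_neg (fun h => h3 (Subtype.ext h))]
    · rw [coeff_monomial, if_neg (fun h => he (by rw [← h]; exact a.2))]
      have h1 : (∑ j, C (α a j) * Js j).IsHomogeneous m :=
        IsHomogeneous.sum _ _ _ fun j _ => by
          simpa using (isHomogeneous_C (Fin n) (α a j)).mul (hJsh j)
      exact h1.coeff_eq_zero he
  refine ⟨α, ?_, fun a b a' b' hab => ?_⟩
  · intro h0
    have h1 := congrArg Matrix.det hα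
    rw [Matrix.det_mul, h0, zero_mul, Matrix.det_one] at h1
    exact zero_ne_one h1
  · have h1 := expand_prod (RingHom.id k) Js τ c α (fun i j => hcs i j) a b
    have h2 := expand_prod (RingHom.id k) Js τ c α (fun i j => hcs i j) a' b'
    simp only [RingHom.id_apply] at h1 h2
    rw [hmon, hmon, monomial_mul, one_mul] at h1 h2
    rw [hab] at h1
    rw [h1] at h2
    -- the coefficients agree
    let γ : Ex n m → Ex n m → Ex n (2 * m) → k := fun a b l =>
      ∑ i, ∑ j, α a i * α b j * c i j l
    have h3 : γ a b = γ a' b' := by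
      have h4 : (Matrix.of fun (d l : Ex n (2 * m)) =>
          coeff d.1 (Js (τ l).1 * Js (τ l).2)).mulVec (γ a b - γ a' b') = 0 := by
        funext d
        have h5 := congrArg (coeff d.1) h2
        rw [coeff_sum, coeff_sum] at h5
        rw [Matrix.mulVec, dotProduct, Pi.zero_apply]
        simp only [Matrix.of_apply, Pi.sub_apply, mul_sub, Finset.sum_sub_distrib]
        simp only [coeff_C_mul] at h5
        rw [sub_eq_zero]
        refine Eq.trans (Finset.sum_congr rfl fun l _ => mul_comm _ _) (h5.trans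
          (Finset.sum_congr rfl fun l _ => mul_comm _ _))
      have h5 := Matrix.eq_zero_of_mulVec_eq_zero hdet2 h4
      exact sub_eq_zero.1 h5
    have h4 := expand_prod (algebraMap k K) Jp τ c α hc a b
    have h5 := expand_prod (algebraMap k K) Jp τ c α hc a' b'
    rw [h4, h5]
    refine Finset.sum_congr rfl fun l _ => ?_
    have h6 : (∑ i, ∑ j, α a i * α b j * c i j l) = ∑ i, ∑ j, α a' i * α b' j * c i j l :=
      congrFun h3 l
    rw [h6]

end

end Pool.Agent.Y174.T
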