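import Pool.Agent.Y174.T2
import Pool.Agent.Y174.T4
import Pool.Agent.Y174.Main2

/-! Varieties of Kodaira dimension zero with generically generated symmetric differentials. -/

set_option autoImplicit false
set_option linter.overlappingInstances false
set_option linter.unusedSectionVars false

universe u v

open FF MvPolynomial Pool.Agent.W619.PQ Pool.Agent.W619.PL Pool.Agent.W619.TW
  Pool.Agent.W603.LV Pool.Agent.W619.Y Pool.Agent.Y174.T

namespace Pool.Agent.Y174

section gen

theorem exists_sub_degree {n : ℕ} (γ : Fin n →₀ ℕ) (r : ℕ) (hr : r ≤ γ.degree) :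
    ∃ α : Fin n →₀ ℕ, α ≤ γ ∧ α.degree = r := by
  induction r with
  | zero => exact ⟨0, fun _ => Nat.zero_le _, by simp⟩
  | succ r ih =>
    obtain ⟨α, hα, hd⟩ := ih (by omega)
    have h1 : ∃ i, α i < γ i := by
      by_contra hcon
      push Not at hcon
      have h2 : γ.degree ≤ α.degree := by
        rw [Finsupp.degree_eq_sum, Finsupp.degree_eq_sum]
        exact Finset.sum_le_sum fun i _ => hcon i
      omega
    obtain ⟨i, hi⟩ := h1
    refine ⟨α + Finsupp.single i 1, fun j => ?_, ?_⟩
    · by_cases hj : j = i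
      · subst hj
        rw [Finsupp.add_apply, Finsupp.single_eq_same]
        omega
      · rw [Finsupp.add_apply, Finsupp.single_eq_of_ne hj, add_zero]
        exact hα j
    · rw [map_add Finsupp.degree, Finsupp.degree_single, hd]

variable {K : Type*} [Field K] {n m : ℕ}

/-- products of bases -/
theorem exists_products [DecidableEq (Ex n m)] (J : Ex n m → homogeneousSubmodule (Fin n) K m)
    (hJ0 : (cf J).det ≠ 0) :
    ∃ τ : Ex n (2 * m) → Ex n m × Ex n m, ∀ [DecidableEq (Ex n (2 * m))],
      (Matrix.of fun (d l : Ex n (2 * m)) => coeff d.1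
        ((J (τ l).1 : MvPolynomial (Fin n) K) * (J (τ l).2 : MvPolynomial (Fin n) K))).det ≠ 0 := by
  classical
  obtain ⟨τ, hτ⟩ := exists_det (K := K) (I := Ex n (2 * m)) (α := Ex n m × Ex n m)
    (fun p d => coeff d.1 ((J p.1 : MvPolynomial (Fin n) K) * (J p.2 : MvPolynomial (Fin n) K))) (by
    -- the monomials of degree `m`
    have hu : IsUnit (cf J).det := isUnit_iff_ne_zero.2 hJ0
    have hmon : ∀ a : Ex n m, ∃ u : Ex n m → K,
        (mono K n m a : MvPolynomial (Fin n) K) = ∑ j, C (u j) * (J j : MvPolynomial (Fin n) K) := by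
      intro a
      refine ⟨(cf J)⁻¹.mulVec fun d => (T.basis K n m).repr (mono K n m a) d, ?_⟩
      set x := (cf J)⁻¹.mulVec fun d => (T.basis K n m).repr (mono K n m a) d with hx
      have hx2 : (cf J).mulVec x = fun d => (T.basis K n m).repr (mono K n m a) d := by
        rw [hx, Matrix.mulVec_mulVec, Matrix.mul_nonsing_inv _ hu, Matrix.one_mulVec]
      have h1 : mono K n m a = ∑ j, x j • J j := by
        apply (T.basis K n m).repr.injective
        ext d
        rw [← congrFun hx2 d, map_sum, Finsupp.finset_sum_apply]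
        refine Finset.sum_congr rfl fun j _ => ?_
        rw [map_smul, Finsupp.smul_apply, smul_eq_mul, mul_comm]
        rfl
      have h2 := congrArg Subtype.val h1
      rw [Submodule.coe_sum] at h2
      rw [h2]
      refine Finset.sum_congr rfl fun j _ => ?_
      rw [Submodule.coe_smul, smul_eq_C_mul]
    choose u hu2 using hmon
    rw [eq_top_iff]
    intro x _
    have hx : x = ∑ d : Ex n (2 * m), x d • (Pi.single d (1 : K) : Ex n (2 * m) → K) := by
      funext i
      rw [Finset.sum_apply]
      simp [Pi.single_apply]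
    rw [hx]
    refine Submodule.sum_mem _ fun γ _ => Submodule.smul_mem _ _ ?_
    obtain ⟨α, hα, hd⟩ := exists_sub_degree γ.1 m (by rw [γ.2]; omega)
    have hβ : (γ.1 - α).degree = m := by
      have h1 := congrArg Finsupp.degree (add_tsub_cancel_of_le hα)
      rw [map_add Finsupp.degree, hd, γ.2] at h1
      omega
    have h1 : (Pi.single γ (1 : K) : Ex n (2 * m) → K) = fun d => coeff d.1
        ((mono K n m ⟨α, hd⟩ : MvPolynomial (Fin n) K) *
          (mono K n m ⟨γ.1 - α, hβ⟩ : MvPolynomial (Fin n) K)) := by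
      funext d
      change _ = coeff d.1 (monomial α (1 : K) * monomial (γ.1 - α) (1 : K))
      rw [monomial_mul, add_tsub_cancel_of_le hα, one_mul, coeff_monomial, Pi.single_apply]
      by_cases h : d = γ
      · rw [if_pos h, if_pos (by rw [h])]
      · rw [if_neg h, if_neg (fun h' => h (Subtype.ext h'.symm))]
    have h2 : (fun d : Ex n (2 * m) => coeff d.1
        ((mono K n m ⟨α, hd⟩ : MvPolynomial (Fin n) K) *
          (mono K n m ⟨γ.1 - α, hβ⟩ : MvPolynomial (Fin n) K))) =
        ∑ i, ∑ j, (u ⟨α, hd⟩ i * u ⟨γ.1 - α, hβ⟩ j) • (fun d : Ex n (2 * m) => coeff d.1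
          ((J i : MvPolynomial (Fin n) K) * (J j : MvPolynomial (Fin n) K))) := by
      funext d
      rw [hu2, hu2, Finset.sum_mul_sum, coeff_sum, Finset.sum_apply]
      refine Finset.sum_congr rfl fun i _ => ?_
      rw [coeff_sum, Finset.sum_apply]
      refine Finset.sum_congr rfl fun j _ => ?_
      rw [Pi.smul_apply, smul_eq_mul]
      have h3 : C (u ⟨α, hd⟩ i) * (J i : MvPolynomial (Fin n) K) *
          (C (u ⟨γ.1 - α, hβ⟩ j) * (J j : MvPolynomial (Fin n) K)) =
          C (u ⟨α, hd⟩ i * u ⟨γ.1 - α, hβ⟩ j) * ((J i : MvPolynomial (Fin n) K) * (J j : MvPolynomial (Fin n) K)) := by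
        rw [C_mul]
        ring
      rw [h3, coeff_C_mul]
    rw [h1, h2]
    exact Submodule.sum_mem _ fun i _ => Submodule.sum_mem _ fun j _ =>
      Submodule.smul_mem _ _ (Submodule.subset_span ⟨(i, j), rfl⟩))
  refine ⟨τ, fun {inst} => ?_⟩
  have h1 : (Matrix.of fun (d l : Ex n (2 * m)) => coeff d.1
        ((J (τ l).1 : MvPolynomial (Fin n) K) * (J (τ l).2 : MvPolynomial (Fin n) K))) =
      (Matrix.of fun l => (fun (p : Ex n m × Ex n m) (d : Ex n (2 * m)) => coeff d.1
        ((J p.1 : MvPolynomial (Fin n) K) * (J p.2 : MvPolynomial (Fin n) K))) (τ l)).transpose := rfl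
  rw [h1, Matrix.det_transpose]
  exact det_ne _ _ _ hτ

/-- linear forms -/
theorem eval_linear {ℓ : MvPolynomial (Fin n) K} (h : ℓ.IsHomogeneous 1) (x : Fin n → K) :
    eval x ℓ = ∑ c, coeff (Finsupp.single c 1) ℓ * x c := by
  classical
  have h1 : ℓ = ∑ c, monomial (Finsupp.single c 1) (coeff (Finsupp.single c 1) ℓ) := by
    ext e
    rw [coeff_sum]
    by_cases he : ∃ c, Finsupp.single c 1 = e
    · obtain ⟨c, rfl⟩ := he
      rw [Finset.sum_eq_single c]
      · rw [coeff_monomial, if_pos rfl]
      · intro b _ hb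
        rw [coeff_monomial, if_neg]
        intro h'
        exact hb (Finsupp.single_left_injective one_ne_zero h')
      · intro h'
        exact absurd (Finset.mem_univ _) h'
    · rw [Finset.sum_eq_zero]
      · apply h.coeff_eq_zero
        intro hd
        apply he
        rw [Finsupp.degree_eq_sum] at hd
        have h2 : ∃ c, e c ≠ 0 := by
          by_contra hcon
          push Not at hcon
          simp [hcon] at hd
        obtain ⟨c, hc⟩ := h2
        refine ⟨c, ?_⟩
        have h3 := Finset.add_sum_erase Finset.univ (fun i => e i) (Finset.mem_univ c)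
        rw [hd] at h3
        have h4 : e c = 1 := by omega
        have h5 : ∑ i ∈ Finset.univ.erase c, e i = 0 := by omega
        ext j
        by_cases hj : j = c
        · subst hj
          rw [Finsupp.single_eq_same, h4]
        · rw [Finsupp.single_eq_of_ne hj,
            Finset.sum_eq_zero_iff.1 h5 j (Finset.mem_erase.2 ⟨hj, Finset.mem_univ j⟩)]
      · intro c _
        rw [coeff_monomial, if_neg (fun h' => he ⟨c, h'⟩)]
  conv_lhs => rw [h1]
  rw [map_sum]
  refine Finset.sum_congr rfl fun c _ => ?_
  rw [eval_monomial]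
  congr 1
  simp

end gen

section

variable {k : Type v} [Field k] [CharZero k] {K : Type u} [Field K] [Algebra k K] {n m : ℕ}

theorem sym_mul (y : Fin n → K) (p q : MvPolynomial (Fin n) K) (D : Derivation k K K) :
    sym y (p * q) D = sym y p D * sym y q D := map_mul _ _ _

theorem eval_aeval {r : ℕ} (f : Fin n → MvPolynomial (Fin r) K) (a : Fin r → K)
    (p : MvPolynomial (Fin n) K) :
    eval a (aeval f p) = eval (fun c => eval a (f c)) p := by
  induction p using MvPolynomial.induction_on with
  | C a => simp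
  | add p q hp hq => rw [map_add, map_add, hp, hq, map_add]
  | mul_X p i hp =>
    rw [map_mul, map_mul, hp, map_mul]
    congr 1
    simp

theorem sym_isSymDiff (y : Fin n → K) (p : MvPolynomial (Fin n) K) (hp : p.IsHomogeneous m) :
    IsSymDiff m (sym (k := k) y p) := by
  intro r D
  refine ⟨aeval (fun c => ∑ j, C (D j (y c)) * X j) p, ?_, fun a => ?_⟩
  · have h1 := hp.aeval (fun c => ∑ j, C (D j (y c)) * X j : Fin n → MvPolynomial (Fin r) K)
      (n := 1) (fun c => by
        refine IsHomogeneous.sum _ _ _ fun j _ => ?_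
        simpa using (isHomogeneous_C (Fin r) (D j (y c))).mul (isHomogeneous_X K j))
    rw [one_mul] at h1
    exact h1
  · unfold sym
    have h1 : (fun c => (∑ i, a i • D i) (y c)) = fun c => ∑ j, D j (y c) * a j := by
      funext c
      rw [Pool.Agent.W721.PG.EFF2.der_sum]
      exact Finset.sum_congr rfl fun j _ => mul_comm _ _
    rw [h1, eval_aeval]
    refine congrArg (fun f => eval f p) (funext fun c => ?_)
    rw [map_sum]
    refine Finset.sum_congr rfl fun j _ => ?_
    rw [map_mul, eval_C, eval_X]

end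

end Pool.Agent.Y174
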