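import Pool.Agent.Y174.T5

/-! Varieties of Kodaira dimension zero with generically generated symmetric differentials: the
basis of regular symmetric differentials and its products. -/

set_option autoImplicit false
set_option linter.overlappingInstances false
set_option linter.unusedSectionVars false

universe u v

open FF MvPolynomial Pool.Agent.W619.PQ Pool.Agent.W619.PL Pool.Agent.W619.TW
  Pool.Agent.W603.LV Pool.Agent.W619.Y Pool.Agent.Y174.T

namespace Pool.Agent.Y174

section

variable {k : Type v} [Field k] [CharZero k] {K : Type u} [Field K] [Algebra k K] {n m : ℕ}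

theorem val_sum (y : Fin n → K) (E : Fin n → Derivation k K K)
    (hE : ∀ i j, E i (y j) = if i = j then 1 else 0) (a : Fin n → K) (c : Fin n) :
    (∑ i, a i • E i) (y c) = a c := by
  rw [Pool.Agent.W721.PG.EFF2.der_sum]
  have h1 : ∀ i, a i * E i (y c) = if i = c then a i else 0 := fun i => by
    rw [hE]
    split_ifs <;> simp
  simp only [h1]
  rw [Finset.sum_ite_eq' Finset.univ c a, if_pos (Finset.mem_univ c)]

/-- the symmetric differentials as a linear map -/
noncomputable def symL (y : Fin n → K) :
    homogeneousSubmodule (Fin n) K m →ₗ[K] (Derivation k K K → K) where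
  toFun p := sym y (p : MvPolynomial (Fin n) K)
  map_add' p q := by
    funext D
    exact map_add _ _ _
  map_smul' c p := by
    funext D
    exact smul_eval _ _ _

theorem symL_apply (y : Fin n → K) (p : homogeneousSubmodule (Fin n) K m) :
    symL (k := k) y p = sym y (p : MvPolynomial (Fin n) K) := rfl

theorem symL_inj (y : Fin n → K) (E : Fin n → Derivation k K K)
    (hE : ∀ i j, E i (y j) = if i = j then 1 else 0) :
    Function.Injective (symL (k := k) (m := m) y) := by
  have hK0 : CharZero K := charZero_of_injective_algebraMap (algebraMap k K).injective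
  rw [injective_iff_map_eq_zero]
  intro p hp
  apply Subtype.ext
  refine MvPolynomial.funext fun a => ?_
  have h1 := congrFun hp (∑ i, a i • E i)
  change eval (fun c => (∑ i, a i • E i) (y c)) (p : MvPolynomial (Fin n) K) = 0 at h1
  have h2 : (fun c => (∑ i, a i • E i) (y c)) = a := funext fun c => val_sum y E hE a c
  rw [h2] at h1
  rw [h1]
  exact (map_zero _).symm

/-- A basis of regular symmetric differentials. -/
theorem exists_J (y : Fin n → K) (hy : IsTranscendenceBasis k y) (hgen : GenGen k K n m) :
    ∃ J : Ex n m → homogeneousSubmodule (Fin n) K m, (∀ [DecidableEq (Ex n m)], (cf J).det ≠ 0) ∧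
      ∀ j, ∀ v : Place k K, IsDivisorial v n → ∀ D : Derivation k K K, Pres v D →
        v.Reg (sym y (J j : MvPolynomial (Fin n) K) D) := by
  classical
  obtain ⟨E, hE⟩ := Pool.Agent.W636.PG.exists_duals k K n y hy
  let R : Set (homogeneousSubmodule (Fin n) K m) :=
    {p | SymReg n (sym (k := k) y (p : MvPolynomial (Fin n) K))}
  have hR : Submodule.span K R = ⊤ := by
    rw [eq_top_iff]
    intro p _
    have h1 := hgen (sym y (p : MvPolynomial (Fin n) K)) (sym_isSymDiff y _ p.2)
    have h2 : {s : Derivation k K K → K | IsSymDiff m s ∧ SymReg n s} ⊆ symL y '' R := by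
      rintro s ⟨hs1, hs2⟩
      obtain ⟨q, hq, hqe⟩ := hs1 n E
      have hs : s = sym y q := by
        funext D
        have h3 := hqe fun c => D (y c)
        rw [Pool.Agent.W73.PG.PULL.expand y hy E hE D] at h3
        exact h3
      refine ⟨⟨q, hq⟩, ?_, ?_⟩
      · change SymReg n (sym y q)
        rw [← hs]
        exact hs2
      · rw [symL_apply]
        exact hs.symm
    have h3 := Submodule.span_mono h2 h1
    rw [Submodule.span_image, ← symL_apply] at h3
    obtain ⟨q, hq, hqe⟩ := h3
    rw [← symL_inj y E hE hqe]
    exact hq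
  let b := (T.basis K n m).repr.trans (Finsupp.linearEquivFunOnFinite K K (Ex n m))
  have hb : ∀ (p : homogeneousSubmodule (Fin n) K m) (d : Ex n m),
      b p d = (T.basis K n m).repr p d := fun _ _ => rfl
  obtain ⟨β, hβ⟩ := exists_det (K := K) (I := Ex n m) (α := R) (fun p => b p) (by
    have h1 : Set.range (fun p : R => b p) = b '' R := by
      ext x
      constructor
      · rintro ⟨p, rfl⟩
        exact ⟨p, p.2, rfl⟩
      · rintro ⟨p, hp, rfl⟩
        exact ⟨⟨p, hp⟩, rfl⟩
    rw [h1]
    have h2 : Submodule.span K (b '' R) = Submodule.map (b : homogeneousSubmodule (Fin n) K m →ₗ[K]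
        (Ex n m → K)) (Submodule.span K R) := by
      rw [Submodule.map_span]
      rfl
    rw [h2, hR, Submodule.map_top, LinearMap.range_eq_top]
    exact b.surjective)
  refine ⟨fun j => (β j).1, fun {inst} => ?_, fun j v hv D hD => (β j).2 v hv D hD⟩
  have h1 : cf (fun j => (β j).1) = (Matrix.of fun l => b (β l)).transpose := rfl
  rw [h1, Matrix.det_transpose]
  exact det_ne _ _ _ hβ

end

end Pool.Agent.Y174
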