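import Pool.Agent.Y174.T6

/-! Varieties of Kodaira dimension at most `0` with generically generated symmetric differentials:
the linear forms. -/

set_option autoImplicit false
set_option linter.overlappingInstances false
set_option linter.unusedSectionVars false

universe u v

open FF MvPolynomial Pool.Agent.W619.PQ Pool.Agent.W619.PL Pool.Agent.W619.TW
  Pool.Agent.W603.LV Pool.Agent.W619.Y Pool.Agent.Y174.T

namespace Pool.Agent.Y174

section

variable {k : Type v} [Field k] [CharZero k] {K : Type u} [Field K] [Algebra k K] {n m : ℕ}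

theorem cf_apply (J : Ex n m → homogeneousSubmodule (Fin n) K m) (d j : Ex n m) :
    cf J d j = coeff d.1 (J j : MvPolynomial (Fin n) K) := repr_eq _ _

/-- The symmetric differentials split into linear forms. -/
theorem exists_forms [IsAlgClosed k] (hn : 1 ≤ n) (hm : 1 ≤ m) (hκ : ¬ KodTr k K n 1)
    (y : Fin n → K) (hy : IsTranscendenceBasis k y) (hgen : GenGen k K n m) :
    ∃ (φ : K) (ℓ : Fin n → MvPolynomial (Fin n) K), φ ≠ 0 ∧ (∀ i, (ℓ i).IsHomogeneous 1) ∧
      (∀ i, ∀ v : Place k K, IsDivisorial v n → ∀ D : Derivation k K K, Pres v D →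
        v.Reg (φ * eval (fun c => D (y c)) (ℓ i) ^ m)) ∧
      ∀ D : Derivation k K K, (∀ i, eval (fun c => D (y c)) (ℓ i) = 0) → ∀ c, D (y c) = 0 := by
  classical
  obtain ⟨J, hJ0, hJ⟩ := exists_J y hy hgen
  obtain ⟨τ, hτ⟩ := exists_products J hJ0
  -- the products
  have hprod : ∀ i j, ((J i : MvPolynomial (Fin n) K) * (J j : MvPolynomial (Fin n) K)) ∈
      homogeneousSubmodule (Fin n) K (2 * m) := by
    intro i j
    have h1 : ((J i : MvPolynomial (Fin n) K) *
        (J j : MvPolynomial (Fin n) K)).IsHomogeneous (m + m) :=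
      IsHomogeneous.mul (J i).2 (J j).2
    rw [← two_mul] at h1
    exact h1
  let P : Ex n (2 * m) → homogeneousSubmodule (Fin n) K (2 * m) := fun l =>
    ⟨_, hprod (τ l).1 (τ l).2⟩
  have hP0 : (cf P).det ≠ 0 := by
    have h1 : cf P = (Matrix.of fun (d l : Ex n (2 * m)) => coeff d.1
        ((J (τ l).1 : MvPolynomial (Fin n) K) * (J (τ l).2 : MvPolynomial (Fin n) K))) := by
      ext d l
      rw [cf_apply]
      rfl
    rw [h1]
    exact hτ
  have hreg2 : ∀ i j, ∀ v : Place k K, IsDivisorial v n → ∀ D : Derivation k K K, Pres v D →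
      v.Reg (sym y ((J i : MvPolynomial (Fin n) K) * (J j : MvPolynomial (Fin n) K)) D) := by
    intro i j v hv D hD
    rw [sym_mul]
    have h1 : Ge v 0 (sym y (J i : MvPolynomial (Fin n) K) D) := hJ i v hv D hD
    have h2 : Ge v 0 (sym y (J j : MvPolynomial (Fin n) K) D) := hJ j v hv D hD
    have h3 : Ge v 0 (sym y (J i : MvPolynomial (Fin n) K) D *
        sym y (J j : MvPolynomial (Fin n) K) D) := by simpa using h1.mul h2
    exact h3
  have hc : ∀ i j, ∃ c : Ex n (2 * m) → k,
      (J i : MvPolynomial (Fin n) K) * (J j : MvPolynomial (Fin n) K) =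
        ∑ l, C (algebraMap k K (c l)) * ((J (τ l).1 : MvPolynomial (Fin n) K) *
          (J (τ l).2 : MvPolynomial (Fin n) K)) := by
    intro i j
    obtain ⟨c, hc⟩ := const_coeff (m := 2 * m) hn (by omega) hκ y hy P
      (fun l v hv D hD => hreg2 _ _ v hv D hD) hP0 ⟨_, hprod i j⟩
      (fun v hv D hD => hreg2 i j v hv D hD)
    refine ⟨c, ?_⟩
    have h1 := congrArg Subtype.val hc
    rw [Submodule.coe_sum] at h1
    refine h1.trans (Finset.sum_congr rfl fun l _ => ?_)
    rw [Submodule.coe_smul, smul_eq_C_mul]
  choose c hc using hc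
  have hcf : cf J = (Matrix.of fun (d j : Ex n m) => coeff d.1 (J j : MvPolynomial (Fin n) K)) := by
    ext d j
    rw [cf_apply]
    rfl
  obtain ⟨α, hα, hrel⟩ := split (k := k) (fun j => (J j : MvPolynomial (Fin n) K))
    (fun j => (J j).2) (by rw [← hcf]; exact hJ0) τ hτ c hc
  -- the new basis
  let x : Ex n m → homogeneousSubmodule (Fin n) K m := fun a => ∑ j, algebraMap k K (α a j) • J j
  have hx : ∀ a, (x a : MvPolynomial (Fin n) K) =
      ∑ j, C (algebraMap k K (α a j)) * (J j : MvPolynomial (Fin n) K) := by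
    intro a
    change ((∑ j, algebraMap k K (α a j) • J j : homogeneousSubmodule (Fin n) K m) :
      MvPolynomial (Fin n) K) = _
    rw [Submodule.coe_sum]
    refine Finset.sum_congr rfl fun l _ => ?_
    rw [Submodule.coe_smul, smul_eq_C_mul]
  have hcx : cf x = cf J * (α.map (algebraMap k K)).transpose := by
    ext d a
    rw [cf_apply, hx, coeff_sum, Matrix.mul_apply]
    refine Finset.sum_congr rfl fun j _ => ?_
    rw [coeff_C_mul, cf_apply, Matrix.transpose_apply, Matrix.map_apply, mul_comm]
  have hcx0 : (cf x).det ≠ 0 := by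
    rw [hcx, Matrix.det_mul, Matrix.det_transpose]
    refine mul_ne_zero hJ0 ?_
    have h1 : (α.map (algebraMap k K)).det = algebraMap k K α.det := by
      rw [RingHom.map_det]
      rfl
    rw [h1]
    exact (map_ne_zero_iff _ (algebraMap k K).injective).2 hα
  have hind : LinearIndependent K x := by
    rw [Fintype.linearIndependent_iff]
    intro g hg
    have h1 : (cf x).mulVec g = 0 := by
      funext d
      have h2 := congrArg (fun p => (T.basis K n m).repr p d) hg
      simp only [map_sum, map_zero, Finsupp.zero_apply, Finsupp.finset_sum_apply, map_smul,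
        Finsupp.smul_apply, smul_eq_mul] at h2
      exact (Finset.sum_congr rfl fun j _ => mul_comm _ _).trans h2
    have h2 := Matrix.eq_zero_of_mulVec_eq_zero hcx0 h1
    exact fun i => congrFun h2 i
  obtain ⟨φ, ℓ, hφ, hℓ, hxl⟩ := veronese hn hm x (fun a b c d h => by
    rw [hx, hx, hx, hx]
    exact hrel a b c d h) hind
  refine ⟨φ, ℓ, hφ, hℓ, fun i v hv D hD => ?_, fun D hD => ?_⟩
  · -- regularity
    let a : Ex n m := ⟨Finsupp.single i m, by simp⟩
    have h1 : (x a : MvPolynomial (Fin n) K) = C φ * ℓ i ^ m := by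
      rw [hxl a, Finset.prod_eq_single i]
      · change C φ * ℓ i ^ (Finsupp.single i m i) = _
        rw [Finsupp.single_eq_same]
      · intro b _ hb
        change ℓ b ^ (Finsupp.single i m b) = 1
        rw [Finsupp.single_eq_of_ne hb, pow_zero]
      · intro h
        exact absurd (Finset.mem_univ i) h
    have h2 : φ * eval (fun c => D (y c)) (ℓ i) ^ m =
        eval (fun c => D (y c)) (x a : MvPolynomial (Fin n) K) := by
      rw [h1, map_mul, map_pow, eval_C]
    rw [h2, hx, map_sum]
    have h3 : Ge v 0 (∑ j, eval (fun c => D (y c)) (C (algebraMap k K (α a j)) *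
        (J j : MvPolynomial (Fin n) K))) := by
      refine Ge.sum _ _ fun j _ => ?_
      rw [map_mul, eval_C]
      have h4 : Ge v 0 (eval (fun c => D (y c)) (J j : MvPolynomial (Fin n) K)) :=
        hJ j v hv D hD
      simpa using (Ge.const (P := v) (α a j)).mul h4
    exact h3
  · -- the kernel
    intro c
    have hx0 : ∀ a, eval (fun c => D (y c)) (x a : MvPolynomial (Fin n) K) = 0 := by
      intro a
      rw [hxl a, map_mul, map_prod]
      have h1 : ∃ i, a.1 i ≠ 0 := by
        by_contra hcon
        push Not at hcon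
        have h2 : a.1.degree = 0 := by
          rw [Finsupp.degree_eq_sum]
          exact Finset.sum_eq_zero fun i _ => hcon i
        have h3 := a.2
        omega
      obtain ⟨i, hi⟩ := h1
      rw [Finset.prod_eq_zero (Finset.mem_univ i) (by rw [map_pow, hD i, zero_pow hi]), mul_zero]
    have hall : ∀ p : homogeneousSubmodule (Fin n) K m,
        eval (fun c => D (y c)) (p : MvPolynomial (Fin n) K) = 0 := by
      intro p
      have hu : IsUnit (cf x).det := isUnit_iff_ne_zero.2 hcx0
      set z := (cf x)⁻¹.mulVec fun d => (T.basis K n m).repr p d with hz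
      have hz2 : (cf x).mulVec z = fun d => (T.basis K n m).repr p d := by
        rw [hz, Matrix.mulVec_mulVec, Matrix.mul_nonsing_inv _ hu, Matrix.one_mulVec]
      have h1 : p = ∑ j, z j • x j := by
        apply (T.basis K n m).repr.injective
        ext d
        rw [← congrFun hz2 d, map_sum, Finsupp.finset_sum_apply]
        refine Finset.sum_congr rfl fun j _ => ?_
        rw [map_smul, Finsupp.smul_apply, smul_eq_mul, mul_comm]
        rfl
      have h2 := congrArg Subtype.val h1
      rw [Submodule.coe_sum] at h2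
      rw [h2, map_sum]
      refine Finset.sum_eq_zero fun j _ => ?_
      rw [Submodule.coe_smul, smul_eval, hx0, mul_zero]
    have h1 := hall ⟨X c ^ m, by
      have h2 := (isHomogeneous_X K c).pow m
      rw [one_mul] at h2
      exact h2⟩
    change eval (fun c => D (y c)) (X c ^ m) = 0 at h1
    rw [map_pow, eval_X] at h1
    exact pow_eq_zero_iff (by omega) |>.1 h1

end

end Pool.Agent.Y174
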