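import Pool.Agent.Y174.T7

/-! Varieties of Kodaira dimension at most `0` with generically generated symmetric differentials:
the cyclic cover of maximal Albanese dimension. -/

set_option autoImplicit false
set_option linter.overlappingInstances false
set_option linter.unusedSectionVars false

universe u v

open FF MvPolynomial Pool.Agent.W619.PQ Pool.Agent.W619.PL Pool.Agent.W619.TW
  Pool.Agent.W603.LV Pool.Agent.W619.Y Pool.Agent.Y174.T

namespace Pool.Agent.Y174

section

variable {k : Type v} [Field k] [CharZero k] {K : Type u} [Field K] [Algebra k K] {n m : ℕ}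

/-- the multivalued form `t · ℓ(dy)` -/
noncomputable def mform {Ω : Type u} [Field Ω] [Algebra K Ω] (y : Fin n → K) (t : Ω)
    (ℓ : MvPolynomial (Fin n) K) : Derivation k K K →ₗ[K] Ω where
  toFun D := t * algebraMap K Ω (∑ c, coeff (Finsupp.single c 1) ℓ * D (y c))
  map_add' D D' := by
    rw [← mul_add, ← map_add, ← Finset.sum_add_distrib]
    congr 2
    refine Finset.sum_congr rfl fun c _ => ?_
    change _ * (D (y c) + D' (y c)) = _
    rw [mul_add]
  map_smul' a D := by
    rw [RingHom.id_apply, Algebra.smul_def, mul_left_comm, ← map_mul, Finset.mul_sum]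
    congr 2
    refine Finset.sum_congr rfl fun c _ => ?_
    change _ * (a * D (y c)) = _
    rw [mul_left_comm]

theorem mform_apply {Ω : Type u} [Field Ω] [Algebra K Ω] (y : Fin n → K) (t : Ω)
    {ℓ : MvPolynomial (Fin n) K} (hℓ : ℓ.IsHomogeneous 1) (D : Derivation k K K) :
    mform (k := k) y t ℓ D = t * algebraMap K Ω (eval (fun c => D (y c)) ℓ) := by
  rw [eval_linear hℓ]
  rfl

open IntermediateField in
/-- Main theorem on symmetric differentials. -/
theorem main3 [IsAlgClosed k] (hess : Algebra.EssFiniteType k K)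
    (hn : Algebra.trdeg k K = n) (hm : 1 ≤ m) (hκ : ¬ KodTr k K n 1) (hgen : GenGen k K n m) :
    ∃ t : AlgebraicClosure K, t ≠ 0 ∧ (∃ f : K, algebraMap K (AlgebraicClosure K) f = t ^ m) ∧
      MaxAlb k K⟮t⟯ n ∧ KodTr k K n 0 ∧ (∀ a, KodTr k K n a ↔ KodTr k K⟮t⟯ n a) ∧
      ∀ a, NumLe k K⟮t⟯ n (fun _ => False) a → NumLe k K n (fun _ => False) a := by
  classical
  have hK0 : CharZero K := charZero_of_injective_algebraMap (algebraMap k K).injective
  obtain ⟨y, hy⟩ := Pool.Agent.W636.PG.exists_basis k K n hn
  obtain ⟨E, hE⟩ := Pool.Agent.W636.PG.exists_duals k K n y hy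
  have hexp := fun D : Derivation k K K => Pool.Agent.W73.PG.PULL.expand y hy E hE D
  rcases Nat.eq_zero_or_pos n with hn0 | hn1
  · -- dimension `0`
    subst hn0
    obtain ⟨L, hfd, hgal, hadj, hA, hK, hKod, hNum⟩ := main2 (k := k) (K := K)
      (Ω := AlgebraicClosure K) hess hn (ι := Fin 0) (fun i => i.elim0) (fun i => i.elim0)
      (fun D _ => by rw [← hexp D]; simp)
    have hL : L = K⟮(1 : AlgebraicClosure K)⟯ := by
      rw [← hadj, IntermediateField.adjoin_one]
      have h1 : {z : AlgebraicClosure K | ∃ (g : AlgebraicClosure K ≃ₐ[K] AlgebraicClosure K)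
          (i : Fin 0) (D : Derivation k K K),
          g ((fun i : Fin 0 => (i.elim0 : Derivation k K K →ₗ[K] AlgebraicClosure K)) i D) = z} =
          ∅ := by
        ext z
        refine ⟨?_, fun h => h.elim⟩
        rintro ⟨g, i, _⟩
        exact i.elim0
      rw [h1, IntermediateField.adjoin_empty]
    subst hL
    exact ⟨1, one_ne_zero, ⟨1, by simp⟩, hA, hK, hKod, hNum⟩
  · obtain ⟨φ, ℓ, hφ, hℓ, hreg, hker⟩ := exists_forms hn1 hm hκ y hy hgen
    obtain ⟨t, ht⟩ := IsAlgClosed.exists_pow_nat_eq (algebraMap K (AlgebraicClosure K) φ)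
      (n := m) (by omega)
    have ht0 : t ≠ 0 := by
      intro h0
      rw [h0, zero_pow (by omega)] at ht
      exact hφ ((map_eq_zero_iff _ (algebraMap K (AlgebraicClosure K)).injective).1 ht.symm)
    have hker' : ∀ D : Derivation k K K, (∀ i, mform (k := k) y t (ℓ i) D = 0) → D = 0 := by
      intro D hD
      have h1 := hker D fun i => by
        have h2 := hD i
        rw [mform_apply y t (hℓ i)] at h2
        exact (map_eq_zero_iff _ (algebraMap K (AlgebraicClosure K)).injective).1
          ((mul_eq_zero.1 h2).resolve_left ht0)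
      rw [← hexp D]
      refine Finset.sum_eq_zero fun b _ => ?_
      rw [h1 b, zero_smul]
    obtain ⟨L, hfd, hgal, hadj, hA, hK, hKod, hNum⟩ := main2 (k := k) (K := K)
      (Ω := AlgebraicClosure K) hess hn (ι := Fin n) (fun i => mform y t (ℓ i))
      (fun i v hv D hD => by
        refine ⟨Polynomial.X ^ m - Polynomial.C (φ * eval (fun c => D (y c)) (ℓ i) ^ m),
          Polynomial.monic_X_pow_sub_C _ (by omega), fun j => ?_, ?_⟩
        · have h1 : Ge v 0 (φ * eval (fun c => D (y c)) (ℓ i) ^ m) := hreg i v hv D hD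
          rw [Polynomial.coeff_sub, Polynomial.coeff_X_pow, Polynomial.coeff_C]
          have h2 : Ge v 0 ((if j = m then 1 else 0 : K) -
              if j = 0 then φ * eval (fun c => D (y c)) (ℓ i) ^ m else 0) := by
            rw [sub_eq_add_neg]
            refine Ge.add ?_ (Ge.neg ?_)
            · split_ifs
              · simpa using Ge.const (P := v) (1 : k)
              · exact Ge.zero
            · split_ifs
              · exact h1
              · exact Ge.zero
          exact h2
        · rw [mform_apply y t (hℓ i), map_sub, map_pow, Polynomial.aeval_X, Polynomial.aeval_C,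
            mul_pow, ht, map_mul, map_pow, sub_self]) hker'
    have hL : L = K⟮t⟯ := by
      rw [← hadj]
      apply le_antisymm
      · rw [IntermediateField.adjoin_le_iff]
        rintro _ ⟨g, i, D, rfl⟩
        change g (mform (k := k) y t (ℓ i) D) ∈ K⟮t⟯
        rw [mform_apply y t (hℓ i), map_mul, AlgEquiv.commutes]
        refine mul_mem ?_ (IntermediateField.algebraMap_mem _ _)
        have h1 : (g t / t) ^ m = 1 := by
          rw [div_pow, ← map_pow, ht, AlgEquiv.commutes, div_self]
          exact (map_ne_zero_iff _ (algebraMap K (AlgebraicClosure K)).injective).2 hφ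
        have h2 : IsIntegral k (g t / t) := IsIntegral.of_pow (n := m) (by omega) (by
          rw [h1]
          exact isIntegral_one)
        obtain ⟨c, hc⟩ := minpoly.mem_range_of_degree_eq_one k (g t / t)
          (IsAlgClosed.degree_eq_one_of_irreducible k (minpoly.irreducible h2))
        have h3 : g t = algebraMap K (AlgebraicClosure K) (algebraMap k K c) * t := by
          rw [← IsScalarTower.algebraMap_apply, hc, div_mul_cancel₀ _ ht0]
        rw [h3]
        exact mul_mem (IntermediateField.algebraMap_mem _ _)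
          (IntermediateField.mem_adjoin_simple_self K t)
      · rw [IntermediateField.adjoin_simple_le_iff]
        obtain ⟨i, hi⟩ : ∃ i, mform (k := k) y t (ℓ i) (E ⟨0, hn1⟩) ≠ 0 := by
          by_contra hcon
          push Not at hcon
          have h1 := hker' _ hcon
          have h2 := hE ⟨0, hn1⟩ ⟨0, hn1⟩
          rw [h1, if_pos rfl] at h2
          exact zero_ne_one h2
        have h4 := hi
        rw [mform_apply y t (hℓ i)] at h4
        have h5 := right_ne_zero_of_mul h4
        have h3 : t = mform (k := k) y t (ℓ i) (E ⟨0, hn1⟩) *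
            (algebraMap K (AlgebraicClosure K) (eval (fun c => (E ⟨0, hn1⟩) (y c)) (ℓ i)))⁻¹ := by
          rw [mform_apply y t (hℓ i), mul_assoc, mul_inv_cancel₀ h5, mul_one]
        have h6 : mform (k := k) y t (ℓ i) (E ⟨0, hn1⟩) ∈
            IntermediateField.adjoin K {z | ∃ (g : AlgebraicClosure K ≃ₐ[K] AlgebraicClosure K)
              (i : Fin n) (D : Derivation k K K), g (mform (k := k) y t (ℓ i) D) = z} :=
          IntermediateField.subset_adjoin K _ ⟨AlgEquiv.refl, i, _, rfl⟩
        have h7 := mul_mem h6 (IntermediateField.algebraMap_mem _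
          (eval (fun c => (E ⟨0, hn1⟩) (y c)) (ℓ i))⁻¹)
        rw [map_inv₀, ← h3] at h7
        exact h7
    subst hL
    exact ⟨t, ht0, ⟨φ, ht.symm⟩, hA, hK, hKod, hNum⟩

end

end Pool.Agent.Y174
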