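import Pool.Agent.Y174.Core

/-! The invariant form made of the determinants of multivalued 1-forms and their differences. -/

set_option autoImplicit false
set_option linter.overlappingInstances false
set_option linter.unusedSectionVars false

universe u v

open FF IntermediateField Pool.Agent.W619.PQ Pool.Agent.W619.PL Pool.Agent.W619.TW
  Pool.Agent.W603.LV Pool.Agent.W619.Y Pool.Agent.W672.PG

namespace Pool.Agent.Y174

section

variable {k : Type v} {L : Type u} [Field k] [CharZero k] [Field L] [Algebra k L]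
  {G : Subgroup (L ≃ₐ[k] L)}

/-- an element of the group as a linear map over the fixed field -/
def gl (g : G) : L →ₗ[fixedField G] L where
  toFun := fun z => (g : L ≃ₐ[k] L) z
  map_add' := fun a b => map_add _ a b
  map_smul' := fun c z => by
    rw [Algebra.smul_def, Algebra.smul_def, map_mul]
    congr 1
    exact c.2 g

/-- the action on multivalued forms -/
noncomputable def act (g : G)
    (ω : Derivation k (fixedField G) (fixedField G) →ₗ[fixedField G] L) :
    Derivation k (fixedField G) (fixedField G) →ₗ[fixedField G] L := (gl g).comp ω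

theorem act_apply (g : G) (ω : Derivation k (fixedField G) (fixedField G) →ₗ[fixedField G] L)
    (D : Derivation k (fixedField G) (fixedField G)) : act g ω D = (g : L ≃ₐ[k] L) (ω D) := rfl

theorem act_inv (g : G) (ω : Derivation k (fixedField G) (fixedField G) →ₗ[fixedField G] L) :
    act g (act g⁻¹ ω) = ω := by
  ext D
  rw [act_apply, act_apply, ← AlgEquiv.mul_apply]
  have : (g : L ≃ₐ[k] L) * ((g⁻¹ : G) : L ≃ₐ[k] L) = 1 := by
    rw [← Subgroup.coe_mul, mul_inv_cancel, Subgroup.coe_one]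
  rw [this, AlgEquiv.one_apply]

theorem act_inj (g : G) : Function.Injective (act g) := by
  intro ω ω' h
  ext D
  have h1 := LinearMap.congr_fun h D
  rw [act_apply, act_apply] at h1
  exact (g : L ≃ₐ[k] L).injective h1

theorem form_expand {n : ℕ} {K : Type*} [Field K] [Algebra k K] [Algebra K L]
    [IsScalarTower k K L] (z : Fin n → K) (hz : IsTranscendenceBasis k z)
    (E : Fin n → Derivation k K K) (hE : ∀ i j, E i (z j) = if i = j then 1 else 0)
    (ω : Derivation k K K →ₗ[K] L) (D : Derivation k K K) :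
    ω D = ∑ b, algebraMap K L (D (z b)) * ω (E b) := by
  conv_lhs => rw [← Pool.Agent.W73.PG.PULL.expand z hz E hE D]
  rw [map_sum]
  refine Finset.sum_congr rfl fun b _ => ?_
  rw [map_smul, Algebra.smul_def]

theorem span_top {n : ℕ} [Finite G] (z : Fin n → fixedField G) (hz : IsTranscendenceBasis k z)
    (E : Fin n → Derivation k (fixedField G) (fixedField G))
    (hE : ∀ i j, E i (z j) = if i = j then 1 else 0)
    (S : Set (Derivation k (fixedField G) (fixedField G) →ₗ[fixedField G] L))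
    (hS : ∀ g : G, ∀ ω ∈ S, act g ω ∈ S)
    (hker : ∀ D : Derivation k (fixedField G) (fixedField G), (∀ ω ∈ S, ω D = 0) → D = 0) :
    Submodule.span L ((fun ω : Derivation k (fixedField G) (fixedField G) →ₗ[fixedField G] L =>
      fun j => ω (E j)) '' S) = ⊤ := by
  classical
  have := Fintype.ofFinite G
  have hL0 : CharZero L := charZero_of_injective_algebraMap (algebraMap k L).injective
  by_contra hcon
  obtain ⟨f, hf0, hf⟩ := Submodule.exists_le_ker_of_lt_top _ (lt_top_iff_ne_top.2 hcon)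
  let d : Fin n → L := fun j => f (Pi.single j 1)
  have hfd : ∀ x : Fin n → L, f x = ∑ j, x j * d j := by
    intro x
    have h1 : x = ∑ j, x j • (Pi.single j (1 : L) : Fin n → L) := by
      funext i
      rw [Finset.sum_apply]
      simp [Pi.single_apply]
    conv_lhs => rw [h1]
    rw [map_sum]
    refine Finset.sum_congr rfl fun j _ => ?_
    rw [map_smul, smul_eq_mul]
  have hd0 : ∃ j0, d j0 ≠ 0 := by
    by_contra h
    push Not at h
    apply hf0
    ext x
    simp only [hfd, LinearMap.zero_apply, LinearMap.comp_apply]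
    simp [h]
  obtain ⟨j0, hj0⟩ := hd0
  have h1 : ∀ ω ∈ S, ∑ j, ω (E j) * (d j / d j0) = 0 := by
    intro ω hω
    have h2 : f (fun j => ω (E j)) = 0 := by
      have h3 := hf (Submodule.subset_span ⟨ω, hω, rfl⟩)
      exact h3
    rw [hfd] at h2
    have h3 : ∑ j, ω (E j) * (d j / d j0) = (∑ j, ω (E j) * d j) / d j0 := by
      rw [Finset.sum_div]
      exact Finset.sum_congr rfl fun j _ => by rw [mul_div_assoc]
    rw [h3, h2, zero_div]
  have h2 : ∀ ω ∈ S, ∀ g : G, ∑ j, ω (E j) * (g : L ≃ₐ[k] L) (d j / d j0) = 0 := by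
    intro ω hω g
    have h3 := congrArg (g : L ≃ₐ[k] L) (h1 (act g⁻¹ ω) (hS g⁻¹ ω hω))
    rw [map_zero, map_sum] at h3
    rw [← h3]
    refine Finset.sum_congr rfl fun j _ => ?_
    rw [map_mul, ← act_apply, act_inv]
  let t : Fin n → fixedField G := fun j => ⟨∑ g : G, (g : L ≃ₐ[k] L) (d j / d j0), fun h => by
    change (h : L ≃ₐ[k] L) (∑ g : G, (g : L ≃ₐ[k] L) (d j / d j0)) = _
    rw [map_sum]
    exact Fintype.sum_equiv (Equiv.mulLeft h) _ _ (fun g => rfl)⟩
  have h3 : ∑ j, t j • E j = 0 := by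
    apply hker
    intro ω hω
    rw [map_sum]
    have h4 : ∀ j, ω (t j • E j) = ∑ g : G, ω (E j) * (g : L ≃ₐ[k] L) (d j / d j0) := by
      intro j
      rw [map_smul, Algebra.smul_def, mul_comm, ← Finset.mul_sum]
      rfl
    rw [Finset.sum_congr rfl fun j _ => h4 j, Finset.sum_comm]
    exact Finset.sum_eq_zero fun g _ => h2 ω hω g
  have h5 : (∑ j, t j • E j) (z j0) = t j0 := by
    rw [Pool.Agent.W721.PG.EFF2.der_sum]
    simp [hE]
  rw [h3] at h5
  have h6 : (t j0 : L) = Fintype.card G := by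
    change ∑ g : G, (g : L ≃ₐ[k] L) (d j0 / d j0) = _
    rw [div_self hj0]
    simp
  have h7 : (t j0 : L) = 0 := by rw [← h5]; rfl
  rw [h7] at h6
  exact (Nat.cast_ne_zero (R := L)).2 Fintype.card_ne_zero h6.symm

/-- completing a nonzero vector to a basis -/
theorem exists_tuple {n : ℕ} {H : Type*} (x : H → (Fin n → L)) (S : Set H)
    (hS : Submodule.span L (x '' S) = ⊤) (δ : H) (hδ : δ ∈ S) (hδ0 : x δ ≠ 0) :
    ∃ J : Fin n → H, (∀ i, J i ∈ S) ∧ (∃ i0, J i0 = δ) ∧
      (Matrix.of fun i => x (J i)).det ≠ 0 := by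
  classical
  have h1 : LinearIndepOn L id ({x δ} : Set (Fin n → L)) := by
    simpa using hδ0
  obtain ⟨b, hb1, hb2, hb3, hb4⟩ := exists_linearIndepOn_id_extension h1
    (Set.singleton_subset_iff.2 (Set.mem_image_of_mem x hδ))
  have hspan : ⊤ ≤ Submodule.span L (Set.range (Subtype.val : b → (Fin n → L))) := by
    rw [Subtype.range_coe, ← hS]
    exact Submodule.span_le.2 hb3
  let B : Module.Basis b L (Fin n → L) := Module.Basis.mk hb4 hspan
  have hfb : Finite b := Module.Finite.finite_basis B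
  have := Fintype.ofFinite b
  have hcard : Fintype.card b = n := by
    rw [← Module.finrank_eq_card_basis B, Module.finrank_fin_fun]
  let e : Fin n ≃ b := (Fintype.equivFinOfCardEq hcard).symm
  have hpre : ∀ c : b, ∃ h ∈ S, x h = c.1 ∧ (c.1 = x δ → h = δ) := by
    intro c
    by_cases hc : c.1 = x δ
    · exact ⟨δ, hδ, hc.symm, fun _ => rfl⟩
    · obtain ⟨h, hh, hh2⟩ := hb1 c.2
      exact ⟨h, hh, hh2, fun h' => absurd h' hc⟩
  choose pre hp1 hp2 hp3 using hpre
  refine ⟨fun i => pre (e i), fun i => hp1 _, ⟨e.symm ⟨x δ, hb2 rfl⟩, hp3 _ (by simp)⟩, ?_⟩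
  have h2 : LinearIndependent L (fun i => x (pre (e i))) := by
    have h3 : (fun i => x (pre (e i))) = (Subtype.val : b → (Fin n → L)) ∘ e := by
      funext i
      exact hp2 _
    rw [h3]
    exact (LinearIndependent.comp hb4 e e.injective)
  have h3 : IsUnit (Matrix.of fun i => x (pre (e i))) :=
    Matrix.linearIndependent_rows_iff_isUnit.1 h2
  exact ((Matrix.isUnit_iff_isUnit_det _).1 h3).ne_zero

theorem ge_det_row {ι : Type*} [Fintype ι] [DecidableEq ι] (w : Place k L) (A : Matrix ι ι L)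
    (hA : ∀ i j, Ge w 0 (A i j)) (i0 : ι) (h1 : ∀ j, Ge w 1 (A i0 j)) : Ge w 1 A.det := by
  obtain ⟨π, hπ0, hπ⟩ := w.surj
  have h2 : A = A.updateRow i0 (π • (fun j => π⁻¹ * A i0 j)) := by
    ext i j
    by_cases hi : i = i0
    · subst hi
      rw [Matrix.updateRow_self]
      change _ = π * (π⁻¹ * A i j)
      rw [mul_inv_cancel_left₀ hπ0]
    · rw [Matrix.updateRow_ne hi]
  rw [h2, Matrix.det_updateRow_smul]
  have h3 : Ge w 1 π := Or.inr hπ.ge
  have h4 : Ge w 0 (A.updateRow i0 (fun j => π⁻¹ * A i0 j)).det := by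
    refine ge_det w _ fun i j => ?_
    by_cases hi : i = i0
    · subst hi
      rw [Matrix.updateRow_self]
      have h5 : Ge w (-1) π⁻¹ := Or.inr (by rw [w.ord_inv, hπ])
      simpa using h5.mul (h1 j)
    · rw [Matrix.updateRow_ne hi]
      exact hA i j
  simpa using h3.mul h4

/-- The invariant form. -/
theorem exists_theta {n : ℕ} (hn : Algebra.trdeg k L = n) [Finite G]
    (S : Set (Derivation k (fixedField G) (fixedField G) →ₗ[fixedField G] L)) (hSf : S.Finite)
    (hS : ∀ g : G, ∀ ω ∈ S, act g ω ∈ S)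
    (hker : ∀ D : Derivation k (fixedField G) (fixedField G), (∀ ω ∈ S, ω D = 0) → D = 0)
    (hfaith : ∀ g : G, g ≠ 1 → ∃ ω ∈ S, act g ω ≠ ω)
    (hreg : ∀ ω ∈ S, ∀ (v : Place k (fixedField G)) (w : Place k L) (e : ℕ), IsDivisorial v n →
      Over w v e → ∀ D, Pres v D → Ge w 0 (ω D)) :
    ∃ (N : ℕ) (Θ : (Fin n → Derivation k (fixedField G) (fixedField G)) → fixedField G),
      IsPluriForm k (fixedField G) n N Θ ∧
      (∀ v : Place k (fixedField G), IsDivisorial v n → RegularAt v n Θ) ∧ (∃ D, Θ D ≠ 0) ∧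
      ∀ (v : Place k (fixedField G)) (w : Place k L) (e : ℕ), IsDivisorial v n → Over w v e →
        e ≠ 1 → (∃ I : Subgroup G, Nat.card I = e ∧ ∀ g ∈ I, Inert w (g : L ≃ₐ[k] L)) →
        ∀ D : Fin n → Derivation k (fixedField G) (fixedField G), (∀ j, Pres v (D j)) →
          Ge v 1 (Θ D) := by
  classical
  have halgK := Pool.Agent.W721.PG.EFF2.alg_fixed G
  have := Fintype.ofFinite G
  obtain ⟨hnK, z, hz⟩ := Pool.Agent.W721.PG.EFF2.exists_basis (fixedField G) n hn
  obtain ⟨E, hE⟩ := Pool.Agent.W636.PG.exists_duals k (fixedField G) n z hz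
  let x : (Derivation k (fixedField G) (fixedField G) →ₗ[fixedField G] L) → (Fin n → L) :=
    fun ω j => ω (E j)
  have hx0 : ∀ ω, x ω = 0 → ω = 0 := by
    intro ω h
    ext D
    rw [form_expand z hz E hE ω D]
    refine Finset.sum_eq_zero fun b _ => ?_
    have : ω (E b) = 0 := congrFun h b
    rw [this, mul_zero]
  let S0 : Finset (Derivation k (fixedField G) (fixedField G) →ₗ[fixedField G] L) := hSf.toFinset
  have hS0 : ∀ ω, ω ∈ S0 ↔ ω ∈ S := fun ω => hSf.mem_toFinset
  let S2 : Finset (Derivation k (fixedField G) (fixedField G) →ₗ[fixedField G] L) :=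
    S0 ∪ (S0 ×ˢ S0).image (fun p => p.1 - p.2)
  have hS2 : ∀ ω, ω ∈ S2 ↔ ω ∈ S ∨ ∃ a ∈ S, ∃ b ∈ S, a - b = ω := by
    intro ω
    simp only [S2, Finset.mem_union, Finset.mem_image, Finset.mem_product, hS0, Prod.exists]
    constructor
    · rintro (h | ⟨a, b, ⟨h1, h2⟩, h3⟩)
      · exact Or.inl h
      · exact Or.inr ⟨a, h1, b, h2, h3⟩
    · rintro (h | ⟨a, h1, b, h2, h3⟩)
      · exact Or.inl h
      · exact Or.inr ⟨a, b, ⟨h1, h2⟩, h3⟩
  have hactsub : ∀ (g : G) a b, act g (a - b) = act g a - act g b := by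
    intro g a b
    ext D
    change (g : L ≃ₐ[k] L) (a D - b D) = (g : L ≃ₐ[k] L) (a D) - (g : L ≃ₐ[k] L) (b D)
    rw [map_sub]
  have hS2G : ∀ g : G, ∀ ω ∈ S2, act g ω ∈ S2 := by
    intro g ω hω
    rw [hS2] at hω ⊢
    rcases hω with h | ⟨a, ha, b, hb, rfl⟩
    · exact Or.inl (hS g ω h)
    · exact Or.inr ⟨act g a, hS g a ha, act g b, hS g b hb, (hactsub g a b).symm⟩
  have hS2r : ∀ ω ∈ S2, ∀ (v : Place k (fixedField G)) (w : Place k L) (e : ℕ),
      IsDivisorial v n → Over w v e → ∀ D, Pres v D → Ge w 0 (ω D) := by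
    intro ω hω v w e hv hwv D hD
    rw [hS2] at hω
    rcases hω with h | ⟨a, ha, b, hb, rfl⟩
    · exact hreg ω h v w e hv hwv D hD
    · exact (hreg a ha v w e hv hwv D hD).sub (hreg b hb v w e hv hwv D hD)
  let W : Finset (Fin n → (Derivation k (fixedField G) (fixedField G) →ₗ[fixedField G] L)) :=
    (Fintype.piFinset (fun _ : Fin n => S2)).filter
      (fun J => (Matrix.of fun i j => J i (E j)).det ≠ 0)
  have hW : ∀ J, J ∈ W ↔ (∀ i, J i ∈ S2) ∧ (Matrix.of fun i j => J i (E j)).det ≠ 0 := by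
    intro J
    simp only [W, Finset.mem_filter, Fintype.mem_piFinset]
  have hgdet : ∀ (g : G) (J : Fin n → (Derivation k (fixedField G) (fixedField G)
      →ₗ[fixedField G] L)) (D : Fin n → Derivation k (fixedField G) (fixedField G)),
      (g : L ≃ₐ[k] L) (Matrix.of fun i j => J i (D j)).det =
        (Matrix.of fun i j => act g (J i) (D j)).det := by
    intro g J D
    have h1 := RingHom.map_det ((g : L ≃ₐ[k] L) : L →+* L) (Matrix.of fun i j => J i (D j))
    exact h1
  let Θ0 : (Fin n → Derivation k (fixedField G) (fixedField G)) → L := fun D =>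
    ∏ J ∈ W, (Matrix.of fun i j => J i (D j)).det
  have hinv : ∀ (g : G) D, (g : L ≃ₐ[k] L) (Θ0 D) = Θ0 D := by
    intro g D
    change (g : L ≃ₐ[k] L) (∏ J ∈ W, (Matrix.of fun i j => J i (D j)).det) = _
    rw [map_prod]
    have hmem : ∀ (h : G) J, J ∈ W → (fun i => act h (J i)) ∈ W := by
      intro h J hJ
      rw [hW] at hJ ⊢
      refine ⟨fun i => hS2G h _ (hJ.1 i), ?_⟩
      rw [← hgdet h J E]
      simpa using hJ.2
    refine Finset.prod_nbij (fun J i => act g (J i)) (fun J hJ => hmem g J hJ) ?_ ?_ ?_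
    · intro J _ J' _ h
      funext i
      exact act_inj g (congrFun h i)
    · intro J hJ
      refine ⟨fun i => act g⁻¹ (J i), hmem g⁻¹ J hJ, ?_⟩
      funext i
      exact act_inv g (J i)
    · intro J _
      exact hgdet g J D
  have hΘ0E : Θ0 E ≠ 0 := Finset.prod_ne_zero_iff.2 fun J hJ => ((hW J).1 hJ).2
  have hge0 : ∀ (v : Place k (fixedField G)) (w : Place k L) (e : ℕ), IsDivisorial v n →
      Over w v e → ∀ D : Fin n → Derivation k (fixedField G) (fixedField G),
      (∀ j, Pres v (D j)) → ∀ J ∈ W, ∀ i j, Ge w 0 (J i (D j)) := by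
    intro v w e hv hwv D hD J hJ i j
    exact hS2r _ (((hW J).1 hJ).1 i) v w e hv hwv _ (hD j)
  refine ⟨W.card, fun D => ⟨Θ0 D, fun g => hinv g D⟩, ?_, ?_, ⟨E, fun h => hΘ0E
    (congrArg Subtype.val h)⟩, ?_⟩
  · intro X D
    apply Subtype.ext
    change ∏ J ∈ W, (Matrix.of fun i j => J i (∑ l, X j l • D l)).det =
      algebraMap (fixedField G) L (X.det ^ W.card * ⟨Θ0 D, fun g => hinv g D⟩)
    rw [map_mul, map_pow]
    have h1 : ∀ J ∈ W, (Matrix.of fun i j => J i (∑ l, X j l • D l)).det =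
        algebraMap (fixedField G) L X.det * (Matrix.of fun i j => J i (D j)).det := by
      intro J _
      have e3 : (X.map (algebraMap (fixedField G) L)).det = algebraMap (fixedField G) L X.det := by
        rw [RingHom.map_det]
        rfl
      have e2 : (Matrix.of fun i j => J i (∑ l, X j l • D l)) =
          (Matrix.of fun i j => J i (D j)) *
            (X.map (algebraMap (fixedField G) L)).transpose := by
        ext i j
        simp only [Matrix.of_apply, Matrix.mul_apply, Matrix.transpose_apply, Matrix.map_apply]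
        rw [map_sum]
        refine Finset.sum_congr rfl fun l _ => ?_
        rw [map_smul, Algebra.smul_def, mul_comm]
      rw [e2, Matrix.det_mul, Matrix.det_transpose, e3, mul_comm]
    rw [Finset.prod_congr rfl h1, Finset.prod_mul_distrib, Finset.prod_const]
    rfl
  · intro v hv D hD
    obtain ⟨w, e, I, hwv, hcard, hI⟩ := exists_inertia G v
    rw [← hwv.reg]
    change Ge w 0 (Θ0 D)
    exact Pool.Agent.W721.PG.EFF2.ge_prod0 _ _ fun J hJ =>
      ge_det w _ fun i j => hge0 v w e hv hwv D hD J hJ i j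
  · rintro v w e hv hwv he ⟨I, hcard, hI⟩ D hD
    -- a nontrivial element of the inertia group
    have hI1 : ∃ g ∈ I, g ≠ 1 := by
      by_contra hcon
      push Not at hcon
      apply he
      rw [← hcard, Nat.card_eq_one_iff_exists]
      exact ⟨1, fun g => Subtype.ext (hcon g g.2)⟩
    obtain ⟨g, hgI, hg1⟩ := hI1
    obtain ⟨ω, hω, hωg⟩ := hfaith g hg1
    have hδ : ω - act g ω ∈ (S2 : Set _) := (hS2 _).2 (Or.inr ⟨ω, hω, act g ω, hS g ω hω, rfl⟩)
    have hδ0 : x (ω - act g ω) ≠ 0 := fun h => hωg (sub_eq_zero.1 (hx0 _ h)).symm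
    have htop : Submodule.span L (x '' (S2 : Set _)) = ⊤ := by
      refine top_le_iff.1 ?_
      rw [← span_top z hz E hE S hS hker]
      refine Submodule.span_mono (Set.image_mono fun ω hω => ?_)
      exact (hS2 ω).2 (Or.inl hω)
    obtain ⟨J, hJ, ⟨i0, hi0⟩, hJ0⟩ := exists_tuple x (S2 : Set _) htop _ hδ hδ0
    have hJW : J ∈ W := (hW J).2 ⟨hJ, hJ0⟩
    have h1 : Ge w 1 (Θ0 D) := by
      change Ge w 1 (∏ J ∈ W, (Matrix.of fun i j => J i (D j)).det)
      rw [← Finset.mul_prod_erase W _ hJW]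
      have h2 : Ge w 1 (Matrix.of fun i j => J i (D j)).det := by
        refine ge_det_row w _ (fun i j => hge0 v w e hv hwv D hD J hJW i j) i0 fun j => ?_
        rw [Matrix.of_apply, hi0]
        have h3 := hI g hgI (ω (D j)) (hreg ω hω v w e hv hwv _ (hD j))
        have h4 := h3.neg
        rw [neg_sub] at h4
        exact h4
      have h3 : Ge w 0 (∏ J ∈ W.erase J, (Matrix.of fun i j => J i (D j)).det) :=
        Pool.Agent.W721.PG.EFF2.ge_prod0 _ _ fun J' hJ' =>
          ge_det w _ fun i j => hge0 v w e hv hwv D hD J' (Finset.mem_of_mem_erase hJ') i j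
      simpa using h2.mul h3
    rcases h1 with h1 | h1
    · left
      exact Subtype.ext h1
    · right
      have h2 := hwv.2 ⟨Θ0 D, fun g => hinv g D⟩
      have h3 : (1 : ℤ) ≤ e * v.ord ⟨Θ0 D, fun g => hinv g D⟩ := by
        rw [← h2]
        exact h1
      have h4 : (0 : ℤ) < e := by exact_mod_cast hwv.1
      by_contra hcon
      push Not at hcon
      have : v.ord ⟨Θ0 D, fun g => hinv g D⟩ ≤ 0 := by omega
      nlinarith

end

end Pool.Agent.Y174
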