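import Pool.Agent.Y174.LDefs

/-! Logarithmic symmetric differentials: definitions. -/

set_option autoImplicit false
set_option linter.overlappingInstances false
set_option linter.unusedSectionVars false

universe u v

open FF Pool.Agent.W619.PQ Pool.Agent.W619.TW

namespace Pool.Agent.Y174

section

variable {k : Type v} {K : Type u} [Field k] [Field K] [Algebra k K]

/-- The symmetric differential `s` on the variety of dimension `n` is logarithmic with poles along
the prime divisors `v` over the variety with `Bd v`: along each prime divisor `v` it takes the local
sections of the logarithmic tangent sheaf to functions which are regular along `v`. -/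
def SymLog (n : ℕ) (Bd : Place k K → Prop) (s : Derivation k K K → K) : Prop :=
  ∀ v : Place k K, IsDivisorial v n → ∀ D : Derivation k K K, LogFld Bd v D → v.Reg (s D)

variable (k K)

/-- The `m`-th symmetric power of the logarithmic cotangent sheaf of the pair of dimension `n` is
generically generated by its global sections: the logarithmic symmetric differentials of degree `m`
span the space of all rational symmetric differentials of degree `m` over `K`. -/
def GenGenLog (n m : ℕ) (Bd : Place k K → Prop) : Prop :=
  ∀ s : Derivation k K K → K, IsSymDiff m s →
    s ∈ Submodule.span K {s : Derivation k K K → K | IsSymDiff m s ∧ SymLog n Bd s}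

end

end Pool.Agent.Y174
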