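import Pool.Agent.Y174.U1
import Pool.Agent.Y174.UDefs

/-! Logarithmic symmetric differentials on a pair with `κ ≤ 0`: constant coefficients. -/

set_option autoImplicit false
set_option linter.overlappingInstances false
set_option linter.unusedSectionVars false

universe u v

open FF MvPolynomial Pool.Agent.W619.PQ Pool.Agent.W619.PL Pool.Agent.W619.TW
  Pool.Agent.W603.LV Pool.Agent.W619.Y Pool.Agent.Y174.T

namespace Pool.Agent.Y174

section

variable {k : Type v} [Field k] [CharZero k] {K : Type u} [Field K] [Algebra k K] {n m : ℕ}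

theorem LogFld.sum {ι : Type*} (s : Finset ι) {Bd : Place k K → Prop} {v : Place k K}
    (c : ι → K) (D : ι → Derivation k K K) (hc : ∀ i ∈ s, v.Reg (c i))
    (hD : ∀ i ∈ s, LogFld Bd v (D i)) : LogFld Bd v (∑ i ∈ s, c i • D i) := by
  refine ⟨fun h f hf => ?_, fun h f => ?_⟩
  · rw [Pool.Agent.W721.PG.EFF2.der_sum]
    have h1 : Ge v 0 (∑ i ∈ s, c i * D i f) := by
      refine Ge.sum _ _ fun i hi => ?_
      exact reg_mul (hc i hi) ((hD i hi).1 h f hf)
    exact h1
  · rw [Pool.Agent.W721.PG.EFF2.der_sum, Finset.sum_div]
    have h1 : Ge v 0 (∑ i ∈ s, c i * D i f / f) := by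
      refine Ge.sum _ _ fun i hi => ?_
      rw [mul_div_assoc]
      exact reg_mul (hc i hi) ((hD i hi).2 h f)
    exact h1

theorem reg_const {v : Place k K} (c : k) : v.Reg (algebraMap k K c) := by
  have h : Ge v 0 (algebraMap k K c) := Ge.const c
  exact h

/-- The values of the canonical form given by a determinant of logarithmic symmetric
differentials. -/
theorem sym_form_log [DecidableEq (Ex n m)] {w : ℕ} {Bd : Place k K → Prop}
    (hw : ∀ A : Matrix (Fin n) (Fin n) K, chi m A = A.det ^ w)
    (y : Fin n → K) (J : Ex n m → homogeneousSubmodule (Fin n) K m) {v : Place k K}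
    (hJ : ∀ j, ∀ D : Derivation k K K, LogFld Bd v D →
      v.Reg (sym y (J j : MvPolynomial (Fin n) K) D)) (D : Fin n → Derivation k K K)
    (hD : ∀ i, LogFld Bd v (D i)) :
    Ge v 0 ((cf J).det * (Matrix.of fun i c => D i (y c)).det ^ w) := by
  classical
  obtain ⟨β, hβ⟩ := exists_points k K n m
  have hβ' := hβ
  -- the values of the forms
  have h1 : Ge v 0 (Matrix.of fun l j : Ex n m => eval (fun i => algebraMap k K (β l i))
      (sub (Matrix.of fun i c => D i (y c)) (J j : MvPolynomial (Fin n) K))).det := by
    refine ge_det v _ fun l j => ?_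
    rw [Matrix.of_apply, T.eval_sub]
    have h2 := hJ j (∑ i, algebraMap k K (β l i) • D i)
      (LogFld.sum _ _ _ (fun i _ => reg_const _) (fun i _ => hD i))
    unfold sym at h2
    have h5 : (fun c => (∑ i, algebraMap k K (β l i) • D i) (y c)) =
        fun c => ∑ i, algebraMap k K (β l i) * (Matrix.of fun i c => D i (y c)) i c := by
      funext c
      rw [Pool.Agent.W721.PG.EFF2.der_sum]
      rfl
    rw [h5] at h2
    exact h2
  rw [det_sub, hw] at h1
  -- the determinant of the monomials is a constant
  obtain ⟨a, ha⟩ : ∃ a : k, algebraMap k K a = (Matrix.of fun (l d : Ex n m) =>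
      eval (fun i => algebraMap k K (β l i)) (mono K n m d : MvPolynomial (Fin n) K)).det := by
    refine ⟨(Matrix.of fun (l d : Ex n m) => ∏ i, β l i ^ d.1 i).det, ?_⟩
    rw [RingHom.map_det]
    congr 1
    ext l d
    rw [RingHom.mapMatrix_apply, Matrix.map_apply, Matrix.of_apply, Matrix.of_apply, map_prod]
    change _ = eval (fun i => algebraMap k K (β l i)) (monomial d.1 (1 : K))
    rw [eval_monomial, one_mul, Finsupp.prod_fintype _ _ (fun i => pow_zero _)]
    exact Finset.prod_congr rfl fun i _ => map_pow _ _ _
  have ha0 : a ≠ 0 := by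
    intro h0
    apply hβ'
    rw [← ha, h0, map_zero]
  have h6 := (Ge.const (P := v) a⁻¹).mul h1
  rw [← ha, map_inv₀] at h6
  have h7 : (algebraMap k K a)⁻¹ * (algebraMap k K a * (Matrix.of fun i c => D i (y c)).det ^ w *
      (cf J).det) = (cf J).det * (Matrix.of fun i c => D i (y c)).det ^ w := by
    have : algebraMap k K a ≠ 0 := (map_ne_zero_iff _ (algebraMap k K).injective).2 ha0
    field_simp
  rw [h7, zero_add] at h6
  exact h6

/-- The canonical form given by a determinant of logarithmic symmetric differentials. -/
theorem sym_formL [DecidableEq (Ex n m)] (hess : Algebra.EssFiniteType k K)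
    (htr : Algebra.trdeg k K = n) {w : ℕ} {Bd : Place k K → Prop} {δ : Place k K → ℝ}
    (hδ : ∀ v, 0 ≤ δ v) (hB : ∀ v, Bd v → δ v = 1)
    (hw : ∀ A : Matrix (Fin n) (Fin n) K, chi m A = A.det ^ w)
    (y : Fin n → K) (J : Ex n m → homogeneousSubmodule (Fin n) K m)
    (hJ : ∀ j, ∀ v : Place k K, IsDivisorial v n → ∀ D : Derivation k K K, LogFld Bd v D →
      v.Reg (sym y (J j : MvPolynomial (Fin n) K) D)) :
    PairSec k K n δ {1} w 0
      (fun D => (cf J).det * (Matrix.of fun i c => D i (y c)).det ^ w) := by
  classical
  have hpl : IsPluriForm k K n w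
      (fun D => (cf J).det * (Matrix.of fun i c => D i (y c)).det ^ w) := by
    intro X D
    change (cf J).det * (Matrix.of fun i c => (∑ j, X i j • D j) (y c)).det ^ w =
      X.det ^ w * ((cf J).det * (Matrix.of fun i c => D i (y c)).det ^ w)
    have e : (Matrix.of fun i c => (∑ j, X i j • D j) (y c)) =
        X * Matrix.of fun i c => D i (y c) := by
      ext i c
      rw [Matrix.of_apply, Matrix.mul_apply, Pool.Agent.W721.PG.EFF2.der_sum]
      rfl
    rw [e, Matrix.det_mul, mul_pow]
    ring
  refine ⟨hpl, fun v hv D hD => ?_⟩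
  have h1 := log_to_pres (c := 0) htr hess Bd hv _ hpl (fun D hD => by
    have h2 := sym_form_log hw y J (fun j D hD => hJ j v hv D hD) D hD
    simpa using Ge.toR h2) D hD
  by_cases hBv : Bd v
  · rcases h1.1 hBv with h2 | h2
    · exact Or.inl h2
    · right
      refine ⟨1, by simp, one_ne_zero, ?_⟩
      rw [hB v hBv]
      simpa using h2
  · rcases h1.2 hBv with h2 | h2
    · exact Or.inl h2
    · right
      refine ⟨1, by simp, one_ne_zero, ?_⟩
      have h3 := mul_nonneg (Nat.cast_nonneg (α := ℝ) w) (hδ v)
      simp only [Nat.cast_zero, zero_mul, zero_sub]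
      linarith

/-- On a variety with `κ ≤ 0` the coefficients of a regular symmetric differential with respect to a
basis of regular symmetric differentials are constants. -/
theorem const_coeffL [IsAlgClosed k] [DecidableEq (Ex n m)] (hess : Algebra.EssFiniteType k K)
    (hnK : Algebra.trdeg k K = n) (hn : 1 ≤ n) (hm : 1 ≤ m) {Bd : Place k K → Prop}
    {δ : Place k K → ℝ} (hδ : ∀ v, 0 ≤ δ v) (hB : ∀ v, Bd v → δ v = 1)
    (hκ : ¬ PairKod k K n δ 1)
    (y : Fin n → K) (hy : IsTranscendenceBasis k y) (J : Ex n m → homogeneousSubmodule (Fin n) K m)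
    (hJ : ∀ j, ∀ v : Place k K, IsDivisorial v n → ∀ D : Derivation k K K, LogFld Bd v D →
      v.Reg (sym y (J j : MvPolynomial (Fin n) K) D)) (hJ0 : (cf J).det ≠ 0)
    (s : homogeneousSubmodule (Fin n) K m)
    (hs : ∀ v : Place k K, IsDivisorial v n → ∀ D : Derivation k K K, LogFld Bd v D →
      v.Reg (sym y (s : MvPolynomial (Fin n) K) D)) :
    ∃ c : Ex n m → k, s = ∑ j, algebraMap k K (c j) • J j := by
  classical
  obtain ⟨E, hE⟩ := Pool.Agent.W636.PG.exists_duals k K n y hy
  have hK0 : CharZero K := charZero_of_injective_algebraMap (algebraMap k K).injective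
  obtain ⟨w, hw1, hw⟩ := chi_eq (K := K) n m
  have hdetE : (Matrix.of fun i c => E i (y c)).det = 1 := by
    have h1 : (Matrix.of fun i c => E i (y c)) = 1 := by
      ext a b
      rw [Matrix.of_apply, Matrix.one_apply]
      exact hE a b
    rw [h1, Matrix.det_one]
  -- the coefficients
  let x : Ex n m → K := (cf J)⁻¹.mulVec fun d => (T.basis K n m).repr s d
  have hu : IsUnit (cf J).det := isUnit_iff_ne_zero.2 hJ0
  have hx : (cf J).mulVec x = fun d => (T.basis K n m).repr s d := by
    rw [Matrix.mulVec_mulVec, Matrix.mul_nonsing_inv _ hu, Matrix.one_mulVec]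
  have hsx : s = ∑ j, x j • J j := by
    apply (T.basis K n m).repr.injective
    ext d
    rw [← congrFun hx d, map_sum, Finsupp.finset_sum_apply]
    refine Finset.sum_congr rfl fun j _ => ?_
    rw [map_smul, Finsupp.smul_apply, smul_eq_mul, mul_comm]
    rfl
  have hxc : ∀ j, ∃ c : k, algebraMap k K c = x j := by
    intro j
    by_contra hcon
    have htr : Transcendental k (x j) := by
      intro halg
      apply hcon
      have h1 : IsIntegral k (x j) := halg.isIntegral
      have h2 : (minpoly k (x j)).degree = 1 :=
        IsAlgClosed.degree_eq_one_of_irreducible k (minpoly.irreducible h1)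
      exact minpoly.mem_range_of_degree_eq_one k (x j) h2
    have hx0 : x j ≠ 0 := fun h0 => htr (by rw [h0]; exact isAlgebraic_zero)
    apply hκ
    let J' : Ex n m → homogeneousSubmodule (Fin n) K m := Function.update J j s
    have hdet' : (cf J').det = x j * (cf J).det := by
      have h1 : cf J' = (cf J).updateCol j ((cf J).mulVec x) := by
        ext d i
        rw [Matrix.updateCol_apply]
        by_cases hi : i = j
        · subst hi
          rw [if_pos rfl, hx]
          change (T.basis K n m).repr (Function.update J i s i) d = _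
          rw [Function.update_self]
        · rw [if_neg hi]
          change (T.basis K n m).repr (Function.update J j s i) d = _
          rw [Function.update_of_ne hi]
          rfl
      rw [h1]
      have h2 : (cf J).mulVec x = fun d => ∑ i, x i • cf J d i := by
        funext d
        refine Finset.sum_congr rfl fun i _ => ?_
        rw [smul_eq_mul, mul_comm]
      rw [h2, Matrix.det_updateCol_sum]
      rfl
    refine ⟨w, hw1 hn hm, fun l D => (if l = 0 then (cf J).det else (cf J').det) *
      (Matrix.of fun i c => D i (y c)).det ^ w, fun l => ?_, E, fun l => ?_, ?_⟩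
    · by_cases hl : l = 0
      · simp only [hl, if_true]
        exact sym_formL hess hnK hδ hB hw y J hJ
      · simp only [hl, if_false]
        refine sym_formL hess hnK hδ hB hw y J' fun i => ?_
        by_cases hi : i = j
        · subst hi
          have : J' i = s := Function.update_self ..
          rw [this]
          exact hs
        · have : J' i = J i := Function.update_of_ne hi ..
          rw [this]
          exact hJ i
    · change (if l = 0 then (cf J).det else (cf J').det) *
        (Matrix.of fun i c => E i (y c)).det ^ w ≠ 0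
      rw [hdetE, one_pow, mul_one]
      split_ifs
      · exact hJ0
      · rw [hdet']
        exact mul_ne_zero hx0 hJ0
    · have h1 : (fun l : Fin 1 => (if l.succ = 0 then (cf J).det else (cf J').det) *
          (Matrix.of fun i c => E i (y c)).det ^ w / ((if (0 : Fin 2) = 0 then (cf J).det else
            (cf J').det) * (Matrix.of fun i c => E i (y c)).det ^ w)) = fun _ => x j := by
        funext l
        rw [hdetE, one_pow, mul_one, mul_one, if_pos rfl, if_neg (Fin.succ_ne_zero l), hdet',
          mul_div_cancel_right₀ _ hJ0]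
      change AlgebraicIndependent k (fun l : Fin 1 => (if l.succ = 0 then (cf J).det else
        (cf J').det) * (Matrix.of fun i c => E i (y c)).det ^ w / ((if (0 : Fin 2) = 0 then
          (cf J).det else (cf J').det) * (Matrix.of fun i c => E i (y c)).det ^ w))
      rw [h1]
      exact algebraicIndependent_unique_type_iff.2 htr
  choose c hc using hxc
  exact ⟨c, by rw [hsx]; exact Finset.sum_congr rfl fun j _ => by rw [hc]⟩

end

end Pool.Agent.Y174
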