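import Pool.Agent.Y174.UDefs

/-! The geometric generic fibre: definitions. -/

set_option autoImplicit false
set_option linter.overlappingInstances false
set_option linter.unusedSectionVars false

universe u v

open FF Pool.Agent.W619.PQ Pool.Agent.W619.TW

namespace Pool.Agent.Y174

section

variable {k : Type v} {K Λ F : Type u} [Field k] [Field K] [Field Λ] [Field F] [Algebra k K]
  [Algebra Λ F] [Algebra K F]

/-- The place `w` of `F` over `Λ` lies over the place `v` of `K` over `k`, with ramification
index `e`. -/
def LiesFib (w : Place Λ F) (v : Place k K) (e : ℕ) : Prop :=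
  0 < e ∧ ∀ f : K, w.ord (algebraMap K F f) = e * v.ord f

/-- The restriction of the boundary `B` to the geometric generic fibre. -/
def BdFib (Bd : Place k K → Prop) (w : Place Λ F) : Prop :=
  ∃ (v : Place k K) (e : ℕ), LiesFib w v e ∧ Bd v

/-- The divisor on the geometric generic fibre with the multiplicities `δ'` is the restriction of the
divisor with the multiplicities `δ`. -/
def IsPullFib (δ : Place k K → ℝ) (δ' : Place Λ F → ℝ) : Prop :=
  ∀ (v : Place k K) (w : Place Λ F) (e : ℕ), LiesFib w v e → δ' w = max 0 (1 - e * (1 - δ v))

end

end Pool.Agent.Y174
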