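import Pool.Agent.Y174.V1
import Pool.Agent.Y174.VDefs

/-! The geometric generic fibre: places and frames. -/

set_option autoImplicit false
set_option linter.overlappingInstances false
set_option linter.unusedSectionVars false

universe u v

open FF IntermediateField Pool.Agent.W619.PQ Pool.Agent.W619.PL Pool.Agent.W619.TW
  Pool.Agent.W603.LV Pool.Agent.W619.Y Pool.Agent.W824.PG

namespace Pool.Agent.Y174

section

variable {k : Type*} {Λ F : Type*} [Field k] [Field Λ] [Field F] [Algebra k Λ] [Algebra Λ F]
  [Algebra k F] [IsScalarTower k Λ F]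

variable (k) in
/-- restriction of scalars of a place -/
def resPl (w : Place Λ F) : Place k F where
  ord := w.ord
  ord_zero := w.ord_zero
  ord_mul := w.ord_mul
  ord_add := w.ord_add
  ord_const := fun {c} hc => by
    rw [IsScalarTower.algebraMap_apply k Λ F]
    exact w.ord_const ((map_ne_zero _).2 hc)
  surj := w.surj

theorem resPl_ord (w : Place Λ F) (f : F) : (resPl k w).ord f = w.ord f := rfl

/-- `y` is a system of functions with algebraically independent residues -/
def ResInd {a : ℕ} (w : Place Λ F) (y : Fin a → F) : Prop :=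
  ∀ p : MvPolynomial (Fin a) Λ, p ≠ 0 →
    MvPolynomial.aeval y p ≠ 0 ∧ w.ord (MvPolynomial.aeval y p) = 0

theorem ResInd.down {a : ℕ} {w : Place Λ F} {y : Fin a → F} (h : ResInd w y) :
    ResInd (resPl k w) y := by
  intro p hp
  have h1 : MvPolynomial.aeval y p =
      MvPolynomial.aeval y (MvPolynomial.map (algebraMap k Λ) p) := by
    rw [MvPolynomial.aeval_map_algebraMap]
  rw [h1, resPl_ord]
  exact h _ ((map_ne_zero_iff _ (MvPolynomial.map_injective _ (algebraMap k Λ).injective)).2 hp)

/-- residues of the coordinates of the base and of the fibre -/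
theorem ResInd.append {a d : ℕ} {w : Place Λ F} {y : Fin a → F} (h : ResInd w y)
    {t : Fin d → Λ} (ht : AlgebraicIndependent k t) :
    ResInd (resPl k w) (Fin.append (algebraMap Λ F ∘ t) y) := by
  intro p hp
  have h1 : AlgebraicIndependent k (Fin.append (fun c => MvPolynomial.C (t c))
      (MvPolynomial.X : Fin a → MvPolynomial (Fin a) Λ)) := by
    have h2 := ht.sumElim_comp (MvPolynomial.algebraicIndependent_X (Fin a) Λ)
    have h3 : (Fin.append (fun c => MvPolynomial.C (t c))
        (MvPolynomial.X : Fin a → MvPolynomial (Fin a) Λ)) =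
        Sum.elim MvPolynomial.X (algebraMap Λ (MvPolynomial (Fin a) Λ) ∘ t) ∘
          (Sum.swap ∘ finSumFinEquiv.symm) := by
      funext i
      refine Fin.addCases (fun c => ?_) (fun j => ?_) i
      · simp [MvPolynomial.algebraMap_eq]
      · simp
    rw [h3]
    exact h2.comp _ ((Sum.swap_leftInverse.injective).comp finSumFinEquiv.symm.injective)
  have h2 : MvPolynomial.aeval (Fin.append (algebraMap Λ F ∘ t) y) p =
      MvPolynomial.aeval y (MvPolynomial.aeval (Fin.append (fun c => MvPolynomial.C (t c))
        (MvPolynomial.X : Fin a → MvPolynomial (Fin a) Λ)) p) := by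
    have h3 := MvPolynomial.comp_aeval_apply (R := k) (f := Fin.append
      (fun c => MvPolynomial.C (t c)) (MvPolynomial.X : Fin a → MvPolynomial (Fin a) Λ))
      ((MvPolynomial.aeval y : MvPolynomial (Fin a) Λ →ₐ[Λ] F).restrictScalars k) p
    refine Eq.trans ?_ h3.symm
    congr 2
    funext i
    refine Fin.addCases (fun c => ?_) (fun j => ?_) i
    · simp
    · simp
  rw [h2, resPl_ord]
  refine h _ fun h0 => hp ?_
  exact (injective_iff_map_eq_zero _).1 h1 p h0

end

section

variable {L K Λ F : Type u} [Field L] [CharZero L] [Field K] [Field Λ] [Field F]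
  [Algebra L K] [Algebra L Λ] [Algebra Λ F] [Algebra K F] [Algebra L F] [IsScalarTower L Λ F]
  [IsScalarTower L K F]

/-- The place of `K` under a divisorial place of the geometric generic fibre. -/
theorem exists_under [Algebra.IsAlgebraic K F] {r : ℕ} (w : Place Λ F)
    (hw : IsDivisorial w (r + 1)) :
    ∃ (v : Place L K) (e : ℕ), LiesFib w v e ∧ IsDivisorial v (r + 1) := by
  obtain ⟨y, hy'⟩ : ∃ y : Fin r → F, ResInd w y := hw
  have hyL : ResInd (resPl L w) (a := r) y := hy'.down
  let M : IntermediateField K F := IntermediateField.adjoin K (Set.range (α := F) y)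
  have hMfin : FiniteDimensional K M :=
    IntermediateField.finiteDimensional_adjoin fun x _ => Algebra.IsIntegral.isIntegral x
  have hMalg : Algebra.IsAlgebraic M F :=
    ⟨fun x => (Algebra.IsAlgebraic.isAlgebraic (R := K) x).tower_top M⟩
  have tLM : IsScalarTower L M F := IsScalarTower.of_algebraMap_eq fun c => rfl
  have hyM : ∀ i, (y i) ∈ M := fun i => IntermediateField.subset_adjoin K _ ⟨i, rfl⟩
  obtain ⟨e1, wM, h1⟩ := Pool.Agent.W73.PG.PULL.exists_over' (K := M) (resPl L w)
  obtain ⟨e2, v, h2⟩ := Pool.Agent.W73.PG.PULL.exists_over' (K := K) wM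
  have hres : ResInd wM (fun i : Fin r => (⟨y i, hyM i⟩ : M)) := by
    intro p hp
    obtain ⟨h3, h4⟩ := hyL p hp
    have h5 : algebraMap M F (MvPolynomial.aeval (fun i => (⟨y i, hyM i⟩ : M)) p) =
        MvPolynomial.aeval y p := by
      rw [← MvPolynomial.aeval_algebraMap_apply]
      rfl
    refine ⟨fun h0 => h3 (by rw [← h5, h0, map_zero]), ?_⟩
    rw [← h5, h1.2] at h4
    have h6 : (e1 : ℤ) ≠ 0 := by
      have := h1.1
      omega
    exact (mul_eq_zero.1 h4).resolve_left h6
  have hwM : IsDivisorial wM (r + 1) := ⟨_, hres⟩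
  refine ⟨v, e1 * e2, ⟨Nat.mul_pos h1.1 h2.1, fun f => ?_⟩,
    pDIVI L K M (r + 1) v wM e2 h2 hwM⟩
  have h3 : algebraMap K F f = algebraMap M F (algebraMap K M f) := rfl
  have h4 : w.ord (algebraMap K F f) = (resPl L w).ord (algebraMap M F (algebraMap K M f)) := rfl
  rw [h4, h1.2, h2.2]
  push_cast
  ring

end

section

variable {k : Type v} {L K : Type u} [Field k] [CharZero k] [Field L] [Field K] [Algebra k L]
  [Algebra k K] [Algebra L K] [IsScalarTower k L K]

/-- The coordinates at a place which is trivial on the base. -/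
theorem exists_frame_fib (hess : Algebra.EssFiniteType k K) {d r : ℕ}
    (hn : Algebra.trdeg k K = (d + (r + 1) : ℕ)) {v : Place L K} {t : Fin d → L}
    (ht : AlgebraicIndependent k t) (hv : IsDivisorial v (r + 1)) :
    IsDivisorial (resPl k v) (d + (r + 1)) ∧
    ∃ (z : Fin (r + 1) → K) (E : Fin (d + (r + 1)) → Derivation k K K),
      v.ord (z 0) = 1 ∧ (∀ i, v.Reg (z i)) ∧
      IsTranscendenceBasis k (Fin.append (algebraMap L K ∘ t) z) ∧
      (∀ i j, E i (Fin.append (algebraMap L K ∘ t) z j) = if i = j then 1 else 0) ∧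
      ∀ i, Pres (resPl k v) (E i) := by
  classical
  obtain ⟨y, hy'⟩ : ∃ y : Fin r → K, ResInd v y := hv
  have hy2 := hy'.append ht
  obtain ⟨s, hs0, hs⟩ := v.surj
  refine ⟨⟨Fin.append (algebraMap L K ∘ t) y, hy2⟩, ?_⟩
  obtain ⟨h1, E, hE, hP⟩ := Pool.Agent.Y173.QA.frame_of (k := k) (K := K) (m := d + r) hn
    (fun y hy => fin_adj hess y hy) (resPl k v) (s := s) hs (y' := Fin.append (algebraMap L K ∘ t) y)
    hy2
  let σ : Fin (d + (r + 1)) → Fin (d + (r + 1)) := Fin.addCases
    (fun c => (Fin.castAdd r c).succ) (fun j => Fin.cases 0 (fun j' => (Fin.natAdd d j').succ) j)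
  have hσ1 : ∀ c, σ (Fin.castAdd (r + 1) c) = (Fin.castAdd r c).succ := fun c => by
    simp only [σ, Fin.addCases_left]
  have hσ2 : σ (Fin.natAdd d 0) = 0 := by
    simp only [σ, Fin.addCases_right, Fin.cases_zero]
  have hσ3 : ∀ j : Fin r, σ (Fin.natAdd d j.succ) = (Fin.natAdd d j).succ := fun j => by
    simp only [σ, Fin.addCases_right, Fin.cases_succ]
  have hσcomp : (Fin.cons s (Fin.append (algebraMap L K ∘ t) y) : Fin (d + r + 1) → K) ∘ σ =
      Fin.append (algebraMap L K ∘ t) (Fin.cons s y) := by
    funext i
    refine Fin.addCases (fun c => ?_) (fun j => ?_) i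
    · rw [Function.comp_apply, hσ1, Fin.cons_succ, Fin.append_left, Fin.append_left]
    · refine Fin.cases ?_ (fun j => ?_) j
      · rw [Function.comp_apply, hσ2, Fin.cons_zero, Fin.append_right, Fin.cons_zero]
      · rw [Function.comp_apply, hσ3, Fin.cons_succ, Fin.append_right, Fin.append_right,
          Fin.cons_succ]
  have hσinj : Function.Injective σ := by
    intro i j
    refine Fin.addCases (fun c => ?_) (fun a => ?_) i
    · refine Fin.addCases (fun c' => ?_) (fun a' => ?_) j
      · rw [hσ1, hσ1]
        intro h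
        have h2 := Fin.castAdd_injective d r (Fin.succ_injective _ h)
        rw [h2]
      · refine Fin.cases ?_ (fun a' => ?_) a'
        · rw [hσ1, hσ2]
          intro h
          exact absurd h (Fin.succ_ne_zero _)
        · rw [hσ1, hσ3]
          intro h
          have h2 := congrArg Fin.val (Fin.succ_injective _ h)
          simp only [Fin.val_castAdd, Fin.val_natAdd] at h2
          omega
    · refine Fin.cases ?_ (fun a => ?_) a
      · refine Fin.addCases (fun c' => ?_) (fun a' => ?_) j
        · rw [hσ1, hσ2]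
          intro h
          exact absurd h.symm (Fin.succ_ne_zero _)
        · refine Fin.cases ?_ (fun a' => ?_) a'
          · intro _; rfl
          · rw [hσ2, hσ3]
            intro h
            exact absurd h.symm (Fin.succ_ne_zero _)
      · refine Fin.addCases (fun c' => ?_) (fun a' => ?_) j
        · rw [hσ1, hσ3]
          intro h
          have h2 := congrArg Fin.val (Fin.succ_injective _ h)
          simp only [Fin.val_castAdd, Fin.val_natAdd] at h2
          omega
        · refine Fin.cases ?_ (fun a' => ?_) a'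
          · rw [hσ2, hσ3]
            intro h
            exact absurd h (Fin.succ_ne_zero _)
          · rw [hσ3, hσ3]
            intro h
            have h2 := Fin.natAdd_injective r d (Fin.succ_injective _ h)
            rw [h2]
  have hσbij : Function.Bijective σ := Finite.injective_iff_bijective.1 hσinj
  refine ⟨Fin.cons s y, fun i => E (σ i), ?_, ?_, ?_, ?_, fun i => hP _⟩
  · rw [Fin.cons_zero]; exact hs
  · intro i
    refine Fin.cases ?_ (fun j => ?_) i
    · rw [Fin.cons_zero]
      exact Or.inr (by omega)
    · rw [Fin.cons_succ]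
      have h2 := hy' (MvPolynomial.X j) (MvPolynomial.X_ne_zero _)
      rw [MvPolynomial.aeval_X] at h2
      exact Or.inr h2.2.ge
  · rw [← hσcomp]
    exact h1.comp_equiv (Equiv.ofBijective σ hσbij)
  · intro i j
    rw [← hσcomp, Function.comp_apply, hE]
    by_cases h : i = j
    · rw [if_pos h, if_pos (by rw [h])]
    · rw [if_neg h, if_neg fun h' => h (hσinj h')]

end

end Pool.Agent.Y174
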