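import Pool.Agent.Y174.V4

/-! The geometric generic fibre: restriction of pluricanonical forms. -/

set_option autoImplicit false
set_option linter.overlappingInstances false
set_option linter.unusedSectionVars false

universe u v

open FF IntermediateField Pool.Agent.W619.PQ Pool.Agent.W619.PL Pool.Agent.W619.TW
  Pool.Agent.W603.LV Pool.Agent.W619.Y Pool.Agent.W824.PG

namespace Pool.Agent.Y174

section

variable {k : Type v} [Field k] [CharZero k] {L : Type u} [Field L] [Algebra k L]

/-- the order of the determinant of the derivatives of the coordinates -/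
theorem det_ge {n : ℕ} {w : Place k L} (D : Fin n → Derivation k L L) (hD : ∀ a, Pres w (D a))
    (z : Fin n → L) (i0 : Fin n) {e : ℕ} (he : w.ord (z i0) = e) (hz0 : z i0 ≠ 0)
    (hz : ∀ c, w.Reg (z c)) :
    Ge w (e - 1) (Matrix.of fun a c => D a (z c)).det := by
  have h2 : (Matrix.of fun a c => D a (z c)) =
      (Matrix.of fun a c => D a (z c)).updateCol i0
        (z i0 • fun a => (D a (z i0) / z i0)) := by
    ext a c
    rw [Matrix.updateCol_apply]
    by_cases hc : c = i0
    · rw [if_pos hc, hc, Matrix.of_apply, Pi.smul_apply, smul_eq_mul,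
        mul_div_cancel₀ _ hz0]
    · rw [if_neg hc]
  rw [h2, Matrix.det_updateCol_smul]
  have h3 : Ge w e (z i0) := Or.inr (by rw [he])
  obtain ⟨π, hπ0, hπ⟩ := w.surj
  have h4 : ((Matrix.of fun a c => D a (z c)).updateCol i0
      fun a => (D a (z i0) / z i0)) =
      ((Matrix.of fun a c => D a (z c)).updateCol i0
      (π⁻¹ • fun a => π * (D a (z i0) / z i0))) := by
    congr 1
    funext a
    rw [Pi.smul_apply, smul_eq_mul, inv_mul_cancel_left₀ hπ0]
  rw [h4, Matrix.det_updateCol_smul]
  have h5 : Ge w (-1) π⁻¹ := Or.inr (by rw [w.ord_inv, hπ])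
  have h6 : Ge w 0 ((Matrix.of fun a c => D a (z c)).updateCol i0
      fun a => π * (D a (z i0) / z i0)).det := by
    refine ge_det w _ fun a c => ?_
    rw [Matrix.updateCol_apply]
    by_cases hc : c = i0
    · rw [if_pos hc]
      have h7 := ge_der (hD a) hz0
      have h8 : Ge w (-(w.ord (z i0))) (z i0)⁻¹ := Or.inr (by rw [w.ord_inv])
      have h9 := (h7.mul h8)
      rw [← div_eq_mul_inv] at h9
      have h10 : Ge w 1 π := Or.inr hπ.ge
      exact (h10.mul h9).mono (by omega)
    · rw [if_neg hc]
      exact hD a _ (hz c)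
  exact (h3.mul (h5.mul h6)).mono (by omega)

end

section

variable {k : Type*} {F : Type*} [Field k] [Field F] [Algebra k F]

theorem det_append {d r : ℕ} {t : Fin d → F} (z : Fin r → F) {G : Fin d → Derivation k F F}
    {D : Fin r → Derivation k F F} (hG : ∀ i j, G i (t j) = if i = j then 1 else 0)
    (hD : ∀ i j, D i (t j) = 0) :
    (Matrix.of fun a b => (Fin.append G D : Fin (d + r) → Derivation k F F) a
      ((Fin.append t z : Fin (d + r) → F) b)).det = (Matrix.of fun i j => D i (z j)).det := by
  classical
  have h1 : (Matrix.of fun a b => (Fin.append G D : Fin (d + r) → Derivation k F F) a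
      ((Fin.append t z : Fin (d + r) → F) b)) = Matrix.reindex finSumFinEquiv finSumFinEquiv
        (Matrix.fromBlocks (1 : Matrix (Fin d) (Fin d) F) (Matrix.of fun i j => G i (z j)) 0
          (Matrix.of fun i j => D i (z j))) := by
    ext a b
    refine Fin.addCases (fun a => ?_) (fun a => ?_) a
    · refine Fin.addCases (fun b => ?_) (fun b => ?_) b
      · simp [hG, Matrix.one_apply]
      · simp
    · refine Fin.addCases (fun b => ?_) (fun b => ?_) b
      · simp [hD]
      · simp
  rw [h1, Matrix.det_reindex_self, Matrix.det_fromBlocks_zero₂₁, Matrix.det_one, one_mul]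

end

section

variable {k : Type v} {L K Λ F : Type u} [Field k] [CharZero k] [Field L] [Field K] [Field Λ]
  [Field F] [Algebra k L] [Algebra k K] [Algebra L K] [IsScalarTower k L K] [Algebra L Λ]
  [Algebra Λ F] [Algebra K F] [Algebra L F] [IsScalarTower L Λ F] [IsScalarTower L K F]
  [Algebra k Λ] [Algebra k F] [IsScalarTower k Λ F] [IsScalarTower k K F]
  [IsScalarTower k L Λ]

/-- **Restriction of sections to the geometric generic fibre.** -/
theorem res_sec [DecidableEq F] (hess : Algebra.EssFiniteType k K) [Algebra.IsAlgebraic K F]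
    {d r : ℕ} (hn : Algebra.trdeg k K = (d + (r + 1) : ℕ)) {t : Fin d → L}
    (ht : IsTranscendenceBasis k t) {x : Fin (r + 1) → K} (hx : IsTranscendenceBasis L x)
    {E : Fin (d + (r + 1)) → Derivation k K K}
    (hE : ∀ i j, E i (Fin.append (algebraMap L K ∘ t) x j) = if i = j then 1 else 0)
    {δ : Place k K → ℝ} {δ' : Place Λ F → ℝ} (hδ : IsPullFib δ δ') {S : Finset K} {m j : ℕ}
    {ω : (Fin (d + (r + 1)) → Derivation k K K) → K}
    (hω : PairSec k K (d + (r + 1)) δ S m j ω) :
    PairSec Λ F (r + 1) δ' (S.image (algebraMap K F)) m j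
      (fun D => (Matrix.of fun a b => D a (algebraMap K F (x b))).det ^ m *
        algebraMap K F (ω E)) := by
  classical
  have hL0 : CharZero L := charZero_of_injective_algebraMap (algebraMap k L).injective
  refine ⟨?_, ?_⟩
  · intro A D
    have e : (Matrix.of fun a b => (∑ j, A a j • D j) (algebraMap K F (x b))) =
        A * Matrix.of fun a b => D a (algebraMap K F (x b)) := by
      ext a b
      rw [Matrix.of_apply, Matrix.mul_apply, Pool.Agent.W721.PG.EFF2.der_sum]
      rfl
    show (Matrix.of fun a b => (∑ j, A a j • D j) (algebraMap K F (x b))).det ^ m * _ = _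
    rw [e, Matrix.det_mul, mul_pow, mul_assoc]
  · intro w hw D hD
    obtain ⟨v, e, hwv, hv⟩ := exists_under (L := L) (K := K) w hw
    obtain ⟨hdiv, z, Ev, hs, hzr, hbas, hEv, hP⟩ := exists_frame_fib hess hn ht.1 hv
    have hy := basis_append ht hx
    have he0 : (0 : ℤ) < e := by exact_mod_cast hwv.1
    have ht0 : z 0 ≠ 0 := ne_zero_of_ord hs
    have ht0' : algebraMap K F (z 0) ≠ 0 := by simpa using ht0
    -- lifts of the coordinate fields of the base
    have hyF : IsTranscendenceBasis k (algebraMap K F ∘ Fin.append (algebraMap L K ∘ t) x) :=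
      hy.algebraMap_comp
    obtain ⟨G0, hG0⟩ := Pool.Agent.W636.PG.exists_duals k F (d + (r + 1)) _ hyF
    let G : Fin d → Derivation k F F := fun i => G0 (Fin.castAdd (r + 1) i)
    let D2 : Fin (r + 1) → Derivation k F F := fun i => (D i).restrictScalars k
    let tF : Fin d → F := algebraMap K F ∘ (algebraMap L K ∘ t)
    have hG : ∀ i j, G i (tF j) = if i = j then 1 else 0 := by
      intro i j
      have h1 := hG0 (Fin.castAdd (r + 1) i) (Fin.castAdd (r + 1) j)
      rw [Function.comp_apply, Fin.append_left] at h1
      refine h1.trans ?_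
      by_cases hij : i = j
      · rw [if_pos hij, if_pos (by rw [hij])]
      · rw [if_neg hij, if_neg fun h => hij (Fin.castAdd_injective d (r + 1) h)]
    have hD2 : ∀ i j, D2 i (tF j) = 0 := by
      intro i j
      change D i (algebraMap K F (algebraMap L K (t j))) = 0
      rw [← IsScalarTower.algebraMap_apply L K F, IsScalarTower.algebraMap_apply L Λ F,
        Derivation.map_algebraMap]
    have happ : ∀ y : Fin (r + 1) → K, (fun b => algebraMap K F
        (Fin.append (algebraMap L K ∘ t) y b)) = Fin.append tF (algebraMap K F ∘ y) := by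
      intro y
      funext b
      refine Fin.addCases (fun c => ?_) (fun j => ?_) b
      · rw [Fin.append_left, Fin.append_left]
        rfl
      · rw [Fin.append_right, Fin.append_right]
        rfl
    have hdet : ∀ y : Fin (r + 1) → K, (Matrix.of fun a b =>
        (Fin.append G D2 : Fin (d + (r + 1)) → Derivation k F F) a
          (algebraMap K F (Fin.append (algebraMap L K ∘ t) y b))).det =
        (Matrix.of fun i j => D i (algebraMap K F (y j))).det := by
      intro y
      have h1 := det_append (algebraMap K F ∘ y) hG hD2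
      rw [← happ y] at h1
      exact h1
    have hform := Pool.Agent.W73.PG.PULL.form_eq _ _ hy hbas E Ev hE hEv ω hω.1
      (Fin.append G D2)
    rw [hdet, hdet] at hform
    rw [show (fun D : Fin (r + 1) → Derivation Λ F F => (Matrix.of fun a b =>
      D a (algebraMap K F (x b))).det ^ m * algebraMap K F (ω E)) D =
      (Matrix.of fun a b => D a (algebraMap K F (x b))).det ^ m * algebraMap K F (ω E) from rfl,
      hform]
    have hwr : ∀ f : K, v.Reg f → w.Reg (algebraMap K F f) := by
      intro f hf
      rcases hf with hf | hf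
      · left
        rw [hf, map_zero]
      · right
        rw [hwv.2]
        exact mul_nonneg he0.le hf
    have h1 : Ge (resPl k w) (e - 1) (Matrix.of fun a c => D2 a (algebraMap K F (z c))).det := by
      have hD3 : ∀ a, Pres (resPl k w) (D2 a) := fun a f hf => hD a f hf
      refine det_ge D2 hD3 (fun c => algebraMap K F (z c)) 0 ?_ ht0'
        (fun c => hwr _ (hzr c))
      rw [resPl_ord, hwv.2, hs, mul_one]
    rcases hω.2 (resPl k v) hdiv Ev (fun l f hf => hP l f hf) with h2 | ⟨s, hs', hs0, hle⟩
    · left
      rw [h2, map_zero, mul_zero]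
    by_cases hX0 : (Matrix.of fun a c => D a (algebraMap K F (z c))).det = 0
    · by_cases hm : m = 0
      · subst hm
        by_cases hF0 : ω Ev = 0
        · left; rw [hF0, map_zero, mul_zero]
        right
        refine ⟨algebraMap K F s, Finset.mem_image_of_mem _ hs', by simpa using hs0, ?_⟩
        rw [pow_zero, one_mul, hwv.2, hwv.2]
        push_cast
        rw [resPl_ord, resPl_ord] at hle
        have h5 : (e : ℝ) * (j * v.ord s - (0 : ℕ) * δ (resPl k v)) ≤ e * v.ord (ω Ev) :=
          mul_le_mul_of_nonneg_left hle (Nat.cast_nonneg e)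
        simp only [Nat.cast_zero, zero_mul, sub_zero] at h5 ⊢
        calc (j : ℝ) * (e * v.ord s) = e * (j * v.ord s) := by ring
          _ ≤ _ := h5
      · left; rw [hX0, zero_pow hm, zero_mul]
    by_cases hF0 : ω Ev = 0
    · left; rw [hF0, map_zero, mul_zero]
    right
    refine ⟨algebraMap K F s, Finset.mem_image_of_mem _ hs', by simpa using hs0, ?_⟩
    have hord : (e : ℤ) - 1 ≤ w.ord (Matrix.of fun a c => D a (algebraMap K F (z c))).det :=
      h1.resolve_left hX0
    have hord' : (e : ℝ) - 1 ≤
        (w.ord (Matrix.of fun a c => D a (algebraMap K F (z c))).det : ℝ) := by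
      exact_mod_cast hord
    rw [w.ord_mul (pow_ne_zero _ hX0) (by simpa using hF0), w.ord_pow, hwv.2, hwv.2]
    have hdel := hδ (resPl k v) w e hwv
    have hdel2 : 1 - e * (1 - δ (resPl k v)) ≤ δ' w := by
      rw [hdel]
      exact le_max_right _ _
    rw [resPl_ord, resPl_ord] at hle
    have h5 : (e : ℝ) * (j * v.ord s - m * δ (resPl k v)) ≤ e * v.ord (ω Ev) :=
      mul_le_mul_of_nonneg_left hle (Nat.cast_nonneg e)
    have h6 : (m : ℝ) * ((e : ℝ) - 1) ≤
        m * (w.ord (Matrix.of fun a c => D a (algebraMap K F (z c))).det : ℝ) :=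
      mul_le_mul_of_nonneg_left hord' (Nat.cast_nonneg m)
    have h7 : (m : ℝ) * (1 - e * (1 - δ (resPl k v))) ≤ m * δ' w :=
      mul_le_mul_of_nonneg_left hdel2 (Nat.cast_nonneg m)
    push_cast
    nlinarith

end

end Pool.Agent.Y174
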